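import Pool.Agent.N940.OT.Basic

/-!
# Project OT: approximation by finitely many modes (helper195)
-/

set_option autoImplicit false

open MeasureTheory Filter Topology Finset ProbabilityTheory
open scoped ENNReal NNReal

namespace Pool.Agent.N940.OT.App

/-- the squares of the first coefficients -/
noncomputable def W (n K : ℕ) (x : Fin n → R2) : ℝ := ∑ k ∈ Bx K, Z n x k ^ 2

theorem W_nonneg (n K : ℕ) (x : Fin n → R2) : 0 ≤ W n K x := sum_nonneg fun _ _ => sq_nonneg _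

theorem continuous_W (n K : ℕ) : Continuous (W n K) := by
  unfold W
  have := fun k => continuous_Z n k
  fun_prop

theorem W_le (n K : ℕ) (x : Fin n → R2) : W n K x ≤ K ^ 2 * (4 * n) := by
  unfold W
  have h1 : ∀ k ∈ Bx K, Z n x k ^ 2 ≤ 4 * n := by
    intro k _
    have h2 := abs_Z_le n x k
    have h3 : Z n x k ^ 2 = |Z n x k| ^ 2 := (sq_abs _).symm
    rw [h3]
    calc |Z n x k| ^ 2 ≤ (2 * Real.sqrt n) ^ 2 := pow_le_pow_left₀ (abs_nonneg _) h2 2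
      _ = 4 * n := by rw [mul_pow, Real.sq_sqrt (Nat.cast_nonneg n)]; norm_num
  refine (sum_le_sum h1).trans ?_
  rw [sum_const, nsmul_eq_mul]
  have h4 : ((Bx K).card : ℝ) ≤ (K : ℝ) ^ 2 := by exact_mod_cast card_Bx_le K
  exact mul_le_mul_of_nonneg_right h4 (by positivity)

theorem young1 (F α : ℝ) (hα : 0 < α) : F ≤ (α + F ^ 2 / α) / 2 := by
  have h : 0 ≤ (F - α) ^ 2 / α := by positivity
  have h2 : (F - α) ^ 2 / α = F ^ 2 / α - 2 * F + α := by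
    field_simp
    ring
  linarith

theorem young2 (F β : ℝ) (hF : 0 ≤ F) (hβ : 0 < β) :
    Real.sqrt F * F ≤ (β * F + F ^ 2 / β) / 2 := by
  have h1 : Real.sqrt F ^ 2 = F := Real.sq_sqrt hF
  set y := Real.sqrt F
  rw [← h1]
  have h : 0 ≤ y ^ 2 * (y - β) ^ 2 / β := by positivity
  have h2 : y ^ 2 * (y - β) ^ 2 / β = (y ^ 2) ^ 2 / β - 2 * (y * y ^ 2) + β * y ^ 2 := by
    field_simp
    ring
  linarith

theorem young3 (F V α : ℝ) (hα : 0 < α) : V * F ≤ (α * V ^ 2 + F ^ 2 / α) / 2 := by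
  have h : 0 ≤ (F - α * V) ^ 2 / α := by positivity
  have h2 : (F - α * V) ^ 2 / α = F ^ 2 / α - 2 * (V * F) + α * V ^ 2 := by
    field_simp
    ring
  linarith

/-- the integral of the deterministic error -/
theorem int_rhs (hZ2 : S_Z2) (hAE : S_AE) (hMe : S_MEAS) (n K m : ℕ) (hn : 1 ≤ n) (α β : ℝ)
    (hα : 0 < α) (hβ : 0 < β) :
    ∫ x, rhs n K m x ∂Pn n ≤ ∑ k ∈ Bx m \ Bx K, 1 / lam k ^ 2 +
      n * m ^ 2 * (∫ x, T n x ^ 2 ∂Pn n) +
      n / m ^ 2 * ((α + (∫ x, T n x ^ 2 ∂Pn n) / α) / 2) +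
      n * ((β * ((α + (∫ x, T n x ^ 2 ∂Pn n) / α) / 2) + (∫ x, T n x ^ 2 ∂Pn n) / β) / 2) +
      K ^ 2 * ((α * (∫ x, (∑ k ∈ Bx K, Z n x k ^ 2) ^ 2 ∂Pn n) +
        (∫ x, T n x ^ 2 ∂Pn n) / α) / 2) + K ^ 4 / n := by
  obtain ⟨F, hFm, hF, hTF⟩ := hMe n hn
  have hae : ∀ᵐ x ∂Pn n, T n x = F x := by
    filter_upwards [hAE n] with x hx
    exact hTF x hx.1 hx.2
  have ht2 : ∫ x, T n x ^ 2 ∂Pn n = ∫ x, F x ^ 2 ∂Pn n := by
    apply integral_congr_ae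
    filter_upwards [hae] with x hx
    rw [hx]
  rw [ht2]
  set t2 := ∫ x, F x ^ 2 ∂Pn n with ht2'
  have hF2 : Integrable (fun x => F x ^ 2) (Pn n) := by
    apply Integrable.of_bound (hFm.pow_const 2).aestronglyMeasurable 4
    filter_upwards with x
    rw [Real.norm_eq_abs, abs_of_nonneg (sq_nonneg _)]
    nlinarith [(hF x).1, (hF x).2]
  have hW2 : Integrable (fun x => W n K x ^ 2) (Pn n) := by
    apply Integrable.of_bound ((continuous_W n K).pow 2).aestronglyMeasurable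
      ((K ^ 2 * (4 * n)) ^ 2)
    filter_upwards with x
    rw [Real.norm_eq_abs, abs_of_nonneg (sq_nonneg _)]
    exact pow_le_pow_left₀ (W_nonneg n K x) (W_le n K x) 2
  have hS : Integrable (fun x => ∑ k ∈ Bx m \ Bx K, Z n x k ^ 2 / lam k ^ 2) (Pn n) := by
    apply integrable_finsetSum
    intro k hk
    exact (hZ2 n k hn (ne_of_mem_Bx (mem_sdiff.1 hk).1)).1.div_const _
  have hSi : ∫ x, ∑ k ∈ Bx m \ Bx K, Z n x k ^ 2 / lam k ^ 2 ∂Pn n =
      ∑ k ∈ Bx m \ Bx K, 1 / lam k ^ 2 := by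
    rw [integral_finsetSum]
    · apply sum_congr rfl
      intro k hk
      rw [integral_div, (hZ2 n k hn (ne_of_mem_Bx (mem_sdiff.1 hk).1)).2]
    · intro k hk
      exact (hZ2 n k hn (ne_of_mem_Bx (mem_sdiff.1 hk).1)).1.div_const _
  set c1 : ℝ := n * m ^ 2 + n / m ^ 2 / (2 * α) + n * ((β / (2 * α) + 1 / β) / 2) +
    K ^ 2 / (2 * α) with hc1
  set c2 : ℝ := K ^ 2 * α / 2 with hc2
  set c3 : ℝ := n / m ^ 2 * (α / 2) + n * (β * α / 2) / 2 + K ^ 4 / n with hc3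
  have hint : Integrable (fun x => (∑ k ∈ Bx m \ Bx K, Z n x k ^ 2 / lam k ^ 2) +
      c1 * F x ^ 2 + c2 * W n K x ^ 2 + c3) (Pn n) :=
    ((hS.add (hF2.const_mul c1)).add (hW2.const_mul c2)).add (integrable_const c3)
  have hle : ∫ x, rhs n K m x ∂Pn n ≤ ∫ x, ((∑ k ∈ Bx m \ Bx K, Z n x k ^ 2 / lam k ^ 2) +
      c1 * F x ^ 2 + c2 * W n K x ^ 2 + c3) ∂Pn n := by
    apply integral_mono_of_nonneg _ hint
    · filter_upwards [hae] with x hx
      unfold rhs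
      rw [hx]
      have hFx := (hF x).1
      have h1 : 0 ≤ Real.sqrt (F x) := Real.sqrt_nonneg _
      have h2 := W_nonneg n K x
      have h3 : (∑ k ∈ Bx K, Z n x k ^ 2) = W n K x := rfl
      rw [h3]
      have h4 : 0 ≤ lam := fun k => lam_nonneg k
      have y1 := young1 (F x) α hα
      have y2 := young2 (F x) β hFx hβ
      have y3 := young3 (F x) (W n K x) α hα
      have z1 : (n : ℝ) * F x / m ^ 2 ≤ n / m ^ 2 * ((α + F x ^ 2 / α) / 2) := by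
        have e : (n : ℝ) * F x / m ^ 2 = n / m ^ 2 * F x := by ring
        rw [e]
        exact mul_le_mul_of_nonneg_left y1 (by positivity)
      have z2 : (n : ℝ) * Real.sqrt (F x) * F x ≤
          n * ((β * ((α + F x ^ 2 / α) / 2) + F x ^ 2 / β) / 2) := by
        rw [mul_assoc]
        apply mul_le_mul_of_nonneg_left _ (Nat.cast_nonneg n)
        have e := mul_le_mul_of_nonneg_left y1 hβ.le
        linarith
      have z3 : (K : ℝ) ^ 2 * W n K x * F x ≤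
          K ^ 2 * ((α * W n K x ^ 2 + F x ^ 2 / α) / 2) := by
        rw [mul_assoc]
        exact mul_le_mul_of_nonneg_left y3 (by positivity)
      have e1 : c1 * F x ^ 2 + c2 * W n K x ^ 2 + c3 = n * m ^ 2 * F x ^ 2 +
          n / m ^ 2 * ((α + F x ^ 2 / α) / 2) +
          n * ((β * ((α + F x ^ 2 / α) / 2) + F x ^ 2 / β) / 2) +
          K ^ 2 * ((α * W n K x ^ 2 + F x ^ 2 / α) / 2) + K ^ 4 / n := by
        rw [hc1, hc2, hc3]
        have hα' := hα.ne'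
        have hβ' := hβ.ne'
        field_simp
        ring
      linarith
    · filter_upwards with x
      have h0 := T_nonneg n x
      have h1 : 0 ≤ Real.sqrt (T n x) := Real.sqrt_nonneg _
      have h2 := W_nonneg n K x
      have h3 : (∑ k ∈ Bx K, Z n x k ^ 2) = W n K x := rfl
      have h4 : 0 ≤ ∑ k ∈ Bx m \ Bx K, Z n x k ^ 2 / lam k ^ 2 :=
        sum_nonneg fun k _ => by positivity
      unfold rhs
      rw [h3]
      simp only [Pi.zero_apply]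
      positivity
  refine hle.trans (le_of_eq ?_)
  have i1 : Integrable (fun x => (∑ k ∈ Bx m \ Bx K, Z n x k ^ 2 / lam k ^ 2) +
      c1 * F x ^ 2) (Pn n) := hS.add (hF2.const_mul c1)
  have i2 : Integrable (fun x => (∑ k ∈ Bx m \ Bx K, Z n x k ^ 2 / lam k ^ 2) +
      c1 * F x ^ 2 + c2 * W n K x ^ 2) (Pn n) := i1.add (hW2.const_mul c2)
  rw [integral_add i2 (integrable_const c3), integral_add i1 (hW2.const_mul c2),
    integral_add hS (hF2.const_mul c1), integral_const_mul, integral_const_mul, hSi,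
    integral_const, probReal_univ, one_smul]
  have hWe : ∫ x, W n K x ^ 2 ∂Pn n = ∫ x, (∑ k ∈ Bx K, Z n x k ^ 2) ^ 2 ∂Pn n := rfl
  rw [hWe, ← ht2', hc1, hc2, hc3]
  have hα' := hα.ne'
  have hβ' := hβ.ne'
  generalize ∫ x, (∑ k ∈ Bx K, Z n x k ^ 2) ^ 2 ∂Pn n = w2
  generalize ∑ k ∈ Bx m \ Bx K, 1 / lam k ^ 2 = A
  generalize (n : ℝ) / (m : ℝ) ^ 2 = q
  generalize (K : ℝ) ^ 4 / (n : ℝ) = q'
  field_simp
  ring

/-- the tails of a summable series of frequencies -/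
theorem tail (hs : Summable (fun k : Fq => if k = (0,0) then (0 : ℝ) else 1 / lam k ^ 2)) (ε : ℝ)
    (hε : 0 < ε) : ∃ K₀ : ℕ, ∀ K m : ℕ, K₀ ≤ K → ∑ k ∈ Bx m \ Bx K, 1 / lam k ^ 2 ≤ ε := by
  obtain ⟨s, hs'⟩ := summable_iff_vanishing_norm.1 hs ε hε
  refine ⟨(s.sup fun k => max k.1 k.2) + 1, fun K m hK => ?_⟩
  have hdis : Disjoint (Bx m \ Bx K) s := by
    rw [disjoint_left]
    intro k hk hks
    have hk' := Finset.mem_sdiff.1 hk
    apply hk'.2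
    have h1 : max k.1 k.2 ≤ s.sup fun k => max k.1 k.2 :=
      le_sup (f := fun k : Fq => max k.1 k.2) hks
    rw [mem_Bx]
    exact ⟨ne_of_mem_Bx hk'.1, by omega, by omega⟩
  have h1 := hs' _ hdis
  have h2 : ∑ k ∈ Bx m \ Bx K, (if k = (0,0) then (0 : ℝ) else 1 / lam k ^ 2) =
      ∑ k ∈ Bx m \ Bx K, 1 / lam k ^ 2 := by
    apply sum_congr rfl
    intro k hk
    rw [if_neg (ne_of_mem_Bx (mem_sdiff.1 hk).1)]
  rw [h2] at h1
  exact (le_abs_self _).trans h1.le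

/-- the choice of the parameters -/
theorem bound (n m K : ℕ) (u t2 w2 C2 CK : ℝ) (hu : 0 < u) (hu1 : u ≤ 1) (hnu : (n : ℝ) * u ^ 16 = 1)
    (ht2 : t2 ≤ C2 * u ^ 28) (hC2 : 0 ≤ C2) (hw0 : 0 ≤ w2) (hw : w2 ≤ CK)
    (hm1 : 1 ≤ m * u ^ 2) (hm2 : m * u ^ 2 ≤ 2) :
    n * m ^ 2 * t2 + n / m ^ 2 * ((u ^ 14 + t2 / u ^ 14) / 2) +
      n * ((u ^ 7 * ((u ^ 14 + t2 / u ^ 14) / 2) + t2 / u ^ 7) / 2) +
      K ^ 2 * ((u ^ 14 * w2 + t2 / u ^ 14) / 2) + K ^ 4 / n ≤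
    (4 * C2 + (1 + C2) / 2 + ((1 + C2) / 2 + C2) / 2 + K ^ 2 * ((CK + C2) / 2) + K ^ 4) * u := by
  have hn0 : (0 : ℝ) < n := by
    by_contra h
    have h1 : (n : ℝ) ≤ 0 := not_lt.1 h
    have h2 : (n : ℝ) * u ^ 16 ≤ 0 := mul_nonpos_of_nonpos_of_nonneg h1 (by positivity)
    linarith
  have hm0 : (0 : ℝ) < m := by
    by_contra h
    have h1 : (m : ℝ) ≤ 0 := not_lt.1 h
    have h2 : (m : ℝ) * u ^ 2 ≤ 0 := mul_nonpos_of_nonpos_of_nonneg h1 (by positivity)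
    linarith
  have hp : ∀ j : ℕ, 1 ≤ j → u ^ j ≤ u := by
    intro j hj
    calc u ^ j ≤ u ^ 1 := pow_le_pow_of_le_one hu.le hu1 hj
      _ = u := pow_one u
  have hCK : 0 ≤ CK := hw0.trans hw
  have a1 : t2 / u ^ 14 ≤ C2 * u ^ 14 := by
    rw [div_le_iff₀ (by positivity)]
    calc t2 ≤ C2 * u ^ 28 := ht2
      _ = C2 * u ^ 14 * u ^ 14 := by ring
  have a2 : t2 / u ^ 7 ≤ C2 * u ^ 21 := by
    rw [div_le_iff₀ (by positivity)]
    calc t2 ≤ C2 * u ^ 28 := ht2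
      _ = C2 * u ^ 21 * u ^ 7 := by ring
  have a3 : (u ^ 14 + t2 / u ^ 14) / 2 ≤ (1 + C2) / 2 * u ^ 14 := by linarith
  have b1 : n * m ^ 2 * t2 ≤ 4 * C2 * u := by
    calc n * m ^ 2 * t2 ≤ n * m ^ 2 * (C2 * u ^ 28) :=
          mul_le_mul_of_nonneg_left ht2 (by positivity)
      _ = (n * u ^ 16) * (m * u ^ 2) ^ 2 * (C2 * u ^ 8) := by ring
      _ = (m * u ^ 2) ^ 2 * (C2 * u ^ 8) := by rw [hnu, one_mul]
      _ ≤ 2 ^ 2 * (C2 * u) := by
          apply mul_le_mul (pow_le_pow_left₀ (by positivity) hm2 2)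
            (mul_le_mul_of_nonneg_left (hp 8 (by norm_num)) hC2) (by positivity) (by norm_num)
      _ = 4 * C2 * u := by ring
  have b2 : n / m ^ 2 * ((u ^ 14 + t2 / u ^ 14) / 2) ≤ (1 + C2) / 2 * u := by
    have h1 : (n : ℝ) / m ^ 2 * u ^ 14 ≤ u := by
      have h2 : (n : ℝ) / m ^ 2 * u ^ 14 = (n * u ^ 16) * u ^ 2 / (m * u ^ 2) ^ 2 := by
        field_simp
      rw [h2, hnu, one_mul]
      have h3 : 1 ≤ (m * u ^ 2) ^ 2 := one_le_pow₀ hm1
      calc u ^ 2 / (m * u ^ 2) ^ 2 ≤ u ^ 2 / 1 :=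
            div_le_div_of_nonneg_left (by positivity) one_pos h3
        _ = u ^ 2 := by ring
        _ ≤ u := hp 2 (by norm_num)
    calc n / m ^ 2 * ((u ^ 14 + t2 / u ^ 14) / 2) ≤ n / m ^ 2 * ((1 + C2) / 2 * u ^ 14) :=
          mul_le_mul_of_nonneg_left a3 (by positivity)
      _ = (1 + C2) / 2 * (n / m ^ 2 * u ^ 14) := by ring
      _ ≤ (1 + C2) / 2 * u := mul_le_mul_of_nonneg_left h1 (by positivity)
  have b3 : n * ((u ^ 7 * ((u ^ 14 + t2 / u ^ 14) / 2) + t2 / u ^ 7) / 2) ≤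
      ((1 + C2) / 2 + C2) / 2 * u := by
    have h1 : u ^ 7 * ((u ^ 14 + t2 / u ^ 14) / 2) ≤ (1 + C2) / 2 * u ^ 21 := by
      calc u ^ 7 * ((u ^ 14 + t2 / u ^ 14) / 2) ≤ u ^ 7 * ((1 + C2) / 2 * u ^ 14) :=
            mul_le_mul_of_nonneg_left a3 (by positivity)
        _ = (1 + C2) / 2 * u ^ 21 := by ring
    have h2 : (n : ℝ) * u ^ 21 ≤ u := by
      have h3 : (n : ℝ) * u ^ 21 = (n * u ^ 16) * u ^ 5 := by ring
      rw [h3, hnu, one_mul]
      exact hp 5 (by norm_num)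
    calc n * ((u ^ 7 * ((u ^ 14 + t2 / u ^ 14) / 2) + t2 / u ^ 7) / 2)
        ≤ n * (((1 + C2) / 2 * u ^ 21 + C2 * u ^ 21) / 2) := by
          apply mul_le_mul_of_nonneg_left _ hn0.le
          linarith
      _ = ((1 + C2) / 2 + C2) / 2 * (n * u ^ 21) := by ring
      _ ≤ ((1 + C2) / 2 + C2) / 2 * u := mul_le_mul_of_nonneg_left h2 (by positivity)
  have b4 : K ^ 2 * ((u ^ 14 * w2 + t2 / u ^ 14) / 2) ≤ K ^ 2 * ((CK + C2) / 2) * u := by
    have h1 : u ^ 14 * w2 ≤ CK * u := by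
      calc u ^ 14 * w2 ≤ u * CK := mul_le_mul (hp 14 (by norm_num)) hw hw0 hu.le
        _ = CK * u := by ring
    have h2 : t2 / u ^ 14 ≤ C2 * u :=
      a1.trans (mul_le_mul_of_nonneg_left (hp 14 (by norm_num)) hC2)
    rw [mul_assoc]
    apply mul_le_mul_of_nonneg_left _ (by positivity)
    linarith
  have b5 : (K : ℝ) ^ 4 / n ≤ K ^ 4 * u := by
    have h1 : (1 : ℝ) / n = u ^ 16 := by
      field_simp
      linarith
    have h2 : (K : ℝ) ^ 4 / n = K ^ 4 * (1 / n) := by ring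
    rw [h2, h1]
    exact mul_le_mul_of_nonneg_left (hp 16 (by norm_num)) (by positivity)
  linarith

theorem main (hV : S_VAR) (hZ2 : S_Z2) (hZ4 : S_Z4) (hT : S_T2) (hAE : S_AE) (hMe : S_MEAS)
    (hs : Summable (fun k : Fq => if k = (0,0) then (0 : ℝ) else 1 / lam k ^ 2)) : S_APP := by
  intro ε hε
  obtain ⟨C, hC, hV⟩ := hV
  obtain ⟨C2, hC2⟩ := hT
  have hC20 : 0 ≤ C2 := by
    have h1 := hC2 1 le_rfl
    have h2 : 0 ≤ ∫ x, T 1 x ^ 2 ∂Pn 1 := integral_nonneg fun x => sq_nonneg _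
    rw [Nat.cast_one, Real.one_rpow, mul_one] at h1
    linarith
  obtain ⟨K₀, hK₀⟩ := tail hs (ε / (2 * C)) (by positivity)
  refine ⟨max K₀ 1, fun K hK => ?_⟩
  have hK0 : K₀ ≤ K := (le_max_left _ _).trans hK
  have hK1 : 1 ≤ K := (le_max_right _ _).trans hK
  obtain ⟨CK, hCK⟩ := hZ4 K
  set L : ℝ := 4 * C2 + (1 + C2) / 2 + ((1 + C2) / 2 + C2) / 2 + K ^ 2 * ((CK + C2) / 2) + K ^ 4
    with hL
  have hCK0 : 0 ≤ CK := by
    have h1 := hCK 1 le_rfl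
    have h2 : 0 ≤ ∫ x, (∑ k ∈ Bx K, Z 1 x k ^ 2) ^ 2 ∂Pn 1 := integral_nonneg fun x => sq_nonneg _
    linarith
  have hL0 : 0 < L := by
    rw [hL]
    have : (1 : ℝ) ≤ K := by exact_mod_cast hK1
    positivity
  have hlim : Tendsto (fun n : ℕ => (n : ℝ) ^ (-(1 / 16) : ℝ)) atTop (𝓝 0) :=
    (tendsto_rpow_neg_atTop (by norm_num : (0 : ℝ) < 1 / 16)).comp tendsto_natCast_atTop_atTop
  have hev1 : ∀ᶠ n : ℕ in atTop, (n : ℝ) ^ (-(1 / 16) : ℝ) < ε / (2 * C * L) :=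
    hlim.eventually_lt_const (by positivity)
  have hev2 : ∀ᶠ n : ℕ in atTop, (n : ℝ) ^ (-(1 / 16) : ℝ) < 1 / (K + 1) :=
    hlim.eventually_lt_const (by positivity)
  filter_upwards [hev1, hev2, eventually_ge_atTop 1] with n h1 h2 hn
  have hn0 : (0 : ℝ) < n := by exact_mod_cast hn
  have hn1 : (1 : ℝ) ≤ n := by exact_mod_cast hn
  set u : ℝ := (n : ℝ) ^ (-(1 / 16) : ℝ) with hu
  have hu0 : 0 < u := Real.rpow_pos_of_pos hn0 _
  have hu1 : u ≤ 1 := Real.rpow_le_one_of_one_le_of_nonpos hn1 (by norm_num)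
  have hup : ∀ j : ℕ, u ^ j = (n : ℝ) ^ (-(j / 16) : ℝ) := by
    intro j
    rw [hu, ← Real.rpow_natCast, ← Real.rpow_mul hn0.le]
    congr 1
    ring
  have hnu : (n : ℝ) * u ^ 16 = 1 := by
    rw [hup 16]
    have h3 : (-((16 : ℕ) / 16 : ℝ)) = (-1 : ℝ) := by norm_num
    rw [h3, Real.rpow_neg_one, mul_inv_cancel₀ hn0.ne']
  have hu28 : u ^ 28 = (n : ℝ) ^ (-(7 / 4) : ℝ) := by
    rw [hup 28]
    congr 1
    norm_num
  set m : ℕ := ⌈(u ^ 2)⁻¹⌉₊ with hm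
  have hm1 : 1 ≤ (m : ℝ) * u ^ 2 := by
    have h3 : (u ^ 2)⁻¹ ≤ m := Nat.le_ceil _
    calc (1 : ℝ) = (u ^ 2)⁻¹ * u ^ 2 := (inv_mul_cancel₀ (by positivity)).symm
      _ ≤ m * u ^ 2 := mul_le_mul_of_nonneg_right h3 (by positivity)
  have hm2 : (m : ℝ) * u ^ 2 ≤ 2 := by
    have h3 : (m : ℝ) < (u ^ 2)⁻¹ + 1 := Nat.ceil_lt_add_one (by positivity)
    calc (m : ℝ) * u ^ 2 ≤ ((u ^ 2)⁻¹ + 1) * u ^ 2 :=
          mul_le_mul_of_nonneg_right h3.le (by positivity)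
      _ = 1 + u ^ 2 := by
          rw [add_mul, inv_mul_cancel₀ (by positivity), one_mul]
      _ ≤ 2 := by nlinarith
  have hKm : K ≤ m := by
    have h3 : (K : ℝ) + 1 ≤ (u ^ 2)⁻¹ := by
      rw [le_inv_comm₀ (by positivity) (by positivity)]
      have h4 : u ^ 2 ≤ u := by nlinarith
      rw [one_div] at h2
      linarith
    have h4 : (u ^ 2)⁻¹ ≤ m := Nat.le_ceil _
    have h5 : (K : ℝ) ≤ m := by linarith
    exact_mod_cast h5
  refine (hV n K m hn hK1 hKm).trans ?_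
  have hI := int_rhs hZ2 hAE hMe n K m hn (u ^ 14) (u ^ 7) (by positivity) (by positivity)
  have hw0 : 0 ≤ ∫ x, (∑ k ∈ Bx K, Z n x k ^ 2) ^ 2 ∂Pn n := integral_nonneg fun x => sq_nonneg _
  have ht2 : ∫ x, T n x ^ 2 ∂Pn n ≤ C2 * u ^ 28 := by
    rw [hu28]
    exact hC2 n hn
  have hB := bound n m K u _ _ C2 CK hu0 hu1 hnu ht2 hC20 hw0 (hCK n hn) hm1 hm2
  have hA := hK₀ K m hK0
  rw [← hL] at hB
  have hfin : ∫ x, rhs n K m x ∂Pn n ≤ ε / (2 * C) + L * u := by linarith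
  have hLu : L * u ≤ ε / (2 * C) := by
    calc L * u ≤ L * (ε / (2 * C * L)) := mul_le_mul_of_nonneg_left h1.le hL0.le
      _ = ε / (2 * C) := by field_simp
  calc C * ∫ x, rhs n K m x ∂Pn n ≤ C * (ε / (2 * C) + ε / (2 * C)) :=
        mul_le_mul_of_nonneg_left (by linarith) hC.le
    _ = ε := by field_simp; ring

end Pool.Agent.N940.OT.App
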