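import Pool.Agent.N940.OT.Stm

/-!
# Basic facts of the project OT
-/

set_option autoImplicit false

open MeasureTheory Filter Topology Finset ProbabilityTheory
open scoped ENNReal NNReal

namespace Pool.Agent.N940.OT

theorem measurableSet_Om : MeasurableSet Om := measurableSet_Icc.prod measurableSet_Icc

theorem isCompact_Om : IsCompact Om := isCompact_Icc.prod isCompact_Icc

theorem convex_Om : Convex ℝ Om := (convex_Icc 0 1).prod (convex_Icc 0 1)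

theorem volume_Om : volume Om = 1 := by
  unfold Om
  rw [Measure.volume_eq_prod, Measure.prod_prod, Real.volume_Icc]
  simp

instance : IsProbabilityMeasure P := ⟨by
  unfold P
  rw [Measure.restrict_apply_univ, volume_Om]⟩

instance (n : ℕ) : IsProbabilityMeasure (Pn n) := by
  unfold Pn
  infer_instance

theorem ae_Om : ∀ᵐ z ∂P, z ∈ Om := by
  unfold P
  exact ae_restrict_mem measurableSet_Om

theorem P_eq_prod : P = (volume.restrict (Set.Icc (0 : ℝ) 1)).prod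
    (volume.restrict (Set.Icc (0 : ℝ) 1)) := by
  unfold P Om
  rw [Measure.volume_eq_prod, Measure.prod_restrict]

theorem sq_nonneg' (z w : R2) : 0 ≤ sq z w := by
  unfold sq
  positivity

theorem sq_comm' (z w : R2) : sq z w = sq w z := by
  unfold sq
  ring

theorem sq_self' (z : R2) : sq z z = 0 := by
  unfold sq
  ring

theorem continuous_sq : Continuous fun p : R2 × R2 => sq p.1 p.2 := by
  unfold sq
  fun_prop

theorem sq_le_two {z w : R2} (hz : z ∈ Om) (hw : w ∈ Om) : sq z w ≤ 2 := by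
  unfold Om at hz hw
  rw [Set.mem_prod, Set.mem_Icc, Set.mem_Icc] at hz hw
  obtain ⟨⟨h1, h2⟩, h3, h4⟩ := hz
  obtain ⟨⟨g1, g2⟩, g3, g4⟩ := hw
  unfold sq
  nlinarith [mul_nonneg (sub_nonneg.2 h2) (sub_nonneg.2 g2),
    mul_nonneg (sub_nonneg.2 h4) (sub_nonneg.2 g4), mul_nonneg h1 g1, mul_nonneg h3 g3,
    mul_nonneg h1 (sub_nonneg.2 h2), mul_nonneg g1 (sub_nonneg.2 g2),
    mul_nonneg h3 (sub_nonneg.2 h4), mul_nonneg g3 (sub_nonneg.2 g4)]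

theorem T_nonneg (n : ℕ) (x : Fin n → R2) : 0 ≤ T n x := by
  unfold T cost
  apply Real.sInf_nonneg
  rintro _ ⟨π, -, -, rfl⟩
  exact integral_nonneg fun p => sq_nonneg' _ _

theorem cn_pos (k : ℕ) : 0 < cn k := by
  unfold cn
  split_ifs
  · exact one_pos
  · positivity

theorem cn_sq_le (k : ℕ) : cn k ^ 2 ≤ 2 := by
  unfold cn
  split_ifs
  · norm_num
  · rw [Real.sq_sqrt (by norm_num)]

theorem cn_zero : cn 0 = 1 := by simp [cn]

theorem cn_sq {k : ℕ} (hk : k ≠ 0) : cn k ^ 2 = 2 := by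
  unfold cn
  rw [if_neg hk, Real.sq_sqrt (by norm_num)]

theorem e1_sq_le (k : ℕ) (s : ℝ) : e1 k s ^ 2 ≤ 2 := by
  unfold e1
  rw [mul_pow]
  nlinarith [cn_sq_le k, Real.cos_sq_le_one (Real.pi * k * s), sq_nonneg (Real.cos (Real.pi * k * s)),
    sq_nonneg (cn k)]

theorem d1_sq_le (k : ℕ) (s : ℝ) : d1 k s ^ 2 ≤ 2 * (Real.pi ^ 2 * (k : ℝ) ^ 2) := by
  unfold d1
  have h : (-(cn k * (Real.pi * k) * Real.sin (Real.pi * k * s))) ^ 2 =
      cn k ^ 2 * Real.sin (Real.pi * k * s) ^ 2 * (Real.pi ^ 2 * (k : ℝ) ^ 2) := by ring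
  rw [h]
  apply mul_le_mul_of_nonneg_right _ (by positivity)
  nlinarith [cn_sq_le k, Real.sin_sq_le_one (Real.pi * k * s),
    sq_nonneg (Real.sin (Real.pi * k * s)), sq_nonneg (cn k)]

theorem ee_sq_le (k : Fq) (z : R2) : ee k z ^ 2 ≤ 4 := by
  unfold ee
  rw [mul_pow]
  nlinarith [e1_sq_le k.1 z.1, e1_sq_le k.2 z.2, sq_nonneg (e1 k.1 z.1), sq_nonneg (e1 k.2 z.2)]

theorem abs_ee_le (k : Fq) (z : R2) : |ee k z| ≤ 2 := by
  apply abs_le_of_sq_le_sq _ (by norm_num)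
  nlinarith [ee_sq_le k z]

theorem continuous_e1 (k : ℕ) : Continuous (e1 k) := by
  unfold e1
  fun_prop

theorem continuous_d1 (k : ℕ) : Continuous (d1 k) := by
  unfold d1
  fun_prop

theorem continuous_ee (k : Fq) : Continuous (ee k) := by
  unfold ee
  exact ((continuous_e1 _).comp continuous_fst).mul ((continuous_e1 _).comp continuous_snd)

theorem hasDerivAt_e1 (k : ℕ) (s : ℝ) : HasDerivAt (e1 k) (d1 k s) s := by
  unfold e1 d1
  have h1 : HasDerivAt (fun s : ℝ => Real.pi * k * s) (Real.pi * k) s := by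
    simpa using (hasDerivAt_id s).const_mul (Real.pi * k)
  exact ((h1.cos).const_mul (cn k)).congr_deriv (by ring)

theorem hasDerivAt_d1 (k : ℕ) (s : ℝ) : HasDerivAt (d1 k) (-((Real.pi * k) ^ 2 * e1 k s)) s := by
  unfold e1 d1
  have h1 : HasDerivAt (fun s : ℝ => Real.pi * k * s) (Real.pi * k) s := by
    simpa using (hasDerivAt_id s).const_mul (Real.pi * k)
  exact (((h1.sin).const_mul (cn k * (Real.pi * k))).neg).congr_deriv (by ring)

theorem d1_zero' (k : ℕ) : d1 k 0 = 0 := by simp [d1]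

theorem d1_one' (k : ℕ) : d1 k 1 = 0 := by
  unfold d1
  rw [mul_one, mul_comm Real.pi, Real.sin_nat_mul_pi]
  ring

theorem lam_nonneg (k : Fq) : 0 ≤ lam k := by
  unfold lam
  positivity

theorem lam_ge {k : Fq} (hk : k ≠ (0, 0)) : 9 ≤ lam k := by
  unfold lam
  have h3 : (3 : ℝ) ≤ Real.pi := Real.pi_gt_three.le
  have h9 : (9 : ℝ) ≤ Real.pi ^ 2 := by nlinarith
  have h1 : (1 : ℝ) ≤ (k.1 : ℝ) ^ 2 + (k.2 : ℝ) ^ 2 := by
    by_cases h : k.1 = 0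
    · have h2 : k.2 ≠ 0 := fun h2 => hk (Prod.ext h h2)
      have h2' : (1 : ℝ) ≤ k.2 := by exact_mod_cast Nat.one_le_iff_ne_zero.2 h2
      nlinarith [sq_nonneg (k.1 : ℝ)]
    · have h2' : (1 : ℝ) ≤ k.1 := by exact_mod_cast Nat.one_le_iff_ne_zero.2 h
      nlinarith [sq_nonneg (k.2 : ℝ)]
  nlinarith

theorem lam_pos {k : Fq} (hk : k ≠ (0, 0)) : 0 < lam k := by linarith [lam_ge hk]

/-- bound for the gradient of an eigenfunction -/
theorem gr_sq_le (k : Fq) (z v : R2) : gr k z v ^ 2 ≤ 4 * lam k * (v.1 ^ 2 + v.2 ^ 2) := by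
  unfold gr lam
  have a1 := d1_sq_le k.1 z.1
  have a2 := d1_sq_le k.2 z.2
  have b1 := e1_sq_le k.1 z.1
  have b2 := e1_sq_le k.2 z.2
  have c1 : (d1 k.1 z.1 * e1 k.2 z.2) ^ 2 ≤ 4 * (Real.pi ^ 2 * (k.1 : ℝ) ^ 2) := by
    rw [mul_pow]
    calc d1 k.1 z.1 ^ 2 * e1 k.2 z.2 ^ 2 ≤ (2 * (Real.pi ^ 2 * (k.1 : ℝ) ^ 2)) * 2 :=
          mul_le_mul a1 b2 (sq_nonneg _) (by positivity)
      _ = _ := by ring
  have c2 : (e1 k.1 z.1 * d1 k.2 z.2) ^ 2 ≤ 4 * (Real.pi ^ 2 * (k.2 : ℝ) ^ 2) := by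
    rw [mul_pow]
    calc e1 k.1 z.1 ^ 2 * d1 k.2 z.2 ^ 2 ≤ 2 * (2 * (Real.pi ^ 2 * (k.2 : ℝ) ^ 2)) :=
          mul_le_mul b1 a2 (sq_nonneg _) (by positivity)
      _ = _ := by ring
  have h : (v.1 * (d1 k.1 z.1 * e1 k.2 z.2) + v.2 * (e1 k.1 z.1 * d1 k.2 z.2)) ^ 2 ≤
      (v.1 ^ 2 + v.2 ^ 2) * ((d1 k.1 z.1 * e1 k.2 z.2) ^ 2 + (e1 k.1 z.1 * d1 k.2 z.2) ^ 2) := by
    nlinarith [sq_nonneg (v.1 * (e1 k.1 z.1 * d1 k.2 z.2) - v.2 * (d1 k.1 z.1 * e1 k.2 z.2))]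
  refine h.trans ?_
  have h2 : (v.1 ^ 2 + v.2 ^ 2) * ((d1 k.1 z.1 * e1 k.2 z.2) ^ 2 +
      (e1 k.1 z.1 * d1 k.2 z.2) ^ 2) ≤ (v.1 ^ 2 + v.2 ^ 2) *
      (4 * (Real.pi ^ 2 * (k.1 : ℝ) ^ 2) + 4 * (Real.pi ^ 2 * (k.2 : ℝ) ^ 2)) :=
    mul_le_mul_of_nonneg_left (add_le_add c1 c2) (by positivity)
  refine h2.trans (le_of_eq ?_)
  ring

theorem mem_Bx {m : ℕ} {k : Fq} : k ∈ Bx m ↔ k ≠ (0, 0) ∧ k.1 < m ∧ k.2 < m := by
  unfold Bx
  rw [mem_erase, mem_product, mem_range, mem_range]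

theorem ne_of_mem_Bx {m : ℕ} {k : Fq} (h : k ∈ Bx m) : k ≠ (0, 0) := (mem_Bx.1 h).1

theorem card_Bx_le (m : ℕ) : (Bx m).card ≤ m ^ 2 := by
  unfold Bx
  refine (card_erase_le).trans ?_
  rw [card_product, card_range, pow_two]

theorem Bx_mono {K m : ℕ} (h : K ≤ m) : Bx K ⊆ Bx m := by
  intro k hk
  rw [mem_Bx] at hk ⊢
  exact ⟨hk.1, hk.2.1.trans_le h, hk.2.2.trans_le h⟩

/-- frequencies outside the box have a large eigenvalue -/
theorem lam_ge_of_not_mem {m : ℕ} {k : Fq} (hk : k ≠ (0, 0)) (h : k ∉ Bx m) :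
    (m : ℝ) ^ 2 ≤ lam k := by
  have h1 : m ≤ k.1 ∨ m ≤ k.2 := by
    by_contra h2
    push Not at h2
    exact h (mem_Bx.2 ⟨hk, h2.1, h2.2⟩)
  unfold lam
  have h3 : (3 : ℝ) ≤ Real.pi := Real.pi_gt_three.le
  have h9 : (1 : ℝ) ≤ Real.pi ^ 2 := by nlinarith
  have h4 : (m : ℝ) ^ 2 ≤ (k.1 : ℝ) ^ 2 + (k.2 : ℝ) ^ 2 := by
    rcases h1 with h1 | h1
    · have : (m : ℝ) ≤ k.1 := by exact_mod_cast h1
      nlinarith [sq_nonneg (k.2 : ℝ), Nat.cast_nonneg (α := ℝ) m]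
    · have : (m : ℝ) ≤ k.2 := by exact_mod_cast h1
      nlinarith [sq_nonneg (k.1 : ℝ), Nat.cast_nonneg (α := ℝ) m]
  nlinarith [sq_nonneg (k.1 : ℝ), sq_nonneg (k.2 : ℝ)]

theorem continuous_Z (n : ℕ) (k : Fq) : Continuous fun x : Fin n → R2 => Z n x k := by
  unfold Z
  have := continuous_ee k
  fun_prop

theorem continuous_Q (n K : ℕ) : Continuous (Q n K) := by
  unfold Q
  have := fun k => continuous_Z n k
  fun_prop

theorem abs_Z_le (n : ℕ) (x : Fin n → R2) (k : Fq) : |Z n x k| ≤ 2 * Real.sqrt n := by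
  unfold Z
  rcases Nat.eq_zero_or_pos n with h | h
  · subst h
    simp
  have hn : 0 < Real.sqrt n := Real.sqrt_pos.2 (Nat.cast_pos.2 h)
  rw [abs_div, abs_of_pos hn, div_le_iff₀ hn, mul_assoc, Real.mul_self_sqrt (Nat.cast_nonneg n)]
  refine (abs_sum_le_sum_abs _ _).trans ?_
  refine (sum_le_sum fun i _ => abs_ee_le k (x i)).trans (le_of_eq ?_)
  rw [sum_const, card_univ, Fintype.card_fin, nsmul_eq_mul]
  ring

end Pool.Agent.N940.OT
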