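import Pool.Agent.N940.OT.Basic

/-!
# Central limit theorem for finitely many Fourier modes
-/

set_option autoImplicit false

open MeasureTheory Filter Topology Finset ProbabilityTheory
open scoped ENNReal NNReal RealInnerProductSpace

namespace Pool.Agent.N940.OT.Clt

/-- the frequencies in the box -/
abbrev Io (K : ℕ) := {k : Fq // k ∈ Bx K}

/-- the linear combination of the eigenfunctions -/
noncomputable def Y (K : ℕ) (t : EuclideanSpace ℝ (Io K)) (z : R2) : ℝ :=
  ∑ k : Io K, t k * ee k z

theorem continuous_Y (K : ℕ) (t : EuclideanSpace ℝ (Io K)) : Continuous (Y K t) := by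
  unfold Y
  have := continuous_ee
  fun_prop

/-- the vector of the normalised Fourier coefficients -/
noncomputable def V (K n : ℕ) (x : Fin n → R2) : EuclideanSpace ℝ (Io K) :=
  WithLp.toLp 2 fun k => Z n x k

theorem measurable_V (K n : ℕ) : Measurable (V K n) := by
  unfold V
  have h : Measurable fun x : Fin n → R2 => (fun k : Io K => Z n x k) :=
    measurable_pi_lambda _ fun k => (continuous_Z n k).measurable
  exact (WithLp.measurable_toLp 2 _).comp h

theorem integrable_ee (k : Fq) : Integrable (ee k) P := by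
  refine Integrable.of_bound (continuous_ee k).aestronglyMeasurable 2 (ae_of_all _ fun z => ?_)
  rw [Real.norm_eq_abs]
  exact abs_ee_le k z

theorem integrable_ee_mul (k l : Fq) : Integrable (fun z => ee k z * ee l z) P := by
  refine Integrable.of_bound ((continuous_ee k).mul (continuous_ee l)).aestronglyMeasurable 4
    (ae_of_all _ fun z => ?_)
  rw [Real.norm_eq_abs, abs_mul]
  calc |ee k z| * |ee l z| ≤ 2 * 2 :=
        mul_le_mul (abs_ee_le k z) (abs_ee_le l z) (abs_nonneg _) (by norm_num)
    _ = 4 := by norm_num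

theorem ee_zero (z : R2) : ee (0, 0) z = 1 := by
  simp [ee, e1, cn]

theorem integral_ee (hO : S_ON) {k : Fq} (hk : k ≠ (0, 0)) : ∫ z, ee k z ∂P = 0 := by
  have h := hO.2 k (0, 0) hk
  simpa [ee_zero] using h

theorem integral_Y (hO : S_ON) (K : ℕ) (t : EuclideanSpace ℝ (Io K)) :
    ∫ z, Y K t z ∂P = 0 := by
  unfold Y
  rw [integral_finsetSum _ fun (k : Io K) _ => (integrable_ee k.1).const_mul (t k)]
  apply Finset.sum_eq_zero
  intro k _
  rw [integral_const_mul, integral_ee hO (ne_of_mem_Bx k.2), mul_zero]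

theorem integral_Y_sq (hO : S_ON) (K : ℕ) (t : EuclideanSpace ℝ (Io K)) :
    ∫ z, Y K t z ^ 2 ∂P = ‖t‖ ^ 2 := by
  have h1 : ∀ z, Y K t z ^ 2 = ∑ k : Io K, ∑ l : Io K, t k * t l * (ee k z * ee l z) := by
    intro z
    unfold Y
    rw [pow_two, Finset.sum_mul_sum]
    refine Finset.sum_congr rfl fun k _ => Finset.sum_congr rfl fun l _ => ?_
    ring
  simp_rw [h1]
  rw [integral_finsetSum _ fun (k : Io K) _ => integrable_finsetSum _ fun (l : Io K) _ =>
    (integrable_ee_mul k.1 l.1).const_mul (t k * t l)]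
  rw [EuclideanSpace.real_norm_sq_eq]
  refine Finset.sum_congr rfl fun k _ => ?_
  rw [integral_finsetSum _ fun (l : Io K) _ =>
    (integrable_ee_mul k.1 l.1).const_mul (t k * t l)]
  rw [Finset.sum_eq_single k]
  · rw [integral_const_mul]
    have := hO.1 k
    simp_rw [pow_two] at this
    rw [this]
    ring
  · intro l _ hl
    rw [integral_const_mul, hO.2 k l (fun h => hl (Subtype.ext h.symm)), mul_zero]
  · intro h
    exact absurd (Finset.mem_univ _) h

/-- the characteristic function of the law of the vector -/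
theorem charFun_V (K n : ℕ) (t : EuclideanSpace ℝ (Io K)) :
    charFun ((Pn n).map (V K n)) t = (charFun (P.map (Y K t)) ((Real.sqrt n)⁻¹)) ^ n := by
  rw [charFun_apply, integral_map (measurable_V K n).aemeasurable
    (by fun_prop), charFun_apply_real,
    integral_map (continuous_Y K t).aemeasurable (by fun_prop)]
  have h1 : ∀ x : Fin n → R2, Complex.exp (((⟪V K n x, t⟫ : ℝ) : ℂ) * Complex.I) =
      ∏ i, Complex.exp ((((Real.sqrt n)⁻¹ : ℝ) : ℂ) * ((Y K t (x i) : ℝ) : ℂ) * Complex.I) := by
    intro x
    rw [← Complex.exp_sum]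
    congr 1
    rw [← Finset.sum_mul, ← Finset.mul_sum, ← Complex.ofReal_sum, ← Complex.ofReal_mul]
    congr 2
    simp only [PiLp.inner_apply, V, Y, Z]
    rw [Finset.sum_comm, Finset.mul_sum]
    refine Finset.sum_congr rfl fun k _ => ?_
    rw [← Finset.mul_sum]
    simp
    ring
  simp_rw [h1]
  unfold Pn
  rw [integral_fintype_prod_eq_pow (μ := P)
    (f := fun z => Complex.exp ((((Real.sqrt n)⁻¹ : ℝ) : ℂ) * ((Y K t z : ℝ) : ℂ) * Complex.I)),
    Fintype.card_fin]

theorem tendsto_charFun_V (hO : S_ON) (K : ℕ) (t : EuclideanSpace ℝ (Io K)) :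
    Tendsto (fun n : ℕ => charFun ((Pn n).map (V K n)) t) atTop
      (𝓝 (charFun (stdGaussian (EuclideanSpace ℝ (Io K))) t)) := by
  rw [charFun_stdGaussian]
  simp_rw [charFun_V]
  by_cases ht : ‖t‖ = 0
  · have ht0 : t = 0 := norm_eq_zero.1 ht
    subst ht0
    have h1 : Y K 0 = fun _ => 0 := by
      funext z
      simp [Y]
    have h2 : ∀ n : ℕ, charFun (P.map (Y K 0)) ((Real.sqrt n)⁻¹) = 1 := by
      intro n
      rw [h1, charFun_apply_real, integral_map measurable_const.aemeasurable (by fun_prop)]
      simp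
    simp_rw [h2]
    simp
  · set σ := ‖t‖ with hσ
    let X : R2 → ℝ := fun z => Y K t z / σ
    have hX : Continuous X := (continuous_Y K t).div_const _
    have h0 : P[X] = 0 := by
      simp only [X]
      rw [integral_div, integral_Y hO, zero_div]
    have h1 : P[X ^ 2] = 1 := by
      simp only [X, Pi.pow_apply, div_pow]
      rw [integral_div, integral_Y_sq hO, ← hσ]
      field_simp
    have h2 := tendsto_charFun_inv_sqrt_mul_pow hX.aemeasurable h0 h1 σ
    have h3 : ∀ n : ℕ, charFun (P.map X) ((Real.sqrt n)⁻¹ * σ) =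
        charFun (P.map (Y K t)) ((Real.sqrt n)⁻¹) := by
      intro n
      rw [charFun_apply_real, charFun_apply_real,
        integral_map hX.aemeasurable (by fun_prop),
        integral_map (continuous_Y K t).aemeasurable (by fun_prop)]
      refine integral_congr_ae (ae_of_all _ fun z => ?_)
      have hσ' : (σ : ℂ) ≠ 0 := by exact_mod_cast ht
      simp only [X]
      push_cast
      congr 1
      field_simp
    simp_rw [h3] at h2
    exact h2

instance (K n : ℕ) : IsProbabilityMeasure ((Pn n).map (V K n)) :=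
  Measure.isProbabilityMeasure_map (measurable_V K n).aemeasurable

/-- the law of the vector of the normalised Fourier coefficients -/
noncomputable def L (K n : ℕ) : ProbabilityMeasure (EuclideanSpace ℝ (Io K)) :=
  ⟨(Pn n).map (V K n), inferInstance⟩

/-- the standard Gaussian law -/
noncomputable def G (K : ℕ) : ProbabilityMeasure (EuclideanSpace ℝ (Io K)) :=
  ⟨stdGaussian (EuclideanSpace ℝ (Io K)), inferInstance⟩

/-- the vector of the normalised Fourier coefficients converges in law -/
theorem tendsto_law (hO : S_ON) (K : ℕ) : Tendsto (L K) atTop (𝓝 (G K)) := by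
  rw [ProbabilityMeasure.tendsto_iff_tendsto_charFun]
  exact tendsto_charFun_V hO K

/-- the limiting functional -/
noncomputable def F (K : ℕ) (t : ℝ) (v : EuclideanSpace ℝ (Io K)) : ℂ :=
  Complex.exp (Complex.I * ((t * ∑ k : Io K, (v k ^ 2 - 1) / lam k : ℝ) : ℂ))

theorem continuous_F (K : ℕ) (t : ℝ) : Continuous (F K t) := by
  unfold F
  fun_prop

theorem norm_F (K : ℕ) (t : ℝ) (v : EuclideanSpace ℝ (Io K)) : ‖F K t v‖ = 1 := by
  unfold F
  rw [mul_comm]
  exact Complex.norm_exp_ofReal_mul_I _

theorem main (hO : S_ON) : S_CLT := by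
  intro K t
  have h := tendsto_law hO K
  rw [ProbabilityMeasure.tendsto_iff_forall_integral_rclike_tendsto ℂ] at h
  have h1 := h (BoundedContinuousFunction.ofNormedAddCommGroup (F K t) (continuous_F K t) 1
    fun v => (norm_F K t v).le)
  have h2 : ∀ n : ℕ, ∫ v, F K t v ∂((Pn n).map (V K n)) =
      ∫ x, Complex.exp (Complex.I * ((t * Q n K x : ℝ) : ℂ)) ∂Pn n := by
    intro n
    rw [integral_map (measurable_V K n).aemeasurable (continuous_F K t).aestronglyMeasurable]
    refine integral_congr_ae (ae_of_all _ fun x => ?_)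
    simp only [F, V, Q]
    rw [← Finset.sum_coe_sort (Bx K)]
  have h3 : ∫ v, F K t v ∂(stdGaussian (EuclideanSpace ℝ (Io K))) =
      ∫ g, Complex.exp (Complex.I * ((t * Xi K g : ℝ) : ℂ)) ∂Ga := by
    rw [← map_pi_eq_stdGaussian, integral_map (by fun_prop)
      (continuous_F K t).aestronglyMeasurable]
    unfold Ga
    rw [← integral_restrict_infinitePi (μ := fun _ : Fq => gaussianReal 0 1) (s := Bx K)
      (f := fun x => F K t (WithLp.toLp 2 x))
      ((continuous_F K t).comp (by fun_prop)).aestronglyMeasurable]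
    refine integral_congr_ae (ae_of_all _ fun g => ?_)
    simp only [F, Xi]
    rw [← Finset.sum_coe_sort (Bx K)]
    rfl
  change Tendsto (fun n : ℕ => ∫ v, F K t v ∂((Pn n).map (V K n))) atTop
    (𝓝 (∫ v, F K t v ∂(stdGaussian (EuclideanSpace ℝ (Io K))))) at h1
  simp_rw [h2] at h1
  rw [h3] at h1
  exact h1

end Pool.Agent.N940.OT.Clt
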