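import Pool.Agent.N940.OT.Basic

/-!
# OT/CMP: completeness of the Neumann eigenfunctions
-/

set_option autoImplicit false

open MeasureTheory Filter Topology Finset

namespace Pool.Agent.N940.OT.Cmp

/-- the product of two cosines -/
theorem e1_mul (k l : ℕ) : ∃ a b : ℝ, ∀ s : ℝ, e1 k s * e1 l s =
    a * e1 (k + l) s + b * e1 ((k - l) + (l - k)) s := by
  have hc1 := (cn_pos (k + l)).ne'
  have hc2 := (cn_pos ((k - l) + (l - k))).ne'
  refine ⟨cn k * cn l / 2 / cn (k + l), cn k * cn l / 2 / cn ((k - l) + (l - k)), fun s => ?_⟩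
  have hd : Real.cos (Real.pi * (((k - l) + (l - k) : ℕ) : ℝ) * s) =
      Real.cos (Real.pi * k * s - Real.pi * l * s) := by
    rcases Nat.le_total l k with h | h
    · have e1 : k - l + (l - k) = k - l := by omega
      rw [e1, Nat.cast_sub h]
      congr 1
      ring
    · have e1 : k - l + (l - k) = l - k := by omega
      rw [e1, Nat.cast_sub h, ← Real.cos_neg]
      congr 1
      ring
  have hs : Real.cos (Real.pi * ((k + l : ℕ) : ℝ) * s) =
      Real.cos (Real.pi * k * s + Real.pi * l * s) := by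
    rw [Nat.cast_add]
    congr 1
    ring
  unfold e1
  rw [hd, hs, Real.cos_add, Real.cos_sub]
  field_simp
  ring

/-- the eigenfunctions as continuous functions on the square -/
noncomputable def E (k : Fq) : C(Om, ℝ) :=
  ⟨fun z => ee k z.1, (continuous_ee k).comp continuous_subtype_val⟩

theorem E_apply (k : Fq) (z : Om) : E k z = ee k z.1 := rfl

/-- the span of the eigenfunctions -/
noncomputable def V : Submodule ℝ C(Om, ℝ) := Submodule.span ℝ (Set.range E)

theorem E_mem (k : Fq) : E k ∈ V := Submodule.subset_span ⟨k, rfl⟩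

theorem E_mul (k l : Fq) : E k * E l ∈ V := by
  obtain ⟨a, b, h1⟩ := e1_mul k.1 l.1
  obtain ⟨c, d, h2⟩ := e1_mul k.2 l.2
  have h3 : E k * E l = (a * c) • E (k.1 + l.1, k.2 + l.2) +
      (a * d) • E (k.1 + l.1, (k.2 - l.2) + (l.2 - k.2)) +
      (b * c) • E ((k.1 - l.1) + (l.1 - k.1), k.2 + l.2) +
      (b * d) • E ((k.1 - l.1) + (l.1 - k.1), (k.2 - l.2) + (l.2 - k.2)) := by
    ext z
    simp only [ContinuousMap.mul_apply, ContinuousMap.add_apply, ContinuousMap.smul_apply,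
      E_apply, smul_eq_mul, ee]
    have h1' := h1 z.1.1
    have h2' := h2 z.1.2
    calc e1 k.1 z.1.1 * e1 k.2 z.1.2 * (e1 l.1 z.1.1 * e1 l.2 z.1.2)
        = (e1 k.1 z.1.1 * e1 l.1 z.1.1) * (e1 k.2 z.1.2 * e1 l.2 z.1.2) := by ring
      _ = _ := by
        rw [h1', h2']
        ring
  rw [h3]
  exact V.add_mem (V.add_mem (V.add_mem (V.smul_mem _ (E_mem _)) (V.smul_mem _ (E_mem _)))
    (V.smul_mem _ (E_mem _))) (V.smul_mem _ (E_mem _))

theorem V_mul (x y : C(Om, ℝ)) (hx : x ∈ V) (hy : y ∈ V) : x * y ∈ V := by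
  refine Submodule.span_induction (p := fun x _ => x * y ∈ V) ?_ ?_ ?_ ?_ hx
  · rintro _ ⟨k, rfl⟩
    refine Submodule.span_induction (p := fun y _ => E k * y ∈ V) ?_ ?_ ?_ ?_ hy
    · rintro _ ⟨l, rfl⟩
      exact E_mul k l
    · rw [mul_zero]
      exact V.zero_mem
    · intro u v _ _ hu hv
      rw [mul_add]
      exact V.add_mem hu hv
    · intro a u _ hu
      rw [mul_smul_comm]
      exact V.smul_mem _ hu
  · rw [zero_mul]
    exact V.zero_mem
  · intro u v _ _ hu hv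
    rw [add_mul]
    exact V.add_mem hu hv
  · intro a u _ hu
    rw [smul_mul_assoc]
    exact V.smul_mem _ hu

theorem V_one : (1 : C(Om, ℝ)) ∈ V := by
  have h : (1 : C(Om, ℝ)) = E (0, 0) := by
    ext z
    rw [E_apply]
    simp [ee, e1, cn_zero]
  rw [h]
  exact E_mem _

/-- the algebra -/
noncomputable def A : Subalgebra ℝ C(Om, ℝ) := V.toSubalgebra V_one V_mul

theorem mem_A (x : C(Om, ℝ)) : x ∈ A ↔ x ∈ V := Iff.rfl

theorem cos_inj {s t : ℝ} (hs : s ∈ Set.Icc (0 : ℝ) 1) (ht : t ∈ Set.Icc (0 : ℝ) 1)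
    (h : e1 1 s = e1 1 t) : s = t := by
  unfold e1 at h
  have h1 := mul_left_cancel₀ (cn_pos 1).ne' h
  have hp := Real.pi_pos
  have h2 : Real.pi * ((1 : ℕ) : ℝ) * s = Real.pi * ((1 : ℕ) : ℝ) * t := by
    apply Real.injOn_cos _ _ h1
    · rw [Nat.cast_one, mul_one, Set.mem_Icc]
      exact ⟨mul_nonneg hp.le hs.1, by nlinarith [hs.2]⟩
    · rw [Nat.cast_one, mul_one, Set.mem_Icc]
      exact ⟨mul_nonneg hp.le ht.1, by nlinarith [ht.2]⟩
  rw [Nat.cast_one, mul_one] at h2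
  exact mul_left_cancel₀ hp.ne' h2

theorem sep : A.SeparatesPoints := by
  intro z w hzw
  have hz := z.2
  have hw := w.2
  unfold Om at hz hw
  rw [Set.mem_prod] at hz hw
  have e0 : ∀ s, e1 0 s = 1 := fun s => by simp [e1, cn_zero]
  by_cases h1 : z.1.1 = w.1.1
  · have h2 : z.1.2 ≠ w.1.2 := by
      intro h2
      exact hzw (Subtype.ext (Prod.ext h1 h2))
    refine ⟨E (0, 1), ⟨E (0, 1), E_mem _, rfl⟩, ?_⟩
    rw [E_apply, E_apply]
    unfold ee
    rw [e0, e0, one_mul, one_mul]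
    intro h
    exact h2 (cos_inj hz.2 hw.2 h)
  · refine ⟨E (1, 0), ⟨E (1, 0), E_mem _, rfl⟩, ?_⟩
    rw [E_apply, E_apply]
    unfold ee
    rw [e0, e0, mul_one, mul_one]
    intro h
    exact h1 (cos_inj hz.1 hw.1 h)

theorem main : S_CMP := by
  intro f ε hf hε
  have hc : CompactSpace Om := isCompact_iff_compactSpace.1 isCompact_Om
  have hδ : 0 < Real.sqrt ε := Real.sqrt_pos.2 hε
  obtain ⟨g, hg⟩ := ContinuousMap.exists_mem_subalgebra_near_continuous_of_separatesPoints A sep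
    (fun z : Om => f z.1) (hf.comp continuous_subtype_val) (Real.sqrt ε) hδ
  have hgV : (g : C(Om, ℝ)) ∈ V := g.2
  unfold V at hgV
  rw [Finsupp.mem_span_range_iff_exists_finsupp] at hgV
  obtain ⟨c, hc'⟩ := hgV
  refine ⟨c.support, c, ?_⟩
  have hb : ∀ z ∈ Om, (f z - ∑ k ∈ c.support, c k * ee k z) ^ 2 ≤ ε := by
    intro z hz
    have h1 := hg ⟨z, hz⟩
    have h2 : ((g : C(Om, ℝ)) : Om → ℝ) ⟨z, hz⟩ = ∑ k ∈ c.support, c k * ee k z := by
      rw [← hc']
      unfold Finsupp.sum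
      rw [ContinuousMap.sum_apply]
      rfl
    rw [h2, Real.norm_eq_abs, abs_sub_comm] at h1
    calc (f z - ∑ k ∈ c.support, c k * ee k z) ^ 2
        = |f z - ∑ k ∈ c.support, c k * ee k z| ^ 2 := (sq_abs _).symm
      _ ≤ Real.sqrt ε ^ 2 := pow_le_pow_left₀ (abs_nonneg _) h1.le 2
      _ = ε := Real.sq_sqrt hε.le
  have h3 : ∫ z, (f z - ∑ k ∈ c.support, c k * ee k z) ^ 2 ∂P ≤ ∫ _ : R2, ε ∂P := by
    apply integral_mono_of_nonneg
    · exact Eventually.of_forall fun z => sq_nonneg _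
    · exact integrable_const ε
    · filter_upwards [ae_Om] with z hz
      exact hb z hz
  refine h3.trans (le_of_eq ?_)
  simp

end Pool.Agent.N940.OT.Cmp
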