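import Mathlib

/-!
# Quadratic transport between the uniform law of the unit square and the empirical measure

Definitions of the project OT: the transport cost, the Neumann eigenfunctions of the square, the
normalised Fourier coefficients of the empirical measure, optimal maps and potentials.
-/

set_option autoImplicit false

open MeasureTheory Filter Topology Finset
open scoped ENNReal NNReal

namespace Pool.Agent.N940.OT

/-- the plane -/
abbrev R2 := ℝ × ℝ

/-- the squared Euclidean distance -/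
def sq (z w : R2) : ℝ := (z.1 - w.1) ^ 2 + (z.2 - w.2) ^ 2

/-- the unit square -/
def Om : Set R2 := Set.Icc 0 1 ×ˢ Set.Icc 0 1

/-- the uniform law on the unit square -/
noncomputable def P : Measure R2 := volume.restrict Om

/-- the law of `n` independent uniform points -/
noncomputable def Pn (n : ℕ) : Measure (Fin n → R2) := Measure.pi fun _ => P

/-- the empirical measure of `n` points -/
noncomputable def emp (n : ℕ) (x : Fin n → R2) : Measure R2 :=
  (n : ℝ≥0∞)⁻¹ • ∑ i, Measure.dirac (x i)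

/-- the quadratic transport cost: the infimum of the costs of all couplings -/
noncomputable def cost (μ ν : Measure R2) : ℝ :=
  sInf {c | ∃ π : Measure (R2 × R2), π.map Prod.fst = μ ∧ π.map Prod.snd = ν ∧
    c = ∫ p, sq p.1 p.2 ∂π}

/-- the cost between the empirical measure and the uniform law -/
noncomputable def T (n : ℕ) (x : Fin n → R2) : ℝ := cost (emp n x) P

/-- frequencies -/
abbrev Fq := ℕ × ℕ

/-- normalisation of the cosine -/
noncomputable def cn (k : ℕ) : ℝ := if k = 0 then 1 else Real.sqrt 2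

/-- Neumann eigenfunctions of the unit interval -/
noncomputable def e1 (k : ℕ) (s : ℝ) : ℝ := cn k * Real.cos (Real.pi * k * s)

/-- their derivatives -/
noncomputable def d1 (k : ℕ) (s : ℝ) : ℝ := -(cn k * (Real.pi * k) * Real.sin (Real.pi * k * s))

/-- Neumann eigenfunctions of the unit square -/
noncomputable def ee (k : Fq) (z : R2) : ℝ := e1 k.1 z.1 * e1 k.2 z.2

/-- the derivative of `ee k` at `z` in the direction `v` -/
noncomputable def gr (k : Fq) (z v : R2) : ℝ :=
  v.1 * (d1 k.1 z.1 * e1 k.2 z.2) + v.2 * (e1 k.1 z.1 * d1 k.2 z.2)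

/-- Neumann eigenvalues -/
noncomputable def lam (k : Fq) : ℝ := Real.pi ^ 2 * ((k.1 : ℝ) ^ 2 + (k.2 : ℝ) ^ 2)

/-- the normalised Fourier coefficients of the empirical measure -/
noncomputable def Z (n : ℕ) (x : Fin n → R2) (k : Fq) : ℝ := (∑ i, ee k (x i)) / Real.sqrt n

/-- the nonzero frequencies in a box -/
def Bx (m : ℕ) : Finset Fq := (range m ×ˢ range m).erase (0, 0)

/-- the quadratic functional of the first Fourier coefficients -/
noncomputable def Q (n K : ℕ) (x : Fin n → R2) : ℝ := ∑ k ∈ Bx K, (Z n x k ^ 2 - 1) / lam k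

/-- an optimal partition into cells: `τ z` is the index of the point which serves `z` and `w` are
the weights -/
structure Cells (n : ℕ) (x : Fin n → R2) (τ : R2 → Fin n) (w : Fin n → ℝ) : Prop where
  meas : Measurable τ
  opt : ∀ z i, sq z (x (τ z)) - w (τ z) ≤ sq z (x i) - w i
  cell : ∀ i, P.real (τ ⁻¹' {i}) = 1 / n

/-- optimal map and potentials for a configuration -/
structure Pot (n : ℕ) (x : Fin n → R2) (τ : R2 → Fin n) (φ ψ : R2 → ℝ) (M : ℝ) : Prop where
  meas : Measurable τ
  cφ : Continuous φ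
  cψ : Continuous ψ
  M0 : 0 ≤ M
  cell : ∀ i, P.real (τ ⁻¹' {i}) = 1 / n
  le : ∀ z ∈ Om, ∀ y ∈ Om, φ z + ψ y ≤ sq z y
  eq : ∀ z ∈ Om, φ z + ψ (x (τ z)) = sq z (x (τ z))
  val : T n x = ∫ z, sq z (x (τ z)) ∂P
  disp : ∀ z ∈ Om, sq z (x (τ z)) ≤ M ^ 2
  small : M ^ 4 ≤ 2 ^ 14 * T n x
  lip : ∀ y ∈ Om, ∀ y' ∈ Om, (ψ y - ψ y') ^ 2 ≤ 16 * M ^ 2 * sq y y'
  ibp : ∀ k : Fq, lam k * ∫ z, φ z * ee k z ∂P =
    2 * ∫ z, gr k z (z.1 - (x (τ z)).1, z.2 - (x (τ z)).2) ∂P

end Pool.Agent.N940.OT
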