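import Pool.Agent.N940.OT.Basic

/-!
# Project OT: the deterministic inequality for the potentials (helper478)
-/

set_option autoImplicit false

open MeasureTheory Filter Topology Finset ProbabilityTheory
open scoped ENNReal NNReal

namespace Pool.Agent.N940.OT.Det

/-- continuous functions of a point and of a measurable function with values in the square -/
theorem int_cont {F : R2 × R2 → ℝ} (hF : Continuous F) {S : R2 → R2} (hS : Measurable S)
    (hSO : ∀ z, S z ∈ Om) : Integrable (fun z => F (z, S z)) P := by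
  obtain ⟨C, hC⟩ := (isCompact_Om.prod isCompact_Om).exists_bound_of_continuousOn
    hF.continuousOn
  refine Integrable.of_bound
    (hF.measurable.comp (measurable_id.prodMk hS)).aestronglyMeasurable C ?_
  filter_upwards [ae_Om] with z hz
  exact hC (z, S z) ⟨hz, hSO z⟩

theorem int_cont1 {F : R2 → ℝ} (hF : Continuous F) : Integrable F P := by
  have h0 : ((0, 0) : R2) ∈ Om := by
    unfold Om
    simp
  exact int_cont (F := fun p => F p.1) (hF.comp continuous_fst) (S := fun _ => (0, 0))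
    measurable_const (fun _ => h0)

/-- the integral of a function of the index -/
theorem int_tau {n : ℕ} {τ : R2 → Fin n} (hτ : Measurable τ)
    (hc : ∀ i, P.real (τ ⁻¹' {i}) = 1 / n) (F : Fin n → ℝ) :
    ∫ z, F (τ z) ∂P = (∑ i, F i) / n := by
  have h1 : ∫ z, F (τ z) ∂P = ∫ i, F i ∂(P.map τ) :=
    (integral_map hτ.aemeasurable (measurable_of_finite F).aestronglyMeasurable).symm
  have hpr : IsProbabilityMeasure (P.map τ) := Measure.isProbabilityMeasure_map hτ.aemeasurable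
  rw [h1, integral_fintype (Integrable.of_finite), Finset.sum_div]
  refine Finset.sum_congr rfl fun i _ => ?_
  rw [map_measureReal_apply hτ (measurableSet_singleton i), hc, smul_eq_mul]
  ring

/-- the eigenfunctions are Lipschitz -/
theorem ee_lip (k : Fq) (z y : R2) : (ee k z - ee k y) ^ 2 ≤ 4 * lam k * sq z y := by
  obtain ⟨f, hf⟩ : ∃ f : ℝ → ℝ, f = fun t =>
    ee k (y.1 + t * (z.1 - y.1), y.2 + t * (z.2 - y.2)) := ⟨_, rfl⟩
  have hd : ∀ t : ℝ, HasDerivAt f
      (gr k (y.1 + t * (z.1 - y.1), y.2 + t * (z.2 - y.2)) (z.1 - y.1, z.2 - y.2)) t := by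
    intro t
    have h1 : ∀ a b : ℝ, HasDerivAt (fun t : ℝ => a + t * b) b t := by
      intro a b
      simpa using ((hasDerivAt_id t).mul_const b).const_add a
    have h2 := (hasDerivAt_e1 k.1 (y.1 + t * (z.1 - y.1))).comp t (h1 y.1 (z.1 - y.1))
    have h3 := (hasDerivAt_e1 k.2 (y.2 + t * (z.2 - y.2))).comp t (h1 y.2 (z.2 - y.2))
    have h4 := h2.mul h3
    rw [hf]
    unfold ee gr
    refine h4.congr_deriv ?_
    simp only [Function.comp]
    ring
  obtain ⟨c, -, hc⟩ := exists_hasDerivAt_eq_slope f _ (zero_lt_one' ℝ)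
    (fun t _ => (hd t).continuousAt.continuousWithinAt) (fun t _ => hd t)
  have h5 : f 1 - f 0 = ee k z - ee k y := by
    rw [hf]
    simp
  rw [sub_zero, div_one, h5] at hc
  rw [← hc]
  exact gr_sq_le k _ _

/-- the second part of the potential -/
noncomputable def hh (n K : ℕ) (x : Fin n → R2) (z : R2) : ℝ :=
  ∑ k ∈ Bx K, Z n x k / lam k * ee k z

theorem continuous_hh (n K : ℕ) (x : Fin n → R2) : Continuous (hh n K x) := by
  unfold hh
  have := continuous_ee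
  fun_prop

theorem card_Bx_le' (K : ℕ) : ((Bx K).card : ℝ) ≤ (K : ℝ) ^ 2 := by
  exact_mod_cast card_Bx_le K

theorem hh_lip (n K : ℕ) (x : Fin n → R2) (z y : R2) :
    (hh n K x z - hh n K x y) ^ 2 ≤ K ^ 2 * (∑ k ∈ Bx K, Z n x k ^ 2) * sq z y := by
  have h1 : hh n K x z - hh n K x y =
      ∑ k ∈ Bx K, Z n x k * ((ee k z - ee k y) / lam k) := by
    unfold hh
    rw [← Finset.sum_sub_distrib]
    refine Finset.sum_congr rfl fun k _ => ?_
    ring
  rw [h1]
  refine (Finset.sum_mul_sq_le_sq_mul_sq _ _ _).trans ?_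
  have hs := sq_nonneg' z y
  have h2 : ∑ k ∈ Bx K, ((ee k z - ee k y) / lam k) ^ 2 ≤ K ^ 2 * sq z y := by
    calc ∑ k ∈ Bx K, ((ee k z - ee k y) / lam k) ^ 2 ≤ ∑ _k ∈ Bx K, sq z y := by
          refine Finset.sum_le_sum fun k hk => ?_
          have hl := lam_ge (ne_of_mem_Bx hk)
          have hl0 : 0 < lam k := by linarith
          rw [div_pow, div_le_iff₀ (by positivity)]
          refine (ee_lip k z y).trans ?_
          nlinarith [mul_nonneg hl0.le hs, mul_nonneg (mul_nonneg hl0.le hs)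
            (by linarith : (0 : ℝ) ≤ lam k - 4)]
      _ = (Bx K).card * sq z y := by rw [Finset.sum_const, nsmul_eq_mul]
      _ ≤ _ := mul_le_mul_of_nonneg_right (card_Bx_le' K) hs
  have h3 : 0 ≤ ∑ k ∈ Bx K, Z n x k ^ 2 := Finset.sum_nonneg fun k _ => sq_nonneg _
  calc _ ≤ (∑ k ∈ Bx K, Z n x k ^ 2) * (K ^ 2 * sq z y) := mul_le_mul_of_nonneg_left h2 h3
    _ = _ := by ring

/-- the difference of the quadratic functionals -/
theorem Q_diff {n K : ℕ} (hn : 1 ≤ n) (x : Fin n → R2) (i : Fin n) (y : R2) :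
    ∃ ρ : ℝ, 0 ≤ ρ ∧ ρ ≤ 2 * K ^ 2 / n ∧ Q n K (Function.update x i y) - Q n K x =
      2 / Real.sqrt n * (hh n K x y - hh n K x (x i)) + ρ := by
  have hn0 : (0 : ℝ) < n := by exact_mod_cast hn
  have hs0 : 0 < Real.sqrt n := Real.sqrt_pos.2 hn0
  have hZ : ∀ k, Z n (Function.update x i y) k = Z n x k + (ee k y - ee k (x i)) / Real.sqrt n := by
    intro k
    unfold Z
    rw [← add_div]
    congr 1
    rw [← Finset.add_sum_erase univ (fun j => ee k (Function.update x i y j)) (mem_univ i),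
      ← Finset.add_sum_erase univ (fun j => ee k (x j)) (mem_univ i), Function.update_self]
    have h1 : ∑ j ∈ univ.erase i, ee k (Function.update x i y j) =
        ∑ j ∈ univ.erase i, ee k (x j) := by
      refine Finset.sum_congr rfl fun j hj => ?_
      rw [Function.update_of_ne (Finset.ne_of_mem_erase hj)]
    rw [h1]
    ring
  refine ⟨∑ k ∈ Bx K, ((ee k y - ee k (x i)) / Real.sqrt n) ^ 2 / lam k, ?_, ?_, ?_⟩
  · exact Finset.sum_nonneg fun k _ => div_nonneg (sq_nonneg _) (lam_nonneg k)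
  · calc ∑ k ∈ Bx K, ((ee k y - ee k (x i)) / Real.sqrt n) ^ 2 / lam k
        ≤ ∑ _k ∈ Bx K, 2 / (n : ℝ) := by
          refine Finset.sum_le_sum fun k hk => ?_
          have hl := lam_ge (ne_of_mem_Bx hk)
          have hl0 : 0 < lam k := by linarith
          rw [div_pow, Real.sq_sqrt hn0.le, div_div, div_le_div_iff₀ (by positivity) hn0]
          have h1 := abs_le.1 (abs_ee_le k y)
          have h2 := abs_le.1 (abs_ee_le k (x i))
          have h3 : (ee k y - ee k (x i)) ^ 2 ≤ 16 := by nlinarith [h1.1, h1.2, h2.1, h2.2]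
          calc (ee k y - ee k (x i)) ^ 2 * n ≤ 18 * n :=
                mul_le_mul_of_nonneg_right (by linarith) hn0.le
            _ ≤ 2 * (n * lam k) := by nlinarith [mul_nonneg hn0.le (by linarith : 0 ≤ lam k - 9)]
      _ = (Bx K).card * (2 / (n : ℝ)) := by rw [Finset.sum_const, nsmul_eq_mul]
      _ ≤ (K : ℝ) ^ 2 * (2 / n) :=
        mul_le_mul_of_nonneg_right (card_Bx_le' K) (by positivity)
      _ = _ := by ring
  · unfold Q hh
    rw [← Finset.sum_sub_distrib, ← Finset.sum_sub_distrib, Finset.mul_sum,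
      ← Finset.sum_add_distrib]
    refine Finset.sum_congr rfl fun k _ => ?_
    rw [hZ]
    ring

theorem sq_add_le (a b : ℝ) : (a + b) ^ 2 ≤ 2 * a ^ 2 + 2 * b ^ 2 := by
  nlinarith [sq_nonneg (a - b)]

theorem main (hF : S_FOU) : S_DET := by
  obtain ⟨CF, hCF, hF⟩ := hF
  refine ⟨137216 + 24 * CF + 72, by positivity, ?_⟩
  intro n K m x τ φ ψ M hn hK hKm hx hP
  have hn0 : (0 : ℝ) < n := by exact_mod_cast hn
  have hs0 : 0 < Real.sqrt n := Real.sqrt_pos.2 hn0
  have hT0 := T_nonneg n x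
  have hFx := hF n K m x τ φ ψ M hn hK hKm hx hP
  -- the objects
  obtain ⟨c, hc⟩ : ∃ c : ℝ, c = 2 / Real.sqrt n := ⟨_, rfl⟩
  have hc2 : n * c ^ 2 = 4 := by
    rw [hc, div_pow, Real.sq_sqrt hn0.le]
    field_simp
    norm_num
  obtain ⟨a, ha⟩ : ∃ a : ℝ, a = -∫ u, φ u ∂P := ⟨_, rfl⟩
  obtain ⟨g, hg⟩ : ∃ g : R2 → ℝ, g = fun z => ψ z - c * hh n K x z := ⟨_, rfl⟩
  obtain ⟨S, hS⟩ : ∃ S : R2 → R2, S = fun z => x (τ z) := ⟨_, rfl⟩
  have hch := continuous_hh n K x
  have hcψ := hP.cψ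
  have hcφ := hP.cφ
  have hcg : Continuous g := by
    rw [hg]
    exact hcψ.sub (continuous_const.mul hch)
  have hmS : Measurable S := by
    rw [hS]
    exact (measurable_of_finite x).comp hP.meas
  have hSO : ∀ z, S z ∈ Om := by
    intro z
    rw [hS]
    exact hx _
  obtain ⟨Sg, hSg⟩ : ∃ s : ℝ, s = ∑ k ∈ Bx K, Z n x k ^ 2 := ⟨_, rfl⟩
  have hSg0 : 0 ≤ Sg := by rw [hSg]; exact Finset.sum_nonneg fun k _ => sq_nonneg _
  have hTS : T n x = ∫ z, sq z (S z) ∂P := by rw [hP.val, hS]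
  have hiS : Integrable (fun z => sq z (S z)) P := int_cont continuous_sq hmS hSO
  -- step 3
  have hI3 : ∫ z, (g z - g (S z)) ^ 2 ∂P ≤ (32 * M ^ 2 + 2 * c ^ 2 * (K ^ 2 * Sg)) * T n x := by
    rw [hTS, ← integral_const_mul]
    refine integral_mono_ae (int_cont (F := fun p => (g p.1 - g p.2) ^ 2) (by fun_prop) hmS hSO)
      (hiS.const_mul _) ?_
    filter_upwards [ae_Om] with z hz
    have h1 := hP.lip z hz (S z) (hSO z)
    have h2 := hh_lip n K x z (S z)
    rw [← hSg] at h2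
    have h3 : (g z - g (S z)) ^ 2 ≤ 2 * (ψ z - ψ (S z)) ^ 2 +
        2 * (c ^ 2 * (hh n K x z - hh n K x (S z)) ^ 2) := by
      have h4 := sq_add_le (ψ z - ψ (S z)) (-(c * (hh n K x z - hh n K x (S z))))
      have h5 : g z - g (S z) = ψ z - ψ (S z) + -(c * (hh n K x z - hh n K x (S z))) := by
        rw [hg]; ring
      rw [h5]
      refine h4.trans (le_of_eq ?_)
      ring
    have h6 := mul_le_mul_of_nonneg_left h2 (sq_nonneg c)
    calc (g z - g (S z)) ^ 2 ≤ _ := h3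
      _ ≤ 2 * (16 * M ^ 2 * sq z (S z)) + 2 * (c ^ 2 * (K ^ 2 * Sg * sq z (S z))) := by linarith
      _ = _ := by ring
  -- step 4
  have hI1a : ∫ z, (ψ z + φ z) ^ 2 ∂P ≤ 34 * M ^ 2 * T n x := by
    rw [hTS, ← integral_const_mul]
    refine integral_mono_ae (int_cont1 (by fun_prop)) (hiS.const_mul _) ?_
    filter_upwards [ae_Om] with z hz
    have h1 := hP.lip z hz (S z) (hSO z)
    have h2 := hP.eq z hz
    have h3 := hP.disp z hz
    have h4 : ψ z + φ z = (ψ z - ψ (S z)) + sq z (S z) := by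
      rw [hS]
      simp only
      linarith
    have h5 := sq_nonneg' z (S z)
    have h6 : sq z (S z) ≤ M ^ 2 := by rw [hS]; exact h3
    rw [h4]
    have h7 := sq_add_le (ψ z - ψ (S z)) (sq z (S z))
    have h8 : sq z (S z) ^ 2 ≤ M ^ 2 * sq z (S z) := by
      rw [pow_two]
      exact mul_le_mul_of_nonneg_right h6 h5
    nlinarith
  have hI1 : ∫ z, (g z - a) ^ 2 ∂P ≤ 2 * ∫ z, (ψ z + φ z) ^ 2 ∂P +
      2 * ∫ z, (φ z - ∫ u, φ u ∂P +
        2 / Real.sqrt n * ∑ k ∈ Bx K, Z n x k / lam k * ee k z) ^ 2 ∂P := by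
    have hci : Continuous fun z => (φ z - ∫ u, φ u ∂P +
        2 / Real.sqrt n * ∑ k ∈ Bx K, Z n x k / lam k * ee k z) ^ 2 := by
      have := continuous_ee
      fun_prop
    rw [← integral_const_mul, ← integral_const_mul, ← integral_add
      ((int_cont1 (F := fun z => (ψ z + φ z) ^ 2) (by fun_prop)).const_mul 2)
      ((int_cont1 hci).const_mul 2)]
    refine integral_mono (int_cont1 (by fun_prop)) (((int_cont1
      (F := fun z => (ψ z + φ z) ^ 2) (by fun_prop)).const_mul 2).add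
      ((int_cont1 hci).const_mul 2)) fun z => ?_
    have h1 := sq_add_le (ψ z + φ z) (-(φ z - ∫ u, φ u ∂P +
      2 / Real.sqrt n * ∑ k ∈ Bx K, Z n x k / lam k * ee k z))
    have h2 : g z - a = (ψ z + φ z) + -(φ z - ∫ u, φ u ∂P +
      2 / Real.sqrt n * ∑ k ∈ Bx K, Z n x k / lam k * ee k z) := by
      rw [hg, ha, hc]
      unfold hh
      ring
    simp only
    rw [h2]
    refine h1.trans (le_of_eq ?_)
    ring
  -- step 2
  have hI2 : ∫ z, (g (S z) - a) ^ 2 ∂P ≤ 2 * ∫ z, (g z - a) ^ 2 ∂P +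
      2 * ∫ z, (g z - g (S z)) ^ 2 ∂P := by
    have i1 : Integrable (fun z => (g z - a) ^ 2) P := int_cont1 (by fun_prop)
    have i2 : Integrable (fun z => (g z - g (S z)) ^ 2) P :=
      int_cont (F := fun p => (g p.1 - g p.2) ^ 2) (by fun_prop) hmS hSO
    rw [← integral_const_mul, ← integral_const_mul, ← integral_add (i1.const_mul 2)
      (i2.const_mul 2)]
    refine integral_mono (int_cont (F := fun p => (g p.2 - a) ^ 2) (by fun_prop) hmS hSO)
      ((i1.const_mul 2).add (i2.const_mul 2)) fun z => ?_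
    have h1 := sq_add_le (g z - a) (-(g z - g (S z)))
    simp only
    calc (g (S z) - a) ^ 2 = (g z - a + -(g z - g (S z))) ^ 2 := by ring
      _ ≤ _ := h1
      _ = _ := by ring
  have hsum : ∑ i, (g (x i) - a) ^ 2 = n * ∫ z, (g (S z) - a) ^ 2 ∂P := by
    rw [hS, int_tau hP.meas hP.cell (fun i => (g (x i) - a) ^ 2)]
    field_simp
  -- step 1
  have hstep : ∀ i, ∫ y, (ψ y - ψ (x i) - (Q n K (Function.update x i y) - Q n K x)) ^ 2 ∂P ≤
      4 * ∫ z, (g z - a) ^ 2 ∂P + 4 * (g (x i) - a) ^ 2 + 8 * K ^ 4 / n ^ 2 := by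
    intro i
    have i1 : Integrable (fun z => (g z - a) ^ 2) P := int_cont1 (by fun_prop)
    have e1 : 4 * ∫ z, (g z - a) ^ 2 ∂P + 4 * (g (x i) - a) ^ 2 + 8 * (K : ℝ) ^ 4 / n ^ 2 =
        ∫ z, (4 * (g z - a) ^ 2 + (4 * (g (x i) - a) ^ 2 + 8 * (K : ℝ) ^ 4 / n ^ 2)) ∂P := by
      rw [integral_add (i1.const_mul 4) (integrable_const _), integral_const_mul, integral_const]
      simp
      ring
    rw [e1]
    have hcQ := continuous_Q n K
    have hcu : Continuous fun y : R2 => Function.update x i y := by fun_prop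
    refine integral_mono (int_cont1 (by fun_prop))
      ((i1.const_mul 4).add (integrable_const _)) fun y => ?_
    obtain ⟨ρ, hρ0, hρ1, hρ2⟩ := Q_diff (K := K) hn x i y
    simp only
    rw [hρ2, ← hc]
    have h1 : ψ y - ψ (x i) - (c * (hh n K x y - hh n K x (x i)) + ρ) =
        ((g y - a) + -(g (x i) - a)) + -ρ := by
      rw [hg]; ring
    rw [h1]
    have h2 := sq_add_le ((g y - a) + -(g (x i) - a)) (-ρ)
    have h3 := sq_add_le (g y - a) (-(g (x i) - a))
    have h4 : ρ ^ 2 ≤ (2 * K ^ 2 / n) ^ 2 := pow_le_pow_left₀ hρ0 hρ1 2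
    have h5 : (2 * (K : ℝ) ^ 2 / n) ^ 2 = 4 * K ^ 4 / n ^ 2 := by ring
    have h6 : 8 * (K : ℝ) ^ 4 / n ^ 2 = 2 * (4 * K ^ 4 / n ^ 2) := by ring
    rw [h5] at h4
    rw [h6]
    rw [neg_sq] at h2 h3
    linarith
  have htot : ∑ i, ∫ y, (ψ y - ψ (x i) - (Q n K (Function.update x i y) - Q n K x)) ^ 2 ∂P ≤
      4 * (n * ∫ z, (g z - a) ^ 2 ∂P) + 4 * (n * ∫ z, (g (S z) - a) ^ 2 ∂P) +
        8 * (K ^ 4 / n) := by
    refine (Finset.sum_le_sum fun i _ => hstep i).trans (le_of_eq ?_)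
    rw [Finset.sum_add_distrib, Finset.sum_add_distrib, ← Finset.mul_sum, ← Finset.mul_sum, hsum]
    simp only [Finset.sum_const, Finset.card_univ, Fintype.card_fin, nsmul_eq_mul]
    field_simp
  -- step 5
  have hM2 : M ^ 2 ≤ 128 * Real.sqrt (T n x) := by
    have h1 : M ^ 2 = Real.sqrt (M ^ 4) := by
      rw [show M ^ 4 = (M ^ 2) ^ 2 by ring, Real.sqrt_sq (sq_nonneg M)]
    rw [h1]
    have h2 : 128 * Real.sqrt (T n x) = Real.sqrt (2 ^ 14 * T n x) := by
      rw [Real.sqrt_mul (by norm_num), show (2 : ℝ) ^ 14 = 128 ^ 2 by norm_num,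
        Real.sqrt_sq (by norm_num)]
    rw [h2]
    exact Real.sqrt_le_sqrt hP.small
  -- the end
  obtain ⟨t, ht⟩ : ∃ t : ℝ, t = n * Real.sqrt (T n x) * T n x := ⟨_, rfl⟩
  have hnM : n * (M ^ 2 * T n x) ≤ 128 * t := by
    rw [ht]
    have h1 := mul_le_mul_of_nonneg_right hM2 hT0
    have h2 := mul_le_mul_of_nonneg_left h1 hn0.le
    calc _ ≤ _ := h2
      _ = _ := by ring
  obtain ⟨A, hA⟩ : ∃ A : ℝ, A = ∑ k ∈ Bx m \ Bx K, Z n x k ^ 2 / lam k ^ 2 +
    n * m ^ 2 * T n x ^ 2 + n * T n x / m ^ 2 := ⟨_, rfl⟩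
  rw [← hA] at hFx
  have hA0 : 0 ≤ A := by
    rw [hA]
    have : 0 ≤ ∑ k ∈ Bx m \ Bx K, Z n x k ^ 2 / lam k ^ 2 :=
      Finset.sum_nonneg fun k _ => by positivity
    positivity
  have ht0 : 0 ≤ t := by rw [ht]; positivity
  have hrhs : rhs n K m x = A + t + K ^ 2 * Sg * T n x + K ^ 4 / n := by
    unfold rhs
    rw [hA, ht, hSg]
  rw [hrhs]
  have hB0 : 0 ≤ (K : ℝ) ^ 2 * Sg * T n x := by positivity
  have hD0 : 0 ≤ (K : ℝ) ^ 4 / n := by positivity
  have j1 : n * ∫ z, (g z - a) ^ 2 ∂P ≤ 68 * (n * (M ^ 2 * T n x)) + 2 * (CF * A) := by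
    have h1 := mul_le_mul_of_nonneg_left hI1 hn0.le
    have h2 := mul_le_mul_of_nonneg_left hI1a hn0.le
    nlinarith
  have j3 : n * ∫ z, (g z - g (S z)) ^ 2 ∂P ≤ 32 * (n * (M ^ 2 * T n x)) +
      8 * (K ^ 2 * Sg * T n x) := by
    have h1 := mul_le_mul_of_nonneg_left hI3 hn0.le
    have h2 : (n : ℝ) * ((32 * M ^ 2 + 2 * c ^ 2 * (K ^ 2 * Sg)) * T n x) =
        32 * (n * (M ^ 2 * T n x)) + 2 * (n * c ^ 2) * (K ^ 2 * Sg * T n x) := by ring
    rw [h2, hc2] at h1
    linarith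
  have j2 := mul_le_mul_of_nonneg_left hI2 hn0.le
  have j4 : ∑ i, ∫ y, (ψ y - ψ (x i) - (Q n K (Function.update x i y) - Q n K x)) ^ 2 ∂P ≤
      12 * (n * ∫ z, (g z - a) ^ 2 ∂P) + 8 * (n * ∫ z, (g z - g (S z)) ^ 2 ∂P) +
        8 * (K ^ 4 / n) := by
    refine htot.trans ?_
    linarith
  have j5 : 0 ≤ CF * A := mul_nonneg hCF.le hA0
  have j6 : 0 ≤ CF * t := mul_nonneg hCF.le ht0
  have j7 : 0 ≤ CF * ((K : ℝ) ^ 2 * Sg * T n x) := mul_nonneg hCF.le hB0
  have j8 : 0 ≤ CF * ((K : ℝ) ^ 4 / n) := mul_nonneg hCF.le hD0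
  nlinarith

end Pool.Agent.N940.OT.Det

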