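import Pool.Agent.N940.OT.Basic

/-!
# OT/DSP: bound for the displacement (helper413)
-/

set_option autoImplicit false

open MeasureTheory Filter Topology Finset
open scoped ENNReal NNReal

namespace Pool.Agent.N940.OT.Dsp

theorem alg (X Y u v g h : ℝ) (hU : 1152 * (u ^ 2 + v ^ 2) ≤ X ^ 2 + Y ^ 2)
    (hm : 0 ≤ (X / 4 + u) * (g + (X / 4 + u) - X) + (Y / 4 + v) * (h + (Y / 4 + v) - Y)) :
    X ^ 2 + Y ^ 2 ≤ 5 * (g ^ 2 + h ^ 2) := by
  obtain ⟨R, hR⟩ : ∃ R, R = X ^ 2 + Y ^ 2 := ⟨_, rfl⟩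
  obtain ⟨U, hUe⟩ : ∃ U, U = u ^ 2 + v ^ 2 := ⟨_, rfl⟩
  obtain ⟨w, hw⟩ : ∃ w, w = X * u + Y * v := ⟨_, rfl⟩
  obtain ⟨A, hA⟩ : ∃ A, A = g * (X / 4 + u) + h * (Y / 4 + v) := ⟨_, rfl⟩
  obtain ⟨S, hS⟩ : ∃ S, S = g ^ 2 + h ^ 2 := ⟨_, rfl⟩
  obtain ⟨V, hV⟩ : ∃ V, V = (X / 4 + u) ^ 2 + (Y / 4 + v) ^ 2 := ⟨_, rfl⟩
  rw [← hR, ← hUe] at hU
  rw [← hR, ← hS]
  have hS0 : 0 ≤ S := by rw [hS]; positivity
  have hU0 : 0 ≤ U := by rw [hUe]; positivity
  have h1 : w ^ 2 ≤ R * U := by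
    have : R * U - w ^ 2 = (X * v - Y * u) ^ 2 := by rw [hR, hUe, hw]; ring
    nlinarith [sq_nonneg (X * v - Y * u)]
  by_contra hcon
  push Not at hcon
  have hR0 : 0 < R := by linarith
  have h2 : |32 * w| ≤ R := by
    apply abs_le_of_sq_le_sq _ hR0.le
    nlinarith
  obtain ⟨h3, h4⟩ := abs_le.1 h2
  have h5 : A + V - (R / 4 + w) ≥ 0 := by
    have : A + V - (R / 4 + w) =
        (X / 4 + u) * (g + (X / 4 + u) - X) + (Y / 4 + v) * (h + (Y / 4 + v) - Y) := by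
      rw [hA, hV, hR, hw]
      ring
    rw [this]
    exact hm
  have h6 : V = R / 16 + w / 2 + U := by
    rw [hV, hR, hw, hUe]
    ring
  have h7 : A ^ 2 ≤ S * V := by
    have : S * V - A ^ 2 = (g * (Y / 4 + v) - h * (X / 4 + u)) ^ 2 := by
      rw [hS, hV, hA]
      ring
    nlinarith [sq_nonneg (g * (Y / 4 + v) - h * (X / 4 + u))]
  have h8 : 17 / 100 * R ≤ A := by linarith
  have h9 : V ≤ 8 / 100 * R := by linarith
  have h10 : (17 / 100 * R) ^ 2 ≤ A ^ 2 := by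
    apply pow_le_pow_left₀ (by positivity) h8
  have h11 : S * V ≤ R / 5 * (8 / 100 * R) :=
    mul_le_mul (by linarith) h9 (by rw [hV]; positivity) (by positivity)
  nlinarith

/-- a subinterval of the unit interval near a given point -/
theorem exists_sub (a s : ℝ) (ha0 : 0 ≤ a) (ha1 : a ≤ 1) (hs0 : 0 ≤ s) (hs : s ≤ 1 / 2) :
    ∃ a' : ℝ, 0 ≤ a' ∧ a' + s ≤ 1 ∧ ∀ t, a' ≤ t → t ≤ a' + s → |t - a| ≤ s := by
  rcases le_total a (1 / 2) with h | h
  · refine ⟨a, ha0, by linarith, fun t h1 h2 => ?_⟩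
    rw [abs_le]
    constructor <;> linarith
  · refine ⟨a - s, by linarith, by linarith, fun t h1 h2 => ?_⟩
    rw [abs_le]
    constructor <;> linarith

theorem main : S_DSP := by
  intro n x τ hn hx hτ hmono z0 hz0
  have hy0 := hx (τ z0)
  obtain ⟨y0, hy0e⟩ : ∃ y0, y0 = x (τ z0) := ⟨_, rfl⟩
  rw [← hy0e] at hy0 ⊢
  obtain ⟨R, hR⟩ : ∃ R, R = sq z0 y0 := ⟨_, rfl⟩
  have hR0 : 0 ≤ R := hR ▸ sq_nonneg' _ _
  have hR2 : R ≤ 2 := hR ▸ sq_le_two hz0 hy0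
  rw [← hR]
  obtain ⟨s, hs⟩ : ∃ s, s = Real.sqrt R / 48 := ⟨_, rfl⟩
  have hs0 : 0 ≤ s := by rw [hs]; positivity
  have hs2 : s ^ 2 = R / 2304 := by
    rw [hs, div_pow, Real.sq_sqrt hR0]
    norm_num
  have hs1 : s ≤ 1 / 2 := by
    by_contra hc
    push Not at hc
    nlinarith
  have hz0' := hz0
  have hy0' := hy0
  unfold Om at hz0' hy0'
  rw [Set.mem_prod, Set.mem_Icc, Set.mem_Icc] at hz0' hy0'
  obtain ⟨⟨z1, z2⟩, z3, z4⟩ := hz0'
  obtain ⟨⟨y1, y2⟩, y3, y4⟩ := hy0'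
  obtain ⟨a, a0, a1, ha⟩ := exists_sub (z0.1 + (y0.1 - z0.1) / 4) s (by linarith) (by linarith)
    hs0 hs1
  obtain ⟨b, b0, b1, hb⟩ := exists_sub (z0.2 + (y0.2 - z0.2) / 4) s (by linarith) (by linarith)
    hs0 hs1
  obtain ⟨W, hW⟩ : ∃ W : Set R2, W = Set.Icc a (a + s) ×ˢ Set.Icc b (b + s) := ⟨_, rfl⟩
  have hWm : MeasurableSet W := by rw [hW]; exact measurableSet_Icc.prod measurableSet_Icc
  have hWO : W ⊆ Om := by
    rw [hW]
    rintro z ⟨h1, h2⟩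
    rw [Set.mem_Icc] at h1 h2
    exact ⟨⟨by linarith, by linarith⟩, by linarith, by linarith⟩
  have hWP : P.real W = s ^ 2 := by
    have h1 : P W = volume W := by
      unfold P
      rw [Measure.restrict_apply hWm, Set.inter_eq_left.2 hWO]
    rw [Measure.real, h1, hW, Measure.volume_eq_prod, Measure.prod_prod, Real.volume_Icc,
      Real.volume_Icc, add_sub_cancel_left, add_sub_cancel_left, ENNReal.toReal_mul,
      ENNReal.toReal_ofReal hs0]
    ring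
  have hfm : Measurable fun u : R2 => sq u (x (τ u)) := by
    have h1 : Measurable fun u : R2 => x (τ u) := (measurable_of_countable x).comp hτ
    exact continuous_sq.measurable.comp (measurable_id.prodMk h1)
  have hfi : Integrable (fun u : R2 => sq u (x (τ u))) P := by
    refine Integrable.of_bound hfm.aestronglyMeasurable 2 ?_
    filter_upwards [ae_Om] with u hu
    rw [Real.norm_eq_abs, abs_of_nonneg (sq_nonneg' _ _)]
    exact sq_le_two hu (hx _)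
  have hkey : ∀ u ∈ W, R / 5 ≤ sq u (x (τ u)) := by
    intro u hu
    rw [hW] at hu
    obtain ⟨h1, h2⟩ := hu
    have h3 := ha u.1 h1.1 h1.2
    have h4 := hb u.2 h2.1 h2.2
    have h5 := hmono u z0
    rw [← hy0e] at h5
    obtain ⟨y, hy⟩ : ∃ y, y = x (τ u) := ⟨_, rfl⟩
    rw [← hy] at h5 ⊢
    have h6 := alg (y0.1 - z0.1) (y0.2 - z0.2) (u.1 - (z0.1 + (y0.1 - z0.1) / 4))
      (u.2 - (z0.2 + (y0.2 - z0.2) / 4)) (y.1 - u.1) (y.2 - u.2) ?_ ?_
    · have h7 : R = (y0.1 - z0.1) ^ 2 + (y0.2 - z0.2) ^ 2 := by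
        rw [hR]
        unfold sq
        ring
      have h8 : sq u y = (y.1 - u.1) ^ 2 + (y.2 - u.2) ^ 2 := by
        unfold sq
        ring
      rw [h8, h7]
      linarith
    · have h7 : R = (y0.1 - z0.1) ^ 2 + (y0.2 - z0.2) ^ 2 := by
        rw [hR]
        unfold sq
        ring
      rw [← h7]
      have h9 := sq_le_sq' (abs_le.1 h3).1 (abs_le.1 h3).2
      have h10 := sq_le_sq' (abs_le.1 h4).1 (abs_le.1 h4).2
      linarith
    · unfold sq at h5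
      nlinarith
  have hint : R / 5 * s ^ 2 ≤ ∫ u, sq u (x (τ u)) ∂P := by
    have h1 : ∫ u, W.indicator (fun _ => R / 5) u ∂P = R / 5 * s ^ 2 := by
      rw [integral_indicator hWm, setIntegral_const, hWP, smul_eq_mul, mul_comm]
    rw [← h1]
    refine integral_mono ((integrable_const _).indicator hWm) hfi fun u => ?_
    by_cases hu : u ∈ W
    · rw [Set.indicator_of_mem hu]
      exact hkey u hu
    · rw [Set.indicator_of_notMem hu]
      exact sq_nonneg' _ _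
  rw [hs2] at hint
  nlinarith

end Pool.Agent.N940.OT.Dsp
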