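import Pool.Agent.N940.OT.Basic

/-!
# The dyadic bound for the cost (project OT, by helper433)
-/

set_option autoImplicit false

open MeasureTheory Filter Topology Finset ProbabilityTheory
open scoped ENNReal NNReal

namespace Pool.Agent.N940.OT.Dy

/-- the half open unit square -/
def U : Set R2 := Set.Ico (0 : ℝ) 1 ×ˢ Set.Ico (0 : ℝ) 1

theorem measurableSet_U : MeasurableSet U := measurableSet_Ico.prod measurableSet_Ico

theorem U_sub_Om : U ⊆ Om := Set.prod_mono Set.Ico_subset_Icc_self Set.Ico_subset_Icc_self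

theorem P_eq_U : P = volume.restrict U := by
  unfold P Om U
  apply Measure.restrict_congr_set
  rw [Measure.volume_eq_prod]
  exact Measure.set_prod_ae_eq Ico_ae_eq_Icc.symm Ico_ae_eq_Icc.symm

theorem ae_U : ∀ᵐ z ∂P, z ∈ U := by
  rw [P_eq_U]
  exact ae_restrict_mem measurableSet_U

/-! ### the distance -/

/-- the Euclidean distance -/
noncomputable def dd (z w : R2) : ℝ := Real.sqrt (sq z w)

theorem dd_nonneg (z w : R2) : 0 ≤ dd z w := Real.sqrt_nonneg _

theorem dd_sq (z w : R2) : dd z w ^ 2 = sq z w := Real.sq_sqrt (sq_nonneg' z w)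

theorem dd_eq (z w : R2) : dd z w = ‖(⟨z.1 - w.1, z.2 - w.2⟩ : ℂ)‖ := by
  unfold dd sq
  rw [Complex.norm_def, Complex.normSq_mk]
  congr 1
  ring

theorem dd_tri (z u w : R2) : dd z w ≤ dd z u + dd u w := by
  rw [dd_eq, dd_eq, dd_eq]
  refine le_trans (le_of_eq ?_) (norm_add_le _ _)
  congr 1
  apply Complex.ext <;> simp

theorem dd_comm (z w : R2) : dd z w = dd w z := by
  unfold dd
  rw [sq_comm']

theorem dd_le {z w : R2} (hz : z ∈ U) (hw : w ∈ U) : dd z w ≤ 2 := by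
  unfold dd
  rw [Real.sqrt_le_left (by norm_num)]
  have := sq_le_two (U_sub_Om hz) (U_sub_Om hw)
  linarith

theorem meas_dd {S S' : R2 → R2} (hS : Measurable S) (hS' : Measurable S') :
    Measurable fun z => dd (S z) (S' z) := by
  unfold dd
  exact (continuous_sq.measurable.comp (hS.prodMk hS')).sqrt

/-! ### the inequality of Minkowski -/

theorem int_of_bdd {f : R2 → ℝ} (hf : Measurable f) {C : ℝ} (h : ∀ᵐ z ∂P, |f z| ≤ C) :
    Integrable f P :=
  Integrable.of_bound hf.aestronglyMeasurable C (h.mono fun z hz => by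
    rwa [Real.norm_eq_abs])

theorem mink {f g : R2 → ℝ} (hf : Measurable f) (hg : Measurable g) {C : ℝ}
    (hf0 : ∀ z, 0 ≤ f z) (hg0 : ∀ z, 0 ≤ g z) (hfC : ∀ᵐ z ∂P, f z ≤ C)
    (hgC : ∀ᵐ z ∂P, g z ≤ C) :
    Real.sqrt (∫ z, (f z + g z) ^ 2 ∂P) ≤
      Real.sqrt (∫ z, f z ^ 2 ∂P) + Real.sqrt (∫ z, g z ^ 2 ∂P) := by
  have i1 : Integrable (fun z => f z ^ 2) P := int_of_bdd (hf.pow_const 2) (C := C ^ 2)
    (hfC.mono fun z hz => by
      rw [abs_of_nonneg (sq_nonneg _)]
      exact pow_le_pow_left₀ (hf0 z) hz 2)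
  have i2 : Integrable (fun z => g z ^ 2) P := int_of_bdd (hg.pow_const 2) (C := C ^ 2)
    (hgC.mono fun z hz => by
      rw [abs_of_nonneg (sq_nonneg _)]
      exact pow_le_pow_left₀ (hg0 z) hz 2)
  have i3 : Integrable (fun z => f z * g z) P := int_of_bdd (hf.mul hg) (C := C * C) (by
    filter_upwards [hfC, hgC] with z h1 h2
    rw [abs_of_nonneg (mul_nonneg (hf0 z) (hg0 z))]
    exact mul_le_mul h1 h2 (hg0 z) ((hf0 z).trans h1))
  obtain ⟨A, hA⟩ : ∃ A : ℝ, A = ∫ z, f z ^ 2 ∂P := ⟨_, rfl⟩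
  obtain ⟨B, hB⟩ : ∃ B : ℝ, B = ∫ z, f z * g z ∂P := ⟨_, rfl⟩
  obtain ⟨D, hD⟩ : ∃ D : ℝ, D = ∫ z, g z ^ 2 ∂P := ⟨_, rfl⟩
  have hA0 : 0 ≤ A := by rw [hA]; exact integral_nonneg fun z => sq_nonneg _
  have hD0 : 0 ≤ D := by rw [hD]; exact integral_nonneg fun z => sq_nonneg _
  have e : ∀ t : ℝ, ∫ z, (f z + t * g z) ^ 2 ∂P = A + 2 * t * B + t ^ 2 * D := by
    intro t
    have e1 : ∀ z, (f z + t * g z) ^ 2 = f z ^ 2 + 2 * t * (f z * g z) + t ^ 2 * g z ^ 2 :=
      fun z => by ring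
    have i4 : Integrable (fun z => f z ^ 2 + 2 * t * (f z * g z)) P := i1.add (i3.const_mul _)
    simp_rw [e1]
    rw [integral_add i4 (i2.const_mul _), integral_add i1 (i3.const_mul _),
      integral_const_mul, integral_const_mul, ← hA, ← hB, ← hD]
  have hq : ∀ t : ℝ, 0 ≤ D * (t * t) + (2 * B) * t + A := by
    intro t
    have h : 0 ≤ ∫ z, (f z + t * g z) ^ 2 ∂P := integral_nonneg fun z => sq_nonneg _
    rw [e t] at h
    linarith
  have hd := discrim_le_zero hq
  unfold discrim at hd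
  have hB2 : B ≤ Real.sqrt A * Real.sqrt D := by
    rw [← Real.sqrt_mul hA0]
    apply Real.le_sqrt_of_sq_le
    linarith
  have e2 : ∫ z, (f z + g z) ^ 2 ∂P = A + 2 * B + D := by
    have := e 1
    simp only [one_mul, mul_one, one_pow] at this
    exact this
  rw [e2, ← hA, ← hD, Real.sqrt_le_left (by positivity)]
  have h1 := Real.sq_sqrt hA0
  have h2 := Real.sq_sqrt hD0
  nlinarith

/-! ### the steps -/

/-- the property which is passed on by the induction -/
def Good (μ : Measure R2) (c : ℝ) : Prop := ∃ S : R2 → R2, Measurable S ∧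
  Measure.map S P = μ ∧ (∀ z ∈ U, S z ∈ U) ∧ Real.sqrt (∫ z, sq (S z) z ∂P) ≤ c

theorem good_step {μ ν : Measure R2} {c X : ℝ} (h : Good μ c)
    (hs : ∃ s : R2 → R2, Measurable s ∧ Measure.map s μ = ν ∧ (∀ z ∈ U, s z ∈ U) ∧
      ∫ z, sq (s z) z ∂μ ≤ X) : Good ν (c + Real.sqrt X) := by
  obtain ⟨S, hS, hSm, hSU, hSc⟩ := h
  obtain ⟨s, hs, hsm, hsU, hsc⟩ := hs
  refine ⟨fun z => s (S z), hs.comp hS, ?_, fun z hz => hsU _ (hSU z hz), ?_⟩
  · rw [← hsm, ← hSm, Measure.map_map hs hS]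
    rfl
  · have m1 : Measurable fun z => dd (s (S z)) (S z) := meas_dd (hs.comp hS) hS
    have m2 : Measurable fun z => dd (S z) z := meas_dd hS measurable_id
    have b1 : ∀ᵐ z ∂P, dd (s (S z)) (S z) ≤ 2 := ae_U.mono fun z hz =>
      dd_le (hsU _ (hSU z hz)) (hSU z hz)
    have b2 : ∀ᵐ z ∂P, dd (S z) z ≤ 2 := ae_U.mono fun z hz => dd_le (hSU z hz) hz
    have h1 := mink m1 m2 (fun z => dd_nonneg _ _) (fun z => dd_nonneg _ _) b1 b2
    have h2 : ∫ z, sq (s (S z)) z ∂P ≤ ∫ z, (dd (s (S z)) (S z) + dd (S z) z) ^ 2 ∂P := by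
      apply integral_mono_of_nonneg (Eventually.of_forall fun z => sq_nonneg' _ _)
      · refine int_of_bdd ((m1.add m2).pow_const 2) (C := 4 ^ 2) ?_
        filter_upwards [b1, b2] with z h3 h4
        rw [abs_of_nonneg (sq_nonneg _)]
        refine pow_le_pow_left₀ (add_nonneg (dd_nonneg _ _) (dd_nonneg _ _)) (by linarith) 2
      · refine Eventually.of_forall fun z => ?_
        simp only
        rw [← dd_sq]
        exact pow_le_pow_left₀ (dd_nonneg _ _) (dd_tri _ _ _) 2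
    have h3 : ∫ z, dd (s (S z)) (S z) ^ 2 ∂P ≤ X := by
      refine le_trans (le_of_eq ?_) hsc
      rw [← hSm, integral_map hS.aemeasurable]
      · exact integral_congr_ae (Eventually.of_forall fun z => dd_sq _ _)
      · exact (continuous_sq.measurable.comp (hs.prodMk measurable_id)).aestronglyMeasurable
    have h4 : ∫ z, dd (S z) z ^ 2 ∂P = ∫ z, sq (S z) z ∂P :=
      integral_congr_ae (Eventually.of_forall fun z => dd_sq _ _)
    rw [h4] at h1
    calc Real.sqrt (∫ z, sq (s (S z)) z ∂P) ≤ _ := Real.sqrt_le_sqrt h2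
      _ ≤ _ := h1
      _ ≤ Real.sqrt X + c := add_le_add (Real.sqrt_le_sqrt h3) hSc
      _ = _ := add_comm _ _

theorem cell_zero : cell 0 0 0 0 = U := by
  unfold cell U
  simp

theorem PM_zero {n : ℕ} (hn : 1 ≤ n) {x : Fin n → R2} (hx : ∀ i, x i ∈ U) : PM n x 0 0 = P := by
  have h1 : cnt n x 0 0 0 0 = n := by
    unfold cnt
    rw [cell_zero, Finset.sum_congr rfl (g := fun _ => (1 : ℝ)) fun i _ => by
      rw [Set.indicator_of_mem (hx i)]]
    simp
  have hn0 : (n : ℝ) ≠ 0 := by exact_mod_cast (by omega : n ≠ 0)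
  unfold PM
  rw [P_eq_U]
  simp only [pow_zero, Finset.range_one, Finset.sum_singleton, add_zero, mul_one]
  rw [h1, div_self hn0, ENNReal.ofReal_one, one_smul, cell_zero]

theorem good_zero {n : ℕ} (hn : 1 ≤ n) {x : Fin n → R2} (hx : ∀ i, x i ∈ U) :
    Good (PM n x 0 0) 0 := by
  refine ⟨id, measurable_id, by rw [Measure.map_id, PM_zero hn hx], fun z hz => hz, ?_⟩
  simp [sq_self']

theorem good_all (hS : S_STEP) {n : ℕ} (hn : 1 ≤ n) {x : Fin n → R2} (hx : ∀ i, x i ∈ U)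
    (J : ℕ) : Good (PM n x J J) (∑ j ∈ range J, (Real.sqrt (SX n x j j) +
      Real.sqrt (SY n x (j + 1) j))) := by
  induction J with
  | zero => simpa using good_zero hn hx
  | succ J ih =>
    rw [Finset.sum_range_succ, ← add_assoc]
    exact good_step (good_step ih (hS n x J J hn hx).1) (hS n x (J + 1) J hn hx).2

/-! ### the cells -/

/-- the index of the cell of a point -/
noncomputable def ix (J : ℕ) (w : R2) : ℕ × ℕ := (⌊w.1 * 2 ^ J⌋₊, ⌊w.2 * 2 ^ J⌋₊)

theorem mem_cell {J a b : ℕ} {w : R2} (hw : w ∈ U) : w ∈ cell J J a b ↔ ix J w = (a, b) := by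
  have hM : (0 : ℝ) < 2 ^ J := by positivity
  obtain ⟨⟨h1, h2⟩, h3, h4⟩ := hw
  unfold cell ix
  rw [Set.mem_prod, Set.mem_Ico, Set.mem_Ico, Prod.mk_inj, Nat.floor_eq_iff (by positivity),
    Nat.floor_eq_iff (by positivity), div_le_iff₀ hM, lt_div_iff₀ hM, div_le_iff₀ hM,
    lt_div_iff₀ hM]

theorem cell_sub {J a b : ℕ} (ha : a < 2 ^ J) (hb : b < 2 ^ J) : cell J J a b ⊆ U := by
  have hM : (0 : ℝ) < 2 ^ J := by positivity
  have ha' : (a : ℝ) + 1 ≤ 2 ^ J := by exact_mod_cast ha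
  have hb' : (b : ℝ) + 1 ≤ 2 ^ J := by exact_mod_cast hb
  rintro w ⟨⟨h1, h2⟩, h3, h4⟩
  refine ⟨⟨le_trans (by positivity) h1, lt_of_lt_of_le h2 ?_⟩,
    le_trans (by positivity) h3, lt_of_lt_of_le h4 ?_⟩
  · rwa [div_le_one hM]
  · rwa [div_le_one hM]

theorem ix_lt {J : ℕ} {w : R2} (hw : w ∈ U) : (ix J w).1 < 2 ^ J ∧ (ix J w).2 < 2 ^ J := by
  have hM : (0 : ℝ) < 2 ^ J := by positivity
  obtain ⟨⟨h1, h2⟩, h3, h4⟩ := hw
  unfold ix
  constructor
  · rw [Nat.floor_lt (by positivity)]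
    push_cast
    nlinarith
  · rw [Nat.floor_lt (by positivity)]
    push_cast
    nlinarith

theorem meas_cell (p q a b : ℕ) : MeasurableSet (cell p q a b) :=
  measurableSet_Ico.prod measurableSet_Ico

theorem vol_cell (J a b : ℕ) : volume (cell J J a b) =
    ENNReal.ofReal (1 / 2 ^ J) * ENNReal.ofReal (1 / 2 ^ J) := by
  unfold cell
  rw [Measure.volume_eq_prod, Measure.prod_prod, Real.volume_Ico, Real.volume_Ico]
  congr 2 <;> ring

/-- the number of points in a cell -/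
noncomputable def cN (n : ℕ) (x : Fin n → R2) (J : ℕ) (q : ℕ × ℕ) : ℕ :=
  (univ.filter fun i => ix J (x i) = q).card

theorem cnt_eq {n : ℕ} {x : Fin n → R2} (hx : ∀ i, x i ∈ U) (J a b : ℕ) :
    cnt n x J J a b = cN n x J (a, b) := by
  unfold cnt cN
  rw [Finset.card_eq_sum_ones, Finset.sum_filter]
  push_cast
  refine Finset.sum_congr rfl fun i _ => ?_
  by_cases h : ix J (x i) = (a, b)
  · rw [if_pos h, Set.indicator_of_mem ((mem_cell (hx i)).2 h)]
  · rw [if_neg h, Set.indicator_of_notMem fun h' => h ((mem_cell (hx i)).1 h')]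

theorem PM_cell {n : ℕ} {x : Fin n → R2} (hx : ∀ i, x i ∈ U) {J a b : ℕ}
    (ha : a < 2 ^ J) (hb : b < 2 ^ J) :
    PM n x J J (cell J J a b) = (cN n x J (a, b) : ℝ≥0∞) / n := by
  have hne : ∀ a' b' : ℕ, a' < 2 ^ J → b' < 2 ^ J → (a', b') ≠ (a, b) →
      cell J J a b ∩ cell J J a' b' = ∅ := by
    intro a' b' ha' hb' h
    ext w
    simp only [Set.mem_inter_iff, Set.mem_empty_iff_false, iff_false, not_and]
    intro h1 h2
    have hw := cell_sub ha hb h1
    exact h (((mem_cell hw).1 h2).symm.trans ((mem_cell hw).1 h1))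
  unfold PM
  rw [Measure.finsetSum_apply, Finset.sum_eq_single a, Measure.finsetSum_apply,
    Finset.sum_eq_single b]
  · rw [Measure.smul_apply, Measure.restrict_apply (meas_cell _ _ _ _), Set.inter_self, vol_cell,
      smul_eq_mul, ← ENNReal.ofReal_mul (by positivity), cnt_eq hx, ← ENNReal.ofReal_mul (by positivity)]
    have e : (cN n x J (a, b) : ℝ) / n * 2 ^ (J + J) * (1 / 2 ^ J * (1 / 2 ^ J)) =
        (cN n x J (a, b) : ℝ) / n := by
      rw [pow_add]
      field_simp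
    rw [e]
    rcases Nat.eq_zero_or_pos n with h0 | h0
    · subst h0
      have : cN 0 x J (a, b) = 0 := by
        unfold cN
        simp
      rw [this]
      simp
    · rw [ENNReal.ofReal_div_of_pos (by exact_mod_cast h0), ENNReal.ofReal_natCast,
        ENNReal.ofReal_natCast]
  · intro b' hb' hbb
    rw [Measure.smul_apply, Measure.restrict_apply (meas_cell _ _ _ _),
      hne a b' ha (Finset.mem_range.1 hb') (fun h => hbb (Prod.mk_inj.1 h).2), measure_empty,
      smul_zero]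
  · intro h
    exact absurd (Finset.mem_range.2 hb) h
  · intro a' ha' haa
    rw [Measure.finsetSum_apply]
    refine Finset.sum_eq_zero fun b' hb' => ?_
    rw [Measure.smul_apply, Measure.restrict_apply (meas_cell _ _ _ _),
      hne a' b' (Finset.mem_range.1 ha') (Finset.mem_range.1 hb')
        (fun h => haa (Prod.mk_inj.1 h).1), measure_empty, smul_zero]
  · intro h
    exact absurd (Finset.mem_range.2 ha) h

/-! ### the coupling -/

/-- the cost of a splitting of `P` -/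
theorem T_le {n : ℕ} {x : Fin n → R2} (hx : ∀ i, x i ∈ U) (μ : Fin n → Measure R2)
    (h1 : ∀ i, μ i Set.univ = (n : ℝ≥0∞)⁻¹) (h2 : ∑ i, μ i = P) :
    T n x ≤ ∑ i, ∫ z, sq (x i) z ∂μ i := by
  have hmi : ∀ i, Measurable fun z : R2 => (x i, z) := fun i => by fun_prop
  have hle : ∀ i, μ i ≤ P := fun i => by
    rw [← h2]
    exact Finset.single_le_sum (fun j _ => Measure.zero_le _) (Finset.mem_univ i)
  have hae : ∀ i, ∀ᵐ z ∂μ i, z ∈ U := fun i =>
    (Measure.absolutelyContinuous_of_le (hle i)).ae_le ae_U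
  have hfin : ∀ i, IsFiniteMeasure (μ i) := fun i => ⟨lt_of_le_of_lt (hle i _) (measure_lt_top P _)⟩
  unfold T cost
  refine csInf_le ⟨0, ?_⟩ ⟨∑ i, (μ i).map (fun z => (x i, z)), ?_, ?_, ?_⟩
  · rintro _ ⟨π, -, -, rfl⟩
    exact integral_nonneg fun p => sq_nonneg' _ _
  · unfold emp
    rw [Measure.map_finset_sum measurable_fst.aemeasurable, Finset.smul_sum]
    refine Finset.sum_congr rfl fun i _ => ?_
    rw [Measure.map_map measurable_fst (hmi i)]
    have e : (Prod.fst ∘ fun z : R2 => (x i, z)) = fun _ => x i := rfl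
    rw [e, Measure.map_const, h1]
  · rw [Measure.map_finset_sum measurable_snd.aemeasurable, ← h2]
    refine Finset.sum_congr rfl fun i _ => ?_
    rw [Measure.map_map measurable_snd (hmi i)]
    exact Measure.map_id
  · rw [integral_finsetSum_measure]
    · refine Finset.sum_congr rfl fun i _ => ?_
      rw [integral_map (hmi i).aemeasurable continuous_sq.aestronglyMeasurable]
    · intro i _
      rw [integrable_map_measure continuous_sq.aestronglyMeasurable (hmi i).aemeasurable]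
      have := hfin i
      refine Integrable.of_bound ?_ 2 ?_
      · exact (continuous_sq.comp (by fun_prop : Continuous fun z : R2 => (x i, z))).aestronglyMeasurable
      · filter_upwards [hae i] with z hz
        rw [Function.comp, Real.norm_of_nonneg (sq_nonneg' _ _)]
        exact sq_le_two (U_sub_Om (hx i)) (U_sub_Om hz)

theorem final {n : ℕ} (hn : 1 ≤ n) {x : Fin n → R2} (hx : ∀ i, x i ∈ U) {J : ℕ} {c : ℝ}
    (h : Good (PM n x J J) c) : Real.sqrt (T n x) ≤ c + 2 / 2 ^ J := by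
  obtain ⟨S, hS, hSm, hSU, hSc⟩ := h
  have hn0 : (n : ℝ≥0∞) ≠ 0 := by exact_mod_cast (by omega : n ≠ 0)
  set C : ℕ × ℕ → Set R2 := fun q => cell J J q.1 q.2 with hC
  set N : ℕ × ℕ → ℕ := cN n x J with hN
  set R : Finset (ℕ × ℕ) := range (2 ^ J) ×ˢ range (2 ^ J) with hR
  have hmem : ∀ i, ix J (x i) ∈ R := fun i => by
    rw [hR, mem_product, mem_range, mem_range]
    exact ix_lt (hx i)
  have hPC : ∀ q ∈ R, P (S ⁻¹' C q) = (N q : ℝ≥0∞) / n := by
    intro q hq
    rw [hR, mem_product, mem_range, mem_range] at hq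
    rw [← Measure.map_apply hS (meas_cell _ _ _ _), hSm, PM_cell hx hq.1 hq.2]
  have hNpos : ∀ i, N (ix J (x i)) ≠ 0 := by
    intro i
    have : 0 < N (ix J (x i)) := Finset.card_pos.2 ⟨i, by simp⟩
    omega
  set μ : Fin n → Measure R2 := fun i =>
    ((N (ix J (x i)) : ℝ≥0∞))⁻¹ • P.restrict (S ⁻¹' C (ix J (x i))) with hμ
  have h1 : ∀ i, μ i Set.univ = (n : ℝ≥0∞)⁻¹ := by
    intro i
    rw [hμ]
    simp only
    rw [Measure.smul_apply, Measure.restrict_apply_univ, hPC _ (hmem i), smul_eq_mul, div_eq_mul_inv,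
      ← mul_assoc, ENNReal.inv_mul_cancel (by exact_mod_cast hNpos i) (ENNReal.natCast_ne_top _),
      one_mul]
  have h2 : ∑ i, μ i = P := by
    ext A hA
    rw [Measure.finsetSum_apply]
    have e1 : ∀ i : Fin n, μ i A = ((N (ix J (x i)) : ℝ≥0∞))⁻¹ * P (A ∩ S ⁻¹' C (ix J (x i))) := by
      intro i
      rw [hμ]
      simp only
      rw [Measure.smul_apply, Measure.restrict_apply hA, smul_eq_mul]
    rw [Finset.sum_congr rfl fun i _ => e1 i,
      ← Finset.sum_fiberwise_of_maps_to (s := univ) (t := R) (g := fun i => ix J (x i))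
        (fun i _ => hmem i)]
    have e2 : ∀ q ∈ R, ∑ i ∈ univ.filter (fun i => ix J (x i) = q),
        ((N (ix J (x i)) : ℝ≥0∞))⁻¹ * P (A ∩ S ⁻¹' C (ix J (x i))) = P (A ∩ S ⁻¹' C q) := by
      intro q hq
      rw [Finset.sum_congr rfl (g := fun _ => ((N q : ℝ≥0∞))⁻¹ * P (A ∩ S ⁻¹' C q)) fun i hi => by
        rw [(Finset.mem_filter.1 hi).2], Finset.sum_const, nsmul_eq_mul]
      have e3 : ((univ.filter (fun i => ix J (x i) = q)).card : ℝ≥0∞) = (N q : ℝ≥0∞) := rfl
      rw [e3]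
      by_cases h0 : N q = 0
      · have h3 : P (S ⁻¹' C q) = 0 := by rw [hPC q hq, h0]; simp
        have h4 : P (A ∩ S ⁻¹' C q) = 0 := measure_mono_null Set.inter_subset_right h3
        rw [h4, mul_zero, mul_zero]
      · rw [← mul_assoc, ENNReal.mul_inv_cancel (by exact_mod_cast h0) (ENNReal.natCast_ne_top _),
          one_mul]
    rw [Finset.sum_congr rfl e2, ← measure_biUnion_finset]
    · apply measure_congr
      filter_upwards [ae_U] with z hz
      apply propext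
      change (z ∈ ⋃ q ∈ R, A ∩ S ⁻¹' C q) ↔ z ∈ A
      rw [Set.mem_iUnion₂]
      constructor
      · rintro ⟨q, -, h3, -⟩
        exact h3
      · intro h3
        refine ⟨ix J (S z), ?_, h3, ?_⟩
        · rw [hR, mem_product, mem_range, mem_range]
          exact ix_lt (hSU z hz)
        · exact (mem_cell (hSU z hz)).2 rfl
    · intro q hq q' hq' hqq
      rw [Function.onFun, Set.disjoint_left]
      rintro z ⟨-, h3⟩ ⟨-, h4⟩
      rw [hR, Finset.mem_coe, mem_product, mem_range, mem_range] at hq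
      have hw := cell_sub hq.1 hq.2 h3
      exact hqq (((mem_cell hw).1 h3).symm.trans ((mem_cell hw).1 h4))
    · intro q _
      exact hA.inter (hS (meas_cell _ _ _ _))
  have h3 := T_le hx μ h1 h2
  have m2 : Measurable fun z => dd (S z) z := meas_dd hS measurable_id
  have b2 : ∀ᵐ z ∂P, dd (S z) z ≤ 2 := ae_U.mono fun z hz => dd_le (hSU z hz) hz
  have hJ : (2 : ℝ) / 2 ^ J ≤ 2 := by
    apply div_le_self (by norm_num)
    exact one_le_pow₀ (by norm_num)
  have iG : Integrable (fun z => (dd (S z) z + 2 / 2 ^ J) ^ 2) P := by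
    refine int_of_bdd ((m2.add measurable_const).pow_const 2) (C := 4 ^ 2) ?_
    filter_upwards [b2] with z h4
    rw [abs_of_nonneg (sq_nonneg _)]
    exact pow_le_pow_left₀ (add_nonneg (dd_nonneg _ _) (by positivity)) (by linarith) 2
  have hle : ∀ i, μ i ≤ P := fun i => by
    rw [← h2]
    exact Finset.single_le_sum (fun j _ => Measure.zero_le _) (Finset.mem_univ i)
  have iGi : ∀ i, Integrable (fun z => (dd (S z) z + 2 / 2 ^ J) ^ 2) (μ i) := fun i =>
    iG.mono_measure (hle i)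
  have h4 : ∑ i, ∫ z, sq (x i) z ∂μ i ≤ ∫ z, (dd (S z) z + 2 / 2 ^ J) ^ 2 ∂P := by
    have e1 : ∫ z, (dd (S z) z + 2 / 2 ^ J) ^ 2 ∂P =
        ∑ i, ∫ z, (dd (S z) z + 2 / 2 ^ J) ^ 2 ∂μ i := by
      conv_lhs => rw [← h2]
      exact integral_finsetSum_measure fun i _ => iGi i
    rw [e1]
    refine Finset.sum_le_sum fun i _ => ?_
    refine integral_mono_of_nonneg (Eventually.of_forall fun z => sq_nonneg' _ _) (iGi i) ?_
    have hae : ∀ᵐ z ∂μ i, z ∈ S ⁻¹' C (ix J (x i)) := by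
      rw [hμ]
      simp only
      exact Measure.ae_smul_measure (ae_restrict_mem (hS (meas_cell _ _ _ _))) _
    filter_upwards [hae] with z hz
    have hz' : S z ∈ cell J J (ix J (x i)).1 (ix J (x i)).2 := hz
    have hxi : x i ∈ cell J J (ix J (x i)).1 (ix J (x i)).2 := (mem_cell (hx i)).2 rfl
    have h5 : dd (x i) (S z) ≤ 2 / 2 ^ J := by
      unfold dd
      rw [Real.sqrt_le_left (by positivity)]
      have key : ∀ (k : ℕ) (s t : ℝ), s ∈ Set.Ico ((k : ℝ) / 2 ^ J) ((k + 1) / 2 ^ J) →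
          t ∈ Set.Ico ((k : ℝ) / 2 ^ J) ((k + 1) / 2 ^ J) → (s - t) ^ 2 ≤ (1 / 2 ^ J) ^ 2 := by
        intro k s t hs ht
        have e : ((k : ℝ) + 1) / 2 ^ J = k / 2 ^ J + 1 / 2 ^ J := by ring
        rw [e] at hs ht
        apply sq_le_sq'
        · linarith [hs.1, ht.2]
        · linarith [hs.2, ht.1]
      have k1 := key _ _ _ hxi.1 hz'.1
      have k2 := key _ _ _ hxi.2 hz'.2
      unfold sq
      have e : ((2 : ℝ) / 2 ^ J) ^ 2 = 4 * (1 / 2 ^ J) ^ 2 := by ring
      rw [e]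
      have : 0 ≤ ((1 : ℝ) / 2 ^ J) ^ 2 := sq_nonneg _
      linarith
    rw [← dd_sq]
    refine pow_le_pow_left₀ (dd_nonneg _ _) ?_ 2
    linarith [dd_tri (x i) (S z) z]
  have h5 := mink (f := fun z => dd (S z) z) (g := fun _ => 2 / 2 ^ J) (C := 2) m2
    measurable_const (fun z => dd_nonneg _ _) (fun z => by positivity) b2
    (Eventually.of_forall fun _ => hJ)
  have h6 : Real.sqrt (∫ z : R2, ((2 : ℝ) / 2 ^ J) ^ 2 ∂P) = 2 / 2 ^ J := by
    rw [integral_const, probReal_univ, one_smul, Real.sqrt_sq (by positivity)]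
  have h7 : ∫ z, dd (S z) z ^ 2 ∂P = ∫ z, sq (S z) z ∂P :=
    integral_congr_ae (Eventually.of_forall fun z => dd_sq _ _)
  rw [h6, h7] at h5
  calc Real.sqrt (T n x) ≤ _ := Real.sqrt_le_sqrt (h3.trans h4)
    _ ≤ _ := h5
    _ ≤ _ := by linarith

/-- **DY** -/
theorem main (hS : S_STEP) : S_DY := fun _ _ J hn hx => final hn hx (good_all hS hn hx J)

end Pool.Agent.N940.OT.Dy

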