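import Pool.Agent.N940.OT.Basic

/-!
# Efron-Stein inequality (project OT, part ES; helper749)
-/

set_option autoImplicit false

open MeasureTheory Filter Topology Finset

namespace Pool.Agent.N940.OT.Es

section gen

variable {E : Type} [MeasurableSpace E] (ν : Measure E) [IsProbabilityMeasure ν]

theorem bint {α : Type} [MeasurableSpace α] (μ : Measure α) [IsProbabilityMeasure μ] {f : α → ℝ}
    (hf : Measurable f) {C : ℝ} (h : ∀ x, |f x| ≤ C) : Integrable f μ :=
  Integrable.of_bound hf.aestronglyMeasurable C (Eventually.of_forall h)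

theorem bsq {C a b : ℝ} (ha : |a| ≤ C) (hb : |b| ≤ C) : |(a - b) ^ 2| ≤ (2 * C) ^ 2 := by
  rw [abs_pow]
  refine pow_le_pow_left₀ (abs_nonneg _) ?_ 2
  calc |a - b| ≤ |a| + |b| := abs_sub a b
    _ ≤ 2 * C := by linarith

theorem bintegral {α : Type} [MeasurableSpace α] (μ : Measure α) [IsProbabilityMeasure μ]
    {f : α → ℝ} {C : ℝ} (h : ∀ x, |f x| ≤ C) : |∫ x, f x ∂μ| ≤ C := by
  have h1 := norm_integral_le_of_norm_le_const (μ := μ) (f := f) (C := C)
    (Eventually.of_forall h)
  simpa using h1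

/-- the variance decomposition -/
theorem var_shift {α : Type} [MeasurableSpace α] (μ : Measure α) [IsProbabilityMeasure μ]
    {f : α → ℝ} (hf : Measurable f) {C : ℝ} (h : ∀ x, |f x| ≤ C) (m : ℝ) :
    ∫ x, (f x - m) ^ 2 ∂μ = ∫ x, (f x - ∫ u, f u ∂μ) ^ 2 ∂μ + (∫ u, f u ∂μ - m) ^ 2 := by
  set Φ : ℝ := ∫ u, f u ∂μ with hΦ
  have hi : Integrable f μ := bint μ hf h
  have h1 : Integrable (fun x => (f x - Φ) ^ 2) μ :=
    bint μ ((hf.sub_const Φ).pow_const 2) (fun x => bsq (h x) (bintegral μ h))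
  have h2 : Integrable (fun x => 2 * (Φ - m) * (f x - Φ)) μ :=
    (hi.sub (integrable_const Φ)).const_mul _
  have e : ∀ x, (f x - m) ^ 2 = ((f x - Φ) ^ 2 + 2 * (Φ - m) * (f x - Φ)) + (Φ - m) ^ 2 := by
    intro x; ring
  have h12 : Integrable (fun x => (f x - Φ) ^ 2 + 2 * (Φ - m) * (f x - Φ)) μ := h1.add h2
  simp_rw [e]
  rw [integral_add h12 (integrable_const _), integral_add h1 h2, integral_const_mul,
    integral_sub hi (integrable_const Φ), integral_const, integral_const]
  simp [← hΦ]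

theorem jensen {α : Type} [MeasurableSpace α] (μ : Measure α) [IsProbabilityMeasure μ]
    {f : α → ℝ} (hf : Measurable f) {C : ℝ} (h : ∀ x, |f x| ≤ C) :
    (∫ u, f u ∂μ) ^ 2 ≤ ∫ x, f x ^ 2 ∂μ := by
  have h1 := var_shift μ hf h 0
  simp only [sub_zero] at h1
  rw [h1]
  have : 0 ≤ ∫ x, (f x - ∫ u, f u ∂μ) ^ 2 ∂μ := integral_nonneg fun x => sq_nonneg _
  linarith

/-- the variance as a double integral -/
theorem var_double {α : Type} [MeasurableSpace α] (μ : Measure α) [IsProbabilityMeasure μ]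
    {f : α → ℝ} (hf : Measurable f) {C : ℝ} (h : ∀ x, |f x| ≤ C) :
    ∫ x, (f x - ∫ u, f u ∂μ) ^ 2 ∂μ = 1 / 2 * ∫ a, ∫ b, (f b - f a) ^ 2 ∂μ ∂μ := by
  set Φ : ℝ := ∫ u, f u ∂μ with hΦ
  have e : ∀ a, ∫ b, (f b - f a) ^ 2 ∂μ = ∫ x, (f x - Φ) ^ 2 ∂μ + (Φ - f a) ^ 2 := fun a =>
    var_shift μ hf h (f a)
  simp_rw [e]
  have h1 : Integrable (fun x => (Φ - f x) ^ 2) μ :=
    bint μ ((hf.const_sub Φ).pow_const 2) (fun x => bsq (bintegral μ h) (h x))
  rw [integral_add (integrable_const _) h1, integral_const]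
  have e2 : ∫ x, (Φ - f x) ^ 2 ∂μ = ∫ x, (f x - Φ) ^ 2 ∂μ :=
    integral_congr_ae (Eventually.of_forall fun x => by ring)
  rw [e2]
  simp only [probReal_univ, smul_eq_mul, one_mul]
  ring

variable {n : ℕ}

theorem meas_cons : Measurable (fun p : E × (Fin n → E) =>
    (Fin.cons p.1 p.2 : Fin (n + 1) → E)) := by
  rw [measurable_pi_iff]
  intro i
  refine Fin.cases ?_ (fun j => ?_) i
  · simp only [Fin.cons_zero]
    exact measurable_fst
  · simp only [Fin.cons_succ]
    exact (measurable_pi_apply j).comp measurable_snd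

theorem int_succ (G : (Fin (n + 1) → E) → ℝ) (hG : Measurable G) {C : ℝ} (h : ∀ x, |G x| ≤ C) :
    ∫ x, G x ∂(Measure.pi fun _ : Fin (n + 1) => ν)
      = ∫ a, ∫ r, G (Fin.cons a r) ∂(Measure.pi fun _ : Fin n => ν) ∂ν := by
  have hmp := (measurePreserving_piFinSuccAbove (fun _ : Fin (n + 1) => ν) 0).symm
  have h1 := hmp.integral_comp' G
  rw [← h1]
  have e : ∀ p : E × (Fin n → E),
      (MeasurableEquiv.piFinSuccAbove (fun _ : Fin (n + 1) => E) 0).symm p
        = (Fin.cons p.1 p.2 : Fin (n + 1) → E) := by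
    intro p
    show Fin.insertNth 0 p.1 p.2 = (Fin.cons p.1 p.2 : Fin (n + 1) → E)
    rw [Fin.insertNth_zero']
  simp_rw [e]
  rw [integral_prod]
  exact bint _ (hG.comp meas_cons) (fun p => h _)

theorem es_gen : ∀ (n : ℕ) (F : (Fin n → E) → ℝ) (C : ℝ), Measurable F → (∀ x, |F x| ≤ C) →
    ∫ x, (F x - ∫ u, F u ∂(Measure.pi fun _ : Fin n => ν)) ^ 2
      ∂(Measure.pi fun _ : Fin n => ν) ≤
    1 / 2 * ∑ i, ∫ x, ∫ y, (F (Function.update x i y) - F x) ^ 2 ∂ν
      ∂(Measure.pi fun _ : Fin n => ν) := by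
  intro n
  induction n with
  | zero =>
    intro F C hF hC
    have h1 : ∀ x : Fin 0 → E, F x = F default := fun x => by rw [Subsingleton.elim x default]
    have h2 : ∀ x : Fin 0 → E,
        (F x - ∫ u, F u ∂(Measure.pi fun _ : Fin 0 => ν)) ^ 2 = 0 := by
      intro x
      simp_rw [h1]
      simp
    simp_rw [h2]
    simp
  | succ n ih =>
    intro F C hF hC
    set π : Measure (Fin n → E) := Measure.pi fun _ : Fin n => ν with hπ
    set m : ℝ := ∫ u, F u ∂(Measure.pi fun _ : Fin (n + 1) => ν) with hm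
    have hFc : Measurable (fun p : E × (Fin n → E) => F (Fin.cons p.1 p.2)) := hF.comp meas_cons
    have hFa : ∀ a, Measurable (fun r : Fin n → E => F (Fin.cons a r)) := fun a =>
      hFc.comp measurable_prodMk_left
    set Φ : E → ℝ := fun a => ∫ r, F (Fin.cons a r) ∂π with hΦ
    have hΦm : Measurable Φ := (hFc.stronglyMeasurable.integral_prod_right').measurable
    have hΦb : ∀ a, |Φ a| ≤ C := fun a => bintegral π fun r => hC _
    have hmΦ : m = ∫ a, Φ a ∂ν := int_succ ν F hF hC
    have hmb : |m| ≤ C := bintegral _ hC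
    -- left side
    have hL : ∫ x, (F x - m) ^ 2 ∂(Measure.pi fun _ : Fin (n + 1) => ν)
        = ∫ a, (∫ r, (F (Fin.cons a r) - Φ a) ^ 2 ∂π + (Φ a - m) ^ 2) ∂ν := by
      rw [int_succ ν (fun x => (F x - m) ^ 2) ((hF.sub_const m).pow_const 2)
        (fun x => bsq (hC x) hmb)]
      refine integral_congr_ae (Eventually.of_forall fun a => ?_)
      exact var_shift π (hFa a) (fun r => hC _) m
    -- inner measurable
    have hD : ∀ i : Fin (n + 1), Measurable (fun p : (Fin (n + 1) → E) × E =>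
        (F (Function.update p.1 i p.2) - F p.1) ^ 2) := by
      intro i
      refine Measurable.pow_const (Measurable.sub ?_ (hF.comp measurable_fst)) 2
      refine hF.comp ?_
      rw [measurable_pi_iff]
      intro j
      by_cases hji : j = i
      · subst hji
        simp only [Function.update_self]
        exact measurable_snd
      · simp only [Function.update_of_ne hji]
        exact (measurable_pi_apply j).comp measurable_fst
    have hDm : ∀ i : Fin (n + 1), Measurable (fun x : Fin (n + 1) → E =>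
        ∫ y, (F (Function.update x i y) - F x) ^ 2 ∂ν) := fun i =>
      ((hD i).stronglyMeasurable.integral_prod_right').measurable
    have hDb : ∀ (i : Fin (n + 1)) (x : Fin (n + 1) → E),
        |∫ y, (F (Function.update x i y) - F x) ^ 2 ∂ν| ≤ (2 * C) ^ 2 := fun i x =>
      bintegral ν fun y => bsq (hC _) (hC _)
    -- the terms of the right side
    have hA : ∀ i : Fin n, ∫ x, ∫ y, (F (Function.update x i.succ y) - F x) ^ 2 ∂ν
        ∂(Measure.pi fun _ : Fin (n + 1) => ν)
        = ∫ a, ∫ r, ∫ y, (F (Fin.cons a (Function.update r i y)) - F (Fin.cons a r)) ^ 2 ∂ν ∂π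
          ∂ν := by
      intro i
      rw [int_succ ν _ (hDm i.succ) (hDb i.succ)]
      simp_rw [Fin.cons_update]
      rfl
    have hA0 : ∫ x, ∫ y, (F (Function.update x 0 y) - F x) ^ 2 ∂ν
        ∂(Measure.pi fun _ : Fin (n + 1) => ν)
        = ∫ a, ∫ r, ∫ y, (F (Fin.cons y r) - F (Fin.cons a r)) ^ 2 ∂ν ∂π ∂ν := by
      rw [int_succ ν _ (hDm 0) (hDb 0)]
      simp_rw [Fin.update_cons_zero]
      rfl
    -- parametrised terms are measurable and bounded
    have hAm : ∀ i : Fin n, Measurable (fun a : E => ∫ r, ∫ y,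
        (F (Fin.cons a (Function.update r i y)) - F (Fin.cons a r)) ^ 2 ∂ν ∂π) := by
      intro i
      have h1 : Measurable (fun p : E × (Fin n → E) => ∫ y,
          (F (Fin.cons p.1 (Function.update p.2 i y)) - F (Fin.cons p.1 p.2)) ^ 2 ∂ν) := by
        have h2 := (hDm i.succ).comp (meas_cons (E := E) (n := n))
        have h3 : (fun p : E × (Fin n → E) => ∫ y,
          (F (Fin.cons p.1 (Function.update p.2 i y)) - F (Fin.cons p.1 p.2)) ^ 2 ∂ν)
          = (fun x : Fin (n + 1) → E => ∫ y, (F (Function.update x i.succ y) - F x) ^ 2 ∂ν) ∘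
            (fun p : E × (Fin n → E) => (Fin.cons p.1 p.2 : Fin (n + 1) → E)) := by
          funext p
          simp only [Function.comp, Fin.cons_update]
        rw [h3]
        exact h2
      exact (h1.stronglyMeasurable.integral_prod_right').measurable
    have hAb : ∀ (i : Fin n) (a : E), |∫ r, ∫ y,
        (F (Fin.cons a (Function.update r i y)) - F (Fin.cons a r)) ^ 2 ∂ν ∂π|
        ≤ (2 * C) ^ 2 := fun i a =>
      bintegral π fun r => bintegral ν fun y => bsq (hC _) (hC _)
    have hAi : ∀ i : Fin n, Integrable (fun a : E => ∫ r, ∫ y,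
        (F (Fin.cons a (Function.update r i y)) - F (Fin.cons a r)) ^ 2 ∂ν ∂π) ν := fun i =>
      bint ν (hAm i) (hAb i)
    -- the first part
    have hvm : Measurable (fun a : E => ∫ r, (F (Fin.cons a r) - Φ a) ^ 2 ∂π) := by
      have h1 : Measurable (fun p : E × (Fin n → E) => (F (Fin.cons p.1 p.2) - Φ p.1) ^ 2) :=
        (hFc.sub (hΦm.comp measurable_fst)).pow_const 2
      exact (h1.stronglyMeasurable.integral_prod_right').measurable
    have hvi : Integrable (fun a : E => ∫ r, (F (Fin.cons a r) - Φ a) ^ 2 ∂π) ν :=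
      bint ν hvm (fun a => bintegral π fun r => bsq (hC _) (hΦb a))
    have hΦi : Integrable (fun a : E => (Φ a - m) ^ 2) ν :=
      bint ν ((hΦm.sub_const m).pow_const 2) (fun a => bsq (hΦb a) hmb)
    have hfirst : ∫ a, ∫ r, (F (Fin.cons a r) - Φ a) ^ 2 ∂π ∂ν
        ≤ ∫ a, 1 / 2 * ∑ i : Fin n, ∫ r, ∫ y,
          (F (Fin.cons a (Function.update r i y)) - F (Fin.cons a r)) ^ 2 ∂ν ∂π ∂ν := by
      refine integral_mono hvi ((integrable_finsetSum _ fun i _ => hAi i).const_mul _)
        fun a => ?_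
      exact ih (fun r => F (Fin.cons a r)) C (hFa a) (fun r => hC _)
    -- the second part
    have hsecond : ∫ a, (Φ a - m) ^ 2 ∂ν
        ≤ 1 / 2 * ∫ a, ∫ r, ∫ y, (F (Fin.cons y r) - F (Fin.cons a r)) ^ 2 ∂ν ∂π ∂ν := by
      rw [hmΦ, var_double ν hΦm hΦb]
      refine mul_le_mul_of_nonneg_left ?_ (by norm_num)
      have hH : ∀ a : E, Measurable (fun p : E × (Fin n → E) =>
          (F (Fin.cons p.1 p.2) - F (Fin.cons a p.2)) ^ 2) := fun a =>
        (hFc.sub ((hFa a).comp measurable_snd)).pow_const 2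
      have hswap : ∀ a : E, ∫ r, ∫ y, (F (Fin.cons y r) - F (Fin.cons a r)) ^ 2 ∂ν ∂π
          = ∫ y, ∫ r, (F (Fin.cons y r) - F (Fin.cons a r)) ^ 2 ∂π ∂ν := by
        intro a
        refine (integral_integral_swap (μ := ν) (ν := π)
          (f := fun y r => (F (Fin.cons y r) - F (Fin.cons a r)) ^ 2) ?_).symm
        exact bint _ (hH a) (fun p => bsq (hC _) (hC _))
      simp_rw [hswap]
      have hin : ∀ a b : E, (Φ b - Φ a) ^ 2
          ≤ ∫ r, (F (Fin.cons b r) - F (Fin.cons a r)) ^ 2 ∂π := by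
        intro a b
        have h1 : Φ b - Φ a = ∫ r, (F (Fin.cons b r) - F (Fin.cons a r)) ∂π := by
          rw [integral_sub (bint π (hFa b) fun r => hC _) (bint π (hFa a) fun r => hC _)]
        rw [h1]
        refine jensen π ((hFa b).sub (hFa a)) (C := 2 * C) fun r => ?_
        calc |F (Fin.cons b r) - F (Fin.cons a r)|
            ≤ |F (Fin.cons b r)| + |F (Fin.cons a r)| := abs_sub _ _
          _ ≤ 2 * C := by linarith [hC (Fin.cons b r), hC (Fin.cons a r)]
      have hm1 : Measurable (fun p : E × E => (Φ p.2 - Φ p.1) ^ 2) :=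
        ((hΦm.comp measurable_snd).sub (hΦm.comp measurable_fst)).pow_const 2
      have hm2 : Measurable (fun p : E × E =>
          ∫ r, (F (Fin.cons p.2 r) - F (Fin.cons p.1 r)) ^ 2 ∂π) := by
        have h1 : Measurable (fun q : (E × E) × (Fin n → E) =>
            (F (Fin.cons q.1.2 q.2) - F (Fin.cons q.1.1 q.2)) ^ 2) := by
          refine Measurable.pow_const (Measurable.sub ?_ ?_) 2
          · exact hFc.comp ((measurable_snd.comp measurable_fst).prodMk measurable_snd)
          · exact hFc.comp ((measurable_fst.comp measurable_fst).prodMk measurable_snd)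
        exact (h1.stronglyMeasurable.integral_prod_right').measurable
      refine integral_mono ?_ ?_ fun a => ?_
      · refine bint ν ((hm1.stronglyMeasurable.integral_prod_right').measurable)
          (C := (2 * C) ^ 2) fun a => bintegral ν fun b => bsq (hΦb _) (hΦb _)
      · refine bint ν ((hm2.stronglyMeasurable.integral_prod_right').measurable)
          (C := (2 * C) ^ 2) fun a => bintegral ν fun b => bintegral π fun r =>
            bsq (hC _) (hC _)
      · refine integral_mono ?_ ?_ fun b => hin a b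
        · exact bint ν (hm1.comp measurable_prodMk_left) fun b => bsq (hΦb _) (hΦb _)
        · exact bint ν (hm2.comp measurable_prodMk_left) (C := (2 * C) ^ 2)
            fun b => bintegral π fun r => bsq (hC _) (hC _)
    rw [hL, integral_add hvi hΦi, Fin.sum_univ_succ, hA0]
    have hsum : ∫ a, 1 / 2 * ∑ i : Fin n, ∫ r, ∫ y,
          (F (Fin.cons a (Function.update r i y)) - F (Fin.cons a r)) ^ 2 ∂ν ∂π ∂ν
        = 1 / 2 * ∑ i : Fin n, ∫ x, ∫ y, (F (Function.update x i.succ y) - F x) ^ 2 ∂ν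
          ∂(Measure.pi fun _ : Fin (n + 1) => ν) := by
      rw [integral_const_mul, integral_finsetSum _ fun i _ => hAi i]
      simp_rw [hA]
    rw [hsum] at hfirst
    linarith

end gen

theorem main : S_ES := fun n F C hF hC => es_gen P n F C hF hC

end Pool.Agent.N940.OT.Es
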