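import Pool.Agent.N940.OT.Basic

/-!
# The second potential and its Lipschitz bound (project OT, part EXT; helper749)
-/

set_option autoImplicit false

open MeasureTheory Filter Topology Finset

namespace Pool.Agent.N940.OT.Ext

/-- Cauchy-Schwarz -/
theorem cs (z z' c : R2) (m : ℝ) (hm : 0 ≤ m) (h : sq z c ≤ m ^ 2) :
    sq z' c - sq z c ≤ 2 * m * Real.sqrt (sq z z') + sq z z' := by
  set I : ℝ := (z'.1 - z.1) * (z.1 - c.1) + (z'.2 - z.2) * (z.2 - c.2) with hI
  have e : sq z' c - sq z c = 2 * I + sq z z' := by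
    rw [hI]; unfold sq; ring
  have h1 : I ^ 2 ≤ sq z z' * m ^ 2 := by
    have h2 : I ^ 2 ≤ sq z z' * sq z c := by
      rw [hI]; unfold sq
      nlinarith [sq_nonneg ((z'.1 - z.1) * (z.2 - c.2) - (z'.2 - z.2) * (z.1 - c.1))]
    exact h2.trans (mul_le_mul_of_nonneg_left h (sq_nonneg' z z'))
  have h3 : I ≤ m * Real.sqrt (sq z z') := by
    have h4 := Real.le_sqrt_of_sq_le h1
    rwa [Real.sqrt_mul (sq_nonneg' z z'), Real.sqrt_sq hm, mul_comm] at h4
  rw [e]
  nlinarith

/-- cutting a segment into equal parts -/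
theorem chain (K : Set R2) (hK : Convex ℝ K) (f : R2 → ℝ) (L : ℝ)
    (h : ∀ z ∈ K, ∀ z' ∈ K, f z' - f z ≤ L * Real.sqrt (sq z z') + sq z z') :
    ∀ z ∈ K, ∀ z' ∈ K, f z' - f z ≤ L * Real.sqrt (sq z z') := by
  intro z hz z' hz'
  have key : ∀ N : ℕ, 1 ≤ N → f z' - f z ≤ L * Real.sqrt (sq z z') + sq z z' / N := by
    intro N hN
    have hN0 : (0 : ℝ) < N := by exact_mod_cast hN
    set pt : ℕ → R2 := fun k => z + ((k : ℝ) / N) • (z' - z) with hpt
    have hmem : ∀ k, k ≤ N → pt k ∈ K := by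
      intro k hk
      have h0 : (0 : ℝ) ≤ (k : ℝ) / N := by positivity
      have h1 : (k : ℝ) / N ≤ 1 := by
        rw [div_le_one hN0]; exact_mod_cast hk
      exact hK.add_smul_sub_mem hz hz' ⟨h0, h1⟩
    have hsq : ∀ k, sq (pt k) (pt (k + 1)) = sq z z' / N ^ 2 := by
      intro k
      simp only [hpt, sq, Prod.fst_add, Prod.snd_add, Prod.smul_fst, Prod.smul_snd,
        Prod.fst_sub, Prod.snd_sub, smul_eq_mul, Nat.cast_add, Nat.cast_one]
      field_simp
      ring
    have hstep : ∀ k ∈ range N, f (pt (k + 1)) - f (pt k)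
        ≤ L * (Real.sqrt (sq z z') / N) + sq z z' / N ^ 2 := by
      intro k hk
      have hk' := mem_range.1 hk
      have h1 := h (pt k) (hmem k hk'.le) (pt (k + 1)) (hmem (k + 1) hk')
      rw [hsq, Real.sqrt_div' _ (by positivity), Real.sqrt_sq hN0.le] at h1
      exact h1
    have hsum := sum_le_sum hstep
    rw [sum_range_sub (fun k => f (pt k)), sum_const, card_range, nsmul_eq_mul] at hsum
    have e0 : pt 0 = z := by simp [hpt]
    have e1 : pt N = z' := by
      simp only [hpt]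
      rw [div_self hN0.ne', one_smul, add_sub_cancel]
    rw [e0, e1] at hsum
    refine hsum.trans (le_of_eq ?_)
    field_simp
  have hlim : Tendsto (fun N : ℕ => L * Real.sqrt (sq z z') + sq z z' / N) atTop
      (𝓝 (L * Real.sqrt (sq z z') + 0)) :=
    tendsto_const_nhds.add (tendsto_const_div_atTop_nhds_zero_nat _)
  rw [add_zero] at hlim
  exact ge_of_tendsto hlim (eventually_atTop.2 ⟨1, key⟩)

theorem main : S_EXT := by
  intro n x τ w M hn hx hC hM hd
  set φ : R2 → ℝ := fun z => sq z (x (τ z)) - w (τ z) with hφ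
  have hne : (univ : Finset (Fin n)).Nonempty := ⟨⟨0, hn⟩, mem_univ _⟩
  have hφle : ∀ z i, φ z ≤ sq z (x i) - w i := fun z i => hC.opt z i
  have hsqc : ∀ y : R2, Continuous fun z : R2 => sq z y := fun y =>
    continuous_sq.comp (continuous_id.prodMk continuous_const)
  have hφeq : φ = fun z => univ.inf' hne (fun i => sq z (x i) - w i) := by
    funext z
    refine le_antisymm ?_ ?_
    · exact le_inf' _ _ fun i _ => hφle z i
    · exact inf'_le (fun i => sq z (x i) - w i) (mem_univ (τ z))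
  have hφc : Continuous φ := by
    rw [hφeq]
    exact Continuous.finset_inf'_apply hne fun i _ => (hsqc (x i)).sub continuous_const
  refine ⟨hφc, ?_⟩
  have hOmne : Om.Nonempty := ⟨x ⟨0, hn⟩, hx _⟩
  set ψ : R2 → ℝ := fun y => sInf ((fun z => sq z y - φ z) '' Om) with hψ
  have hunc : Continuous (Function.uncurry fun (y z : R2) => sq z y - φ z) := by
    have h1 : Continuous fun p : R2 × R2 => sq p.2 p.1 :=
      continuous_sq.comp (continuous_snd.prodMk continuous_fst)
    exact h1.sub (hφc.comp continuous_snd)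
  have hψc : Continuous ψ := isCompact_Om.continuous_sInf hunc
  have hcy : ∀ y : R2, Continuous fun z : R2 => sq z y - φ z := fun y => (hsqc y).sub hφc
  have hle : ∀ y, ∀ z ∈ Om, ψ y ≤ sq z y - φ z := by
    intro y z hz
    exact csInf_le (isCompact_Om.image (hcy y)).bddBelow ⟨z, hz, rfl⟩
  have hatt : ∀ y, ∃ z ∈ Om, ψ y = sq z y - φ z := by
    intro y
    obtain ⟨z, hz, he⟩ := (isCompact_Om.image (hcy y)).sInf_mem (hOmne.image _)
    exact ⟨z, hz, he.symm⟩
  have hφlip : ∀ z ∈ Om, ∀ z' ∈ Om, φ z' - φ z ≤ 2 * M * Real.sqrt (sq z z') := by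
    refine chain Om convex_Om φ (2 * M) fun z hz z' hz' => ?_
    have h1 := hφle z' (τ z)
    have h2 : φ z = sq z (x (τ z)) - w (τ z) := rfl
    have h3 := cs z z' (x (τ z)) M hM (hd z hz)
    linarith
  have hstar : ∀ y ∈ Om, ∃ z ∈ Om, ψ y = sq z y - φ z ∧ sq y z ≤ (2 * M) ^ 2 := by
    intro y hy
    obtain ⟨z, hz, he⟩ := hatt y
    refine ⟨z, hz, he, ?_⟩
    have h1 := hle y y hy
    rw [he, sq_self'] at h1
    have h2 := hφlip y hy z hz
    have h3 : sq z y ≤ 2 * M * Real.sqrt (sq y z) := by linarith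
    rw [sq_comm' z y] at h3
    set s : ℝ := Real.sqrt (sq y z) with hs
    have hs0 : 0 ≤ s := Real.sqrt_nonneg _
    have hs2 : s ^ 2 = sq y z := Real.sq_sqrt (sq_nonneg' y z)
    rw [← hs2] at h3 ⊢
    have h4 : s ≤ 2 * M := by
      rcases hs0.eq_or_lt with h0 | h0
      · rw [← h0]; positivity
      · have : s * s ≤ 2 * M * s := by nlinarith
        exact le_of_mul_le_mul_right this h0
    exact pow_le_pow_left₀ hs0 h4 2
  have hψlip : ∀ y ∈ Om, ∀ y' ∈ Om, ψ y' - ψ y ≤ 4 * M * Real.sqrt (sq y y') := by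
    refine chain Om convex_Om ψ (4 * M) fun y hy y' hy' => ?_
    obtain ⟨z, hz, he, hb⟩ := hstar y hy
    have h1 := hle y' z hz
    have h3 := cs y y' z (2 * M) (by positivity) hb
    rw [sq_comm' y' z, sq_comm' y z] at h3
    linarith
  refine ⟨ψ, hψc, ?_, ?_, ?_⟩
  · intro z hz y _
    have := hle y z hz
    show φ z + ψ y ≤ sq z y
    linarith
  · intro i
    refine le_antisymm ?_ ?_
    · have hex : ∃ z ∈ Om, τ z = i := by
        by_contra hcon
        push Not at hcon
        have h1 : P (τ ⁻¹' {i}) = 0 := by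
          refine measure_mono_null ?_ (ae_iff.1 ae_Om)
          intro z hz hzO
          exact hcon z hzO hz
        have h2 := hC.cell i
        rw [Measure.real, h1, ENNReal.toReal_zero] at h2
        have hn0 : (0 : ℝ) < n := by exact_mod_cast hn
        have h3 : (0 : ℝ) < 1 / n := by positivity
        linarith
      obtain ⟨z, hz, hτ⟩ := hex
      have h1 := hle (x i) z hz
      have h2 : φ z = sq z (x i) - w i := by
        show sq z (x (τ z)) - w (τ z) = _
        rw [hτ]
      linarith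
    · obtain ⟨z, _, he⟩ := hatt (x i)
      have h1 := hφle z i
      linarith
  · intro y hy y' hy'
    have h1 := hψlip y hy y' hy'
    have h2 := hψlip y' hy' y hy
    rw [sq_comm' y' y] at h2
    have h3 : |ψ y - ψ y'| ≤ 4 * M * Real.sqrt (sq y y') := abs_le.2 ⟨by linarith, by linarith⟩
    have h4 : (ψ y - ψ y') ^ 2 ≤ (4 * M * Real.sqrt (sq y y')) ^ 2 := by
      rw [← sq_abs (ψ y - ψ y')]
      exact pow_le_pow_left₀ (abs_nonneg _) h3 2
    refine h4.trans (le_of_eq ?_)
    rw [mul_pow, Real.sq_sqrt (sq_nonneg' y y')]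
    ring

end Pool.Agent.N940.OT.Ext
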