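import Pool.Agent.N940.OT.Basic

/-!
# The potential is close to the solution of the equation of Poisson
-/

set_option autoImplicit false

open MeasureTheory Filter Topology Finset
open scoped ENNReal NNReal

namespace Pool.Agent.N940.OT.Fou

theorem gr_two (k : Fq) (z v : R2) : gr k z (2 * v.1, 2 * v.2) = 2 * gr k z v := by
  unfold gr
  ring

/-- the estimate for one mode -/
theorem mode {L a I Zk s T0 n : ℝ} (hL : 0 < L) (hs : 0 < s) (hn : s ^ 2 = n)
    (h1 : L * a = 2 * I) (h2 : |I + Zk / s| ≤ L * T0) (hT : 0 ≤ T0) :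
    (a + 2 / s * (Zk / L)) ^ 2 ≤ 8 * T0 ^ 2 ∧
      a ^ 2 ≤ 8 * T0 ^ 2 + 8 / n * (Zk ^ 2 / L ^ 2) := by
  have hD : |a + 2 / s * (Zk / L)| ≤ 2 * T0 := by
    have e : a + 2 / s * (Zk / L) = 2 / L * (I + Zk / s) := by
      have : a = 2 * I / L := by
        field_simp
        linarith
      rw [this]
      field_simp
    rw [e, abs_mul, abs_of_pos (by positivity)]
    calc 2 / L * |I + Zk / s| ≤ 2 / L * (L * T0) :=
          mul_le_mul_of_nonneg_left h2 (by positivity)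
      _ = 2 * T0 := by field_simp
  have hD2 : (a + 2 / s * (Zk / L)) ^ 2 ≤ 4 * T0 ^ 2 := by
    have := sq_le_sq' (abs_le.1 hD).1 (abs_le.1 hD).2
    calc (a + 2 / s * (Zk / L)) ^ 2 ≤ (2 * T0) ^ 2 := this
      _ = 4 * T0 ^ 2 := by ring
  constructor
  · nlinarith [sq_nonneg T0]
  · have e : 8 / n * (Zk ^ 2 / L ^ 2) = 2 * (2 / s * (Zk / L)) ^ 2 := by
      rw [← hn]
      field_simp
      ring
    rw [e]
    nlinarith [sq_nonneg (a + 2 / s * (Zk / L) + 2 / s * (Zk / L)), sq_nonneg (a + 2 * (2 / s * (Zk / L)))]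

theorem main (hM : S_MODE) (hP : S_PARS) : S_FOU := by
  refine ⟨8, by norm_num, ?_⟩
  intro n K m x τ φ ψ M hn hK hKm hx hpot
  have hm : 1 ≤ m := hK.trans hKm
  have hnr : (0 : ℝ) < n := by exact_mod_cast hn
  have hmr : (0 : ℝ) < m := by exact_mod_cast hm
  set s : ℝ := Real.sqrt n with hs
  have hs0 : 0 < s := Real.sqrt_pos.2 hnr
  have hs2 : s ^ 2 = n := Real.sq_sqrt hnr.le
  have hT0 : 0 ≤ T n x := T_nonneg n x
  set G : R2 → R2 := fun z => (2 * (z.1 - (x (τ z)).1), 2 * (z.2 - (x (τ z)).2)) with hG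
  have hxm : Measurable fun z => x (τ z) := (measurable_of_finite x).comp hpot.meas
  have hGm : Measurable G := by
    refine Measurable.prodMk ?_ ?_
    · exact (measurable_fst.sub (measurable_fst.comp hxm)).const_mul 2
    · exact (measurable_snd.sub (measurable_snd.comp hxm)).const_mul 2
  have hGb : ∀ z ∈ Om, |(G z).1| ≤ 2 ∧ |(G z).2| ≤ 2 := by
    intro z hz
    have h1 := hx (τ z)
    obtain ⟨⟨a1, a2⟩, ⟨a3, a4⟩⟩ := hz
    obtain ⟨⟨b1, b2⟩, ⟨b3, b4⟩⟩ := h1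
    constructor
    · show |2 * (z.1 - (x (τ z)).1)| ≤ 2
      rw [abs_le]
      constructor <;> linarith
    · show |2 * (z.2 - (x (τ z)).2)| ≤ 2
      rw [abs_le]
      constructor <;> linarith
  have hgr : ∀ k : Fq, ∫ z, gr k z (G z) ∂P =
      2 * ∫ z, gr k z (z.1 - (x (τ z)).1, z.2 - (x (τ z)).2) ∂P := by
    intro k
    rw [← integral_const_mul]
    refine integral_congr_ae (Eventually.of_forall fun z => ?_)
    exact gr_two k z (z.1 - (x (τ z)).1, z.2 - (x (τ z)).2)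
  set b : Fq → ℝ := fun k => if k ∈ Bx K then 2 / s * (Z n x k / lam k) else 0 with hb
  have key := hP φ G 2 b m hpot.cφ hGm hGb (fun k => by rw [hgr k]; exact hpot.ibp k) hm
  have hsum : ∀ z : R2, ∑ k ∈ Bx m, b k * ee k z = 2 / s * ∑ k ∈ Bx K, Z n x k / lam k * ee k z := by
    intro z
    rw [Finset.mul_sum, ← Finset.sum_subset (Bx_mono hKm)]
    · refine Finset.sum_congr rfl fun k hk => ?_
      simp only [hb, if_pos hk]
      ring
    · intro k _ hk
      simp only [hb, if_neg hk]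
      ring
  have hG2 : ∫ z, ((G z).1 ^ 2 + (G z).2 ^ 2) ∂P = 4 * T n x := by
    rw [hpot.val, ← integral_const_mul]
    refine integral_congr_ae (Eventually.of_forall fun z => ?_)
    simp only [hG, sq]
    ring
  have hcell := hpot.cell
  have hmode : ∀ k ∈ Bx m, (∫ z, φ z * ee k z ∂P + b k) ^ 2 ≤
      8 * T n x ^ 2 + (if k ∈ Bx K then 0 else 8 / n * (Z n x k ^ 2 / lam k ^ 2)) := by
    intro k hk
    have hk0 := ne_of_mem_Bx hk
    have h1 := hM n x τ hn hx hpot.meas hcell k hk0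
    rw [← hpot.val] at h1
    have h2 := mode (lam_pos hk0) hs0 hs2 (hpot.ibp k) h1 hT0
    by_cases hkK : k ∈ Bx K
    · simp only [hb, if_pos hkK, add_zero]
      exact h2.1
    · simp only [hb, if_neg hkK, add_zero]
      exact h2.2
  have hS : ∑ k ∈ Bx m, (∫ z, φ z * ee k z ∂P + b k) ^ 2 ≤
      8 * m ^ 2 * T n x ^ 2 + 8 / n * ∑ k ∈ Bx m \ Bx K, Z n x k ^ 2 / lam k ^ 2 := by
    refine (Finset.sum_le_sum hmode).trans ?_
    rw [Finset.sum_add_distrib, Finset.sum_const, nsmul_eq_mul]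
    have hc : ((Bx m).card : ℝ) ≤ (m : ℝ) ^ 2 := by exact_mod_cast card_Bx_le m
    have e1 : ∑ k ∈ Bx m, (if k ∈ Bx K then (0 : ℝ) else 8 / n * (Z n x k ^ 2 / lam k ^ 2)) =
        8 / n * ∑ k ∈ Bx m \ Bx K, Z n x k ^ 2 / lam k ^ 2 := by
      rw [Finset.mul_sum, ← Finset.sum_sdiff (Bx_mono hKm)]
      rw [Finset.sum_congr rfl (fun k hk => if_neg (Finset.mem_sdiff.1 hk).2)]
      rw [Finset.sum_congr (s₁ := Bx K) rfl (fun k hk => if_pos hk)]
      simp
    rw [e1]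
    have : ((Bx m).card : ℝ) * (8 * T n x ^ 2) ≤ (m : ℝ) ^ 2 * (8 * T n x ^ 2) :=
      mul_le_mul_of_nonneg_right hc (by positivity)
    linarith
  have hint : ∫ z, (φ z - ∫ u, φ u ∂P +
      2 / s * ∑ k ∈ Bx K, Z n x k / lam k * ee k z) ^ 2 ∂P ≤
      8 * m ^ 2 * T n x ^ 2 + 8 / n * ∑ k ∈ Bx m \ Bx K, Z n x k ^ 2 / lam k ^ 2 +
        4 * T n x / m ^ 2 := by
    have e : ∫ z, (φ z - ∫ u, φ u ∂P +
        2 / s * ∑ k ∈ Bx K, Z n x k / lam k * ee k z) ^ 2 ∂P =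
        ∫ z, (φ z - ∫ u, φ u ∂P + ∑ k ∈ Bx m, b k * ee k z) ^ 2 ∂P := by
      refine integral_congr_ae (Eventually.of_forall fun z => ?_)
      simp only [hsum z]
    rw [e]
    refine key.trans ?_
    rw [hG2]
    linarith
  have h3 := mul_le_mul_of_nonneg_left hint hnr.le
  refine h3.trans ?_
  have e2 : (n : ℝ) * (8 * m ^ 2 * T n x ^ 2 +
      8 / n * ∑ k ∈ Bx m \ Bx K, Z n x k ^ 2 / lam k ^ 2 + 4 * T n x / m ^ 2) =
      8 * (n * m ^ 2 * T n x ^ 2) + 8 * ∑ k ∈ Bx m \ Bx K, Z n x k ^ 2 / lam k ^ 2 +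
        4 * (n * T n x / m ^ 2) := by
    field_simp
  rw [e2]
  have h4 : 0 ≤ n * T n x / (m : ℝ) ^ 2 := by positivity
  linarith

end Pool.Agent.N940.OT.Fou
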