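import Pool.Agent.N940.OT.Basic

/-!
# Integration by parts for the first potential (helper767)
-/

set_option autoImplicit false

open MeasureTheory Filter Topology Finset ProbabilityTheory
open scoped ENNReal NNReal

namespace Pool.Agent.N940.OT.Ibp

/-- integration by parts on a line -/
theorem one_dim {n : ℕ} (a c : Fin n → ℝ) (σ : ℝ → Fin n)
    (h : ∀ s i, (s - a (σ s)) ^ 2 + c (σ s) ≤ (s - a i) ^ 2 + c i) (k : ℕ) :
    (Real.pi * k) ^ 2 * ∫ s in (0 : ℝ)..1, ((s - a (σ s)) ^ 2 + c (σ s)) * e1 k s =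
      2 * ∫ s in (0 : ℝ)..1, (s - a (σ s)) * d1 k s := by
  set f : ℝ → ℝ := fun s => (s - a (σ s)) ^ 2 + c (σ s) with hf
  have hA : ∀ i, |a i| ≤ ∑ j, |a j| := fun i =>
    single_le_sum (f := fun j => |a j|) (fun j _ => abs_nonneg _) (mem_univ i)
  have hA0 : 0 ≤ ∑ j, |a j| := sum_nonneg fun j _ => abs_nonneg _
  set A : ℝ := ∑ j, |a j|
  have h1 : ∀ s ∈ Set.Icc (0 : ℝ) 1, ∀ s' ∈ Set.Icc (0 : ℝ) 1,
      f s' - f s ≤ (2 + 2 * A) * |s' - s| := by
    intro s hs s' hs'
    have h2 := h s' (σ s)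
    have h3 : f s' - f s ≤ (s' - s) * (s' + s - 2 * a (σ s)) := by
      simp only [hf]
      linarith
    refine h3.trans ((le_abs_self _).trans ?_)
    rw [abs_mul, mul_comm]
    apply mul_le_mul_of_nonneg_right _ (abs_nonneg _)
    have h4 := abs_le.1 (hA (σ s))
    rw [abs_le]
    constructor <;> linarith [hs.1, hs.2, hs'.1, hs'.2]
  have hL : LipschitzOnWith (Real.toNNReal (2 + 2 * A)) f (Set.uIcc 0 1) := by
    rw [Set.uIcc_of_le zero_le_one]
    apply LipschitzOnWith.of_dist_le_mul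
    intro s hs s' hs'
    rw [Real.coe_toNNReal _ (by linarith), Real.dist_eq, Real.dist_eq, abs_le]
    constructor
    · have := h1 s hs s' hs'
      rw [abs_sub_comm] at this
      linarith
    · exact h1 s' hs' s hs
  have hac := hL.absolutelyContinuousOnInterval
  have hd : ∀ s, DifferentiableAt ℝ f s → deriv f s = 2 * (s - a (σ s)) := by
    intro s hs
    have h5 : HasDerivAt (fun s' => (s' - a (σ s)) ^ 2 + c (σ s) - f s')
        (2 * (s - a (σ s)) - deriv f s) s := by
      have h6 : HasDerivAt (fun s' => (s' - a (σ s)) ^ 2 + c (σ s)) (2 * (s - a (σ s))) s := by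
        have := (((hasDerivAt_id s).sub_const (a (σ s))).pow 2).add_const (c (σ s))
        simpa using this
      exact h6.sub hs.hasDerivAt
    have h7 : IsLocalMin (fun s' => (s' - a (σ s)) ^ 2 + c (σ s) - f s') s := by
      refine Filter.Eventually.of_forall fun s' => ?_
      have := h s' (σ s)
      simp only [hf]
      linarith
    have h8 := h7.hasDerivAt_eq_zero h5
    linarith
  have hg : AbsolutelyContinuousOnInterval (d1 k) 0 1 := by
    apply ContDiffOn.absolutelyContinuousOnInterval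
    apply ContDiff.contDiffOn
    unfold d1
    fun_prop
  have hgd : deriv (d1 k) = fun s => -((Real.pi * k) ^ 2 * e1 k s) :=
    funext fun s => (hasDerivAt_d1 k s).deriv
  have h9 := hac.integral_mul_deriv_eq_deriv_mul hg
  rw [hgd, d1_one', d1_zero'] at h9
  have h10 : ∫ s in (0 : ℝ)..1, deriv f s * d1 k s =
      ∫ s in (0 : ℝ)..1, 2 * ((s - a (σ s)) * d1 k s) := by
    apply intervalIntegral.integral_congr_ae
    filter_upwards [hac.ae_differentiableAt] with s hs hs'
    rw [hd s (hs (Set.uIoc_subset_uIcc hs'))]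
    ring
  rw [h10, intervalIntegral.integral_const_mul] at h9
  have h11 : ∀ s, f s * -((Real.pi * k) ^ 2 * e1 k s) =
      -((Real.pi * k) ^ 2) * (f s * e1 k s) := fun s => by ring
  simp_rw [h11] at h9
  rw [intervalIntegral.integral_const_mul] at h9
  linarith

theorem integrable_of_bound {f : R2 → ℝ} (hf : Measurable f) {C : ℝ}
    (hC : ∀ z ∈ Om, |f z| ≤ C) : Integrable f P :=
  Integrable.of_bound hf.aestronglyMeasurable C (ae_Om.mono fun z hz => hC z hz)

theorem Icc_eq (f : ℝ → ℝ) : ∫ s, f s ∂(volume.restrict (Set.Icc (0 : ℝ) 1)) =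
    ∫ s in (0 : ℝ)..1, f s := by
  rw [intervalIntegral.integral_of_le zero_le_one, integral_Icc_eq_integral_Ioc]

theorem main : S_IBP := by
  intro n x τ w hn hx hc k
  have hτ := hc.meas
  have hx1 : Measurable fun z => (x (τ z)).1 :=
    (measurable_of_finite fun i => (x i).1).comp hτ
  have hx2 : Measurable fun z => (x (τ z)).2 :=
    (measurable_of_finite fun i => (x i).2).comp hτ
  have hw : Measurable fun z => w (τ z) := (measurable_of_finite w).comp hτ
  have hφm : Measurable fun z => sq z (x (τ z)) - w (τ z) := by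
    unfold sq
    fun_prop
  have hW : ∀ i, |w i| ≤ ∑ j, |w j| := fun i =>
    single_le_sum (f := fun j => |w j|) (fun j _ => abs_nonneg _) (mem_univ i)
  have hW0 : 0 ≤ ∑ j, |w j| := sum_nonneg fun j _ => abs_nonneg _
  set W : ℝ := ∑ j, |w j|
  have hφb : ∀ z ∈ Om, |sq z (x (τ z)) - w (τ z)| ≤ 2 + W := by
    intro z hz
    have h1 := sq_le_two hz (hx (τ z))
    have h2 := sq_nonneg' z (x (τ z))
    have h3 := abs_le.1 (hW (τ z))
    rw [abs_le]
    constructor <;> linarith
  have hee := (continuous_ee k).measurable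
  have he1 := fun j => (continuous_e1 j).measurable
  have hd1 := fun j => (continuous_d1 j).measurable
  have hIφ : Integrable (fun z => (sq z (x (τ z)) - w (τ z)) * ee k z) P := by
    refine integrable_of_bound (hφm.mul hee) (C := (2 + W) * 2) fun z hz => ?_
    rw [abs_mul]
    exact mul_le_mul (hφb z hz) (abs_ee_le k z) (abs_nonneg _) (by linarith)
  have hb1 : ∀ j s, |e1 j s| ≤ 2 := fun j s =>
    abs_le_of_sq_le_sq (by nlinarith [e1_sq_le j s]) (by norm_num)
  have hb2 : ∀ j s, |d1 j s| ≤ 2 * (1 + Real.pi ^ 2 * (j : ℝ) ^ 2) := fun j s => by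
    have h0 : 0 ≤ Real.pi ^ 2 * (j : ℝ) ^ 2 := by positivity
    refine abs_le_of_sq_le_sq ?_ (by positivity)
    nlinarith [d1_sq_le j s]
  have hI1 : Integrable (fun z : R2 => (z.1 - (x (τ z)).1) * d1 k.1 z.1 * e1 k.2 z.2) P := by
    refine integrable_of_bound ((((measurable_fst).sub hx1).mul
      ((hd1 _).comp measurable_fst)).mul ((he1 _).comp measurable_snd))
      (C := 1 * (2 * (1 + Real.pi ^ 2 * (k.1 : ℝ) ^ 2)) * 2) fun z hz => ?_
    rw [abs_mul, abs_mul]
    have h4 : |z.1 - (x (τ z)).1| ≤ 1 := by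
      have h5 := (hx (τ z)).1
      have h6 := hz.1
      rw [abs_le]
      constructor <;> linarith [h5.1, h5.2, h6.1, h6.2]
    exact mul_le_mul (mul_le_mul h4 (hb2 _ _) (abs_nonneg _) zero_le_one) (hb1 _ _)
      (abs_nonneg _) (by positivity)
  have hI2 : Integrable (fun z : R2 => (z.2 - (x (τ z)).2) * d1 k.2 z.2 * e1 k.1 z.1) P := by
    refine integrable_of_bound ((((measurable_snd).sub hx2).mul
      ((hd1 _).comp measurable_snd)).mul ((he1 _).comp measurable_fst))
      (C := 1 * (2 * (1 + Real.pi ^ 2 * (k.2 : ℝ) ^ 2)) * 2) fun z hz => ?_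
    rw [abs_mul, abs_mul]
    have h4 : |z.2 - (x (τ z)).2| ≤ 1 := by
      have h5 := (hx (τ z)).2
      have h6 := hz.2
      rw [abs_le]
      constructor <;> linarith [h5.1, h5.2, h6.1, h6.2]
    exact mul_le_mul (mul_le_mul h4 (hb2 _ _) (abs_nonneg _) zero_le_one) (hb1 _ _)
      (abs_nonneg _) (by positivity)
  have k1 : (Real.pi * k.1) ^ 2 * ∫ z, (sq z (x (τ z)) - w (τ z)) * ee k z ∂P =
      2 * ∫ z : R2, (z.1 - (x (τ z)).1) * d1 k.1 z.1 * e1 k.2 z.2 ∂P := by
    rw [P_eq_prod] at hIφ hI1 ⊢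
    rw [integral_prod_symm _ hIφ, integral_prod_symm _ hI1, ← integral_const_mul,
      ← integral_const_mul]
    refine integral_congr_ae (Filter.Eventually.of_forall fun t => ?_)
    show (Real.pi * k.1) ^ 2 * ∫ s, (sq (s, t) (x (τ (s, t))) - w (τ (s, t))) *
      (e1 k.1 s * e1 k.2 t) ∂_ = 2 * ∫ s, (s - (x (τ (s, t))).1) * d1 k.1 s * e1 k.2 t ∂_
    rw [Icc_eq, Icc_eq, intervalIntegral.integral_mul_const]
    have h7 := one_dim (fun i => (x i).1) (fun i => (t - (x i).2) ^ 2 - w i)
      (fun s => τ (s, t)) (fun s i => by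
        have := hc.opt (s, t) i
        unfold sq at this
        simp only at this ⊢
        linarith) k.1
    have h8 : ∀ s : ℝ, (sq (s, t) (x (τ (s, t))) - w (τ (s, t))) * (e1 k.1 s * e1 k.2 t) =
        ((s - (x (τ (s, t))).1) ^ 2 + ((t - (x (τ (s, t))).2) ^ 2 - w (τ (s, t)))) * e1 k.1 s *
          e1 k.2 t := fun s => by
      unfold sq
      ring
    simp_rw [h8]
    rw [intervalIntegral.integral_mul_const, ← mul_assoc, ← mul_assoc]
    exact congrArg (· * e1 k.2 t) h7
  have k2 : (Real.pi * k.2) ^ 2 * ∫ z, (sq z (x (τ z)) - w (τ z)) * ee k z ∂P =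
      2 * ∫ z : R2, (z.2 - (x (τ z)).2) * d1 k.2 z.2 * e1 k.1 z.1 ∂P := by
    rw [P_eq_prod] at hIφ hI2 ⊢
    rw [integral_prod _ hIφ, integral_prod _ hI2, ← integral_const_mul,
      ← integral_const_mul]
    refine integral_congr_ae (Filter.Eventually.of_forall fun t => ?_)
    show (Real.pi * k.2) ^ 2 * ∫ s, (sq (t, s) (x (τ (t, s))) - w (τ (t, s))) *
      (e1 k.1 t * e1 k.2 s) ∂_ = 2 * ∫ s, (s - (x (τ (t, s))).2) * d1 k.2 s * e1 k.1 t ∂_
    rw [Icc_eq, Icc_eq, intervalIntegral.integral_mul_const]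
    have h7 := one_dim (fun i => (x i).2) (fun i => (t - (x i).1) ^ 2 - w i)
      (fun s => τ (t, s)) (fun s i => by
        have := hc.opt (t, s) i
        unfold sq at this
        simp only at this ⊢
        linarith) k.2
    have h8 : ∀ s : ℝ, (sq (t, s) (x (τ (t, s))) - w (τ (t, s))) * (e1 k.1 t * e1 k.2 s) =
        ((s - (x (τ (t, s))).2) ^ 2 + ((t - (x (τ (t, s))).1) ^ 2 - w (τ (t, s)))) * e1 k.2 s *
          e1 k.1 t := fun s => by
      unfold sq
      ring
    simp_rw [h8]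
    rw [intervalIntegral.integral_mul_const, ← mul_assoc, ← mul_assoc]
    exact congrArg (· * e1 k.1 t) h7
  have h9 : lam k = (Real.pi * k.1) ^ 2 + (Real.pi * k.2) ^ 2 := by
    unfold lam
    ring
  rw [h9, add_mul, k1, k2, ← mul_add, ← integral_add hI1 hI2]
  refine congrArg (2 * ·) (integral_congr_ae (Filter.Eventually.of_forall fun z => ?_))
  show _ = gr k z _
  unfold gr
  simp only
  ring

end Pool.Agent.N940.OT.Ibp
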