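import Pool.Agent.N940.OT.Basic

/-!
# Convergence in law from the approximation by finitely many modes
-/

set_option autoImplicit false

open MeasureTheory Filter Topology Finset ProbabilityTheory
open scoped ENNReal NNReal

namespace Pool.Agent.N940.OT.Last

theorem norm_exp_sub_le (a b : ℝ) :
    ‖Complex.exp (Complex.I * (a : ℂ)) - Complex.exp (Complex.I * (b : ℂ))‖ ≤ |a - b| := by
  have h1 : Complex.exp (Complex.I * (a : ℂ)) - Complex.exp (Complex.I * (b : ℂ)) =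
      Complex.exp (Complex.I * (b : ℂ)) * (Complex.exp (Complex.I * ((a - b : ℝ) : ℂ)) - 1) := by
    rw [mul_sub, mul_one, ← Complex.exp_add]
    congr 2
    push_cast
    ring
  have h2 : ‖Complex.exp (Complex.I * (b : ℂ))‖ = 1 := by
    rw [mul_comm]
    exact Complex.norm_exp_ofReal_mul_I b
  rw [h1, norm_mul, h2, one_mul]
  exact Real.norm_exp_I_mul_ofReal_sub_one_le

theorem abs_le_sqrt {Ω : Type*} [MeasurableSpace Ω] {μ : Measure Ω} [IsProbabilityMeasure μ]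
    {f : Ω → ℝ} (hf : MemLp f 2 μ) : ∫ ω, |f ω| ∂μ ≤ Real.sqrt (∫ ω, f ω ^ 2 ∂μ) := by
  apply Real.le_sqrt_of_sq_le
  have h1 : MemLp (fun ω => |f ω|) 2 μ := hf.abs
  have h2 := variance_nonneg (fun ω => |f ω|) μ
  rw [variance_eq_sub h1] at h2
  have h3 : ∫ ω, ((fun ω => |f ω|) ^ 2) ω ∂μ = ∫ ω, f ω ^ 2 ∂μ := by
    apply integral_congr_ae
    filter_upwards with ω
    simp
  rw [h3] at h2
  linarith

theorem norm_sub_le {Ω : Type*} [MeasurableSpace Ω] {μ : Measure Ω} [IsProbabilityMeasure μ]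
    {A B : Ω → ℝ} (hA : AEMeasurable A μ) (hB : AEMeasurable B μ)
    (h : MemLp (fun ω => A ω - B ω) 2 μ) (t : ℝ) :
    ‖∫ ω, Complex.exp (Complex.I * ((t * A ω : ℝ) : ℂ)) ∂μ -
      ∫ ω, Complex.exp (Complex.I * ((t * B ω : ℝ) : ℂ)) ∂μ‖ ≤
      |t| * Real.sqrt (∫ ω, (A ω - B ω) ^ 2 ∂μ) := by
  have hi : ∀ {D : Ω → ℝ}, AEMeasurable D μ →
      Integrable (fun ω => Complex.exp (Complex.I * ((t * D ω : ℝ) : ℂ))) μ := by
    intro D hD
    refine Integrable.of_bound ?_ 1 ?_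
    · refine AEMeasurable.aestronglyMeasurable ?_
      have : Measurable fun s : ℝ => Complex.exp (Complex.I * ((t * s : ℝ) : ℂ)) := by fun_prop
      exact this.comp_aemeasurable hD
    · filter_upwards with ω
      rw [mul_comm, Complex.norm_exp_ofReal_mul_I]
  rw [← integral_sub (hi hA) (hi hB)]
  refine (norm_integral_le_integral_norm _).trans ?_
  have h1 : ∫ ω, ‖Complex.exp (Complex.I * ((t * A ω : ℝ) : ℂ)) -
      Complex.exp (Complex.I * ((t * B ω : ℝ) : ℂ))‖ ∂μ ≤ ∫ ω, |t| * |A ω - B ω| ∂μ := by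
    apply integral_mono_of_nonneg
    · filter_upwards with ω
      exact norm_nonneg _
    · exact ((h.integrable one_le_two).abs).const_mul _
    · filter_upwards with ω
      refine (norm_exp_sub_le _ _).trans (le_of_eq ?_)
      rw [← mul_sub, abs_mul]
  refine h1.trans ?_
  rw [integral_const_mul]
  exact mul_le_mul_of_nonneg_left (abs_le_sqrt h) (abs_nonneg t)

theorem aemeasurable_T (hMe : S_MEAS) (hAE : S_AE) (n : ℕ) : AEMeasurable (T n) (Pn n) := by
  rcases Nat.eq_zero_or_pos n with h | h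
  · subst h
    exact (measurable_of_finite _).aemeasurable
  · obtain ⟨F, hF, -, hFT⟩ := hMe n h
    refine ⟨F, hF, ?_⟩
    filter_upwards [hAE n] with x hx
    exact hFT x hx.1 hx.2

theorem ae_T_le (hMe : S_MEAS) (hAE : S_AE) {n : ℕ} (hn : 1 ≤ n) : ∀ᵐ x ∂Pn n, |T n x| ≤ 2 := by
  obtain ⟨F, hF, hb, hFT⟩ := hMe n hn
  filter_upwards [hAE n] with x hx
  rw [hFT x hx.1 hx.2, abs_of_nonneg (hb x).1]
  exact (hb x).2

theorem abs_Q_le (n K : ℕ) (x : Fin n → R2) : |Q n K x| ≤ K ^ 2 * (4 * n + 1) := by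
  unfold Q
  refine (abs_sum_le_sum_abs _ _).trans ?_
  have h1 : ∀ k ∈ Bx K, |(Z n x k ^ 2 - 1) / lam k| ≤ (4 * n + 1 : ℝ) := by
    intro k hk
    have hl := lam_ge (ne_of_mem_Bx hk)
    have h2 : |Z n x k ^ 2 - 1| ≤ (4 * n + 1 : ℝ) := by
      have h3 : Z n x k ^ 2 ≤ (4 * n : ℝ) := by
        have h4 := abs_Z_le n x k
        have h5 : Z n x k ^ 2 = |Z n x k| ^ 2 := (sq_abs _).symm
        rw [h5]
        calc |Z n x k| ^ 2 ≤ (2 * Real.sqrt n) ^ 2 :=
              pow_le_pow_left₀ (abs_nonneg _) h4 2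
          _ = 4 * n := by rw [mul_pow, Real.sq_sqrt (Nat.cast_nonneg n)]; norm_num
      have h6 : 0 ≤ Z n x k ^ 2 := sq_nonneg _
      rw [abs_le]
      constructor
      · have : (0 : ℝ) ≤ n := Nat.cast_nonneg n
        linarith
      · linarith
    rw [abs_div, abs_of_pos (by linarith : 0 < lam k), div_le_iff₀ (by linarith)]
    have h7 : (0 : ℝ) ≤ 4 * n + 1 := by positivity
    nlinarith
  refine (sum_le_sum h1).trans ?_
  rw [sum_const, nsmul_eq_mul]
  have h2 : ((Bx K).card : ℝ) ≤ (K : ℝ) ^ 2 := by exact_mod_cast card_Bx_le K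
  exact mul_le_mul_of_nonneg_right h2 (by positivity)

theorem memLp_diff (hMe : S_MEAS) (hAE : S_AE) {n : ℕ} (hn : 1 ≤ n) (K : ℕ) (c : ℝ) :
    MemLp (fun x => n * (T n x - c) - Q n K x) 2 (Pn n) := by
  refine MemLp.of_bound ?_ (n * (2 + |c|) + K ^ 2 * (4 * n + 1)) ?_
  · refine AEMeasurable.aestronglyMeasurable ?_
    exact (((aemeasurable_T hMe hAE n).sub_const c).const_mul _).sub
      (continuous_Q n K).aemeasurable
  · filter_upwards [ae_T_le hMe hAE hn] with x hx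
    rw [Real.norm_eq_abs]
    refine (abs_sub _ _).trans ?_
    refine add_le_add ?_ (abs_Q_le n K x)
    rw [abs_mul, abs_of_nonneg (Nat.cast_nonneg n : (0 : ℝ) ≤ n)]
    refine mul_le_mul_of_nonneg_left ?_ (Nat.cast_nonneg n)
    refine (abs_sub _ _).trans ?_
    linarith

theorem measurable_Xi (K : ℕ) : Measurable (Xi K) := by
  unfold Xi
  fun_prop

theorem integrable_sq (k : Fq) : MemLp (fun g : Fq → ℝ => g k ^ 2 - 1) 2 Ga := by
  have h1 : MemLp (fun s : ℝ => s ^ 2) 2 (gaussianReal 0 1) := by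
    have h2 : MemLp (id : ℝ → ℝ) 4 (gaussianReal 0 1) := memLp_id_gaussianReal 4
    have h3 : MemLp (fun s : ℝ => s) 4 (gaussianReal 0 1) := h2
    rw [memLp_two_iff_integrable_sq (by fun_prop)]
    have h4 := h3.integrable_norm_pow (by norm_num)
    refine h4.congr ?_
    filter_upwards with s
    rw [Real.norm_eq_abs]
    have h5 : |s| ^ 4 = s ^ 4 := by
      rw [← abs_pow, abs_of_nonneg (by positivity)]
    rw [h5]
    ring
  have h2 : MemLp (fun s : ℝ => s ^ 2 - 1) 2 (gaussianReal 0 1) := h1.sub (memLp_const 1)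
  have h3 : MeasurePreserving (fun g : Fq → ℝ => g k) Ga (gaussianReal 0 1) :=
    measurePreserving_eval_infinitePi _ k
  exact h2.comp_measurePreserving h3

instance isProbabilityMeasure_Ga : IsProbabilityMeasure Ga := by
  unfold Ga
  infer_instance

theorem memLp_Xi (K : ℕ) : MemLp (Xi K) 2 Ga := by
  have h1 : Xi K = fun g => ∑ k ∈ Bx K, (1 / lam k) * (g k ^ 2 - 1) := by
    funext g
    unfold Xi
    refine sum_congr rfl fun k _ => ?_
    ring
  rw [h1]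
  exact memLp_finsetSum _ fun k _ => (integrable_sq k).const_mul _

theorem tendsto_char (hA : S_APP) (hC : S_CLT) (hMe : S_MEAS) (hAE : S_AE)
    {ξ : (Fq → ℝ) → ℝ} (hξ : Measurable ξ) (hξ2 : MemLp ξ 2 Ga)
    (hl : Tendsto (fun K : ℕ => ∫ g, (Xi K g - ξ g) ^ 2 ∂Ga) atTop (𝓝 0)) (t : ℝ) :
    Tendsto (fun n : ℕ => ∫ x, Complex.exp (Complex.I *
      ((t * (n * (T n x - ∫ u, T n u ∂Pn n)) : ℝ) : ℂ)) ∂Pn n) atTop
      (𝓝 (∫ g, Complex.exp (Complex.I * ((t * ξ g : ℝ) : ℂ)) ∂Ga)) := by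
  rw [Metric.tendsto_nhds]
  intro ε hε
  obtain ⟨δ, hδ0, hδ⟩ : ∃ δ : ℝ, 0 < δ ∧ |t| * Real.sqrt δ ≤ ε / 3 := by
    refine ⟨(ε / (3 * (|t| + 1))) ^ 2, by positivity, ?_⟩
    rw [Real.sqrt_sq (by positivity), mul_div_assoc', div_le_div_iff₀ (by positivity) (by norm_num)]
    have := abs_nonneg t
    nlinarith
  obtain ⟨K₀, hK₀⟩ := hA δ hδ0
  have hl2 : ∀ᶠ K : ℕ in atTop, ∫ g, (Xi K g - ξ g) ^ 2 ∂Ga < δ := by
    have := (tendsto_order.1 hl).2 δ hδ0
    exact this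
  obtain ⟨K, hK1, hK2⟩ := (hl2.and (eventually_ge_atTop K₀)).exists
  have hC' := (Metric.tendsto_nhds.1 (hC K t)) (ε / 3) (by linarith)
  filter_upwards [hK₀ K hK2, hC', eventually_ge_atTop 1] with n hn1 hn2 hn3
  have hTm := aemeasurable_T hMe hAE n
  have h1 := norm_sub_le ((hTm.sub_const (∫ u, T n u ∂Pn n)).const_mul (n : ℝ))
    (continuous_Q n K).aemeasurable (memLp_diff hMe hAE hn3 K (∫ u, T n u ∂Pn n)) t
  have h2 := norm_sub_le (measurable_Xi K).aemeasurable hξ.aemeasurable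
    ((memLp_Xi K).sub hξ2) t
  have h3 : |t| * Real.sqrt (∫ x, (n * (T n x - ∫ u, T n u ∂Pn n) - Q n K x) ^ 2 ∂Pn n) ≤
      ε / 3 := (mul_le_mul_of_nonneg_left (Real.sqrt_le_sqrt hn1) (abs_nonneg t)).trans hδ
  have h4 : |t| * Real.sqrt (∫ g, (Xi K g - ξ g) ^ 2 ∂Ga) ≤ ε / 3 :=
    (mul_le_mul_of_nonneg_left (Real.sqrt_le_sqrt hK1.le) (abs_nonneg t)).trans hδ
  rw [dist_eq_norm] at hn2
  rw [dist_eq_norm]
  have h5 := h1.trans h3
  have h6 := h2.trans h4
  refine lt_of_le_of_lt (norm_sub_le_norm_sub_add_norm_sub _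
    (∫ x, Complex.exp (Complex.I * ((t * Q n K x : ℝ) : ℂ)) ∂Pn n) _) ?_
  refine lt_of_le_of_lt (add_le_add h5 (norm_sub_le_norm_sub_add_norm_sub _
    (∫ g, Complex.exp (Complex.I * ((t * Xi K g : ℝ) : ℂ)) ∂Ga) _)) ?_
  linarith

/-- the law of the first `n` points of an i.i.d. sequence -/
theorem map_eq_Pn {Ω : Type*} [MeasurableSpace Ω] {μ : Measure Ω} [IsProbabilityMeasure μ]
    {X : ℕ → Ω → R2} (hX : ∀ i, Measurable (X i)) (hP : ∀ i, μ.map (X i) = P)
    (hi : iIndepFun X μ) (n : ℕ) : μ.map (fun ω (i : Fin n) => X i ω) = Pn n := by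
  have h1 : iIndepFun (fun i : Fin n => X i) μ := hi.precomp Fin.val_injective
  have h2 := (iIndepFun_iff_map_fun_eq_pi_map (f := fun i : Fin n => X i)
    (fun i => (hX i).aemeasurable)).1 h1
  rw [h2]
  unfold Pn
  congr 1
  funext i
  exact hP i

/-- the convergence in law -/
theorem main.{u} (hA : S_APP) (hC : S_CLT) (hMe : S_MEAS) (hAE : S_AE) (hXi : S_XI) :
    ∃ ξ : (Fq → ℝ) → ℝ, Measurable ξ ∧ MemLp ξ 2 Ga ∧ ∫ g, ξ g ∂Ga = 0 ∧
      Tendsto (fun K : ℕ => ∫ g, (Xi K g - ξ g) ^ 2 ∂Ga) atTop (𝓝 0) ∧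
      ∀ (Ω : Type u) [MeasurableSpace Ω] (μ : Measure Ω) [IsProbabilityMeasure μ]
        (X : ℕ → Ω → R2), (∀ i, Measurable (X i)) → (∀ i, μ.map (X i) = P) → iIndepFun X μ →
        TendstoInDistribution (fun (n : ℕ) ω =>
          (n : ℝ) * (T n (fun i => X i ω) - ∫ ω', T n (fun i => X i ω') ∂μ)) atTop ξ
          (fun _ => μ) Ga := by
  obtain ⟨ξ, hξ, hξ2, hξ0, hl⟩ := hXi
  refine ⟨ξ, hξ, hξ2, hξ0, hl, ?_⟩
  intro Ω _ μ _ X hX hP hi
  have hmeas : ∀ n : ℕ, Measurable (fun ω (i : Fin n) => X i ω) := fun n =>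
    measurable_pi_lambda _ fun i => hX i
  have hT : ∀ n : ℕ, AEMeasurable (T n) (μ.map (fun ω (i : Fin n) => X i ω)) := by
    intro n
    rw [map_eq_Pn hX hP hi n]
    exact aemeasurable_T hMe hAE n
  have hTc : ∀ n : ℕ, AEMeasurable (fun ω => T n (fun i => X i ω)) μ := fun n =>
    (hT n).comp_measurable (hmeas n)
  have hE : ∀ n : ℕ, ∫ ω', T n (fun i => X i ω') ∂μ = ∫ u, T n u ∂Pn n := by
    intro n
    rw [← map_eq_Pn hX hP hi n, integral_map (hmeas n).aemeasurable (hT n).aestronglyMeasurable]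
  have hae : ∀ n : ℕ, AEMeasurable (fun ω =>
      (n : ℝ) * (T n (fun i => X i ω) - ∫ ω', T n (fun i => X i ω') ∂μ)) μ := fun n =>
    ((hTc n).sub_const _).const_mul _
  refine ⟨hae, hξ.aemeasurable, ?_⟩
  rw [ProbabilityMeasure.tendsto_iff_tendsto_charFun]
  intro t
  have h1 : ∀ {Ω' : Type _} [MeasurableSpace Ω'] (ν : Measure Ω') (A : Ω' → ℝ),
      AEMeasurable A ν → charFun (ν.map A) t =
        ∫ ω, Complex.exp (Complex.I * ((t * A ω : ℝ) : ℂ)) ∂ν := by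
    intro Ω' _ ν A hA'
    rw [charFun_apply_real, integral_map hA' (by fun_prop)]
    apply integral_congr_ae
    filter_upwards with ω
    congr 1
    push_cast
    exact mul_comm _ _
  have h2 := tendsto_char hA hC hMe hAE hξ hξ2 hl t
  simp only [ProbabilityMeasure.coe_mk]
  rw [h1 Ga ξ hξ.aemeasurable]
  refine h2.congr fun n => ?_
  rw [charFun_apply_real, integral_map (hae n) (by fun_prop), ← map_eq_Pn hX hP hi n]
  rw [integral_map (hmeas n).aemeasurable]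
  · apply integral_congr_ae
    filter_upwards with ω
    congr 1
    rw [map_eq_Pn hX hP hi n, hE n]
    push_cast
    ring
  · have h3 : Measurable fun s : ℝ => Complex.exp (Complex.I * ((t * ((n : ℝ) * (s -
        ∫ u, T n u ∂(μ.map (fun ω (i : Fin n) => X i ω)))) : ℝ) : ℂ)) := by fun_prop
    exact (h3.comp_aemeasurable (hT n)).aestronglyMeasurable

end Pool.Agent.N940.OT.Last
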