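import Pool.Agent.N940.OT.Basic

/-!
# Linearisation in the low modes
-/

set_option autoImplicit false

open MeasureTheory Filter Topology Finset ProbabilityTheory
open scoped ENNReal NNReal

namespace Pool.Agent.N940.OT.Mode

theorem taylor_upper (g g' g'' : ℝ → ℝ) (A : ℝ) (h1 : ∀ t, HasDerivAt g (g' t) t)
    (h2 : ∀ t, HasDerivAt g' (g'' t) t) (hA : ∀ t, g'' t ≤ A) : g 1 - g 0 - g' 0 ≤ A / 2 := by
  have h3 : ∀ t, HasDerivAt (fun t => g t - g' 0 * t - A / 2 * t ^ 2) (g' t - g' 0 - A * t) t := by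
    intro t
    have a1 := (h1 t).sub ((hasDerivAt_id t).const_mul (g' 0))
    have a2 := a1.sub (((hasDerivAt_id t).pow 2).const_mul (A / 2))
    refine a2.congr_deriv ?_
    simp only [id]
    ring
  obtain ⟨c, ⟨hc0, hc1⟩, hc⟩ := exists_hasDerivAt_eq_slope
    (fun t => g t - g' 0 * t - A / 2 * t ^ 2) (fun t => g' t - g' 0 - A * t)
    (zero_lt_one (α := ℝ)) (fun t _ => (h3 t).continuousAt.continuousWithinAt)
    (fun t _ => h3 t)
  obtain ⟨d, ⟨hd0, hd1⟩, hd⟩ := exists_hasDerivAt_eq_slope g' g'' hc0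
    (fun t _ => (h2 t).continuousAt.continuousWithinAt) (fun t _ => h2 t)
  rw [eq_div_iff (by linarith)] at hd
  simp only [sub_zero, div_one] at hc hd
  have h4 : g'' d * c ≤ A * c := mul_le_mul_of_nonneg_right (hA d) hc0.le
  linarith

theorem taylor_abs (g g' g'' : ℝ → ℝ) (A : ℝ) (h1 : ∀ t, HasDerivAt g (g' t) t)
    (h2 : ∀ t, HasDerivAt g' (g'' t) t) (hA : ∀ t, |g'' t| ≤ A) :
    |g 1 - g 0 - g' 0| ≤ A / 2 := by
  rw [abs_le]
  constructor
  · have := taylor_upper (fun t => -g t) (fun t => -g' t) (fun t => -g'' t) A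
      (fun t => (h1 t).neg) (fun t => (h2 t).neg)
      (fun t => (neg_le_abs _).trans (hA t))
    linarith
  · exact taylor_upper g g' g'' A h1 h2 (fun t => (le_abs_self _).trans (hA t))

/-- second order expansion of an eigenfunction -/
theorem pointwise (k : Fq) (z y : R2) :
    |ee k y - ee k z - gr k z (y.1 - z.1, y.2 - z.2)| ≤ lam k * sq z y := by
  set v1 := y.1 - z.1 with hv1
  set v2 := y.2 - z.2 with hv2
  have l1 : ∀ t : ℝ, HasDerivAt (fun t : ℝ => z.1 + t * v1) v1 t := by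
    intro t
    simpa using ((hasDerivAt_id t).mul_const v1).const_add z.1
  have l2 : ∀ t : ℝ, HasDerivAt (fun t : ℝ => z.2 + t * v2) v2 t := by
    intro t
    simpa using ((hasDerivAt_id t).mul_const v2).const_add z.2
  have a1 : ∀ (k : ℕ) (t : ℝ), HasDerivAt (fun t : ℝ => e1 k (z.1 + t * v1))
      (d1 k (z.1 + t * v1) * v1) t := fun k t =>
    HasDerivAt.comp (h₂ := e1 k) t (hasDerivAt_e1 k (z.1 + t * v1)) (l1 t)
  have a2 : ∀ (k : ℕ) (t : ℝ), HasDerivAt (fun t : ℝ => e1 k (z.2 + t * v2))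
      (d1 k (z.2 + t * v2) * v2) t := fun k t =>
    HasDerivAt.comp (h₂ := e1 k) t (hasDerivAt_e1 k (z.2 + t * v2)) (l2 t)
  have b1 : ∀ (k : ℕ) (t : ℝ), HasDerivAt (fun t : ℝ => d1 k (z.1 + t * v1))
      (-((Real.pi * k) ^ 2 * e1 k (z.1 + t * v1)) * v1) t := fun k t =>
    HasDerivAt.comp (h₂ := d1 k) t (hasDerivAt_d1 k (z.1 + t * v1)) (l1 t)
  have b2 : ∀ (k : ℕ) (t : ℝ), HasDerivAt (fun t : ℝ => d1 k (z.2 + t * v2))
      (-((Real.pi * k) ^ 2 * e1 k (z.2 + t * v2)) * v2) t := fun k t =>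
    HasDerivAt.comp (h₂ := d1 k) t (hasDerivAt_d1 k (z.2 + t * v2)) (l2 t)
  have key := taylor_abs (fun t => e1 k.1 (z.1 + t * v1) * e1 k.2 (z.2 + t * v2))
    (fun t => v1 * (d1 k.1 (z.1 + t * v1) * e1 k.2 (z.2 + t * v2)) +
      v2 * (e1 k.1 (z.1 + t * v1) * d1 k.2 (z.2 + t * v2)))
    (fun t => -((v1 ^ 2 * (Real.pi * k.1) ^ 2 + v2 ^ 2 * (Real.pi * k.2) ^ 2) *
      (e1 k.1 (z.1 + t * v1) * e1 k.2 (z.2 + t * v2))) +
      2 * (v1 * v2) * (d1 k.1 (z.1 + t * v1) * d1 k.2 (z.2 + t * v2)))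
    (2 * (lam k * (v1 ^ 2 + v2 ^ 2)))
    (fun t => ((a1 k.1 t).mul (a2 k.2 t)).congr_deriv (by ring))
    (fun t => ((((b1 k.1 t).mul (a2 k.2 t)).const_mul v1).add
      (((a1 k.1 t).mul (b2 k.2 t)).const_mul v2)).congr_deriv (by ring))
    (by
      intro t
      have hp : |e1 k.1 (z.1 + t * v1) * e1 k.2 (z.2 + t * v2)| ≤ 2 :=
        abs_ee_le k (z.1 + t * v1, z.2 + t * v2)
      have hq : |d1 k.1 (z.1 + t * v1) * d1 k.2 (z.2 + t * v2)| ≤
          2 * Real.pi ^ 2 * (k.1 * k.2) := by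
        apply abs_le_of_sq_le_sq _ (by positivity)
        have c1 := d1_sq_le k.1 (z.1 + t * v1)
        have c2 := d1_sq_le k.2 (z.2 + t * v2)
        calc (d1 k.1 (z.1 + t * v1) * d1 k.2 (z.2 + t * v2)) ^ 2 =
            d1 k.1 (z.1 + t * v1) ^ 2 * d1 k.2 (z.2 + t * v2) ^ 2 := by ring
          _ ≤ (2 * (Real.pi ^ 2 * (k.1 : ℝ) ^ 2)) * (2 * (Real.pi ^ 2 * (k.2 : ℝ) ^ 2)) :=
            mul_le_mul c1 c2 (sq_nonneg _) (by positivity)
          _ = (2 * Real.pi ^ 2 * (k.1 * k.2)) ^ 2 := by ring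
      refine (abs_add_le _ _).trans ?_
      rw [abs_neg, abs_mul, abs_mul (2 * (v1 * v2))]
      have hnn : 0 ≤ v1 ^ 2 * (Real.pi * k.1) ^ 2 + v2 ^ 2 * (Real.pi * k.2) ^ 2 := by positivity
      rw [abs_of_nonneg hnn]
      have s1 := mul_le_mul_of_nonneg_left hp hnn
      have s2 := mul_le_mul_of_nonneg_left hq (abs_nonneg (2 * (v1 * v2)))
      have s3 : |2 * (v1 * v2)| * (2 * Real.pi ^ 2 * (k.1 * k.2)) ≤
          2 * Real.pi ^ 2 * ((k.2 : ℝ) ^ 2 * v1 ^ 2 + (k.1 : ℝ) ^ 2 * v2 ^ 2) := by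
        have : |2 * (v1 * v2)| * (2 * Real.pi ^ 2 * (k.1 * k.2)) =
            2 * Real.pi ^ 2 * (2 * (k.2 * |v1|) * (k.1 * |v2|)) := by
          rw [abs_mul, abs_mul, abs_two]; ring
        rw [this]
        apply mul_le_mul_of_nonneg_left _ (by positivity)
        have := two_mul_le_add_sq ((k.2 : ℝ) * |v1|) ((k.1 : ℝ) * |v2|)
        rw [mul_pow, mul_pow, sq_abs, sq_abs] at this
        exact this
      have s4 : 2 * (lam k * (v1 ^ 2 + v2 ^ 2)) =
          (v1 ^ 2 * (Real.pi * k.1) ^ 2 + v2 ^ 2 * (Real.pi * k.2) ^ 2) * 2 +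
          2 * Real.pi ^ 2 * ((k.2 : ℝ) ^ 2 * v1 ^ 2 + (k.1 : ℝ) ^ 2 * v2 ^ 2) := by
        unfold lam; ring
      rw [s4]
      linarith)
  simp only [one_mul, zero_mul, add_zero] at key
  have e1' : z.1 + v1 = y.1 := by rw [hv1]; ring
  have e2' : z.2 + v2 = y.2 := by rw [hv2]; ring
  rw [e1', e2'] at key
  have e3 : sq z y = v1 ^ 2 + v2 ^ 2 := by unfold sq; rw [hv1, hv2]; ring
  rw [e3]
  unfold ee gr
  refine key.trans (le_of_eq (by ring))

theorem integral_e1 {k : ℕ} (hk : k ≠ 0) :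
    ∫ s, e1 k s ∂(volume.restrict (Set.Icc (0 : ℝ) 1)) = 0 := by
  rw [integral_Icc_eq_integral_Ioc, ← intervalIntegral.integral_of_le zero_le_one]
  have h1 : ∫ s in (0 : ℝ)..1, -((Real.pi * k) ^ 2 * e1 k s) = d1 k 1 - d1 k 0 := by
    apply intervalIntegral.integral_eq_sub_of_hasDerivAt
    · intro s _
      exact hasDerivAt_d1 k s
    · apply Continuous.intervalIntegrable
      exact (continuous_const.mul (continuous_e1 k)).neg
  rw [d1_zero', d1_one', sub_zero, intervalIntegral.integral_neg,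
    intervalIntegral.integral_const_mul] at h1
  have h2 : (Real.pi * k) ^ 2 ≠ 0 := by positivity
  have h3 := neg_eq_zero.1 h1
  exact (mul_eq_zero.1 h3).resolve_left h2

theorem integral_ee {k : Fq} (hk : k ≠ (0, 0)) : ∫ z, ee k z ∂P = 0 := by
  rw [P_eq_prod]
  unfold ee
  rw [integral_prod_mul (fun s => e1 k.1 s) (fun s => e1 k.2 s)]
  by_cases h : k.1 = 0
  · have h2 : k.2 ≠ 0 := fun h2 => hk (Prod.ext h h2)
    rw [integral_e1 h2, mul_zero]
  · rw [integral_e1 h, zero_mul]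

theorem integral_ee_S (n : ℕ) (x : Fin n → R2) (τ : R2 → Fin n) (hτ : Measurable τ)
    (hc : ∀ i, P.real (τ ⁻¹' {i}) = 1 / n) (k : Fq) :
    ∫ z, ee k (x (τ z)) ∂P = (∑ i, ee k (x i)) / n := by
  have h1 : ∫ z, ee k (x (τ z)) ∂P = ∫ i, ee k (x i) ∂(P.map τ) := by
    rw [integral_map hτ.aemeasurable]
    exact (measurable_of_finite _).aestronglyMeasurable
  have : IsProbabilityMeasure (P.map τ) := Measure.isProbabilityMeasure_map hτ.aemeasurable
  rw [h1, integral_fintype (Integrable.of_finite)]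
  rw [Finset.sum_div]
  refine Finset.sum_congr rfl fun i _ => ?_
  rw [map_measureReal_apply hτ (measurableSet_singleton i), hc i, smul_eq_mul]
  ring

theorem main : S_MODE := by
  intro n x τ hn hx hτ hc k hk
  have hS : Measurable fun z => x (τ z) := (measurable_of_finite x).comp hτ
  have hn0 : (0 : ℝ) < n := by exact_mod_cast hn
  -- integrability
  have i1 : Integrable (fun z => ee k (x (τ z))) P := by
    apply Integrable.of_bound (C := 2)
    · exact ((continuous_ee k).measurable.comp hS).aestronglyMeasurable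
    · exact Eventually.of_forall fun z => abs_ee_le k _
  have i2 : Integrable (fun z => ee k z) P := by
    apply Integrable.of_bound (C := 2)
    · exact (continuous_ee k).measurable.aestronglyMeasurable
    · exact Eventually.of_forall fun z => abs_ee_le k _
  have msq : Measurable fun z => sq z (x (τ z)) :=
    continuous_sq.measurable.comp (measurable_id.prodMk hS)
  have i3 : Integrable (fun z => sq z (x (τ z))) P := by
    apply Integrable.of_bound (C := 2)
    · exact msq.aestronglyMeasurable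
    · filter_upwards [ae_Om] with z hz
      rw [Real.norm_eq_abs, abs_of_nonneg (sq_nonneg' _ _)]
      exact sq_le_two hz (hx _)
  have cg : Continuous fun p : R2 × R2 => gr k p.1 (p.1.1 - p.2.1, p.1.2 - p.2.2) := by
    unfold gr
    have h1 := continuous_e1 k.1
    have h2 := continuous_e1 k.2
    have h3 := continuous_d1 k.1
    have h4 := continuous_d1 k.2
    fun_prop
  have mg : Measurable fun z : R2 => gr k z (z.1 - (x (τ z)).1, z.2 - (x (τ z)).2) :=
    cg.measurable.comp (measurable_id.prodMk hS)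
  have i4 : Integrable (fun z : R2 => gr k z (z.1 - (x (τ z)).1, z.2 - (x (τ z)).2)) P := by
    apply Integrable.of_bound (C := 1 + 8 * lam k)
    · exact mg.aestronglyMeasurable
    · filter_upwards [ae_Om] with z hz
      rw [Real.norm_eq_abs]
      have h1 := gr_sq_le k z (z.1 - (x (τ z)).1, z.2 - (x (τ z)).2)
      have h2 : (z.1 - (x (τ z)).1) ^ 2 + (z.2 - (x (τ z)).2) ^ 2 ≤ 2 := sq_le_two hz (hx (τ z))
      have h3 := lam_nonneg k
      simp only at h1
      have h4 : 4 * lam k * ((z.1 - (x (τ z)).1) ^ 2 + (z.2 - (x (τ z)).2) ^ 2) ≤ 8 * lam k := by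
        nlinarith
      apply abs_le_of_sq_le_sq _ (by linarith)
      nlinarith
  have hD : ∀ z, |ee k (x (τ z)) - ee k z + gr k z (z.1 - (x (τ z)).1, z.2 - (x (τ z)).2)| ≤
      lam k * sq z (x (τ z)) := by
    intro z
    have h1 := pointwise k z (x (τ z))
    have h2 : gr k z (z.1 - (x (τ z)).1, z.2 - (x (τ z)).2) =
        - gr k z ((x (τ z)).1 - z.1, (x (τ z)).2 - z.2) := by
      unfold gr; simp only; ring
    rw [h2]
    exact h1
  have hI : ∫ z, (ee k (x (τ z)) - ee k z + gr k z (z.1 - (x (τ z)).1, z.2 - (x (τ z)).2)) ∂P =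
      ∫ z, gr k z (z.1 - (x (τ z)).1, z.2 - (x (τ z)).2) ∂P + Z n x k / Real.sqrt n := by
    have i12 : Integrable (fun z => ee k (x (τ z)) - ee k z) P := i1.sub i2
    rw [integral_add i12 i4, integral_sub i1 i2, integral_ee hk,
      integral_ee_S n x τ hτ hc k]
    unfold Z
    rw [div_div, Real.mul_self_sqrt hn0.le]
    ring
  rw [← hI]
  calc |∫ z, (ee k (x (τ z)) - ee k z + gr k z (z.1 - (x (τ z)).1, z.2 - (x (τ z)).2)) ∂P| ≤
      ∫ z, |ee k (x (τ z)) - ee k z + gr k z (z.1 - (x (τ z)).1, z.2 - (x (τ z)).2)| ∂P :=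
        abs_integral_le_integral_abs
    _ ≤ ∫ z, lam k * sq z (x (τ z)) ∂P :=
        integral_mono ((i1.sub i2).add i4).abs (i3.const_mul _) hD
    _ = lam k * ∫ z, sq z (x (τ z)) ∂P := integral_const_mul _ _

end Pool.Agent.N940.OT.Mode
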