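import Pool.Agent.N940.OT.Basic

/-!
# Orthonormality of the Neumann eigenfunctions and the inequality of Bessel for gradients
-/

set_option autoImplicit false

open MeasureTheory Filter Topology Finset
open scoped ENNReal NNReal

namespace Pool.Agent.N940.OT.On

open Pool.Agent.N940.OT

/-- one dimensional integral -/
noncomputable def J (f : ℝ → ℝ) : ℝ := ∫ s in (0 : ℝ)..1, f s

theorem J_eq (f : ℝ → ℝ) : ∫ s, f s ∂(volume.restrict (Set.Icc (0 : ℝ) 1)) = J f := by
  unfold J
  rw [intervalIntegral.integral_of_le zero_le_one, integral_Icc_eq_integral_Ioc]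

theorem dd (k l : ℕ) : J (fun s => d1 k s * d1 l s) =
    (Real.pi * k) ^ 2 * J (fun s => e1 k s * e1 l s) := by
  unfold J
  have h := intervalIntegral.integral_mul_deriv_eq_deriv_mul (a := 0) (b := 1)
    (u := d1 k) (v := e1 l) (u' := fun s => -((Real.pi * k) ^ 2 * e1 k s)) (v' := d1 l)
    (fun s _ => hasDerivAt_d1 k s) (fun s _ => hasDerivAt_e1 l s)
    (by
      apply Continuous.intervalIntegrable
      have := continuous_e1 k
      fun_prop)
    ((continuous_d1 l).intervalIntegrable _ _)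
  rw [h, d1_zero', d1_one', ← intervalIntegral.integral_const_mul]
  have h2 : ∀ s : ℝ, -((Real.pi * k) ^ 2 * e1 k s) * e1 l s =
      -((Real.pi * k) ^ 2 * (e1 k s * e1 l s)) := fun s => by ring
  simp only [h2]
  rw [intervalIntegral.integral_neg]
  ring

theorem ee_ne {k l : ℕ} (h : k ≠ l) : J (fun s => e1 k s * e1 l s) = 0 := by
  have h1 := dd k l
  have h2 := dd l k
  have h3 : J (fun s => d1 k s * d1 l s) = J (fun s => d1 l s * d1 k s) := by
    congr 1
    funext s
    ring
  have h4 : J (fun s => e1 k s * e1 l s) = J (fun s => e1 l s * e1 k s) := by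
    congr 1
    funext s
    ring
  rw [← h4] at h2
  rw [h1, h2] at h3
  have h5 : (Real.pi ^ 2 * ((k : ℝ) ^ 2 - (l : ℝ) ^ 2)) * J (fun s => e1 k s * e1 l s) = 0 := by
    linear_combination h3
  rcases mul_eq_zero.1 h5 with h6 | h6
  · exfalso
    rcases mul_eq_zero.1 h6 with h7 | h7
    · exact (pow_ne_zero 2 Real.pi_ne_zero) h7
    · have h8 : (k : ℝ) ^ 2 = (l : ℝ) ^ 2 := by linarith
      have h9 : k ^ 2 = l ^ 2 := by exact_mod_cast h8
      exact h (Nat.pow_left_injective (n := 2) (by norm_num) h9)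
  · exact h6

theorem ee_self (k : ℕ) : J (fun s => e1 k s * e1 k s) = 1 := by
  by_cases hk : k = 0
  · subst hk
    have : ∀ s : ℝ, e1 0 s * e1 0 s = 1 := fun s => by simp [e1, cn_zero]
    simp only [this]
    simp [J]
  · have hk' : (k : ℝ) ≠ 0 := by exact_mod_cast hk
    have hp : (Real.pi * k) ^ 2 ≠ 0 := pow_ne_zero 2 (mul_ne_zero Real.pi_ne_zero hk')
    have h1 := dd k k
    have h2 : ∀ s : ℝ, d1 k s * d1 k s = (Real.pi * k) ^ 2 * 2 -
        (Real.pi * k) ^ 2 * (e1 k s * e1 k s) := by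
      intro s
      unfold d1 e1
      have h3 := cn_sq hk
      have h4 := Real.sin_sq_add_cos_sq (Real.pi * k * s)
      linear_combination (Real.pi * k) ^ 2 * cn k ^ 2 * h4 + (Real.pi * k) ^ 2 * h3
    have h5 : J (fun s => d1 k s * d1 k s) = (Real.pi * k) ^ 2 * 2 -
        (Real.pi * k) ^ 2 * J (fun s => e1 k s * e1 k s) := by
      simp only [h2]
      unfold J
      rw [intervalIntegral.integral_sub, intervalIntegral.integral_const_mul]
      · simp
      · exact intervalIntegrable_const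
      · apply Continuous.intervalIntegrable
        have := continuous_e1 k
        fun_prop
    rw [h1] at h5
    have h6 : (Real.pi * k) ^ 2 * (2 * J (fun s => e1 k s * e1 k s) - 2) = 0 := by
      linear_combination h5
    rcases mul_eq_zero.1 h6 with h7 | h7
    · exact absurd h7 hp
    · linarith

theorem prodP (f g : ℝ → ℝ) : ∫ z : R2, f z.1 * g z.2 ∂P = J f * J g := by
  rw [P_eq_prod, integral_prod_mul, J_eq, J_eq]

theorem on : S_ON := by
  constructor
  · intro k
    have h : ∀ z : R2, ee k z ^ 2 = (fun s => e1 k.1 s * e1 k.1 s) z.1 *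
        (fun s => e1 k.2 s * e1 k.2 s) z.2 := by
      intro z
      unfold ee
      ring
    simp only [h]
    rw [prodP (fun s => e1 k.1 s * e1 k.1 s) (fun s => e1 k.2 s * e1 k.2 s), ee_self, ee_self,
      mul_one]
  · intro k l hkl
    have h : ∀ z : R2, ee k z * ee l z = (fun s => e1 k.1 s * e1 l.1 s) z.1 *
        (fun s => e1 k.2 s * e1 l.2 s) z.2 := by
      intro z
      unfold ee
      ring
    simp only [h]
    rw [prodP (fun s => e1 k.1 s * e1 l.1 s) (fun s => e1 k.2 s * e1 l.2 s)]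
    by_cases h1 : k.1 = l.1
    · have h2 : k.2 ≠ l.2 := fun h2 => hkl (Prod.ext h1 h2)
      rw [ee_ne h2, mul_zero]
    · rw [ee_ne h1, zero_mul]

theorem intP {f : R2 → ℝ} (hf : Measurable f) {M : ℝ} (h : ∀ z ∈ Om, |f z| ≤ M) :
    Integrable f P := by
  refine Integrable.of_bound hf.aestronglyMeasurable M ?_
  filter_upwards [ae_Om] with z hz
  rw [Real.norm_eq_abs]
  exact h z hz

theorem intC {f : R2 → ℝ} (hf : Continuous f) : Integrable f P := by
  unfold P
  exact hf.continuousOn.integrableOn_compact isCompact_Om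

/-- the gradients -/
noncomputable def V1 (k : Fq) (z : R2) : ℝ := d1 k.1 z.1 * e1 k.2 z.2

/-- the gradients -/
noncomputable def V2 (k : Fq) (z : R2) : ℝ := e1 k.1 z.1 * d1 k.2 z.2

theorem cV1 (k : Fq) : Continuous (V1 k) :=
  ((continuous_d1 _).comp continuous_fst).mul ((continuous_e1 _).comp continuous_snd)

theorem cV2 (k : Fq) : Continuous (V2 k) :=
  ((continuous_e1 _).comp continuous_fst).mul ((continuous_d1 _).comp continuous_snd)

theorem gr_eq (k : Fq) (z v : R2) : gr k z v = v.1 * V1 k z + v.2 * V2 k z := rfl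

theorem VV (k l : Fq) : ∫ z, (V1 k z * V1 l z + V2 k z * V2 l z) ∂P =
    if k = l then lam k else 0 := by
  have h1 : ∫ z, V1 k z * V1 l z ∂P = J (fun s => d1 k.1 s * d1 l.1 s) *
      J (fun s => e1 k.2 s * e1 l.2 s) := by
    rw [← prodP]
    congr 1
    funext z
    unfold V1
    ring
  have h2 : ∫ z, V2 k z * V2 l z ∂P = J (fun s => e1 k.1 s * e1 l.1 s) *
      J (fun s => d1 k.2 s * d1 l.2 s) := by
    rw [← prodP]
    congr 1
    funext z
    unfold V2
    ring
  have i1 : Integrable (fun z => V1 k z * V1 l z) P := intC ((cV1 k).mul (cV1 l))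
  have i2 : Integrable (fun z => V2 k z * V2 l z) P := intC ((cV2 k).mul (cV2 l))
  rw [integral_add i1 i2, h1, h2, dd, dd]
  split_ifs with h
  · subst h
    rw [ee_self, ee_self]
    unfold lam
    ring
  · by_cases h3 : k.1 = l.1
    · have h4 : k.2 ≠ l.2 := fun h4 => h (Prod.ext h3 h4)
      rw [ee_ne h4]
      ring
    · rw [ee_ne h3]
      ring

theorem bg : S_BG := by
  classical
  intro G C s hG hb hs
  set c : Fq → ℝ := fun k => ∫ z, gr k z (G z) ∂P with hc
  have hm1 : Measurable fun z => (G z).1 := measurable_fst.comp hG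
  have hm2 : Measurable fun z => (G z).2 := measurable_snd.comp hG
  have hgm : ∀ k, Measurable fun z => gr k z (G z) := by
    intro k
    exact (hm1.mul (cV1 k).measurable).add (hm2.mul (cV2 k).measurable)
  have hsqb : ∀ z ∈ Om, (G z).1 ^ 2 + (G z).2 ^ 2 ≤ 2 * C ^ 2 := by
    intro z hz
    obtain ⟨h1, h2⟩ := hb z hz
    have h3 := sq_le_sq' (neg_le_of_abs_le h1) (le_of_abs_le h1)
    have h4 := sq_le_sq' (neg_le_of_abs_le h2) (le_of_abs_le h2)
    linarith
  have hgi : ∀ k, Integrable (fun z => gr k z (G z)) P := by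
    intro k
    refine intP (hgm k) (M := 4 * lam k * (2 * C ^ 2) + 1) fun z hz => ?_
    have h1 := gr_sq_le k z (G z)
    have h2 := mul_le_mul_of_nonneg_left (hsqb z hz) (mul_nonneg (by norm_num : (0 : ℝ) ≤ 4)
      (lam_nonneg k))
    have h3 : |gr k z (G z)| ≤ gr k z (G z) ^ 2 + 1 := by
      rw [← sq_abs]
      nlinarith [sq_nonneg (|gr k z (G z)| - 1), abs_nonneg (gr k z (G z))]
    linarith
  have hGi : Integrable (fun z => (G z).1 ^ 2 + (G z).2 ^ 2) P := by
    refine intP ((hm1.pow_const 2).add (hm2.pow_const 2)) (M := 2 * C ^ 2) fun z hz => ?_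
    rw [abs_of_nonneg (by positivity)]
    exact hsqb z hz
  have hVi : ∀ k l, Integrable (fun z => V1 k z * V1 l z + V2 k z * V2 l z) P := fun k l =>
    intC (((cV1 k).mul (cV1 l)).add ((cV2 k).mul (cV2 l)))
  set a : Fq → ℝ := fun k => c k / lam k with ha
  have hexp : ∀ z, ((G z).1 - ∑ k ∈ s, a k * V1 k z) ^ 2 + ((G z).2 - ∑ k ∈ s, a k * V2 k z) ^ 2 =
      ((G z).1 ^ 2 + (G z).2 ^ 2) - 2 * ∑ k ∈ s, a k * gr k z (G z) +
        ∑ k ∈ s, ∑ l ∈ s, a k * a l * (V1 k z * V1 l z + V2 k z * V2 l z) := by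
    intro z
    have h1 : ∑ k ∈ s, a k * gr k z (G z) = (G z).1 * ∑ k ∈ s, a k * V1 k z +
        (G z).2 * ∑ k ∈ s, a k * V2 k z := by
      rw [mul_sum, mul_sum, ← sum_add_distrib]
      refine sum_congr rfl fun k _ => ?_
      rw [gr_eq]
      ring
    have h2 : ∑ k ∈ s, ∑ l ∈ s, a k * a l * (V1 k z * V1 l z + V2 k z * V2 l z) =
        (∑ k ∈ s, a k * V1 k z) * (∑ k ∈ s, a k * V1 k z) +
        (∑ k ∈ s, a k * V2 k z) * (∑ k ∈ s, a k * V2 k z) := by
      rw [sum_mul_sum, sum_mul_sum, ← sum_add_distrib]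
      refine sum_congr rfl fun k _ => ?_
      rw [← sum_add_distrib]
      refine sum_congr rfl fun l _ => ?_
      ring
    rw [h1, h2]
    ring
  have h0 : 0 ≤ ∫ z, (((G z).1 - ∑ k ∈ s, a k * V1 k z) ^ 2 +
      ((G z).2 - ∑ k ∈ s, a k * V2 k z) ^ 2) ∂P := integral_nonneg fun z => by positivity
  simp only [hexp] at h0
  have hi1 : Integrable (fun z => 2 * ∑ k ∈ s, a k * gr k z (G z)) P :=
    (integrable_finsetSum _ fun k _ => (hgi k).const_mul _).const_mul _
  have hi2 : Integrable (fun z => ∑ k ∈ s, ∑ l ∈ s, a k * a l *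
      (V1 k z * V1 l z + V2 k z * V2 l z)) P :=
    integrable_finsetSum _ fun k _ => integrable_finsetSum _ fun l _ => (hVi k l).const_mul _
  have hi3 : Integrable (fun z => ((G z).1 ^ 2 + (G z).2 ^ 2) -
      2 * ∑ k ∈ s, a k * gr k z (G z)) P := hGi.sub hi1
  rw [integral_add hi3 hi2, integral_sub hGi hi1, integral_const_mul,
    integral_finsetSum _ (fun k _ => (hgi k).const_mul _),
    integral_finsetSum _ (fun k _ => integrable_finsetSum _ fun l _ => (hVi k l).const_mul _)] at h0
  have h3 : ∀ k ∈ s, ∫ z, ∑ l ∈ s, a k * a l * (V1 k z * V1 l z + V2 k z * V2 l z) ∂P =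
      c k ^ 2 / lam k := by
    intro k hk
    rw [integral_finsetSum _ (fun l _ => (hVi k l).const_mul _)]
    simp only [integral_const_mul, VV]
    rw [sum_eq_single k (fun l _ hl => by rw [if_neg (Ne.symm hl), mul_zero])
      (fun h => absurd hk h), if_pos rfl]
    have := lam_pos (hs k hk)
    simp only [ha]
    field_simp
  have h4 : ∀ k ∈ s, ∫ z, a k * gr k z (G z) ∂P = c k ^ 2 / lam k := by
    intro k hk
    rw [integral_const_mul]
    simp only [ha, hc]
    ring
  rw [sum_congr rfl h3, sum_congr rfl h4] at h0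
  linarith

end Pool.Agent.N940.OT.On
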