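import Pool.Agent.N940.OT.Basic

/-!
# OT/PARS: Parseval with a gradient bound for the high modes
-/

set_option autoImplicit false

open MeasureTheory Filter Topology Finset ProbabilityTheory
open scoped ENNReal NNReal

namespace Pool.Agent.N940.OT.Pars

open Pool.Agent.N940.OT

theorem int_cont {g : R2 → ℝ} (hg : Continuous g) : Integrable g P := by
  unfold P
  exact hg.continuousOn.integrableOn_compact isCompact_Om

theorem continuous_sum_ee (s : Finset Fq) (b : Fq → ℝ) : Continuous fun z => ∑ k ∈ s, b k * ee k z := by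
  apply continuous_finsetSum
  intro k _
  exact continuous_const.mul (continuous_ee k)

theorem int_mul_sum {g : R2 → ℝ} (hg : Continuous g) (s : Finset Fq) (b : Fq → ℝ) :
    ∫ z, g z * ∑ k ∈ s, b k * ee k z ∂P = ∑ k ∈ s, b k * ∫ z, g z * ee k z ∂P := by
  have e : ∀ z, g z * ∑ k ∈ s, b k * ee k z = ∑ k ∈ s, b k * (g z * ee k z) := by
    intro z
    rw [mul_sum]
    apply sum_congr rfl
    intro k _
    ring
  simp_rw [e]
  rw [integral_finsetSum]
  · apply sum_congr rfl
    intro k _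
    rw [integral_const_mul]
  · intro k _
    exact (int_cont (hg.mul (continuous_ee k))).const_mul _

theorem int_ee_sum (hO : S_ON) (k : Fq) (s : Finset Fq) (b : Fq → ℝ) :
    ∫ z, ee k z * ∑ l ∈ s, b l * ee l z ∂P = if k ∈ s then b k else 0 := by
  rw [int_mul_sum (continuous_ee k)]
  have e : ∀ l ∈ s, b l * ∫ z, ee k z * ee l z ∂P = if k = l then b l else 0 := by
    intro l _
    split_ifs with h
    · subst h
      have := hO.1 k
      simp_rw [pow_two] at this
      rw [this, mul_one]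
    · rw [hO.2 k l h, mul_zero]
  rw [sum_congr rfl e, sum_ite_eq]

theorem int_sq_sum (hO : S_ON) (s : Finset Fq) (b : Fq → ℝ) :
    ∫ z, (∑ k ∈ s, b k * ee k z) ^ 2 ∂P = ∑ k ∈ s, b k ^ 2 := by
  simp_rw [pow_two]
  rw [int_mul_sum (continuous_sum_ee s b)]
  apply sum_congr rfl
  intro k hk
  have e : ∀ z, (∑ k ∈ s, b k * ee k z) * ee k z = ee k z * ∑ l ∈ s, b l * ee l z := fun z => mul_comm _ _
  simp_rw [e]
  rw [int_ee_sum hO, if_pos hk]

/-- the inequality of Bessel, in the direction which uses completeness -/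
theorem int_sq_le (hO : S_ON) (hC : S_CMP) {h : R2 → ℝ} (hh : Continuous h) (B : ℝ)
    (hB : ∀ s : Finset Fq, ∑ k ∈ s, (∫ z, h z * ee k z ∂P) ^ 2 ≤ B) : ∫ z, h z ^ 2 ∂P ≤ B := by
  apply le_of_forall_pos_le_add
  intro ε hε
  obtain ⟨s, b, hs⟩ := hC h ε hh hε
  have hS := continuous_sum_ee s b
  have e1 : ∫ z, (h z - ∑ k ∈ s, b k * ee k z) ^ 2 ∂P =
      ∫ z, h z ^ 2 ∂P - 2 * ∑ k ∈ s, b k * ∫ z, h z * ee k z ∂P + ∑ k ∈ s, b k ^ 2 := by
    have e2 : ∀ z, (h z - ∑ k ∈ s, b k * ee k z) ^ 2 =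
        (h z ^ 2 - 2 * (h z * ∑ k ∈ s, b k * ee k z)) + (∑ k ∈ s, b k * ee k z) ^ 2 := by
      intro z
      ring
    simp_rw [e2]
    rw [integral_add, integral_sub, integral_const_mul, int_mul_sum hh, int_sq_sum hO]
    · exact int_cont (hh.pow 2)
    · exact (int_cont (hh.mul hS)).const_mul _
    · exact (int_cont (hh.pow 2)).sub ((int_cont (hh.mul hS)).const_mul _)
    · exact int_cont (hS.pow 2)
  rw [e1] at hs
  have e3 := hB s
  have e4 : 2 * ∑ k ∈ s, b k * ∫ z, h z * ee k z ∂P - ∑ k ∈ s, b k ^ 2 ≤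
      ∑ k ∈ s, (∫ z, h z * ee k z ∂P) ^ 2 := by
    rw [mul_sum, ← sum_sub_distrib]
    apply sum_le_sum
    intro k _
    nlinarith [sq_nonneg (b k - ∫ z, h z * ee k z ∂P)]
  linarith

theorem ee_zero (z : R2) : ee (0, 0) z = 1 := by
  unfold ee e1
  simp [cn_zero]

theorem main (hO : S_ON) (hB : S_BG) (hC : S_CMP) : S_PARS := by
  classical
  intro f G C b m hf hG hGb hk hm
  set I := ∫ u, f u ∂P with hI
  set S : R2 → ℝ := fun z => ∑ k ∈ Bx m, b k * ee k z with hS
  have hSc : Continuous S := continuous_sum_ee (Bx m) b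
  have hhc : Continuous fun z => f z - I + S z := (hf.sub continuous_const).add hSc
  have hee0 : ∀ k : Fq, k ≠ (0, 0) → ∫ z, ee k z ∂P = 0 := by
    intro k h0
    have := hO.2 k (0, 0) h0
    simp_rw [ee_zero, mul_one] at this
    exact this
  have hc : ∀ k : Fq, ∫ z, (f z - I + S z) * ee k z ∂P =
      ∫ z, f z * ee k z ∂P - I * ∫ z, ee k z ∂P + if k ∈ Bx m then b k else 0 := by
    intro k
    have e : ∀ z, (f z - I + S z) * ee k z = (f z * ee k z - I * ee k z) + ee k z * S z := by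
      intro z
      ring
    simp_rw [e]
    rw [integral_add, integral_sub, integral_const_mul]
    · congr 1
      exact int_ee_sum hO k (Bx m) b
    · exact int_cont (hf.mul (continuous_ee k))
    · exact (int_cont (continuous_ee k)).const_mul _
    · exact (int_cont (hf.mul (continuous_ee k))).sub ((int_cont (continuous_ee k)).const_mul _)
    · exact int_cont ((continuous_ee k).mul hSc)
  have hc0 : ∫ z, (f z - I + S z) * ee (0, 0) z ∂P = 0 := by
    rw [hc, if_neg (fun h => ne_of_mem_Bx h rfl)]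
    simp_rw [ee_zero, mul_one]
    rw [← hI]
    simp
  have hm0 : (0 : ℝ) < m := by exact_mod_cast hm
  apply int_sq_le hO hC hhc
  intro s
  have h1 : ∑ k ∈ s, (∫ z, (f z - I + S z) * ee k z ∂P) ^ 2 ≤
      ∑ k ∈ Bx m ∪ (s \ Bx m).erase (0, 0), (∫ z, (f z - I + S z) * ee k z ∂P) ^ 2 := by
    have h2 : ∑ k ∈ s, (∫ z, (f z - I + S z) * ee k z ∂P) ^ 2 =
        ∑ k ∈ s.erase (0, 0), (∫ z, (f z - I + S z) * ee k z ∂P) ^ 2 := by
      by_cases h0 : (0, 0) ∈ s
      · rw [← add_sum_erase s _ h0, hc0]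
        ring
      · rw [erase_eq_of_notMem h0]
    rw [h2]
    apply sum_le_sum_of_subset_of_nonneg
    · intro k hk'
      rw [mem_erase] at hk'
      rw [mem_union, mem_erase, Finset.mem_sdiff]
      by_cases h3 : k ∈ Bx m
      · exact Or.inl h3
      · exact Or.inr ⟨hk'.1, hk'.2, h3⟩
    · intro k _ _
      exact sq_nonneg _
  refine h1.trans ?_
  rw [sum_union]
  · apply add_le_add
    · apply le_of_eq
      apply sum_congr rfl
      intro k hk'
      rw [hc, if_pos hk', hee0 k (ne_of_mem_Bx hk'), mul_zero, sub_zero]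
    · have h4 : ∑ k ∈ (s \ Bx m).erase (0, 0), (∫ z, (f z - I + S z) * ee k z ∂P) ^ 2 ≤
          ∑ k ∈ (s \ Bx m).erase (0, 0), ((∫ z, gr k z (G z) ∂P) ^ 2 / lam k) / (m : ℝ) ^ 2 := by
        apply sum_le_sum
        intro k hk'
        rw [mem_erase, Finset.mem_sdiff] at hk'
        obtain ⟨h0, -, h5⟩ := hk'
        rw [hc, if_neg h5, hee0 k h0, mul_zero, sub_zero, add_zero]
        have hl := lam_pos h0
        have hlm := lam_ge_of_not_mem h0 h5
        rw [← hk k, div_div, le_div_iff₀ (by positivity), mul_pow]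
        nlinarith [mul_nonneg (sq_nonneg (∫ z, f z * ee k z ∂P)) (mul_nonneg hl.le (sub_nonneg.2 hlm))]
      refine h4.trans ?_
      rw [← sum_div]
      apply div_le_div_of_nonneg_right _ (by positivity)
      apply hB G C _ hG hGb
      intro k hk'
      exact (mem_erase.1 hk').1
  · rw [disjoint_left]
    intro k h5 h6
    rw [mem_erase, Finset.mem_sdiff] at h6
    exact h6.2.2 h5

end Pool.Agent.N940.OT.Pars
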