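import Pool.Agent.N940.OT.Basic

/-!
# Existence of optimal maps and potentials
-/

set_option autoImplicit false

open MeasureTheory Filter Topology Finset ProbabilityTheory
open scoped ENNReal NNReal

namespace Pool.Agent.N940.OT.Potm

/-- the integral of a function of the cell -/
theorem integral_cell {n : ℕ} {τ : R2 → Fin n} (hτ : Measurable τ)
    (hc : ∀ i, P.real (τ ⁻¹' {i}) = 1 / n) (w : Fin n → ℝ) :
    ∫ z, w (τ z) ∂P = (∑ i, w i) / n := by
  have h1 : ∫ z, w (τ z) ∂P = ∫ i, w i ∂(P.map τ) :=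
    (integral_map hτ.aemeasurable (measurable_of_finite w).aestronglyMeasurable).symm
  have : IsProbabilityMeasure (P.map τ) := Measure.isProbabilityMeasure_map hτ.aemeasurable
  rw [h1, integral_fintype Integrable.of_finite, sum_div]
  apply sum_congr rfl
  intro i _
  have h2 : (P.map τ).real {i} = P.real (τ ⁻¹' {i}) := by
    rw [measureReal_def, measureReal_def, Measure.map_apply hτ (measurableSet_singleton i)]
  rw [h2, hc i, smul_eq_mul]
  ring

theorem measurable_sqx {n : ℕ} (x : Fin n → R2) {τ : R2 → Fin n} (hτ : Measurable τ) :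
    Measurable fun z => sq z (x (τ z)) := by
  have h1 : Measurable fun z => x (τ z) := (measurable_of_finite x).comp hτ
  exact continuous_sq.measurable.comp (measurable_id.prodMk h1)

theorem integrable_sqx {n : ℕ} {x : Fin n → R2} (hx : ∀ i, x i ∈ Om) {τ : R2 → Fin n}
    (hτ : Measurable τ) : Integrable (fun z => sq z (x (τ z))) P := by
  refine Integrable.of_bound (measurable_sqx x hτ).aestronglyMeasurable 2 ?_
  filter_upwards [ae_Om] with z hz
  rw [Real.norm_eq_abs, abs_of_nonneg (sq_nonneg' _ _)]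
  exact sq_le_two hz (hx _)

theorem main (hSD : S_SD) (hWD : S_WD) (hUP : S_UP) (hE : S_EXT) (hDsp : S_DSP) (hI : S_IBP) :
    S_POT := by
  intro n x hn hx hinj
  obtain ⟨τ, w, hc⟩ := hSD n x hn hx hinj
  have hV0 : 0 ≤ ∫ u, sq u (x (τ u)) ∂P := integral_nonneg fun u => sq_nonneg' _ _
  have hmono : ∀ z z', sq z (x (τ z)) + sq z' (x (τ z')) ≤
      sq z (x (τ z')) + sq z' (x (τ z)) := by
    intro z z'
    have h1 := hc.opt z (τ z')
    have h2 := hc.opt z' (τ z)
    linarith
  have hdsp := hDsp n x τ hn hx hc.meas hmono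
  obtain ⟨V, hV⟩ : ∃ V : ℝ, V = ∫ u, sq u (x (τ u)) ∂P := ⟨_, rfl⟩
  rw [← hV] at hV0
  have hM0 : 0 ≤ Real.sqrt (Real.sqrt (2 ^ 14 * V)) := Real.sqrt_nonneg _
  have hM2 : Real.sqrt (Real.sqrt (2 ^ 14 * V)) ^ 2 = Real.sqrt (2 ^ 14 * V) :=
    Real.sq_sqrt (Real.sqrt_nonneg _)
  have hM4 : Real.sqrt (Real.sqrt (2 ^ 14 * V)) ^ 4 = 2 ^ 14 * V := by
    have : Real.sqrt (Real.sqrt (2 ^ 14 * V)) ^ 4 =
        (Real.sqrt (Real.sqrt (2 ^ 14 * V)) ^ 2) ^ 2 := by ring
    rw [this, hM2, Real.sq_sqrt (by positivity)]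
  obtain ⟨M, hM⟩ : ∃ M : ℝ, M = Real.sqrt (Real.sqrt (2 ^ 14 * V)) := ⟨_, rfl⟩
  rw [← hM] at hM0 hM2 hM4
  have hdisp : ∀ z ∈ Om, sq z (x (τ z)) ≤ M ^ 2 := by
    intro z hz
    rw [hM2]
    apply Real.le_sqrt_of_sq_le
    rw [hV]
    exact hdsp z hz
  obtain ⟨hcφ, ψ, hcψ, hle, hw, hlip⟩ := hE n x τ w M hn hx hc hM0 hdisp
  have hint := integrable_sqx hx hc.meas
  have hintw : Integrable (fun z => w (τ z)) P := by
    have : IsProbabilityMeasure (P.map τ) := Measure.isProbabilityMeasure_map hc.meas.aemeasurable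
    have h1 : Integrable w (P.map τ) := Integrable.of_finite
    exact h1.comp_measurable hc.meas
  have hval : T n x = V := by
    apply le_antisymm
    · rw [hV]
      exact hUP n x τ hn hx hc.meas hc.cell
    · have h1 := hWD n x _ ψ hn hx hcφ hcψ hle
      have h2 : ∫ z, (sq z (x (τ z)) - w (τ z)) ∂P = V - (∑ i, w i) / n := by
        rw [integral_sub hint hintw, ← hV, integral_cell hc.meas hc.cell]
      have h3 : ∑ i, ψ (x i) = ∑ i, w i := sum_congr rfl fun i _ => hw i
      rw [h2, h3] at h1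
      linarith
  refine ⟨τ, fun z => sq z (x (τ z)) - w (τ z), ψ, M, ?_⟩
  exact
    { meas := hc.meas
      cφ := hcφ
      cψ := hcψ
      M0 := hM0
      cell := hc.cell
      le := hle
      eq := by
        intro z hz
        show sq z (x (τ z)) - w (τ z) + ψ (x (τ z)) = sq z (x (τ z))
        rw [hw]
        ring
      val := by rw [hval, hV]
      disp := hdisp
      small := by rw [hM4, hval]
      lip := hlip
      ibp := hI n x τ w hn hx hc }

end Pool.Agent.N940.OT.Potm
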