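import Pool.Agent.N940.OT.Basic

/-!
# Moments of the costs of the dyadic refinements
-/

set_option autoImplicit false

open MeasureTheory Filter Topology Finset ProbabilityTheory
open scoped ENNReal NNReal

namespace Pool.Agent.N940.OT.Sm

section rad

variable {ι : Type*} [DecidableEq ι]

/-- signed sums -/
def sgs (a : ι → ℝ) (s t : Finset ι) : ℝ := ∑ i ∈ s, (if i ∈ t then -1 else 1) * a i

theorem sgs_insert1 {a : ι → ℝ} {s t : Finset ι} {b : ι} (hb : b ∉ s) (ht : t ⊆ s) :
    sgs a (insert b s) t = sgs a s t + a b := by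
  unfold sgs
  rw [sum_insert hb, if_neg (fun h => hb (ht h)), one_mul, add_comm]

theorem sgs_insert2 {a : ι → ℝ} {s t : Finset ι} {b : ι} (hb : b ∉ s) :
    sgs a (insert b s) (insert b t) = sgs a s t - a b := by
  unfold sgs
  rw [sum_insert hb, if_pos (mem_insert_self _ _)]
  have : ∑ i ∈ s, (if i ∈ insert b t then (-1 : ℝ) else 1) * a i =
      ∑ i ∈ s, (if i ∈ t then -1 else 1) * a i := by
    refine sum_congr rfl fun i hi => ?_
    have hib : i ≠ b := fun h => hb (h ▸ hi)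
    simp only [mem_insert, hib, false_or]
  rw [this]
  ring

theorem rad2 (a : ι → ℝ) (s : Finset ι) :
    ∑ t ∈ s.powerset, sgs a s t ^ 2 = 2 ^ s.card * ∑ i ∈ s, a i ^ 2 := by
  induction s using Finset.induction_on with
  | empty => simp [sgs]
  | insert b s hb ih =>
    rw [sum_powerset_insert hb, card_insert_of_notMem hb, sum_insert hb, ← sum_add_distrib]
    have h1 : ∑ t ∈ s.powerset, (sgs a (insert b s) t ^ 2 +
        sgs a (insert b s) (insert b t) ^ 2) =
        ∑ t ∈ s.powerset, (2 * sgs a s t ^ 2 + 2 * a b ^ 2) := by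
      refine sum_congr rfl fun t ht => ?_
      rw [sgs_insert1 hb (mem_powerset.1 ht), sgs_insert2 hb]
      ring
    rw [h1, sum_add_distrib, ← mul_sum, ih, sum_const, card_powerset, nsmul_eq_mul]
    push_cast
    ring

theorem rad4 (a : ι → ℝ) (s : Finset ι) :
    ∑ t ∈ s.powerset, sgs a s t ^ 4 ≤ 3 * 2 ^ s.card * (∑ i ∈ s, a i ^ 2) ^ 2 := by
  induction s using Finset.induction_on with
  | empty => simp [sgs]
  | insert b s hb ih =>
    rw [sum_powerset_insert hb, card_insert_of_notMem hb, sum_insert hb, ← sum_add_distrib]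
    have h1 : ∑ t ∈ s.powerset, (sgs a (insert b s) t ^ 4 +
        sgs a (insert b s) (insert b t) ^ 4) =
        ∑ t ∈ s.powerset, (2 * sgs a s t ^ 4 + 12 * a b ^ 2 * sgs a s t ^ 2 + 2 * a b ^ 4) := by
      refine sum_congr rfl fun t ht => ?_
      rw [sgs_insert1 hb (mem_powerset.1 ht), sgs_insert2 hb]
      ring
    rw [h1, sum_add_distrib, sum_add_distrib, ← mul_sum, ← mul_sum, rad2, sum_const,
      card_powerset, nsmul_eq_mul]
    push_cast
    have h2 : (0 : ℝ) ≤ 2 ^ s.card * a b ^ 4 := by positivity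
    have h3 : 3 * 2 ^ (s.card + 1) * (a b ^ 2 + ∑ i ∈ s, a i ^ 2) ^ 2 =
        2 * (3 * 2 ^ s.card * (∑ i ∈ s, a i ^ 2) ^ 2) +
          12 * a b ^ 2 * (2 ^ s.card * ∑ i ∈ s, a i ^ 2) + 2 ^ s.card * (2 * a b ^ 4) +
          4 * (2 ^ s.card * a b ^ 4) := by ring
    rw [h3]
    linarith

end rad

/-- the quotient -/
noncomputable def G {n : ℕ} (y : Fin n → ℝ) : ℝ := ((∑ i, y i) ^ 2 / ∑ i, y i ^ 2) ^ 2

theorem G_nonneg {n : ℕ} (y : Fin n → ℝ) : 0 ≤ G y := sq_nonneg _

theorem G_le {n : ℕ} (y : Fin n → ℝ) : G y ≤ (n : ℝ) ^ 2 := by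
  unfold G
  have h0 : 0 ≤ ∑ i, y i ^ 2 := sum_nonneg fun i _ => sq_nonneg _
  apply pow_le_pow_left₀ (div_nonneg (sq_nonneg _) h0)
  apply div_le_of_le_mul₀ h0 (Nat.cast_nonneg n)
  have := sq_sum_le_card_mul_sum_sq (s := (univ : Finset (Fin n))) (f := y)
  rwa [card_univ, Fintype.card_fin] at this

theorem measurable_G {n : ℕ} : Measurable (G (n := n)) := by
  unfold G
  fun_prop

theorem integrable_of_bdd {X : Type*} [MeasurableSpace X] (μ : Measure X)
    [IsProbabilityMeasure μ] {f : X → ℝ} {C : ℝ} (hf : Measurable f) (h0 : ∀ x, 0 ≤ f x)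
    (hC : ∀ x, f x ≤ C) : Integrable f μ := by
  refine Integrable.of_bound hf.aestronglyMeasurable C (Eventually.of_forall fun x => ?_)
  rw [Real.norm_eq_abs, abs_of_nonneg (h0 x)]
  exact hC x

/-- change of signs -/
def flip {n : ℕ} (t : Finset (Fin n)) (y : Fin n → ℝ) : Fin n → ℝ :=
  fun i => if i ∈ t then -(y i) else y i

theorem sum_flip {n : ℕ} (y : Fin n → ℝ) :
    ∑ t : Finset (Fin n), G (flip t y) ≤ 3 * 2 ^ n := by
  have h0 : 0 ≤ ∑ i, y i ^ 2 := sum_nonneg fun i _ => sq_nonneg _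
  have h1 : ∀ t : Finset (Fin n), G (flip t y) = sgs y univ t ^ 4 / (∑ i, y i ^ 2) ^ 2 := by
    intro t
    unfold G sgs flip
    have e1 : ∀ i, (if i ∈ t then -(y i) else y i) = (if i ∈ t then -1 else 1) * y i := by
      intro i
      split_ifs <;> ring
    have e2 : ∀ i, (if i ∈ t then -(y i) else y i) ^ 2 = y i ^ 2 := by
      intro i
      split_ifs <;> ring
    simp only [e2]
    simp only [e1]
    rw [div_pow]
    ring
  simp only [h1]
  rw [← sum_div]
  have h2 := rad4 y (univ : Finset (Fin n))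
  rw [powerset_univ, card_univ, Fintype.card_fin] at h2
  exact div_le_of_le_mul₀ (sq_nonneg _) (by positivity) h2

theorem key_pi (ν : Measure ℝ) [IsProbabilityMeasure ν] (hs : ν.map Neg.neg = ν) (n : ℕ) :
    ∫ y, G y ∂Measure.pi (fun _ : Fin n => ν) ≤ 3 := by
  have hneg : MeasurePreserving (Neg.neg : ℝ → ℝ) ν ν := ⟨measurable_neg, hs⟩
  have hfl : ∀ t : Finset (Fin n), MeasurePreserving (flip t)
      (Measure.pi (fun _ : Fin n => ν)) (Measure.pi (fun _ : Fin n => ν)) := by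
    intro t
    have := measurePreserving_pi (fun _ : Fin n => ν) (fun _ : Fin n => ν)
      (f := fun i s => if i ∈ t then -s else s) (fun i => by
        by_cases h : i ∈ t
        · simpa [h] using hneg
        · simp only [h, if_false]
          exact MeasurePreserving.id ν)
    exact this
  have hint : Integrable (G (n := n)) (Measure.pi (fun _ : Fin n => ν)) :=
    integrable_of_bdd _ measurable_G G_nonneg G_le
  have h1 : ∀ t : Finset (Fin n), ∫ y, G (flip t y) ∂Measure.pi (fun _ : Fin n => ν) =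
      ∫ y, G y ∂Measure.pi (fun _ : Fin n => ν) := by
    intro t
    rw [← integral_map (hfl t).measurable.aemeasurable measurable_G.aestronglyMeasurable,
      (hfl t).map_eq]
  have hG : ∀ t : Finset (Fin n), Integrable (fun y => G (flip t y))
      (Measure.pi (fun _ : Fin n => ν)) := fun t =>
    (hfl t).integrable_comp_of_integrable hint
  have h2 : ∑ t : Finset (Fin n), ∫ y, G (flip t y) ∂Measure.pi (fun _ : Fin n => ν) =
      2 ^ n * ∫ y, G y ∂Measure.pi (fun _ : Fin n => ν) := by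
    simp only [h1, sum_const, nsmul_eq_mul, card_univ, Fintype.card_finset, Fintype.card_fin]
    push_cast
    rfl
  rw [← integral_finsetSum _ fun t _ => hG t] at h2
  have h3 : ∫ y, ∑ t : Finset (Fin n), G (flip t y) ∂Measure.pi (fun _ : Fin n => ν) ≤
      ∫ _, (3 * 2 ^ n : ℝ) ∂Measure.pi (fun _ : Fin n => ν) := by
    apply integral_mono
    · exact integrable_finsetSum _ fun t _ => hG t
    · exact integrable_const _
    · exact fun y => sum_flip y
  rw [integral_const, probReal_univ, one_smul, h2] at h3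
  have h4 : (0 : ℝ) < 2 ^ n := by positivity
  nlinarith

/-- the image of a measure under a function with two opposite values on two sets of the same
measure is symmetric -/
theorem map_symm {X : Type*} [MeasurableSpace X] (μ : Measure X) {L R : Set X}
    (hL : MeasurableSet L) (hR : MeasurableSet R) (hd : Disjoint L R) (h : μ L = μ R) :
    (μ.map (fun z => L.indicator (fun _ => (1 : ℝ)) z - R.indicator (fun _ => (1 : ℝ)) z)).map
      Neg.neg = μ.map (fun z => L.indicator (fun _ => (1 : ℝ)) z -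
        R.indicator (fun _ => (1 : ℝ)) z) := by
  classical
  set σ : X → ℝ := fun z => L.indicator (fun _ => (1 : ℝ)) z - R.indicator (fun _ => (1 : ℝ)) z
    with hσ
  have hm : Measurable σ :=
    (measurable_const.indicator hL).sub (measurable_const.indicator hR)
  have hLv : ∀ z ∈ L, σ z = 1 := by
    intro z hz
    have hz' : z ∉ R := fun h' => Set.disjoint_left.1 hd hz h'
    simp [hσ, hz, hz']
  have hRv : ∀ z ∈ R, σ z = -1 := by
    intro z hz
    have hz' : z ∉ L := fun h' => Set.disjoint_left.1 hd h' hz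
    simp [hσ, hz, hz']
  have h0v : ∀ z ∈ (L ∪ R)ᶜ, σ z = 0 := by
    intro z hz
    rw [Set.mem_compl_iff, Set.mem_union, not_or] at hz
    simp [hσ, hz.1, hz.2]
  rw [Measure.map_map measurable_neg hm]
  ext A hA
  rw [Measure.map_apply (measurable_neg.comp hm) hA, Measure.map_apply hm hA]
  have hsplit : ∀ f : X → ℝ, Measurable f → μ (f ⁻¹' A) =
      μ (f ⁻¹' A ∩ L) + μ (f ⁻¹' A ∩ R) + μ (f ⁻¹' A ∩ (L ∪ R)ᶜ) := by
    intro f hf
    have hfA : MeasurableSet (f ⁻¹' A) := hf hA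
    rw [← measure_inter_add_sdiff (f ⁻¹' A) (hL.union hR)]
    congr 1
    rw [Set.inter_union_distrib_left, measure_union _ (hfA.inter hR)]
    exact hd.mono Set.inter_subset_right Set.inter_subset_right
  rw [hsplit _ (measurable_neg.comp hm), hsplit _ hm]
  have hval : ∀ (f : X → ℝ) (S : Set X) (c : ℝ), (∀ z ∈ S, f z = c) →
      μ (f ⁻¹' A ∩ S) = if c ∈ A then μ S else 0 := by
    intro f S c hc
    split_ifs with hcA
    · congr 1
      ext z
      constructor
      · exact fun hz => hz.2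
      · intro hz
        refine ⟨?_, hz⟩
        rw [Set.mem_preimage, hc z hz]
        exact hcA
    · have : f ⁻¹' A ∩ S = ∅ := by
        ext z
        simp only [Set.mem_inter_iff, Set.mem_preimage, Set.mem_empty_iff_false, iff_false]
        rintro ⟨h1, h2⟩
        rw [hc z h2] at h1
        exact hcA h1
      rw [this, measure_empty]
  rw [hval _ L (-1) (fun z hz => by simp [hLv z hz]), hval _ R 1 (fun z hz => by simp [hRv z hz]),
    hval _ (L ∪ R)ᶜ 0 (fun z hz => by simp [h0v z hz]), hval _ L 1 hLv, hval _ R (-1) hRv,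
    hval _ (L ∪ R)ᶜ 0 h0v, h]
  ring

theorem key {L R S : Set R2} (hL : MeasurableSet L) (hR : MeasurableSet R) (hd : Disjoint L R)
    (h : P L = P R) (hS : S = L ∪ R) (n : ℕ) :
    ∫ x, (((∑ i, L.indicator (fun _ => (1 : ℝ)) (x i)) -
      (∑ i, S.indicator (fun _ => (1 : ℝ)) (x i)) / 2) ^ 2 /
        ∑ i, S.indicator (fun _ => (1 : ℝ)) (x i)) ^ 2 ∂Pn n ≤ 3 / 16 ∧
    (∀ x : Fin n → R2, (((∑ i, L.indicator (fun _ => (1 : ℝ)) (x i)) -
      (∑ i, S.indicator (fun _ => (1 : ℝ)) (x i)) / 2) ^ 2 /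
        ∑ i, S.indicator (fun _ => (1 : ℝ)) (x i)) ^ 2 ≤ (n : ℝ) ^ 2) ∧
    Measurable (fun x : Fin n → R2 => ((∑ i, L.indicator (fun _ => (1 : ℝ)) (x i)) -
      (∑ i, S.indicator (fun _ => (1 : ℝ)) (x i)) / 2) ^ 2 /
        ∑ i, S.indicator (fun _ => (1 : ℝ)) (x i)) := by
  set σ : R2 → ℝ := fun z => L.indicator (fun _ => (1 : ℝ)) z - R.indicator (fun _ => (1 : ℝ)) z
    with hσ
  have hm : Measurable σ :=
    (measurable_const.indicator hL).sub (measurable_const.indicator hR)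
  have hsum : ∀ z, S.indicator (fun _ => (1 : ℝ)) z = L.indicator (fun _ => (1 : ℝ)) z +
      R.indicator (fun _ => (1 : ℝ)) z := by
    intro z
    rw [hS, Set.indicator_union_of_disjoint hd]
  have hsq : ∀ z, σ z ^ 2 = S.indicator (fun _ => (1 : ℝ)) z := by
    intro z
    rw [hsum]
    by_cases h1 : z ∈ L
    · have h2 : z ∉ R := fun h' => Set.disjoint_left.1 hd h1 h'
      simp [hσ, h1, h2]
    · by_cases h2 : z ∈ R
      · simp [hσ, h1, h2]
      · simp [hσ, h1, h2]
  have hpt : ∀ x : Fin n → R2, (((∑ i, L.indicator (fun _ => (1 : ℝ)) (x i)) -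
      (∑ i, S.indicator (fun _ => (1 : ℝ)) (x i)) / 2) ^ 2 /
        ∑ i, S.indicator (fun _ => (1 : ℝ)) (x i)) ^ 2 = 1 / 16 * G (fun i => σ (x i)) := by
    intro x
    unfold G
    simp only [hsq]
    have h1 : (∑ i, L.indicator (fun _ => (1 : ℝ)) (x i)) -
        (∑ i, S.indicator (fun _ => (1 : ℝ)) (x i)) / 2 = 1 / 2 * ∑ i, σ (x i) := by
      simp only [hsum, hσ, sum_add_distrib, sum_sub_distrib]
      ring
    rw [h1]
    ring
  refine ⟨?_, ?_, ?_⟩
  rotate_left
  · intro x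
    rw [hpt]
    have h1 := G_nonneg (fun i => σ (x i))
    have h2 := G_le (fun i => σ (x i))
    linarith
  · have hmL : Measurable (L.indicator (fun _ => (1 : ℝ))) := measurable_const.indicator hL
    have hmS : Measurable (S.indicator (fun _ => (1 : ℝ))) :=
      measurable_const.indicator (hS ▸ hL.union hR)
    have h1 : Measurable (fun x : Fin n → R2 => ∑ i, L.indicator (fun _ => (1 : ℝ)) (x i)) :=
      Finset.measurable_fun_sum _ fun i _ => hmL.comp (measurable_pi_apply i)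
    have h2 : Measurable (fun x : Fin n → R2 => ∑ i, S.indicator (fun _ => (1 : ℝ)) (x i)) :=
      Finset.measurable_fun_sum _ fun i _ => hmS.comp (measurable_pi_apply i)
    exact ((h1.sub (h2.div_const 2)).pow_const 2).div h2
  simp only [hpt]
  rw [integral_const_mul]
  have hP : IsProbabilityMeasure (P.map σ) := Measure.isProbabilityMeasure_map hm.aemeasurable
  have h1 := key_pi (P.map σ) (map_symm P hL hR hd h) n
  have h2 : Measure.pi (fun _ : Fin n => P.map σ) = (Pn n).map (fun x i => σ (x i)) := by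
    unfold Pn
    rw [← Measure.pi_map_pi (fun _ => hm.aemeasurable)]
  have hm' : Measurable (fun (x : Fin n → R2) (i : Fin n) => σ (x i)) :=
    measurable_pi_iff.2 fun i => hm.comp (measurable_pi_apply i)
  rw [h2, integral_map hm'.aemeasurable measurable_G.aestronglyMeasurable] at h1
  linarith

theorem measurableSet_cell (p q a b : ℕ) : MeasurableSet (cell p q a b) :=
  measurableSet_Ico.prod measurableSet_Ico

theorem cell_subset_Om {p q a b : ℕ} (ha : a < 2 ^ p) (hb : b < 2 ^ q) : cell p q a b ⊆ Om := by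
  have h : ∀ {p a : ℕ}, a < 2 ^ p →
      Set.Ico ((a : ℝ) / 2 ^ p) ((a + 1) / 2 ^ p) ⊆ Set.Icc 0 1 := by
    intro p a ha s hs
    rw [Set.mem_Ico] at hs
    have h1 : (a : ℝ) + 1 ≤ 2 ^ p := by exact_mod_cast ha
    have h2 : (0 : ℝ) < 2 ^ p := by positivity
    refine ⟨le_trans (by positivity) hs.1, hs.2.le.trans ?_⟩
    rw [div_le_one h2]
    exact h1
  exact Set.prod_mono (h ha) (h hb)

theorem P_cell {p q a b : ℕ} (ha : a < 2 ^ p) (hb : b < 2 ^ q) :
    P (cell p q a b) = ENNReal.ofReal (1 / 2 ^ p) * ENNReal.ofReal (1 / 2 ^ q) := by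
  unfold P
  rw [Measure.restrict_apply (measurableSet_cell p q a b),
    Set.inter_eq_left.2 (cell_subset_Om ha hb)]
  unfold cell
  rw [Measure.volume_eq_prod, Measure.prod_prod, Real.volume_Ico, Real.volume_Ico]
  congr 2 <;> ring

theorem Ico_halves (p a : ℕ) : Set.Ico ((a : ℝ) / 2 ^ p) ((a + 1) / 2 ^ p) =
    Set.Ico (((2 * a : ℕ) : ℝ) / 2 ^ (p + 1)) ((((2 * a : ℕ) : ℝ) + 1) / 2 ^ (p + 1)) ∪
    Set.Ico (((2 * a + 1 : ℕ) : ℝ) / 2 ^ (p + 1))
      ((((2 * a + 1 : ℕ) : ℝ) + 1) / 2 ^ (p + 1)) := by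
  have h0 : (0 : ℝ) < 2 ^ p := by positivity
  have e1 : ((2 * a : ℕ) : ℝ) / 2 ^ (p + 1) = a / 2 ^ p := by
    push_cast
    rw [pow_succ]
    field_simp
  have e2 : (((2 * a : ℕ) : ℝ) + 1) / 2 ^ (p + 1) = ((2 * a + 1 : ℕ) : ℝ) / 2 ^ (p + 1) := by
    push_cast
    ring
  have e3 : (((2 * a + 1 : ℕ) : ℝ) + 1) / 2 ^ (p + 1) = (a + 1) / 2 ^ p := by
    push_cast
    rw [pow_succ]
    field_simp
    ring
  rw [e2, Set.Ico_union_Ico_eq_Ico _ _, e1, e3]
  · rw [← e2]
    gcongr
    linarith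
  · gcongr
    linarith

theorem Ico_halves_disjoint (p a : ℕ) :
    Disjoint (Set.Ico (((2 * a : ℕ) : ℝ) / 2 ^ (p + 1)) ((((2 * a : ℕ) : ℝ) + 1) / 2 ^ (p + 1)))
    (Set.Ico (((2 * a + 1 : ℕ) : ℝ) / 2 ^ (p + 1))
      ((((2 * a + 1 : ℕ) : ℝ) + 1) / 2 ^ (p + 1))) := by
  have e2 : (((2 * a : ℕ) : ℝ) + 1) / 2 ^ (p + 1) = ((2 * a + 1 : ℕ) : ℝ) / 2 ^ (p + 1) := by
    push_cast
    ring
  rw [e2, Set.disjoint_left]
  intro s h1 h2
  exact absurd h2.1 (not_le.2 h1.2)

theorem cell_halves_X (p q a b : ℕ) :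
    cell p q a b = cell (p + 1) q (2 * a) b ∪ cell (p + 1) q (2 * a + 1) b := by
  unfold cell
  rw [← Set.union_prod, ← Ico_halves]

theorem cell_halves_Y (p q a b : ℕ) :
    cell p q a b = cell p (q + 1) a (2 * b) ∪ cell p (q + 1) a (2 * b + 1) := by
  unfold cell
  rw [← Set.prod_union, ← Ico_halves]

theorem disj_X (p q a b : ℕ) :
    Disjoint (cell (p + 1) q (2 * a) b) (cell (p + 1) q (2 * a + 1) b) := by
  unfold cell
  exact Set.disjoint_prod.2 (Or.inl (Ico_halves_disjoint p a))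

theorem disj_Y (p q a b : ℕ) :
    Disjoint (cell p (q + 1) a (2 * b)) (cell p (q + 1) a (2 * b + 1)) := by
  unfold cell
  exact Set.disjoint_prod.2 (Or.inr (Ico_halves_disjoint q b))

theorem sum_bound {n : ℕ} {ι : Type*} (I : Finset ι) (D : ι → (Fin n → R2) → ℝ) (κ : ℝ)
    (hD : ∀ c ∈ I, Measurable (D c)) (hb : ∀ c ∈ I, ∀ x, D c x ^ 2 ≤ (n : ℝ) ^ 2)
    (hi : ∀ c ∈ I, ∫ x, D c x ^ 2 ∂Pn n ≤ 3 / 16) :
    ∫ x, (∑ c ∈ I, κ * D c x) ^ 2 ∂Pn n ≤ (I.card * κ) ^ 2 * (3 / 16) := by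
  have hint : ∀ c ∈ I, Integrable (fun x => D c x ^ 2) (Pn n) := fun c hc =>
    integrable_of_bdd _ ((hD c hc).pow_const 2) (fun x => sq_nonneg _) (hb c hc)
  have h1 : ∫ x, (∑ c ∈ I, κ * D c x) ^ 2 ∂Pn n ≤
      ∫ x, I.card * κ ^ 2 * ∑ c ∈ I, D c x ^ 2 ∂Pn n := by
    apply integral_mono_of_nonneg
    · exact Eventually.of_forall fun x => sq_nonneg _
    · exact (integrable_finsetSum _ hint).const_mul _
    · refine Eventually.of_forall fun x => ?_
      have h2 := sq_sum_le_card_mul_sum_sq (s := I) (f := fun c => κ * D c x)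
      refine h2.trans (le_of_eq ?_)
      simp only [mul_pow, ← mul_sum]
      ring
  refine h1.trans ?_
  rw [integral_const_mul, integral_finsetSum _ hint]
  have h2 : ∑ c ∈ I, ∫ x, D c x ^ 2 ∂Pn n ≤ I.card * (3 / 16) := by
    refine (sum_le_sum hi).trans (le_of_eq ?_)
    rw [sum_const, nsmul_eq_mul]
  calc I.card * κ ^ 2 * ∑ c ∈ I, ∫ x, D c x ^ 2 ∂Pn n
      ≤ I.card * κ ^ 2 * (I.card * (3 / 16)) := mul_le_mul_of_nonneg_left h2 (by positivity)
    _ = _ := by ring

/-- **Moments of the costs of the refinements.** -/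
theorem main : S_SM := by
  refine ⟨1, fun n j hn => ⟨?_, ?_⟩⟩
  · have hn0 : (0 : ℝ) < n := by exact_mod_cast hn
    have h := sum_bound (n := n) (range (2 ^ j) ×ˢ range (2 ^ j))
      (fun c x => (cnt n x (j + 1) j (2 * c.1) c.2 - cnt n x j j c.1 c.2 / 2) ^ 2 /
        cnt n x j j c.1 c.2) ((1 / 4) ^ j / n) ?_ ?_ ?_
    · have e1 : ∀ x, SX n x j j = ∑ c ∈ range (2 ^ j) ×ˢ range (2 ^ j), (1 / 4) ^ j / n *
          ((cnt n x (j + 1) j (2 * c.1) c.2 - cnt n x j j c.1 c.2 / 2) ^ 2 /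
            cnt n x j j c.1 c.2) := by
        intro x
        unfold SX
        rw [sum_product]
      simp only [e1]
      refine h.trans ?_
      rw [card_product, card_range]
      have e2 : (((2 ^ j * 2 ^ j : ℕ) : ℝ) * ((1 / 4) ^ j / n)) = 1 / n := by
        have e3 : ((2 ^ j * 2 ^ j : ℕ) : ℝ) = 4 ^ j := by
          push_cast
          rw [← mul_pow]
          norm_num
        rw [e3, mul_div_assoc', ← mul_pow]
        norm_num
      rw [e2, div_pow, one_pow]
      have : 0 < 1 / (n : ℝ) ^ 2 := by positivity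
      linarith
    all_goals
      rintro ⟨a, b⟩ hc
      rw [mem_product, mem_range, mem_range] at hc
      obtain ⟨ha, hb⟩ := hc
      have ha1 : 2 * a < 2 ^ (j + 1) := by rw [pow_succ]; omega
      have ha2 : 2 * a + 1 < 2 ^ (j + 1) := by rw [pow_succ]; omega
      have hk := key (measurableSet_cell (j + 1) j (2 * a) b)
        (measurableSet_cell (j + 1) j (2 * a + 1) b) (disj_X j j a b)
        (by rw [P_cell ha1 hb, P_cell ha2 hb]) (cell_halves_X j j a b) n
    · exact hk.2.2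
    · exact hk.2.1
    · exact hk.1
  · have hn0 : (0 : ℝ) < n := by exact_mod_cast hn
    have h := sum_bound (n := n) (range (2 ^ (j + 1)) ×ˢ range (2 ^ j))
      (fun c x => (cnt n x (j + 1) (j + 1) c.1 (2 * c.2) - cnt n x (j + 1) j c.1 c.2 / 2) ^ 2 /
        cnt n x (j + 1) j c.1 c.2) ((1 / 4) ^ j / n) ?_ ?_ ?_
    · have e1 : ∀ x, SY n x (j + 1) j =
          ∑ c ∈ range (2 ^ (j + 1)) ×ˢ range (2 ^ j), (1 / 4) ^ j / n *
          ((cnt n x (j + 1) (j + 1) c.1 (2 * c.2) - cnt n x (j + 1) j c.1 c.2 / 2) ^ 2 /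
            cnt n x (j + 1) j c.1 c.2) := by
        intro x
        unfold SY
        rw [sum_product]
      simp only [e1]
      refine h.trans ?_
      rw [card_product, card_range, card_range]
      have e2 : (((2 ^ (j + 1) * 2 ^ j : ℕ) : ℝ) * ((1 / 4) ^ j / n)) = 2 / n := by
        have e3 : ((2 ^ (j + 1) * 2 ^ j : ℕ) : ℝ) = 2 * 4 ^ j := by
          push_cast
          rw [pow_succ, mul_right_comm, ← mul_pow]
          norm_num
          ring
        rw [e3, mul_div_assoc', mul_assoc, ← mul_pow]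
        norm_num
      rw [e2, div_pow]
      have : 0 < 1 / (n : ℝ) ^ 2 := by positivity
      have h4 : (2 : ℝ) ^ 2 / (n : ℝ) ^ 2 * (3 / 16) = 3 / 4 * (1 / (n : ℝ) ^ 2) := by ring
      rw [h4]
      linarith
    all_goals
      rintro ⟨a, b⟩ hc
      rw [mem_product, mem_range, mem_range] at hc
      obtain ⟨ha, hb⟩ := hc
      have hb1 : 2 * b < 2 ^ (j + 1) := by rw [pow_succ]; omega
      have hb2 : 2 * b + 1 < 2 ^ (j + 1) := by rw [pow_succ]; omega
      have hk := key (measurableSet_cell (j + 1) (j + 1) a (2 * b))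
        (measurableSet_cell (j + 1) (j + 1) a (2 * b + 1)) (disj_Y (j + 1) j a b)
        (by rw [P_cell ha hb1, P_cell ha hb2]) (cell_halves_Y (j + 1) j a b) n
    · exact hk.2.2
    · exact hk.2.1
    · exact hk.1

end Pool.Agent.N940.OT.Sm
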