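import Pool.Agent.N940.OT.Basic

/-!
# One dyadic refinement of the averaged empirical measure as a transport map (helper901)
-/

set_option autoImplicit false

open MeasureTheory Filter Topology Finset
open scoped ENNReal NNReal

namespace Pool.Agent.N940.OT.Step

/-! ### one dimension -/

theorem aff_map {u v a b : ℝ} (hu : 0 < u) :
    Measure.map (fun t => u * t + v) (volume.restrict (Set.Ico a b)) =
      ENNReal.ofReal u⁻¹ • volume.restrict (Set.Ico (u * a + v) (u * b + v)) := by
  have hm : Measurable fun t : ℝ => u * t + v := by fun_prop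
  have h1 : (fun t => u * t + v) ⁻¹' Set.Ico (u * a + v) (u * b + v) = Set.Ico a b := by
    ext t
    simp only [Set.mem_preimage, Set.mem_Ico]
    constructor
    · rintro ⟨h1, h2⟩
      exact ⟨le_of_mul_le_mul_left (by linarith) hu, lt_of_mul_lt_mul_left (by linarith) hu.le⟩
    · rintro ⟨h1, h2⟩
      exact ⟨by nlinarith, by nlinarith⟩
  have h2 : Measure.map (fun t : ℝ => u * t + v) volume = ENNReal.ofReal u⁻¹ • volume := by
    have e : (fun t : ℝ => u * t + v) = (fun t => t + v) ∘ (fun t => u * t) := rfl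
    rw [e, ← Measure.map_map (by fun_prop) (by fun_prop), Real.map_volume_mul_left hu.ne',
      Measure.map_smul, map_add_right_eq_self, abs_of_pos (inv_pos.mpr hu)]
  rw [← h1, ← Measure.restrict_map hm measurableSet_Ico, h2, Measure.restrict_smul]

/-- the map that spreads the mass -/
noncomputable def R (α c w t : ℝ) : ℝ :=
  if t < c + α * w then (1 / (2 * α)) * t + (c - 1 / (2 * α) * c)
  else (1 / (2 * (1 - α))) * t + (c + w - 1 / (2 * (1 - α)) * (c + w))

theorem R_meas (α c w : ℝ) : Measurable (R α c w) :=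
  Measurable.ite measurableSet_Iio (by fun_prop) (by fun_prop)

theorem R_spec {α c w t : ℝ} (h0 : 0 ≤ α) (h1 : α ≤ 1) (ht : t ∈ Set.Ico c (c + w)) :
    R α c w t ∈ Set.Ico c (c + w) ∧ (R α c w t - t) ^ 2 ≤ w ^ 2 * (α - 1 / 2) ^ 2 := by
  obtain ⟨ht1, ht2⟩ := ht
  have hw : 0 < w := by linarith
  by_cases h : t < c + α * w
  · have hα : 0 < α := by
      rcases h0.eq_or_lt with h' | h'
      · rw [← h', zero_mul] at h
        linarith
      · exact h'
    obtain ⟨y, hy⟩ : ∃ y, y = (t - c) / α := ⟨_, rfl⟩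
    have hty : t = c + α * y := by
      rw [hy]
      field_simp
      ring
    have hy0 : 0 ≤ y := by
      rw [hy]
      exact div_nonneg (by linarith) hα.le
    have hyw : y < w := by
      rw [hty] at h
      exact lt_of_mul_lt_mul_left (by linarith) hα.le
    have hR : R α c w t = c + y / 2 := by
      unfold R
      rw [if_pos h, hty]
      field_simp
      ring
    rw [hR]
    refine ⟨⟨by linarith, by linarith⟩, ?_⟩
    have e1 : (c + y / 2 - t) ^ 2 = y ^ 2 * (α - 1 / 2) ^ 2 := by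
      rw [hty]
      ring
    rw [e1]
    exact mul_le_mul_of_nonneg_right (by nlinarith) (sq_nonneg _)
  · have hα : 0 < 1 - α := by
      rcases h1.eq_or_lt with h' | h'
      · rw [h', one_mul] at h
        exact absurd ht2 h
      · linarith
    obtain ⟨y, hy⟩ : ∃ y, y = (c + w - t) / (1 - α) := ⟨_, rfl⟩
    have hty : t = c + w - (1 - α) * y := by
      rw [hy]
      field_simp
      ring
    have hy0 : 0 < y := by
      rw [hy]
      exact div_pos (by linarith) hα
    have hyw : y ≤ w := by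
      rw [not_lt, hty] at h
      exact le_of_mul_le_mul_left (by linarith) hα
    have hR : R α c w t = c + w - y / 2 := by
      unfold R
      rw [if_neg h, hty]
      field_simp
      ring
    rw [hR]
    refine ⟨⟨by linarith, by linarith⟩, ?_⟩
    have e1 : (c + w - y / 2 - t) ^ 2 = y ^ 2 * (α - 1 / 2) ^ 2 := by
      rw [hty]
      ring
    rw [e1]
    exact mul_le_mul_of_nonneg_right (by nlinarith) (sq_nonneg _)

theorem R_map {α c w : ℝ} (h0 : 0 ≤ α) (h1 : α ≤ 1) (hw : 0 ≤ w) :
    Measure.map (R α c w) (volume.restrict (Set.Ico c (c + w))) =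
      ENNReal.ofReal (2 * α) • volume.restrict (Set.Ico c (c + w / 2)) +
        ENNReal.ofReal (2 * (1 - α)) • volume.restrict (Set.Ico (c + w / 2) (c + w)) := by
  have hsplit : Set.Ico c (c + w) = Set.Ico c (c + α * w) ∪ Set.Ico (c + α * w) (c + w) :=
    (Set.Ico_union_Ico_eq_Ico (by nlinarith) (by nlinarith)).symm
  have hdis : Disjoint (Set.Ico c (c + α * w)) (Set.Ico (c + α * w) (c + w)) :=
    Set.disjoint_left.mpr fun t ht ht' => absurd ht.2 (not_lt.mpr ht'.1)
  rw [hsplit, Measure.restrict_union hdis measurableSet_Ico, Measure.map_add _ _ (R_meas _ _ _)]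
  congr 1
  · rcases h0.eq_or_lt with hα | hα
    · rw [← hα]
      simp
    · have e1 : Measure.map (R α c w) (volume.restrict (Set.Ico c (c + α * w))) =
          Measure.map (fun t => (1 / (2 * α)) * t + (c - 1 / (2 * α) * c))
            (volume.restrict (Set.Ico c (c + α * w))) :=
        Measure.map_congr (ae_restrict_of_forall_mem measurableSet_Ico fun t ht => if_pos ht.2)
      have e2 : (1 / (2 * α))⁻¹ = 2 * α := by rw [one_div, inv_inv]
      have e3 : 1 / (2 * α) * c + (c - 1 / (2 * α) * c) = c := by ring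
      have e4 : 1 / (2 * α) * (c + α * w) + (c - 1 / (2 * α) * c) = c + w / 2 := by
        field_simp
        ring
      rw [e1, aff_map (by positivity), e2, e3, e4]
  · rcases h1.eq_or_lt with hα | hα
    · rw [hα]
      simp
    · have hα' : 0 < 1 - α := by linarith
      have e1 : Measure.map (R α c w) (volume.restrict (Set.Ico (c + α * w) (c + w))) =
          Measure.map (fun t => (1 / (2 * (1 - α))) * t + (c + w - 1 / (2 * (1 - α)) * (c + w)))
            (volume.restrict (Set.Ico (c + α * w) (c + w))) :=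
        Measure.map_congr (ae_restrict_of_forall_mem measurableSet_Ico fun t ht =>
          if_neg (not_lt.mpr ht.1))
      have e2 : (1 / (2 * (1 - α)))⁻¹ = 2 * (1 - α) := by rw [one_div, inv_inv]
      have e3 : 1 / (2 * (1 - α)) * (c + α * w) + (c + w - 1 / (2 * (1 - α)) * (c + w)) =
          c + w / 2 := by
        field_simp
        ring
      have e4 : 1 / (2 * (1 - α)) * (c + w) + (c + w - 1 / (2 * (1 - α)) * (c + w)) = c + w := by
        ring
      rw [e1, aff_map (by positivity), e2, e3, e4]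

/-! ### gluing -/

theorem glue {ι : Type} (I : Finset ι) (C : ι → Set R2) (f : ι → R2 → R2)
    (hC : ∀ i ∈ I, MeasurableSet (C i)) (hd : ∀ i ∈ I, ∀ j ∈ I, i ≠ j → Disjoint (C i) (C j))
    (hf : ∀ i ∈ I, Measurable (f i)) : ∃ s : R2 → R2, Measurable s ∧
      (∀ i ∈ I, ∀ z ∈ C i, s z = f i z) ∧ ∀ z, (∀ i ∈ I, z ∉ C i) → s z = z := by
  classical
  induction I using Finset.induction_on with
  | empty => exact ⟨id, measurable_id, by simp, fun z _ => rfl⟩
  | insert i I hi ih =>
    obtain ⟨s, h1, h2, h3⟩ := ih (fun j hj => hC j (Finset.mem_insert_of_mem hj))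
      (fun j hj k hk => hd j (Finset.mem_insert_of_mem hj) k (Finset.mem_insert_of_mem hk))
      (fun j hj => hf j (Finset.mem_insert_of_mem hj))
    refine ⟨(C i).piecewise (f i) s, Measurable.piecewise (hC i (Finset.mem_insert_self _ _))
      (hf i (Finset.mem_insert_self _ _)) h1, fun j hj z hz => ?_, fun z hz => ?_⟩
    · rcases Finset.mem_insert.mp hj with rfl | hj'
      · exact Set.piecewise_eq_of_mem _ _ _ hz
      · have hne : i ≠ j := fun h => hi (h ▸ hj')
        have hzi : z ∉ C i := fun h => Set.disjoint_left.mp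
          (hd i (Finset.mem_insert_self _ _) j hj hne) h hz
        rw [Set.piecewise_eq_of_notMem _ _ _ hzi]
        exact h2 j hj' z hz
    · rw [Set.piecewise_eq_of_notMem _ _ _ (hz i (Finset.mem_insert_self _ _))]
      exact h3 z fun j hj => hz j (Finset.mem_insert_of_mem hj)

/-! ### cells -/

theorem cell_meas (p q a b : ℕ) : MeasurableSet (cell p q a b) :=
  measurableSet_Ico.prod measurableSet_Ico

theorem ico_iff (p a : ℕ) (t : ℝ) : t ∈ Set.Ico ((a : ℝ) / 2 ^ p) ((a + 1) / 2 ^ p) ↔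
    (a : ℝ) ≤ t * 2 ^ p ∧ t * 2 ^ p < a + 1 := by
  have h : (0 : ℝ) < 2 ^ p := by positivity
  rw [Set.mem_Ico, div_le_iff₀ h, lt_div_iff₀ h]

theorem ico_dis {p a a' : ℕ} {t : ℝ} (h : t ∈ Set.Ico ((a : ℝ) / 2 ^ p) ((a + 1) / 2 ^ p))
    (h' : t ∈ Set.Ico ((a' : ℝ) / 2 ^ p) ((a' + 1) / 2 ^ p)) : a = a' := by
  rw [ico_iff] at h h'
  have h1 : (a : ℝ) < a' + 1 := lt_of_le_of_lt h.1 h'.2
  have h2 : (a' : ℝ) < a + 1 := lt_of_le_of_lt h'.1 h.2
  have h3 : a < a' + 1 := by exact_mod_cast h1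
  have h4 : a' < a + 1 := by exact_mod_cast h2
  omega

theorem cell_dis (p q : ℕ) {i j : ℕ × ℕ} (hij : i ≠ j) :
    Disjoint (cell p q i.1 i.2) (cell p q j.1 j.2) :=
  Set.disjoint_left.mpr fun _ hz hz' => hij (Prod.ext (ico_dis hz.1 hz'.1) (ico_dis hz.2 hz'.2))

theorem cell_sub {p q a b : ℕ} (ha : a < 2 ^ p) (hb : b < 2 ^ q) :
    cell p q a b ⊆ Set.Ico (0 : ℝ) 1 ×ˢ Set.Ico (0 : ℝ) 1 := by
  have key : ∀ {p a : ℕ} {t : ℝ}, a < 2 ^ p → t ∈ Set.Ico ((a : ℝ) / 2 ^ p) ((a + 1) / 2 ^ p) →
      t ∈ Set.Ico (0 : ℝ) 1 := by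
    intro p a t ha ht
    rw [ico_iff] at ht
    have h : (0 : ℝ) < 2 ^ p := by positivity
    have h1 : (a : ℝ) + 1 ≤ 2 ^ p := by exact_mod_cast ha
    constructor
    · by_contra hcon
      push Not at hcon
      have : (0 : ℝ) ≤ a := a.cast_nonneg
      nlinarith [ht.1]
    · by_contra hcon
      push Not at hcon
      nlinarith [ht.2]
  exact fun z hz => ⟨key ha hz.1, key hb hz.2⟩

theorem cell_vol (p q a b : ℕ) : volume (cell p q a b) = ENNReal.ofReal ((1 / 2 ^ p) * (1 / 2 ^ q)) := by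
  have e : ∀ (p a : ℕ), ((a : ℝ) + 1) / 2 ^ p - a / 2 ^ p = 1 / 2 ^ p := fun p a => by ring
  rw [cell, Measure.volume_eq_prod, Measure.prod_prod, Real.volume_Ico, Real.volume_Ico, e, e,
    ENNReal.ofReal_mul (by positivity)]

theorem cast_div (p a : ℕ) : ((2 * a : ℕ) : ℝ) / 2 ^ (p + 1) = a / 2 ^ p := by
  push_cast
  rw [pow_succ]
  field_simp

theorem cast_div1 (p a : ℕ) : (((2 * a : ℕ) : ℝ) + 1) / 2 ^ (p + 1) = a / 2 ^ p + 1 / 2 ^ p / 2 := by
  push_cast
  rw [pow_succ]
  field_simp

theorem cast_div2 (p a : ℕ) : (((2 * a + 1 : ℕ) : ℝ)) / 2 ^ (p + 1) = a / 2 ^ p + 1 / 2 ^ p / 2 := by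
  push_cast
  rw [pow_succ]
  field_simp

theorem cast_div3 (p a : ℕ) : (((2 * a + 1 : ℕ) : ℝ) + 1) / 2 ^ (p + 1) = a / 2 ^ p + 1 / 2 ^ p := by
  push_cast
  rw [pow_succ]
  field_simp
  ring

theorem cast_div4 (p a : ℕ) : ((a : ℝ) + 1) / 2 ^ p = a / 2 ^ p + 1 / 2 ^ p := by
  ring

theorem cell_split (p q a b : ℕ) : cell p q a b = cell (p + 1) q (2 * a) b ∪ cell (p + 1) q (2 * a + 1) b := by
  unfold cell
  rw [cast_div, cast_div1, cast_div2, cast_div3, cast_div4 p a, ← Set.union_prod,
    Set.Ico_union_Ico_eq_Ico]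
  · have : (0 : ℝ) ≤ 1 / 2 ^ p := by positivity
    linarith
  · have : (0 : ℝ) ≤ 1 / 2 ^ p := by positivity
    linarith

theorem cnt_nonneg (n : ℕ) (x : Fin n → R2) (p q a b : ℕ) : 0 ≤ cnt n x p q a b :=
  Finset.sum_nonneg fun _ _ => Set.indicator_nonneg (fun _ _ => zero_le_one) _

theorem cnt_split (n : ℕ) (x : Fin n → R2) (p q a b : ℕ) :
    cnt n x p q a b = cnt n x (p + 1) q (2 * a) b + cnt n x (p + 1) q (2 * a + 1) b := by
  unfold cnt
  rw [← Finset.sum_add_distrib]
  refine Finset.sum_congr rfl fun i _ => ?_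
  have hd : Disjoint (cell (p + 1) q (2 * a) b) (cell (p + 1) q (2 * a + 1) b) :=
    cell_dis (p + 1) q (i := (2 * a, b)) (j := (2 * a + 1, b)) (by simp)
  rw [cell_split, Set.indicator_union_of_disjoint hd]

theorem sum_dbl {M : Type} [AddCommMonoid M] (g : ℕ → M) (m : ℕ) :
    ∑ i ∈ range (2 * m), g i = ∑ i ∈ range m, (g (2 * i) + g (2 * i + 1)) := by
  induction m with
  | zero => simp
  | succ m ih =>
    rw [show 2 * (m + 1) = 2 * m + 1 + 1 by ring, Finset.sum_range_succ, Finset.sum_range_succ, ih,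
      Finset.sum_range_succ, add_assoc]

/-- the fraction of the left half -/
noncomputable def al (n : ℕ) (x : Fin n → R2) (p q a b : ℕ) : ℝ :=
  cnt n x (p + 1) q (2 * a) b / cnt n x p q a b

theorem al_nonneg (n : ℕ) (x : Fin n → R2) (p q a b : ℕ) : 0 ≤ al n x p q a b :=
  div_nonneg (cnt_nonneg _ _ _ _ _ _) (cnt_nonneg _ _ _ _ _ _)

theorem al_le_one (n : ℕ) (x : Fin n → R2) (p q a b : ℕ) : al n x p q a b ≤ 1 := by
  refine div_le_one_of_le₀ ?_ (cnt_nonneg _ _ _ _ _ _)
  rw [cnt_split n x p q a b]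
  linarith [cnt_nonneg n x (p + 1) q (2 * a + 1) b]

/-- the map on a cell -/
noncomputable def fm (n : ℕ) (x : Fin n → R2) (p q a b : ℕ) : R2 → R2 :=
  Prod.map (R (al n x p q a b) (a / 2 ^ p) (1 / 2 ^ p)) id

theorem fm_meas (n : ℕ) (x : Fin n → R2) (p q a b : ℕ) : Measurable (fm n x p q a b) :=
  (R_meas _ _ _).prodMap measurable_id

theorem fm_spec (n : ℕ) (x : Fin n → R2) (p q a b : ℕ) {z : R2} (hz : z ∈ cell p q a b) :
    fm n x p q a b z ∈ cell p q a b ∧
      sq (fm n x p q a b z) z ≤ (1 / 2 ^ p) ^ 2 * (al n x p q a b - 1 / 2) ^ 2 := by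
  obtain ⟨h1, h2⟩ := hz
  rw [cast_div4] at h1
  obtain ⟨h3, h4⟩ := R_spec (al_nonneg n x p q a b) (al_le_one n x p q a b) h1
  refine ⟨⟨?_, h2⟩, ?_⟩
  · rw [cast_div4]
    exact h3
  · have e : sq (fm n x p q a b z) z =
        (R (al n x p q a b) (a / 2 ^ p) (1 / 2 ^ p) z.1 - z.1) ^ 2 + (z.2 - z.2) ^ 2 := rfl
    rw [e, sub_self, zero_pow two_ne_zero, add_zero]
    exact h4

theorem fm_map (n : ℕ) (x : Fin n → R2) (p q a b : ℕ) :
    Measure.map (fm n x p q a b)
      (ENNReal.ofReal (cnt n x p q a b / n * 2 ^ (p + q)) • volume.restrict (cell p q a b)) =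
    ENNReal.ofReal (cnt n x (p + 1) q (2 * a) b / n * 2 ^ (p + 1 + q)) •
        volume.restrict (cell (p + 1) q (2 * a) b) +
      ENNReal.ofReal (cnt n x (p + 1) q (2 * a + 1) b / n * 2 ^ (p + 1 + q)) •
        volume.restrict (cell (p + 1) q (2 * a + 1) b) := by
  have h0 := al_nonneg n x p q a b
  have h1 := al_le_one n x p q a b
  have e1 : Measure.map (fm n x p q a b) (volume.restrict (cell p q a b)) =
      ENNReal.ofReal (2 * al n x p q a b) • volume.restrict (cell (p + 1) q (2 * a) b) +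
        ENNReal.ofReal (2 * (1 - al n x p q a b)) • volume.restrict (cell (p + 1) q (2 * a + 1) b) := by
    unfold cell
    rw [cast_div, cast_div1, cast_div2, cast_div3, cast_div4 p a, Measure.volume_eq_prod,
      ← Measure.prod_restrict, ← Measure.prod_restrict, ← Measure.prod_restrict, fm,
      ← Measure.map_prod_map _ _ (R_meas _ _ _) measurable_id, Measure.map_id,
      R_map h0 h1 (by positivity), Measure.add_prod, Measure.prod_smul_left, Measure.prod_smul_left]
  have hN := cnt_nonneg n x p q a b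
  have hs := cnt_split n x p q a b
  have hL := cnt_nonneg n x (p + 1) q (2 * a) b
  have hR := cnt_nonneg n x (p + 1) q (2 * a + 1) b
  have hc : 0 ≤ cnt n x p q a b / n * 2 ^ (p + q) := by positivity
  rw [Measure.map_smul, e1, smul_add, smul_smul, smul_smul, ← ENNReal.ofReal_mul hc,
    ← ENNReal.ofReal_mul hc]
  have e2 : cnt n x p q a b / n * 2 ^ (p + q) * (2 * al n x p q a b) =
      cnt n x (p + 1) q (2 * a) b / n * 2 ^ (p + 1 + q) := by
    rw [show p + 1 + q = p + q + 1 by ring, pow_succ, al]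
    rcases hN.eq_or_lt with h | h
    · rw [← h] at hs ⊢
      rw [show cnt n x (p + 1) q (2 * a) b = 0 by linarith]
      simp
    · field_simp
  have e3 : cnt n x p q a b / n * 2 ^ (p + q) * (2 * (1 - al n x p q a b)) =
      cnt n x (p + 1) q (2 * a + 1) b / n * 2 ^ (p + 1 + q) := by
    rw [show p + 1 + q = p + q + 1 by ring, pow_succ, al]
    rcases hN.eq_or_lt with h | h
    · rw [← h] at hs ⊢
      rw [show cnt n x (p + 1) q (2 * a + 1) b = 0 by linarith]
      simp
    · have h4 : cnt n x (p + 1) q (2 * a + 1) b = cnt n x p q a b - cnt n x (p + 1) q (2 * a) b := by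
        linarith
      rw [h4]
      field_simp
  rw [e2, e3]

/-- the horizontal refinement -/
theorem hor (n : ℕ) (x : Fin n → R2) (p q : ℕ) :
    ∃ s : R2 → R2, Measurable s ∧ Measure.map s (PM n x p q) = PM n x (p + 1) q ∧
    (∀ z ∈ Set.Ico (0 : ℝ) 1 ×ˢ Set.Ico (0 : ℝ) 1,
      s z ∈ Set.Ico (0 : ℝ) 1 ×ˢ Set.Ico (0 : ℝ) 1) ∧
    ∫ z, sq (s z) z ∂PM n x p q ≤ SX n x p q := by
  obtain ⟨s, hs1, hs2, hs3⟩ := glue (range (2 ^ p) ×ˢ range (2 ^ q)) (fun i => cell p q i.1 i.2)
    (fun i => fm n x p q i.1 i.2) (fun i _ => cell_meas _ _ _ _) (fun i _ j _ hij => cell_dis p q hij)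
    (fun i _ => fm_meas _ _ _ _ _ _)
  have hs : ∀ a ∈ range (2 ^ p), ∀ b ∈ range (2 ^ q), ∀ z ∈ cell p q a b, s z = fm n x p q a b z :=
    fun a ha b hb z hz => hs2 (a, b) (Finset.mem_product.mpr ⟨ha, hb⟩) z hz
  have hmap : ∀ a ∈ range (2 ^ p), ∀ b ∈ range (2 ^ q),
      Measure.map s (ENNReal.ofReal (cnt n x p q a b / n * 2 ^ (p + q)) • volume.restrict (cell p q a b)) =
      Measure.map (fm n x p q a b)
        (ENNReal.ofReal (cnt n x p q a b / n * 2 ^ (p + q)) • volume.restrict (cell p q a b)) := by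
    intro a ha b hb
    rw [Measure.map_smul, Measure.map_smul]
    congr 1
    exact Measure.map_congr (ae_restrict_of_forall_mem (cell_meas _ _ _ _) fun z hz => hs a ha b hb z hz)
  refine ⟨s, hs1, ?_, ?_, ?_⟩
  · unfold PM
    rw [Measure.map_finset_sum hs1.aemeasurable, pow_succ, mul_comm (2 ^ p) 2, sum_dbl]
    refine Finset.sum_congr rfl fun a ha => ?_
    rw [Measure.map_finset_sum hs1.aemeasurable, ← Finset.sum_add_distrib]
    refine Finset.sum_congr rfl fun b hb => ?_
    rw [hmap a ha b hb, fm_map]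
  · intro z hz
    by_cases h : ∃ i ∈ range (2 ^ p) ×ˢ range (2 ^ q), z ∈ cell p q i.1 i.2
    · obtain ⟨i, hi, hzi⟩ := h
      rw [hs2 i hi z hzi]
      rw [Finset.mem_product, Finset.mem_range, Finset.mem_range] at hi
      exact cell_sub hi.1 hi.2 (fm_spec n x p q i.1 i.2 hzi).1
    · push Not at h
      rw [hs3 z h]
      exact hz
  · have hsm : Measurable fun z => sq (s z) z := continuous_sq.measurable.comp (hs1.prodMk measurable_id)
    have hint : ∀ a ∈ range (2 ^ p), ∀ b ∈ range (2 ^ q),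
        IntegrableOn (fun z => sq (s z) z) (cell p q a b) volume := by
      intro a ha b hb
      refine Measure.integrableOn_of_bounded (M := (1 / 2 ^ p) ^ 2 * (al n x p q a b - 1 / 2) ^ 2)
        (by rw [cell_vol]; exact ENNReal.ofReal_ne_top) hsm.aestronglyMeasurable
        (ae_restrict_of_forall_mem (cell_meas _ _ _ _) fun z hz => ?_)
      rw [Real.norm_of_nonneg (sq_nonneg' _ _), hs a ha b hb z hz]
      exact (fm_spec n x p q a b hz).2
    have hint2 : ∀ a ∈ range (2 ^ p), ∀ b ∈ range (2 ^ q), Integrable (fun z => sq (s z) z)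
        (ENNReal.ofReal (cnt n x p q a b / n * 2 ^ (p + q)) • volume.restrict (cell p q a b)) :=
      fun a ha b hb => (hint a ha b hb).integrable.smul_measure ENNReal.ofReal_ne_top
    unfold PM SX
    rw [integral_finsetSum_measure fun a ha => integrable_finsetSum_measure.mpr fun b hb => hint2 a ha b hb]
    refine Finset.sum_le_sum fun a ha => ?_
    rw [integral_finsetSum_measure fun b hb => hint2 a ha b hb]
    refine Finset.sum_le_sum fun b hb => ?_
    have hN := cnt_nonneg n x p q a b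
    have hc : 0 ≤ cnt n x p q a b / n * 2 ^ (p + q) := by positivity
    rw [integral_smul_measure, ENNReal.toReal_ofReal hc, smul_eq_mul]
    have h1 : ∫ z in cell p q a b, sq (s z) z ≤
        (1 / 2 ^ p) * (1 / 2 ^ q) * ((1 / 2 ^ p) ^ 2 * (al n x p q a b - 1 / 2) ^ 2) := by
      have h2 : ∫ z in cell p q a b, sq (s z) z ≤
          ∫ z in cell p q a b, (1 / 2 ^ p) ^ 2 * (al n x p q a b - 1 / 2) ^ 2 := by
        refine setIntegral_mono_on (hint a ha b hb) (integrableOn_const
          (by rw [cell_vol]; exact ENNReal.ofReal_ne_top)) (cell_meas _ _ _ _) fun z hz => ?_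
        rw [hs a ha b hb z hz]
        exact (fm_spec n x p q a b hz).2
      refine h2.trans (le_of_eq ?_)
      rw [setIntegral_const, Measure.real, cell_vol, ENNReal.toReal_ofReal (by positivity), smul_eq_mul]
    refine (mul_le_mul_of_nonneg_left h1 hc).trans (le_of_eq ?_)
    have e4 : (1 / 4 : ℝ) ^ p = (1 / 2 ^ p) ^ 2 := by
      rw [div_pow, div_pow, one_pow, one_pow, ← pow_mul, mul_comm p 2, pow_mul]
      norm_num
    rw [e4, al, pow_add]
    rcases hN.eq_or_lt with h | h
    · rw [← h]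
      simp
    · field_simp

/-! ### the vertical refinement -/

theorem cell_swap (p q a b : ℕ) : Prod.swap ⁻¹' (cell q p b a) = cell p q a b := by
  unfold cell
  rw [Set.preimage_swap_prod]

theorem cnt_swap (n : ℕ) (x : Fin n → R2) (p q a b : ℕ) :
    cnt n (fun i => (x i).swap) q p b a = cnt n x p q a b := by
  unfold cnt
  refine Finset.sum_congr rfl fun i _ => ?_
  rw [← cell_swap p q a b]
  rfl

theorem swap_vol : Measure.map Prod.swap (volume : Measure R2) = volume := by
  rw [Measure.volume_eq_prod, Measure.prod_swap]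

theorem PM_swap (n : ℕ) (x : Fin n → R2) (p q : ℕ) :
    Measure.map Prod.swap (PM n x p q) = PM n (fun i => (x i).swap) q p := by
  unfold PM
  rw [Measure.map_finset_sum measurable_swap.aemeasurable, Finset.sum_comm]
  refine Finset.sum_congr rfl fun a _ => ?_
  rw [Measure.map_finset_sum measurable_swap.aemeasurable]
  refine Finset.sum_congr rfl fun b _ => ?_
  rw [Measure.map_smul, ← cell_swap p q a b, ← Measure.restrict_map measurable_swap (cell_meas _ _ _ _),
    swap_vol, cnt_swap, add_comm p q]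

theorem SY_swap (n : ℕ) (x : Fin n → R2) (p q : ℕ) : SX n (fun i => (x i).swap) q p = SY n x p q := by
  unfold SX SY
  rw [Finset.sum_comm]
  simp only [cnt_swap]

theorem main : S_STEP := by
  intro n x p q _ _
  refine ⟨hor n x p q, ?_⟩
  obtain ⟨s, h1, h2, h3, h4⟩ := hor n (fun i => (x i).swap) q p
  have hxx : (fun i => ((fun i => (x i).swap) i).swap) = x := by
    funext i
    exact Prod.swap_swap _
  refine ⟨fun z => (s z.swap).swap, measurable_swap.comp (h1.comp measurable_swap), ?_, ?_, ?_⟩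
  · have e : (fun z => (s z.swap).swap) = Prod.swap ∘ s ∘ Prod.swap := rfl
    rw [e, ← Measure.map_map measurable_swap (h1.comp measurable_swap), ← Measure.map_map h1 measurable_swap,
      PM_swap, h2, PM_swap, hxx]
  · intro z hz
    have h5 := h3 z.swap ⟨hz.2, hz.1⟩
    exact ⟨h5.2, h5.1⟩
  · have e1 : ∀ z : R2, sq ((s z.swap).swap) z = sq (s (MeasurableEquiv.prodComm z)) (MeasurableEquiv.prodComm z) := by
      intro z
      show ((s z.swap).2 - z.1) ^ 2 + ((s z.swap).1 - z.2) ^ 2 =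
        ((s z.swap).1 - z.2) ^ 2 + ((s z.swap).2 - z.1) ^ 2
      ring
    rw [← SY_swap]
    refine le_trans (le_of_eq ?_) h4
    rw [integral_congr_ae (Eventually.of_forall e1),
      ← integral_map_equiv MeasurableEquiv.prodComm (fun w => sq (s w) w)]
    congr 1
    exact PM_swap n x p q

end Pool.Agent.N940.OT.Step
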