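import Pool.Agent.N940.OT.Basic

/-!
# Second moment of the transport cost (project OT, piece T2)
-/

set_option autoImplicit false

open MeasureTheory Filter Topology Finset ProbabilityTheory
open scoped ENNReal NNReal

namespace Pool.Agent.N940.OT.T2

theorem ae_Ico : ∀ᵐ z ∂P, z ∈ Set.Ico (0 : ℝ) 1 ×ˢ Set.Ico (0 : ℝ) 1 := by
  have h : P = (volume : Measure R2).restrict (Set.Ico (0 : ℝ) 1 ×ˢ Set.Ico (0 : ℝ) 1) := by
    rw [P_eq_prod, Measure.restrict_congr_set (Ico_ae_eq_Icc (a := (0 : ℝ)) (b := 1)).symm,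
      Measure.volume_eq_prod, Measure.prod_restrict]
  rw [h]
  exact ae_restrict_mem (measurableSet_Ico.prod measurableSet_Ico)

theorem ae_Pn (n : ℕ) : ∀ᵐ x ∂Pn n, ∀ i, x i ∈ Set.Ico (0 : ℝ) 1 ×ˢ Set.Ico (0 : ℝ) 1 := by
  rw [ae_all_iff]
  intro i
  unfold Pn
  exact (Measure.quasiMeasurePreserving_eval (fun _ : Fin n => P) i).ae ae_Ico

theorem measurableSet_cell (p q a b : ℕ) : MeasurableSet (cell p q a b) :=
  measurableSet_Ico.prod measurableSet_Ico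

theorem measurable_cnt (n p q a b : ℕ) : Measurable fun x : Fin n → R2 => cnt n x p q a b := by
  unfold cnt
  apply Finset.measurable_sum
  intro i _
  exact (measurable_const.indicator (measurableSet_cell p q a b)).comp (measurable_pi_apply i)

theorem measurable_SX (n p q : ℕ) : Measurable fun x : Fin n → R2 => SX n x p q := by
  unfold SX
  have h := fun p q a b => measurable_cnt n p q a b
  refine Finset.measurable_sum _ fun a _ => Finset.measurable_sum _ fun b _ => ?_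
  exact ((((h (p + 1) q (2 * a) b).sub ((h p q a b).div_const 2)).pow_const 2).div
    (h p q a b)).const_mul _

theorem measurable_SY (n p q : ℕ) : Measurable fun x : Fin n → R2 => SY n x p q := by
  unfold SY
  have h := fun p q a b => measurable_cnt n p q a b
  refine Finset.measurable_sum _ fun a _ => Finset.measurable_sum _ fun b _ => ?_
  exact ((((h p (q + 1) a (2 * b)).sub ((h p q a b).div_const 2)).pow_const 2).div
    (h p q a b)).const_mul _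

theorem cnt_nonneg (n : ℕ) (x : Fin n → R2) (p q a b : ℕ) : 0 ≤ cnt n x p q a b := by
  unfold cnt
  exact sum_nonneg fun i _ => Set.indicator_nonneg (fun _ _ => zero_le_one) _

theorem cnt_le (n : ℕ) (x : Fin n → R2) (p q a b : ℕ) : cnt n x p q a b ≤ n := by
  unfold cnt
  refine (sum_le_sum fun i _ => Set.indicator_le_self' (fun _ _ => zero_le_one) (x i)).trans ?_
  simp

theorem cnt_zero_or (n : ℕ) (x : Fin n → R2) (p q a b : ℕ) :
    cnt n x p q a b = 0 ∨ 1 ≤ cnt n x p q a b := by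
  classical
  have h : cnt n x p q a b = ((univ.filter fun i => x i ∈ cell p q a b).card : ℝ) := by
    unfold cnt
    rw [card_filter]
    push_cast
    refine sum_congr rfl fun i _ => ?_
    by_cases hi : x i ∈ cell p q a b
    · simp [hi]
    · simp [hi]
  rw [h]
  rcases Nat.eq_zero_or_pos (univ.filter fun i => x i ∈ cell p q a b).card with h0 | h0
  · left
    rw [h0]
    simp
  · right
    exact_mod_cast h0

theorem term_bound (n : ℕ) (x : Fin n → R2) (p q a b p' q' a' b' : ℕ) :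
    0 ≤ (cnt n x p' q' a' b' - cnt n x p q a b / 2) ^ 2 / cnt n x p q a b ∧
    (cnt n x p' q' a' b' - cnt n x p q a b / 2) ^ 2 / cnt n x p q a b ≤ (n : ℝ) ^ 2 := by
  have h0 := cnt_nonneg n x p q a b
  have h1 := cnt_le n x p q a b
  have g0 := cnt_nonneg n x p' q' a' b'
  have g1 := cnt_le n x p' q' a' b'
  refine ⟨div_nonneg (sq_nonneg _) h0, ?_⟩
  rcases cnt_zero_or n x p q a b with h | h
  · rw [h, div_zero]
    positivity
  · refine (div_le_self (sq_nonneg _) h).trans ?_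
    apply sq_le_sq'
    · linarith
    · linarith

theorem SX_bound (n p q : ℕ) (hn : 1 ≤ n) : ∃ C : ℝ, ∀ x : Fin n → R2, 0 ≤ SX n x p q ∧
    SX n x p q ≤ C := by
  have hn' : (0 : ℝ) < n := by exact_mod_cast hn
  refine ⟨∑ a ∈ range (2 ^ p), ∑ b ∈ range (2 ^ q), (1 / 4) ^ p / n * (n : ℝ) ^ 2, fun x => ?_⟩
  unfold SX
  constructor
  · exact sum_nonneg fun a _ => sum_nonneg fun b _ => mul_nonneg (by positivity)
      (term_bound n x p q a b (p + 1) q (2 * a) b).1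
  · exact sum_le_sum fun a _ => sum_le_sum fun b _ => mul_le_mul_of_nonneg_left
      (term_bound n x p q a b (p + 1) q (2 * a) b).2 (by positivity)

theorem SY_bound (n p q : ℕ) (hn : 1 ≤ n) : ∃ C : ℝ, ∀ x : Fin n → R2, 0 ≤ SY n x p q ∧
    SY n x p q ≤ C := by
  have hn' : (0 : ℝ) < n := by exact_mod_cast hn
  refine ⟨∑ a ∈ range (2 ^ p), ∑ b ∈ range (2 ^ q), (1 / 4) ^ q / n * (n : ℝ) ^ 2, fun x => ?_⟩
  unfold SY
  constructor
  · exact sum_nonneg fun a _ => sum_nonneg fun b _ => mul_nonneg (by positivity)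
      (term_bound n x p q a b p (q + 1) a (2 * b)).1
  · exact sum_le_sum fun a _ => sum_le_sum fun b _ => mul_le_mul_of_nonneg_left
      (term_bound n x p q a b p (q + 1) a (2 * b)).2 (by positivity)

theorem integrable_of_bound {n : ℕ} {F : (Fin n → R2) → ℝ} (hF : Measurable F) {C : ℝ}
    (h : ∀ x, 0 ≤ F x ∧ F x ≤ C) : Integrable (fun x => F x ^ 2) (Pn n) := by
  refine Integrable.of_bound (hF.pow_const 2).aestronglyMeasurable (C ^ 2)
    (Eventually.of_forall fun x => ?_)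
  rw [Real.norm_eq_abs, abs_of_nonneg (sq_nonneg _)]
  exact pow_le_pow_left₀ (h x).1 (h x).2 2

theorem add_pow_four {a b : ℝ} : (a + b) ^ 4 ≤ 8 * (a ^ 4 + b ^ 4) := by
  have h1 : (a + b) ^ 2 ≤ 2 * (a ^ 2 + b ^ 2) := by nlinarith [sq_nonneg (a - b)]
  have h2 : ((a + b) ^ 2) ^ 2 ≤ (2 * (a ^ 2 + b ^ 2)) ^ 2 :=
    pow_le_pow_left₀ (sq_nonneg _) h1 2
  have h3 : (a ^ 2 + b ^ 2) ^ 2 ≤ 2 * (a ^ 4 + b ^ 4) := by nlinarith [sq_nonneg (a ^ 2 - b ^ 2)]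
  nlinarith

theorem sum_pow_four (J : ℕ) (f : ℕ → ℝ) :
    (∑ j ∈ range J, f j) ^ 4 ≤ (J : ℝ) ^ 3 * ∑ j ∈ range J, f j ^ 4 := by
  have h1 := sq_sum_le_card_mul_sum_sq (s := range J) (f := f)
  have h2 := sq_sum_le_card_mul_sum_sq (s := range J) (f := fun j => f j ^ 2)
  rw [card_range] at h1 h2
  have h3 : ((∑ j ∈ range J, f j) ^ 2) ^ 2 ≤ (J * ∑ j ∈ range J, f j ^ 2) ^ 2 :=
    pow_le_pow_left₀ (sq_nonneg _) h1 2
  have h4 : ∀ j, (f j ^ 2) ^ 2 = f j ^ 4 := fun j => by ring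
  simp only [h4] at h2
  calc (∑ j ∈ range J, f j) ^ 4 = ((∑ j ∈ range J, f j) ^ 2) ^ 2 := by ring
    _ ≤ (J * ∑ j ∈ range J, f j ^ 2) ^ 2 := h3
    _ = (J : ℝ) ^ 2 * (∑ j ∈ range J, f j ^ 2) ^ 2 := by ring
    _ ≤ (J : ℝ) ^ 2 * (J * ∑ j ∈ range J, f j ^ 4) :=
        mul_le_mul_of_nonneg_left h2 (by positivity)
    _ = _ := by ring

theorem pointwise (hDY : S_DY) (n : ℕ) (hn : 1 ≤ n) (J : ℕ) (x : Fin n → R2)
    (hx : ∀ i, x i ∈ Set.Ico (0 : ℝ) 1 ×ˢ Set.Ico (0 : ℝ) 1) :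
    T n x ^ 2 ≤ 64 * (J : ℝ) ^ 3 * ∑ j ∈ range J, (SX n x j j ^ 2 + SY n x (j + 1) j ^ 2) +
      128 / 16 ^ J := by
  have h := hDY n x J hn hx
  have hT := T_nonneg n x
  have h1 : T n x ^ 2 = Real.sqrt (T n x) ^ 4 := by
    rw [show (4 : ℕ) = 2 * 2 from rfl, pow_mul, Real.sq_sqrt hT]
  have hX : ∀ j, 0 ≤ SX n x j j := fun j => by
    obtain ⟨C, hC⟩ := SX_bound n j j hn
    exact (hC x).1
  have hY : ∀ j, 0 ≤ SY n x (j + 1) j := fun j => by
    obtain ⟨C, hC⟩ := SY_bound n (j + 1) j hn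
    exact (hC x).1
  rw [h1]
  have h2 := pow_le_pow_left₀ (Real.sqrt_nonneg _) h 4
  refine h2.trans ?_
  refine add_pow_four.trans ?_
  have h3 := sum_pow_four J (fun j => Real.sqrt (SX n x j j) + Real.sqrt (SY n x (j + 1) j))
  have h4 : ∑ j ∈ range J, (Real.sqrt (SX n x j j) + Real.sqrt (SY n x (j + 1) j)) ^ 4 ≤
      ∑ j ∈ range J, 8 * (SX n x j j ^ 2 + SY n x (j + 1) j ^ 2) := by
    refine sum_le_sum fun j _ => ?_
    refine add_pow_four.trans (le_of_eq ?_)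
    rw [show (4 : ℕ) = 2 * 2 from rfl, pow_mul, pow_mul, Real.sq_sqrt (hX j),
      Real.sq_sqrt (hY j)]
  rw [← mul_sum] at h4
  have h5 : ((2 : ℝ) / 2 ^ J) ^ 4 = 16 / 16 ^ J := by
    rw [div_pow, ← pow_mul, mul_comm J 4, pow_mul]
    norm_num
  rw [h5]
  have h6 : (J : ℝ) ^ 3 * ∑ j ∈ range J,
      (Real.sqrt (SX n x j j) + Real.sqrt (SY n x (j + 1) j)) ^ 4 ≤
      (J : ℝ) ^ 3 * (8 * ∑ j ∈ range J, (SX n x j j ^ 2 + SY n x (j + 1) j ^ 2)) :=
    mul_le_mul_of_nonneg_left h4 (by positivity)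
  have h7 := h3.trans h6
  have h8 : (128 : ℝ) / 16 ^ J = 8 * (16 / 16 ^ J) := by ring
  rw [h8]
  linarith

theorem log_bound (n : ℕ) (hn : 1 ≤ n) :
    ((Nat.log 2 n + 1 : ℕ) : ℝ) ^ 4 ≤ 33 ^ 4 * (n : ℝ) ^ (1 / 4 : ℝ) := by
  have hn' : (1 : ℝ) ≤ n := by exact_mod_cast hn
  have hn0 : (0 : ℝ) < n := by linarith
  have h1 : Real.log n ≤ (n : ℝ) ^ (1 / 16 : ℝ) / (1 / 16) :=
    Real.log_le_rpow_div hn0.le (by norm_num)
  have h2 : ((Nat.log 2 n : ℕ) : ℝ) * Real.log 2 ≤ Real.log n := by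
    rw [← Real.log_pow]
    apply Real.log_le_log (by positivity)
    exact_mod_cast Nat.pow_log_le_self 2 (by omega)
  have h3 : (1 / 2 : ℝ) ≤ Real.log 2 := by linarith [Real.log_two_gt_d9]
  have h4 : ((Nat.log 2 n : ℕ) : ℝ) * (1 / 2) ≤ ((Nat.log 2 n : ℕ) : ℝ) * Real.log 2 :=
    mul_le_mul_of_nonneg_left h3 (Nat.cast_nonneg _)
  have h5 : (1 : ℝ) ≤ (n : ℝ) ^ (1 / 16 : ℝ) := Real.one_le_rpow hn' (by norm_num)
  have h6 : ((Nat.log 2 n + 1 : ℕ) : ℝ) ≤ 33 * (n : ℝ) ^ (1 / 16 : ℝ) := by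
    push_cast
    linarith
  refine (pow_le_pow_left₀ (Nat.cast_nonneg _) h6 4).trans (le_of_eq ?_)
  rw [mul_pow, ← Real.rpow_natCast ((n : ℝ) ^ (1 / 16 : ℝ)), ← Real.rpow_mul hn0.le]
  norm_num

/-- **Second moment of the cost**, from the dyadic bound and the moments of its terms. -/
theorem main (hDY : S_DY) (hSM : S_SM) (_hAE : S_AE) (_hMe : S_MEAS) : S_T2 := by
  obtain ⟨C₀, hC₀⟩ := hSM
  set C := max C₀ 0 with hC
  have hC0 : 0 ≤ C := le_max_right _ _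
  have hCn : ∀ n : ℕ, C₀ / (n : ℝ) ^ 2 ≤ C / (n : ℝ) ^ 2 := fun n =>
    div_le_div_of_nonneg_right (le_max_left _ _) (by positivity)
  refine ⟨128 * (C * 33 ^ 4) + 128, fun n hn => ?_⟩
  have hn' : (1 : ℝ) ≤ n := by exact_mod_cast hn
  have hn0 : (0 : ℝ) < n := by linarith
  set J := Nat.log 2 n + 1 with hJ
  -- integrability
  have iX : ∀ j, Integrable (fun x => SX n x j j ^ 2) (Pn n) := fun j => by
    obtain ⟨D, hD⟩ := SX_bound n j j hn
    exact integrable_of_bound (measurable_SX n j j) hD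
  have iY : ∀ j, Integrable (fun x => SY n x (j + 1) j ^ 2) (Pn n) := fun j => by
    obtain ⟨D, hD⟩ := SY_bound n (j + 1) j hn
    exact integrable_of_bound (measurable_SY n (j + 1) j) hD
  have iXY : ∀ j ∈ range J, Integrable (fun x => SX n x j j ^ 2 + SY n x (j + 1) j ^ 2) (Pn n) :=
    fun j _ => (iX j).add (iY j)
  have iS : Integrable (fun x => ∑ j ∈ range J, (SX n x j j ^ 2 + SY n x (j + 1) j ^ 2)) (Pn n) :=
    integrable_finsetSum _ iXY
  have h1 : ∫ x, T n x ^ 2 ∂Pn n ≤ ∫ x, (64 * (J : ℝ) ^ 3 *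
      ∑ j ∈ range J, (SX n x j j ^ 2 + SY n x (j + 1) j ^ 2) + 128 / 16 ^ J) ∂Pn n := by
    apply integral_mono_of_nonneg
    · exact Eventually.of_forall fun x => sq_nonneg _
    · exact (iS.const_mul _).add (integrable_const _)
    · filter_upwards [ae_Pn n] with x hx
      exact pointwise hDY n hn J x hx
  rw [integral_add (iS.const_mul _) (integrable_const _), integral_const_mul,
    integral_finsetSum _ iXY, integral_const, probReal_univ,
    one_smul] at h1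
  have h2 : ∑ j ∈ range J, ∫ x, (SX n x j j ^ 2 + SY n x (j + 1) j ^ 2) ∂Pn n ≤
      ∑ _j ∈ range J, 2 * (C / (n : ℝ) ^ 2) := by
    refine sum_le_sum fun j _ => ?_
    rw [integral_add (iX j) (iY j)]
    have := hC₀ n j hn
    linarith [this.1, this.2, hCn n]
  rw [sum_const, card_range, nsmul_eq_mul] at h2
  have h3 : 64 * (J : ℝ) ^ 3 * ∑ j ∈ range J, ∫ x, (SX n x j j ^ 2 + SY n x (j + 1) j ^ 2) ∂Pn n ≤
      64 * (J : ℝ) ^ 3 * (J * (2 * (C / (n : ℝ) ^ 2))) :=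
    mul_le_mul_of_nonneg_left h2 (by positivity)
  have h4 : (n : ℝ) ^ 2 ≤ 16 ^ J := by
    have h5 : n < 2 ^ J := Nat.lt_pow_succ_log_self (by norm_num) n
    have h6 : (n : ℝ) ≤ 2 ^ J := by exact_mod_cast h5.le
    have h7 : (n : ℝ) ^ 2 ≤ (2 ^ J) ^ 2 := pow_le_pow_left₀ hn0.le h6 2
    have h8 : ((2 : ℝ) ^ J) ^ 2 ≤ 16 ^ J := by
      rw [← pow_mul, mul_comm, pow_mul]
      exact pow_le_pow_left₀ (by norm_num) (by norm_num) J
    exact h7.trans h8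
  have h5 : (128 : ℝ) / 16 ^ J ≤ 128 / (n : ℝ) ^ 2 :=
    div_le_div_of_nonneg_left (by norm_num) (by positivity) h4
  have hlog : (J : ℝ) ^ 4 ≤ 33 ^ 4 * (n : ℝ) ^ (1 / 4 : ℝ) := log_bound n hn
  have h6 : 64 * (J : ℝ) ^ 3 * (J * (2 * (C / (n : ℝ) ^ 2))) =
      128 * C * ((J : ℝ) ^ 4 * ((n : ℝ) ^ 2)⁻¹) := by
    rw [div_eq_mul_inv]
    ring
  have h7 : (J : ℝ) ^ 4 * ((n : ℝ) ^ 2)⁻¹ ≤ 33 ^ 4 * (n : ℝ) ^ (-(7 / 4) : ℝ) := by
    have h8 : (n : ℝ) ^ (-(7 / 4) : ℝ) = (n : ℝ) ^ (1 / 4 : ℝ) * ((n : ℝ) ^ 2)⁻¹ := by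
      rw [← Real.rpow_natCast, ← Real.rpow_neg hn0.le, ← Real.rpow_add hn0]
      norm_num
    rw [h8, ← mul_assoc]
    exact mul_le_mul_of_nonneg_right hlog (by positivity)
  have h9 : ((n : ℝ) ^ 2)⁻¹ ≤ (n : ℝ) ^ (-(7 / 4) : ℝ) := by
    rw [← Real.rpow_natCast, ← Real.rpow_neg hn0.le]
    exact Real.rpow_le_rpow_of_exponent_le hn' (by norm_num)
  have h10 : 128 * C * ((J : ℝ) ^ 4 * ((n : ℝ) ^ 2)⁻¹) ≤
      128 * C * (33 ^ 4 * (n : ℝ) ^ (-(7 / 4) : ℝ)) :=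
    mul_le_mul_of_nonneg_left h7 (by positivity)
  have h11 : (128 : ℝ) / (n : ℝ) ^ 2 ≤ 128 * (n : ℝ) ^ (-(7 / 4) : ℝ) := by
    rw [div_eq_mul_inv]
    exact mul_le_mul_of_nonneg_left h9 (by norm_num)
  calc ∫ x, T n x ^ 2 ∂Pn n ≤ _ := h1
    _ ≤ 128 * C * (33 ^ 4 * (n : ℝ) ^ (-(7 / 4) : ℝ)) + 128 * (n : ℝ) ^ (-(7 / 4) : ℝ) := by
        linarith
    _ = _ := by ring

end Pool.Agent.N940.OT.T2
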