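import Pool.Agent.N940.OT.Basic

/-!
# The variance bound by the inequality of Efron and Stein and duality
-/

set_option autoImplicit false

open MeasureTheory Filter Topology Finset ProbabilityTheory
open scoped ENNReal NNReal

namespace Pool.Agent.N940.OT.Var

/-! ## Bounded measurable functions -/

/-- bounded measurable functions -/
def BM {α : Type*} [MeasurableSpace α] (f : α → ℝ) : Prop := Measurable f ∧ ∃ B : ℝ, ∀ x, |f x| ≤ B

section BM

variable {α β : Type*} [MeasurableSpace α] [MeasurableSpace β] {f g : α → ℝ}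

theorem BM.integrable (h : BM f) (μ : Measure α) [IsFiniteMeasure μ] : Integrable f μ := by
  obtain ⟨h1, B, hB⟩ := h
  exact Integrable.of_bound h1.aestronglyMeasurable B (ae_of_all _ fun x => hB x)

theorem BM.const (c : ℝ) : BM fun _ : α => c := ⟨measurable_const, |c|, fun _ => le_rfl⟩

theorem BM.add (hf : BM f) (hg : BM g) : BM fun x => f x + g x := by
  obtain ⟨h1, A, hA⟩ := hf
  obtain ⟨h2, B, hB⟩ := hg
  exact ⟨h1.add h2, A + B, fun x => (abs_add_le _ _).trans (add_le_add (hA x) (hB x))⟩

theorem BM.mul (hf : BM f) (hg : BM g) : BM fun x => f x * g x := by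
  obtain ⟨h1, A, hA⟩ := hf
  obtain ⟨h2, B, hB⟩ := hg
  refine ⟨h1.mul h2, A * B, fun x => ?_⟩
  rw [abs_mul]
  exact mul_le_mul (hA x) (hB x) (abs_nonneg _) ((abs_nonneg _).trans (hA x))

theorem BM.neg (hf : BM f) : BM fun x => -f x := by
  obtain ⟨h1, A, hA⟩ := hf
  exact ⟨h1.neg, A, fun x => by rw [abs_neg]; exact hA x⟩

theorem BM.sub (hf : BM f) (hg : BM g) : BM fun x => f x - g x := by
  simpa only [sub_eq_add_neg] using hf.add hg.neg

theorem BM.div (hf : BM f) (c : ℝ) : BM fun x => f x / c := by
  simpa only [div_eq_mul_inv] using hf.mul (BM.const c⁻¹)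

theorem BM.pow (hf : BM f) (k : ℕ) : BM fun x => f x ^ k := by
  induction k with
  | zero => simpa using BM.const (α := α) 1
  | succ k ih => simpa only [pow_succ] using ih.mul hf

theorem BM.sum {ι : Type*} (s : Finset ι) {F : ι → α → ℝ} (h : ∀ i ∈ s, BM (F i)) :
    BM fun x => ∑ i ∈ s, F i x := by
  classical
  induction s using Finset.induction_on with
  | empty => simpa using BM.const (α := α) 0
  | insert i s hi ih =>
    simp_rw [sum_insert hi]
    exact (h i (mem_insert_self _ _)).add (ih fun j hj => h j (mem_insert_of_mem hj))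

theorem BM.comp (hf : BM f) {u : β → α} (hu : Measurable u) : BM fun x => f (u x) := by
  obtain ⟨h1, A, hA⟩ := hf
  exact ⟨h1.comp hu, A, fun x => hA _⟩

theorem BM.min (hf : BM f) (hg : BM g) : BM fun x => min (f x) (g x) := by
  obtain ⟨h1, A, hA⟩ := hf
  obtain ⟨h2, B, hB⟩ := hg
  refine ⟨h1.min h2, max A B, fun x => ?_⟩
  change |Min.min (f x) (g x)| ≤ max A B
  rcases min_choice (f x) (g x) with h | h
  · rw [h]
    exact (hA x).trans (le_max_left _ _)
  · rw [h]
    exact (hB x).trans (le_max_right _ _)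

theorem BM.sqrt (hf : BM f) : BM fun x => Real.sqrt (f x) := by
  obtain ⟨h1, A, hA⟩ := hf
  refine ⟨h1.sqrt, Real.sqrt A, fun x => ?_⟩
  rw [abs_of_nonneg (Real.sqrt_nonneg _)]
  exact Real.sqrt_le_sqrt ((le_abs_self _).trans (hA x))

theorem BM.integral {F : α × β → ℝ} (h : BM F) (ν : Measure β) [IsProbabilityMeasure ν] :
    BM fun x => ∫ y, F (x, y) ∂ν := by
  obtain ⟨h1, B, hB⟩ := h
  refine ⟨(h1.stronglyMeasurable.integral_prod_right').measurable, B, fun x => ?_⟩
  have h2 := norm_integral_le_of_norm_le_const (μ := ν) (f := fun y => F (x, y)) (C := B)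
    (ae_of_all _ fun y => hB (x, y))
  simpa using h2

end BM

/-! ## Resampling of a coordinate -/

theorem map_upd (n : ℕ) (i : Fin n) :
    ((Pn n).prod P).map (fun p => Function.update p.1 i p.2) = Pn n := by
  classical
  unfold Pn
  refine (Measure.pi_eq fun s hs => ?_).symm
  rw [Measure.map_apply measurable_update' (MeasurableSet.univ_pi hs)]
  have h : (fun p : (Fin n → R2) × R2 => Function.update p.1 i p.2) ⁻¹' (Set.univ.pi s) =
      (Set.univ.pi (Function.update s i Set.univ)) ×ˢ (s i) := by
    ext ⟨x, y⟩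
    simp only [Set.mem_preimage, Set.mem_pi, Set.mem_univ, forall_true_left, Set.mem_prod]
    constructor
    · intro h
      refine ⟨fun j => ?_, by simpa using h i⟩
      by_cases hj : j = i
      · subst hj
        simp
      · have := h j
        rw [Function.update_of_ne hj] at this ⊢
        exact this
    · rintro ⟨h1, h2⟩ j
      by_cases hj : j = i
      · subst hj
        simpa using h2
      · have := h1 j
        rw [Function.update_of_ne hj] at this ⊢
        exact this
  rw [h, Measure.prod_prod, Measure.pi_pi, ← mul_prod_erase univ _ (mem_univ i),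
    ← mul_prod_erase univ (fun j => P (s j)) (mem_univ i)]
  rw [Function.update_self, measure_univ, one_mul, mul_comm]
  congr 1
  refine prod_congr rfl fun j hj => ?_
  rw [Function.update_of_ne (ne_of_mem_erase hj)]

theorem resample (n : ℕ) (i : Fin n) {g : (Fin n → R2) → ℝ} (hg : BM g) :
    ∫ x, g x ∂Pn n = ∫ x, ∫ z, g (Function.update x i z) ∂P ∂Pn n := by
  have h1 : ∫ x, g x ∂Pn n = ∫ p, g (Function.update p.1 i p.2) ∂((Pn n).prod P) := by
    conv_lhs => rw [← map_upd n i]
    rw [integral_map measurable_update'.aemeasurable hg.1.aestronglyMeasurable]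
  rw [h1, integral_prod]
  exact (hg.comp measurable_update').integrable _

/-- the two halves of the sum of the squares are equal -/
theorem halves (n : ℕ) (i : Fin n) {F : (Fin n → R2) → ℝ} (hF : BM F) :
    ∫ x, ∫ y, (F (Function.update x i y) - F x) ^ 2 ∂P ∂Pn n =
      2 * ∫ x, ∫ y, min (F (Function.update x i y) - F x) 0 ^ 2 ∂P ∂Pn n := by
  have hu : Measurable fun p : (Fin n → R2) × R2 => Function.update p.1 i p.2 := measurable_update'
  have hD : BM fun p : (Fin n → R2) × R2 => F (Function.update p.1 i p.2) - F p.1 :=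
    (hF.comp hu).sub (hF.comp measurable_fst)
  have hD' : BM fun p : (Fin n → R2) × R2 => F p.1 - F (Function.update p.1 i p.2) :=
    (hF.comp measurable_fst).sub (hF.comp hu)
  have hA : BM fun p : (Fin n → R2) × R2 =>
      min (F (Function.update p.1 i p.2) - F p.1) 0 ^ 2 := (hD.min (BM.const 0)).pow 2
  have hB : BM fun p : (Fin n → R2) × R2 =>
      min (F p.1 - F (Function.update p.1 i p.2)) 0 ^ 2 := (hD'.min (BM.const 0)).pow 2
  have h1 : ∫ x, ∫ y, (F (Function.update x i y) - F x) ^ 2 ∂P ∂Pn n =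
      ∫ x, ∫ y, min (F (Function.update x i y) - F x) 0 ^ 2 ∂P ∂Pn n +
      ∫ x, ∫ y, min (F x - F (Function.update x i y)) 0 ^ 2 ∂P ∂Pn n := by
    rw [← integral_add ((hA.integral P).integrable _) ((hB.integral P).integrable _)]
    refine integral_congr_ae (ae_of_all _ fun x => ?_)
    have hA' : BM fun y : R2 => min (F (Function.update x i y) - F x) 0 ^ 2 :=
      hA.comp (u := fun y => (x, y)) measurable_prodMk_left
    have hB' : BM fun y : R2 => min (F x - F (Function.update x i y)) 0 ^ 2 :=
      hB.comp (u := fun y => (x, y)) measurable_prodMk_left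
    simp only
    rw [← integral_add (hA'.integrable _) (hB'.integrable _)]
    refine integral_congr_ae (ae_of_all _ fun y => ?_)
    simp only
    rcases le_total (F (Function.update x i y) - F x) 0 with h | h
    · rw [min_eq_left h, min_eq_right (by linarith)]
      ring
    · rw [min_eq_right h, min_eq_left (by linarith)]
      ring
  have h2 : ∫ x, ∫ y, min (F x - F (Function.update x i y)) 0 ^ 2 ∂P ∂Pn n =
      ∫ x, ∫ y, min (F (Function.update x i y) - F x) 0 ^ 2 ∂P ∂Pn n := by
    rw [resample n i (hA.integral P), resample n i (hB.integral P)]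
    refine integral_congr_ae (ae_of_all _ fun x => ?_)
    simp only [Function.update_idem]
    have hx : Measurable fun y : R2 => Function.update x i y := measurable_update x
    have h3 : BM fun p : R2 × R2 =>
        min (F (Function.update x i p.1) - F (Function.update x i p.2)) 0 ^ 2 :=
      (((hF.comp (hx.comp measurable_fst)).sub (hF.comp (hx.comp measurable_snd))).min
        (BM.const 0)).pow 2
    rw [integral_integral_swap]
    exact h3.integrable _
  rw [h1, h2]
  ring

/-! ## The quadratic functional -/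

theorem bm_Z (n : ℕ) (k : Fq) : BM fun x : Fin n → R2 => Z n x k :=
  ⟨(continuous_Z n k).measurable, 2 * Real.sqrt n, fun x => abs_Z_le n x k⟩

theorem bm_Q (n K : ℕ) : BM (Q n K) := by
  have : BM fun x => ∑ k ∈ Bx K, (Z n x k ^ 2 - 1) / lam k :=
    BM.sum _ fun k _ => (((bm_Z n k).pow 2).sub (BM.const 1)).div _
  exact this

theorem int_Q (hZ : S_Z2) {n : ℕ} (hn : 1 ≤ n) (K : ℕ) : ∫ x, Q n K x ∂Pn n = 0 := by
  have h1 : ∀ k ∈ Bx K, Integrable (fun x => (Z n x k ^ 2 - 1) / lam k) (Pn n) := fun k _ =>
    ((((bm_Z n k).pow 2).sub (BM.const 1)).div _).integrable _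
  have h2 : ∫ x, Q n K x ∂Pn n = ∑ k ∈ Bx K, ∫ x, (Z n x k ^ 2 - 1) / lam k ∂Pn n := by
    rw [← integral_finsetSum _ h1]
    rfl
  rw [h2]
  refine sum_eq_zero fun k hk => ?_
  have h3 := hZ n k hn (ne_of_mem_Bx hk)
  rw [integral_div, integral_sub h3.1 (integrable_const _), h3.2]
  simp

/-! ## Duality -/

/-- the value of the cost in terms of the potentials -/
theorem val_eq {n : ℕ} {x : Fin n → R2} {τ : R2 → Fin n} {φ ψ : R2 → ℝ} {M : ℝ}
    (h : Pot n x τ φ ψ M) : T n x = ∫ z, φ z ∂P + (∑ i, ψ (x i)) / n := by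
  have hφ : Integrable φ P := by
    unfold P
    exact h.cφ.continuousOn.integrableOn_compact isCompact_Om
  have hms : ∀ i, MeasurableSet (τ ⁻¹' {i}) := fun i => h.meas (measurableSet_singleton i)
  have h1 : ∀ z, ψ (x (τ z)) = ∑ i, (τ ⁻¹' {i}).indicator (fun _ => ψ (x i)) z := by
    intro z
    rw [sum_eq_single (τ z)]
    · rw [Set.indicator_of_mem]
      rfl
    · intro j _ hj
      rw [Set.indicator_of_notMem]
      intro h2
      exact hj h2.symm
    · intro h2
      exact absurd (mem_univ _) h2
  have hi : ∀ i ∈ (univ : Finset (Fin n)),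
      Integrable (fun z => (τ ⁻¹' {i}).indicator (fun _ => ψ (x i)) z) P := fun i _ =>
    (integrable_const (ψ (x i))).indicator (hms i)
  have h2 : Integrable (fun z => ψ (x (τ z))) P := by
    simp_rw [h1]
    exact integrable_finsetSum _ hi
  have h3 : ∫ z, ψ (x (τ z)) ∂P = (∑ i, ψ (x i)) / n := by
    simp_rw [h1]
    rw [integral_finsetSum _ hi, sum_div]
    refine sum_congr rfl fun i _ => ?_
    rw [integral_indicator_const _ (hms i), h.cell i, smul_eq_mul]
    ring
  rw [h.val, ← h3, ← integral_add hφ h2]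
  refine integral_congr_ae ?_
  filter_upwards [ae_Om] with z hz
  exact (h.eq z hz).symm

/-- the increments are bounded below by those of the potential -/
theorem incr (hWD : S_WD) {n : ℕ} (hn : 1 ≤ n) {x : Fin n → R2} {τ : R2 → Fin n} {φ ψ : R2 → ℝ}
    {M : ℝ} (h : Pot n x τ φ ψ M) (hx : ∀ i, x i ∈ Om) (i : Fin n) {y : R2} (hy : y ∈ Om) :
    ψ y - ψ (x i) ≤ n * (T n (Function.update x i y) - T n x) := by
  have h1 := hWD n (Function.update x i y) φ ψ hn (by
    intro j
    by_cases hj : j = i
    · subst hj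
      simpa using hy
    · rw [Function.update_of_ne hj]
      exact hx j) h.cφ h.cψ h.le
  rw [val_eq h]
  have h2 : ∑ j, ψ (Function.update x i y j) = ∑ j, ψ (x j) + (ψ y - ψ (x i)) := by
    rw [← add_sum_erase univ _ (mem_univ i), ← add_sum_erase univ (fun j => ψ (x j)) (mem_univ i),
      Function.update_self]
    have h3 : ∑ j ∈ univ.erase i, ψ (Function.update x i y j) = ∑ j ∈ univ.erase i, ψ (x j) :=
      sum_congr rfl fun j hj => by rw [Function.update_of_ne (ne_of_mem_erase hj)]
    rw [h3]
    ring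
  rw [h2] at h1
  have hn0 : (0 : ℝ) < n := by exact_mod_cast hn
  have h4 : (∑ j, ψ (x j) + (ψ y - ψ (x i))) / n = (∑ j, ψ (x j)) / n + (ψ y - ψ (x i)) / n := by
    rw [add_div]
  rw [h4] at h1
  have h5 : (ψ y - ψ (x i)) = n * ((ψ y - ψ (x i)) / n) := by field_simp
  rw [h5]
  exact mul_le_mul_of_nonneg_left (by linarith) hn0.le

/-- a point is null -/
theorem ae_ne (a : R2) : ∀ᵐ y ∂P, y ≠ a := by
  have h1 : P {a} = 0 := by
    unfold P
    refine le_antisymm ((Measure.restrict_apply_le _ _).trans (le_of_eq ?_)) bot_le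
    simp
  rw [ae_iff]
  simpa using h1

theorem upd_inj {n : ℕ} {x : Fin n → R2} (hx : Function.Injective x) (i : Fin n) {y : R2}
    (hy : ∀ j, y ≠ x j) : Function.Injective (Function.update x i y) := by
  intro j k hjk
  by_cases hj : j = i
  · by_cases hk : k = i
    · rw [hj, hk]
    · rw [hj, Function.update_self, Function.update_of_ne hk] at hjk
      exact absurd hjk (hy k)
  · by_cases hk : k = i
    · rw [hk, Function.update_self, Function.update_of_ne hj] at hjk
      exact absurd hjk.symm (hy j)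
    · rw [Function.update_of_ne hj, Function.update_of_ne hk] at hjk
      exact hx hjk

theorem main (hPot : S_POT) (hWD : S_WD) (hMe : S_MEAS) (hAE : S_AE) (hES : S_ES) (hZ : S_Z2)
    (hD : S_DET) : S_VAR := by
  obtain ⟨C, hC, hdet⟩ := hD
  refine ⟨C, hC, ?_⟩
  intro n K m hn hK hKm
  obtain ⟨F0, hF0m, hF0b, hF0⟩ := hMe n hn
  have bF0 : BM F0 := ⟨hF0m, 2, fun x => by
    rw [abs_of_nonneg (hF0b x).1]
    exact (hF0b x).2⟩
  have hae : ∀ᵐ x ∂Pn n, T n x = F0 x := by
    filter_upwards [hAE n] with x hx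
    exact hF0 x hx.1 hx.2
  obtain ⟨F, hFdef⟩ : ∃ F : (Fin n → R2) → ℝ, F = fun x => n * F0 x - Q n K x := ⟨_, rfl⟩
  have bF : BM F := by
    rw [hFdef]
    exact ((BM.const (n : ℝ)).mul bF0).sub (bm_Q n K)
  have hIT : ∫ u, T n u ∂Pn n = ∫ u, F0 u ∂Pn n := integral_congr_ae hae
  have hIF : ∫ u, F u ∂Pn n = n * ∫ u, F0 u ∂Pn n := by
    rw [hFdef]
    rw [integral_sub (((BM.const (n : ℝ)).mul bF0).integrable _) ((bm_Q n K).integrable _),
      int_Q hZ hn K, integral_const_mul, sub_zero]
  have h1 : ∫ x, (n * (T n x - ∫ u, T n u ∂Pn n) - Q n K x) ^ 2 ∂Pn n =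
      ∫ x, (F x - ∫ u, F u ∂Pn n) ^ 2 ∂Pn n := by
    refine integral_congr_ae ?_
    filter_upwards [hae] with x hx
    rw [hIF, hIT, hx, hFdef]
    ring
  rw [h1]
  obtain ⟨B, hB⟩ := bF.2
  have h2 := hES n F B bF.1 hB
  refine h2.trans ?_
  have bmin : ∀ i : Fin n, BM fun p : (Fin n → R2) × R2 =>
      min (F (Function.update p.1 i p.2) - F p.1) 0 ^ 2 := fun i =>
    (((bF.comp measurable_update').sub (bF.comp measurable_fst)).min (BM.const 0)).pow 2
  have h3 : 1 / 2 * ∑ i, ∫ x, ∫ y, (F (Function.update x i y) - F x) ^ 2 ∂P ∂Pn n =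
      ∫ x, ∑ i, ∫ y, min (F (Function.update x i y) - F x) 0 ^ 2 ∂P ∂Pn n := by
    rw [integral_finsetSum _ fun i _ => ((bmin i).integral P).integrable _, mul_sum]
    refine sum_congr rfl fun i _ => ?_
    rw [halves n i bF]
    ring
  rw [h3, ← integral_const_mul]
  -- the right side is integrable
  have hR : Integrable (fun x => C * rhs n K m x) (Pn n) := by
    have bR : BM fun x => C * (∑ k ∈ Bx m \ Bx K, Z n x k ^ 2 / lam k ^ 2 +
        n * m ^ 2 * F0 x ^ 2 + n * F0 x / m ^ 2 + n * Real.sqrt (F0 x) * F0 x +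
        K ^ 2 * (∑ k ∈ Bx K, Z n x k ^ 2) * F0 x + K ^ 4 / n) := by
      refine (BM.const C).mul ?_
      refine BM.add (BM.add (BM.add (BM.add (BM.add ?_ ?_) ?_) ?_) ?_) ?_
      · exact BM.sum _ fun k _ => ((bm_Z n k).pow 2).div _
      · exact (BM.const _).mul (bF0.pow 2)
      · exact ((BM.const _).mul bF0).div _
      · exact ((BM.const _).mul bF0.sqrt).mul bF0
      · exact ((BM.const _).mul (BM.sum _ fun k _ => (bm_Z n k).pow 2)).mul bF0
      · exact BM.const _
    refine (bR.integrable (Pn n)).congr ?_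
    filter_upwards [hae] with x hx
    unfold rhs
    rw [hx]
  refine integral_mono_ae ((BM.sum univ fun i _ => (bmin i).integral P).integrable _) hR ?_
  filter_upwards [hAE n] with x hx
  obtain ⟨τ, φ, ψ, M, hp⟩ := hPot n x hn hx.1 hx.2
  refine le_trans ?_ (hdet n K m x τ φ ψ M hn hK hKm hx.1 hp)
  refine sum_le_sum fun i _ => ?_
  refine integral_mono_ae ?_ ?_ ?_
  · have hb : BM fun y : R2 => min (F (Function.update x i y) - F x) 0 ^ 2 :=
      (bmin i).comp (u := fun y => (x, y)) measurable_prodMk_left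
    exact hb.integrable _
  · have hc : Continuous fun y : R2 =>
        (ψ y - ψ (x i) - (Q n K (Function.update x i y) - Q n K x)) ^ 2 := by
      have hu : Continuous fun y : R2 => Function.update x i y :=
        continuous_const.update i continuous_id
      have hq := (continuous_Q n K).comp hu
      have hq' : Continuous fun y : R2 => Q n K (Function.update x i y) := hq
      exact ((hp.cψ.sub continuous_const).sub (hq'.sub continuous_const)).pow 2
    unfold P
    exact hc.continuousOn.integrableOn_compact isCompact_Om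
  · have hne : ∀ᵐ y ∂P, ∀ j, y ≠ x j := by
      rw [ae_all_iff]
      exact fun j => ae_ne (x j)
    filter_upwards [ae_Om, hne] with y hy hyne
    have h4 := incr hWD hn hp hx.1 i hy
    have h5 : T n (Function.update x i y) = F0 (Function.update x i y) := by
      refine hF0 _ ?_ (upd_inj hx.2 i hyne)
      intro j
      by_cases hj : j = i
      · subst hj
        simpa using hy
      · rw [Function.update_of_ne hj]
        exact hx.1 j
    have h6 : T n x = F0 x := hF0 x hx.1 hx.2
    rw [h5, h6] at h4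
    have h7 : ψ y - ψ (x i) - (Q n K (Function.update x i y) - Q n K x) ≤
        F (Function.update x i y) - F x := by
      rw [hFdef]
      simp only
      linarith
    rcases le_total (F (Function.update x i y) - F x) 0 with h | h
    · rw [min_eq_left h]
      nlinarith
    · rw [min_eq_right h, zero_pow two_ne_zero]
      exact sq_nonneg _

end Pool.Agent.N940.OT.Var
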