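import Pool.Agent.N940.OT.Basic

/-!
# Weak duality, couplings from partitions, almost sure injectivity
-/

set_option autoImplicit false

open MeasureTheory Filter Topology Finset ProbabilityTheory
open scoped ENNReal NNReal

namespace Pool.Agent.N940.OT.Wd

theorem emp_univ {n : ℕ} (hn : 1 ≤ n) (x : Fin n → R2) : emp n x Set.univ = 1 := by
  unfold emp
  rw [Measure.smul_apply, Measure.finsetSum_apply]
  simp only [measure_univ, sum_const, card_univ, Fintype.card_fin, smul_eq_mul, nsmul_eq_mul,
    mul_one]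
  exact ENNReal.inv_mul_cancel (by exact_mod_cast (by omega : n ≠ 0)) (ENNReal.natCast_ne_top n)

theorem emp_prob {n : ℕ} (hn : 1 ≤ n) (x : Fin n → R2) : IsProbabilityMeasure (emp n x) :=
  ⟨emp_univ hn x⟩

theorem int_dirac (f : R2 → ℝ) (a : R2) : Integrable f (Measure.dirac a) := by
  refine (integrable_const (f a)).congr ?_
  have h : ∀ᵐ z ∂(Measure.dirac a : Measure R2), z = a := by
    rw [ae_dirac_eq]
    exact mem_pure.2 rfl
  filter_upwards [h] with z hz
  rw [hz]

theorem int_emp {n : ℕ} (hn : 1 ≤ n) (x : Fin n → R2) (f : R2 → ℝ) : Integrable f (emp n x) := by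
  unfold emp
  refine Integrable.smul_measure ?_ ?_
  · rw [integrable_finsetSum_measure]
    exact fun i _ => int_dirac f _
  · exact ENNReal.inv_ne_top.2 (by exact_mod_cast (by omega : n ≠ 0))

theorem integral_emp {n : ℕ} (x : Fin n → R2) (f : R2 → ℝ) :
    ∫ z, f z ∂(emp n x) = (∑ i, f (x i)) / n := by
  unfold emp
  rw [integral_smul_measure, integral_finsetSum_measure (fun i _ => int_dirac f _)]
  simp only [integral_dirac]
  rw [ENNReal.toReal_inv, ENNReal.toReal_natCast, smul_eq_mul]
  ring

theorem ae_emp {n : ℕ} (x : Fin n → R2) (hx : ∀ i, x i ∈ Om) : ∀ᵐ z ∂(emp n x), z ∈ Om := by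
  rw [ae_iff]
  have hm : MeasurableSet {a : R2 | ¬ a ∈ Om} := measurableSet_Om.compl
  unfold emp
  rw [Measure.smul_apply, Measure.finsetSum_apply]
  have h : ∀ i ∈ (univ : Finset (Fin n)), Measure.dirac (x i) {a : R2 | ¬ a ∈ Om} = 0 := by
    intro i _
    rw [Measure.dirac_apply' _ hm]
    have hn : x i ∉ {a : R2 | ¬ a ∈ Om} := by
      rw [Set.mem_ofPred_eq]
      exact not_not.2 (hx i)
    exact Set.indicator_of_notMem hn _
  rw [sum_congr rfl h]
  simp

theorem int_P {f : R2 → ℝ} (hf : Continuous f) : Integrable f P := by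
  unfold P
  exact hf.continuousOn.integrableOn_compact isCompact_Om

theorem wd : S_WD := by
  intro n x φ ψ hn hx hφ hψ hle
  have hprob := emp_prob hn x
  unfold T cost
  refine le_csInf ?_ ?_
  · refine ⟨_, (emp n x).prod P, ?_, ?_, rfl⟩
    · rw [Measure.map_fst_prod]
      simp
    · rw [Measure.map_snd_prod]
      simp
  rintro _ ⟨π, h1, h2, rfl⟩
  have hπ : IsProbabilityMeasure π := by
    refine ⟨?_⟩
    have h3 : (π.map Prod.fst) Set.univ = 1 := by rw [h1]; exact emp_univ hn x
    rwa [Measure.map_apply measurable_fst MeasurableSet.univ, Set.preimage_univ] at h3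
  have a1 : ∀ᵐ p ∂π, p.1 ∈ Om := by
    have h3 := ae_emp x hx
    rw [← h1] at h3
    exact ae_of_ae_map measurable_fst.aemeasurable h3
  have a2 : ∀ᵐ p ∂π, p.2 ∈ Om := by
    have h3 := ae_Om
    rw [← h2] at h3
    exact ae_of_ae_map measurable_snd.aemeasurable h3
  have i1 : Integrable (fun p : R2 × R2 => ψ p.1) π := by
    have h3 := int_emp hn x ψ
    rw [← h1] at h3
    exact h3.comp_measurable measurable_fst
  have i2 : Integrable (fun p : R2 × R2 => φ p.2) π := by
    have h3 := int_P hφ
    rw [← h2] at h3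
    exact h3.comp_measurable measurable_snd
  have i3 : Integrable (fun p : R2 × R2 => sq p.1 p.2) π := by
    refine (integrable_const (2 : ℝ)).mono' continuous_sq.aestronglyMeasurable ?_
    filter_upwards [a1, a2] with p hp1 hp2
    rw [Real.norm_eq_abs, abs_of_nonneg (sq_nonneg' _ _)]
    exact sq_le_two hp1 hp2
  have e1 : ∫ z, φ z ∂P = ∫ p : R2 × R2, φ p.2 ∂π := by
    rw [← h2]
    exact integral_map measurable_snd.aemeasurable hφ.aestronglyMeasurable
  have e2 : (∑ i, ψ (x i)) / n = ∫ p : R2 × R2, ψ p.1 ∂π := by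
    rw [← integral_emp x ψ, ← h1]
    exact integral_map measurable_fst.aemeasurable hψ.aestronglyMeasurable
  rw [e1, e2, ← integral_add i2 i1]
  refine integral_mono_ae (i2.add i1) i3 ?_
  filter_upwards [a1, a2] with p hp1 hp2
  show φ p.2 + ψ p.1 ≤ sq p.1 p.2
  rw [sq_comm']
  exact hle p.2 hp2 p.1 hp1

theorem up : S_UP := by
  classical
  intro n x τ hn hx hτ hcell
  have hxm : Measurable x := measurable_of_countable x
  have hmeas : Measurable (fun z : R2 => (x (τ z), z)) := (hxm.comp hτ).prodMk measurable_id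
  unfold T cost
  refine csInf_le ⟨0, ?_⟩ ⟨Measure.map (fun z : R2 => (x (τ z), z)) P, ?_, ?_, ?_⟩
  · rintro _ ⟨π, -, -, rfl⟩
    exact integral_nonneg fun p => sq_nonneg' _ _
  · rw [Measure.map_map measurable_fst hmeas]
    ext s hs
    have hset : (Prod.fst ∘ fun z : R2 => (x (τ z), z)) ⁻¹' s =
        ⋃ i ∈ (univ.filter fun i : Fin n => x i ∈ s), τ ⁻¹' {i} := by
      ext z
      simp
    rw [Measure.map_apply (measurable_fst.comp hmeas) hs, hset, measure_biUnion_finset]
    · unfold emp
      rw [Measure.smul_apply, Measure.finsetSum_apply, smul_eq_mul, mul_sum, sum_filter]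
      refine sum_congr rfl fun i _ => ?_
      have h1 : P (τ ⁻¹' {i}) = (n : ℝ≥0∞)⁻¹ := by
        have h2 := hcell i
        unfold Measure.real at h2
        rw [← ENNReal.ofReal_toReal (measure_ne_top P (τ ⁻¹' {i})), h2,
          ENNReal.ofReal_div_of_pos (by exact_mod_cast hn), ENNReal.ofReal_one,
          ENNReal.ofReal_natCast, one_div]
      rw [Measure.dirac_apply' _ hs]
      by_cases hi : x i ∈ s
      · rw [if_pos hi, h1, Set.indicator_of_mem hi]
        simp
      · rw [if_neg hi, Set.indicator_of_notMem hi]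
        simp
    · intro i _ j _ hij
      rw [Function.onFun, Set.disjoint_left]
      intro z hz1 hz2
      exact hij (hz1.symm.trans hz2)
    · exact fun i _ => hτ (measurableSet_singleton i)
  · rw [Measure.map_map measurable_snd hmeas]
    exact Measure.map_id
  · rw [integral_map hmeas.aemeasurable continuous_sq.aestronglyMeasurable]
    refine integral_congr_ae (Eventually.of_forall fun z => ?_)
    show sq z (x (τ z)) = sq (x (τ z)) z
    exact sq_comm' _ _

theorem ae : S_AE := by
  intro n
  have h1 : ∀ᵐ x ∂Pn n, ∀ i, x i ∈ Om := by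
    rw [ae_all_iff]
    intro i
    unfold Pn
    exact (Measure.tendsto_eval_ae_ae (μ := fun _ : Fin n => P) (i := i)).eventually ae_Om
  have h2 : ∀ᵐ x ∂Pn n, ∀ i j : Fin n, i ≠ j → x i ≠ x j := by
    rw [ae_all_iff]
    intro i
    rw [ae_all_iff]
    intro j
    by_cases hij : i = j
    · exact Eventually.of_forall fun x h => absurd hij h
    obtain ⟨m, rfl⟩ : ∃ m, n = m + 1 := ⟨n - 1, by have := i.pos; omega⟩
    obtain ⟨j', rfl⟩ := Fin.exists_succAbove_eq (Ne.symm hij)
    have hatoms : NullSingletonClass P := by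
      unfold P
      infer_instance
    have hmp := measurePreserving_piFinSuccAbove (fun _ : Fin (m + 1) => P) i
    have hnull : (P.prod (Pn m)) {q : R2 × (Fin m → R2) | q.1 = q.2 j'} = 0 := by
      have hms : MeasurableSet {q : R2 × (Fin m → R2) | q.1 = q.2 j'} := by
        apply measurableSet_eq_fun measurable_fst
        exact (measurable_pi_apply j').comp measurable_snd
      rw [Measure.measure_prod_null hms]
      refine Eventually.of_forall fun z => ?_
      show (Pn m) (Prod.mk z ⁻¹' {q : R2 × (Fin m → R2) | q.1 = q.2 j'}) = 0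
      have h3 : Prod.mk z ⁻¹' {q : R2 × (Fin m → R2) | q.1 = q.2 j'} =
          {y : Fin m → R2 | y j' = z} := by
        ext y
        simp [eq_comm]
      rw [h3]
      unfold Pn
      exact Measure.pi_hyperplane (fun _ : Fin m => P) j' z
    have h4 : ∀ᵐ q ∂(P.prod (Pn m)), q.1 ≠ q.2 j' := by
      rw [ae_iff]
      simpa using hnull
    unfold Pn at h4 ⊢
    have h5 := hmp.quasiMeasurePreserving.ae h4
    filter_upwards [h5] with x hx _
    exact hx
  filter_upwards [h1, h2] with x hx1 hx2
  refine ⟨hx1, fun i j hij => ?_⟩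
  by_contra hne
  exact hx2 i j hne hij

end Pool.Agent.N940.OT.Wd
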