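import Pool.Agent.N940.OT.Basic

/-!
# Existence of the limit variable (project OT)
-/

set_option autoImplicit false

open MeasureTheory Filter Topology Finset ProbabilityTheory
open scoped ENNReal NNReal

namespace Pool.Agent.N940.OT.Xi

instance : IsProbabilityMeasure Ga := by
  unfold Ga
  infer_instance

/-! ## The eigenvalues -/

/-- the terms of the series of the squares of the inverse eigenvalues -/
noncomputable def wt (k : Fq) : ℝ := if k = (0, 0) then (0 : ℝ) else 1 / lam k ^ 2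

theorem wt_nonneg (k : Fq) : 0 ≤ wt k := by
  unfold wt
  split_ifs
  · exact le_refl 0
  · positivity

theorem lam_ge {k : Fq} (hk : k ≠ (0, 0)) : ((k.1 : ℝ) + 1) * ((k.2 : ℝ) + 1) ≤ lam k := by
  have h1 : (1 : ℝ) ≤ (k.1 : ℝ) ^ 2 + (k.2 : ℝ) ^ 2 := by
    have h2 : 1 ≤ k.1 ^ 2 + k.2 ^ 2 := by
      by_contra hcon
      have h3 : k.1 ^ 2 + k.2 ^ 2 = 0 := by omega
      have h4 : k.1 ^ 2 = 0 ∧ k.2 ^ 2 = 0 := by constructor <;> omega
      apply hk
      have h5 : k.1 = 0 := by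
        rcases h4 with ⟨h4, -⟩
        exact pow_eq_zero_iff (two_ne_zero) |>.1 h4
      have h6 : k.2 = 0 := by
        rcases h4 with ⟨-, h4⟩
        exact pow_eq_zero_iff (two_ne_zero) |>.1 h4
      exact Prod.ext h5 h6
    exact_mod_cast h2
  have hpi : (9 : ℝ) ≤ Real.pi ^ 2 := by nlinarith [Real.pi_gt_three]
  unfold lam
  have h7 : ((k.1 : ℝ) + 1) * ((k.2 : ℝ) + 1) ≤ 9 * ((k.1 : ℝ) ^ 2 + (k.2 : ℝ) ^ 2) := by
    nlinarith [sq_nonneg ((k.1 : ℝ) - (k.2 : ℝ)), sq_nonneg ((k.1 : ℝ) - 1),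
      sq_nonneg ((k.2 : ℝ) - 1)]
  have h8 : 9 * ((k.1 : ℝ) ^ 2 + (k.2 : ℝ) ^ 2) ≤ Real.pi ^ 2 * ((k.1 : ℝ) ^ 2 + (k.2 : ℝ) ^ 2) :=
    mul_le_mul_of_nonneg_right hpi (by positivity)
  linarith

theorem summable_inv_sq_succ : Summable fun n : ℕ => 1 / ((n : ℝ) + 1) ^ 2 := by
  have h := (summable_nat_add_iff 1).2 (Real.summable_one_div_nat_pow.2 one_lt_two)
  refine h.congr fun n => ?_
  push_cast
  rfl

theorem summable_wt : Summable wt := by
  have h : Summable fun k : Fq => 1 / ((k.1 : ℝ) + 1) ^ 2 * (1 / ((k.2 : ℝ) + 1) ^ 2) :=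
    summable_inv_sq_succ.mul_of_nonneg summable_inv_sq_succ (fun n => by positivity)
      (fun n => by positivity)
  refine Summable.of_nonneg_of_le wt_nonneg (fun k => ?_) h
  unfold wt
  split_ifs with hk
  · positivity
  · have h1 := lam_ge hk
    rw [one_div_mul_one_div, ← mul_pow]
    apply one_div_le_one_div_of_le (by positivity)
    exact pow_le_pow_left₀ (by positivity) h1 2

theorem summable_lam : Summable (fun k : Fq => if k = (0,0) then (0 : ℝ) else 1 / lam k ^ 2) :=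
  summable_wt

theorem Bx_subset {K m : ℕ} (h : K ≤ m) : Bx K ⊆ Bx m := by
  unfold Bx
  apply erase_subset_erase
  exact product_subset_product (range_mono h) (range_mono h)

theorem mem_Bx_ne {K : ℕ} {k : Fq} (hk : k ∈ Bx K) : k ≠ (0, 0) := by
  unfold Bx at hk
  exact (mem_erase.1 hk).1

theorem sum_Bx_wt (K : ℕ) : ∑ k ∈ Bx K, wt k = ∑ k ∈ range K ×ˢ range K, wt k := by
  unfold Bx
  apply sum_erase
  simp [wt]

theorem tendsto_box : Tendsto (fun K : ℕ => range K ×ˢ range K) atTop atTop := by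
  apply tendsto_atTop_finset_of_monotone
  · intro a b hab
    exact product_subset_product (range_mono hab) (range_mono hab)
  · intro k
    refine ⟨max k.1 k.2 + 1, ?_⟩
    rw [mem_product, mem_range, mem_range]
    constructor <;> omega

theorem tendsto_sum_wt : Tendsto (fun K : ℕ => ∑ k ∈ Bx K, wt k) atTop (𝓝 (∑' k, wt k)) := by
  have h := (summable_wt.hasSum).comp tendsto_box
  refine h.congr fun K => ?_
  rw [sum_Bx_wt]
  rfl

theorem sum_Bx_le (K : ℕ) : ∑ k ∈ Bx K, wt k ≤ ∑' k, wt k :=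
  summable_wt.sum_le_tsum _ fun k _ => wt_nonneg k

/-! ## The gaussian variables -/

/-- the centred square of a coordinate -/
def Y (k : Fq) (g : Fq → ℝ) : ℝ := g k ^ 2 - 1

theorem measurable_Y (k : Fq) : Measurable (Y k) := by
  unfold Y
  fun_prop

theorem mp_eval (k : Fq) : MeasurePreserving (fun g : Fq → ℝ => g k) Ga (gaussianReal 0 1) :=
  measurePreserving_eval_infinitePi (fun _ : Fq => gaussianReal 0 1) k

theorem integrable_pow (n : ℕ) : Integrable (fun x : ℝ => x ^ n) (gaussianReal 0 1) := by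
  rcases Nat.eq_zero_or_pos n with rfl | hn
  · simp only [pow_zero]
    exact integrable_const 1
  have h := (memLp_id_gaussianReal (μ := 0) (v := 1) (n : ℝ≥0))
  have h2 : Integrable (fun x : ℝ => ‖id x‖ ^ n) (gaussianReal 0 1) := by
    apply MemLp.integrable_norm_pow _ hn.ne'
    simpa using h
  refine h2.mono' (by fun_prop) (Eventually.of_forall fun x => ?_)
  rw [norm_pow]
  rfl

theorem integral_sq_gaussian : ∫ x, x ^ 2 ∂gaussianReal 0 1 = 1 := by
  have h := variance_fun_id_gaussianReal (μ := 0) (v := 1)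
  have h2 : MemLp (fun x : ℝ => x) 2 (gaussianReal 0 1) := by
    have := memLp_id_gaussianReal (μ := 0) (v := 1) 2
    exact_mod_cast this
  rw [variance_eq_sub h2, integral_id_gaussianReal] at h
  simpa using h

/-- the second moment of the centred square of a gaussian variable -/
noncomputable def cc : ℝ := ∫ x, (x ^ 2 - 1) ^ 2 ∂gaussianReal 0 1

theorem cc_nonneg : 0 ≤ cc := integral_nonneg fun x => sq_nonneg _

theorem memLp_Y (k : Fq) : MemLp (Y k) 2 Ga := by
  rw [memLp_two_iff_integrable_sq (measurable_Y k).aestronglyMeasurable]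
  have h1 : Integrable (fun x : ℝ => (x ^ 2 - 1) ^ 2) (gaussianReal 0 1) := by
    have h := ((integrable_pow 4).sub ((integrable_pow 2).const_mul 2)).add (integrable_pow 0)
    refine h.congr (Eventually.of_forall fun x => ?_)
    simp only [Pi.add_apply, Pi.sub_apply]
    ring
  exact (mp_eval k).integrable_comp_of_integrable h1

theorem integral_Y (k : Fq) : ∫ g, Y k g ∂Ga = 0 := by
  have h1 : ∫ g, Y k g ∂Ga = ∫ x, (x ^ 2 - 1) ∂gaussianReal 0 1 := by
    rw [← (mp_eval k).map_eq, integral_map (mp_eval k).measurable.aemeasurable]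
    · rfl
    · fun_prop
  rw [h1, integral_sub (integrable_pow 2) (integrable_const 1), integral_sq_gaussian]
  simp

theorem integral_Y_sq (k : Fq) : ∫ g, Y k g * Y k g ∂Ga = cc := by
  unfold cc
  rw [← (mp_eval k).map_eq, integral_map (mp_eval k).measurable.aemeasurable]
  · apply integral_congr_ae
    filter_upwards with g
    unfold Y
    ring
  · fun_prop

theorem integral_Y_mul {k l : Fq} (hkl : k ≠ l) : ∫ g, Y k g * Y l g ∂Ga = 0 := by
  have h0 : iIndepFun (fun (i : Fq) (g : Fq → ℝ) => (fun x : ℝ => x ^ 2 - 1) (g i)) Ga :=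
    iIndepFun_infinitePi (P := fun _ : Fq => gaussianReal 0 1)
      (X := fun (_ : Fq) (x : ℝ) => x ^ 2 - 1) (fun i => by fun_prop)
  have h1 : IndepFun (Y k) (Y l) Ga := h0.indepFun hkl
  rw [h1.integral_fun_mul_eq_mul_integral (measurable_Y k).aestronglyMeasurable
    (measurable_Y l).aestronglyMeasurable, integral_Y, zero_mul]

theorem integrable_Y_mul (k l : Fq) : Integrable (fun g => Y k g * Y l g) Ga :=
  (memLp_Y k).integrable_mul (memLp_Y l)

/-- orthogonality -/
theorem integral_sum_sq (s : Finset Fq) (a : Fq → ℝ) :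
    ∫ g, (∑ k ∈ s, a k * Y k g) ^ 2 ∂Ga = cc * ∑ k ∈ s, a k ^ 2 := by
  have h1 : ∀ g, (∑ k ∈ s, a k * Y k g) ^ 2 =
      ∑ k ∈ s, ∑ l ∈ s, a k * a l * (Y k g * Y l g) := by
    intro g
    rw [pow_two, sum_mul_sum]
    apply sum_congr rfl
    intro k _
    apply sum_congr rfl
    intro l _
    ring
  simp_rw [h1]
  rw [integral_finset_sum _ fun k _ => integrable_finset_sum _ fun l _ =>
    (integrable_Y_mul k l).const_mul _, mul_sum]
  apply sum_congr rfl
  intro k hk
  rw [integral_finset_sum _ fun l _ => (integrable_Y_mul k l).const_mul _]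
  rw [sum_eq_single k]
  · rw [integral_const_mul, integral_Y_sq]
    ring
  · intro l _ hlk
    rw [integral_const_mul, integral_Y_mul hlk.symm, mul_zero]
  · intro h
    exact absurd hk h

theorem Xi_eq (K : ℕ) (g : Fq → ℝ) : Xi K g = ∑ k ∈ Bx K, 1 / lam k * Y k g := by
  unfold Xi Y
  apply sum_congr rfl
  intro k _
  ring

theorem memLp_Xi (K : ℕ) : MemLp (Xi K) 2 Ga := by
  have h : Xi K = fun g => ∑ k ∈ Bx K, 1 / lam k * Y k g := funext fun g => Xi_eq K g
  rw [h]
  exact memLp_finset_sum _ fun k _ => (memLp_Y k).const_mul _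

theorem integral_Xi (K : ℕ) : ∫ g, Xi K g ∂Ga = 0 := by
  simp_rw [Xi_eq]
  rw [integral_finset_sum _ fun k _ => ((memLp_Y k).integrable one_le_two).const_mul _]
  apply sum_eq_zero
  intro k _
  rw [integral_const_mul, integral_Y, mul_zero]

theorem integral_Xi_sub {K m : ℕ} (h : K ≤ m) :
    ∫ g, (Xi m g - Xi K g) ^ 2 ∂Ga = cc * (∑ k ∈ Bx m, wt k - ∑ k ∈ Bx K, wt k) := by
  have h1 : ∀ g, Xi m g - Xi K g = ∑ k ∈ Bx m \ Bx K, 1 / lam k * Y k g := by
    intro g
    rw [Xi_eq, Xi_eq, ← sum_sdiff (Bx_subset h)]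
    ring
  simp_rw [h1]
  rw [integral_sum_sq]
  congr 1
  rw [← sum_sdiff (Bx_subset h)]
  rw [add_sub_cancel_right]
  apply sum_congr rfl
  intro k hk
  unfold wt
  rw [if_neg (mem_Bx_ne (mem_sdiff.1 hk).1)]
  ring

/-- squares of distances in `L2` -/
theorem norm_sub_sq (f h : (Fq → ℝ) → ℝ) (hf : MemLp f 2 Ga) (hh : MemLp h 2 Ga) :
    ‖hf.toLp f - hh.toLp h‖ ^ 2 = ∫ g, (f g - h g) ^ 2 ∂Ga := by
  rw [← MemLp.toLp_sub, ← real_inner_self_eq_norm_sq, L2.inner_def]
  apply integral_congr_ae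
  filter_upwards [(hf.sub hh).coeFn_toLp] with g hg
  rw [hg]
  simp only [Pi.sub_apply, RCLike.inner_apply, conj_trivial]
  ring

theorem main : S_XI := by
  set u : ℕ → Lp ℝ 2 Ga := fun K => (memLp_Xi K).toLp (Xi K) with hu
  set b : ℕ → ℝ := fun K => Real.sqrt (cc * (∑' k, wt k - ∑ k ∈ Bx K, wt k)) with hb
  have hb0 : Tendsto b atTop (𝓝 0) := by
    have h1 : Tendsto (fun K : ℕ => cc * (∑' k, wt k - ∑ k ∈ Bx K, wt k)) atTop
        (𝓝 (cc * (∑' k, wt k - ∑' k, wt k))) :=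
      (tendsto_sum_wt.const_sub _).const_mul _
    rw [sub_self, mul_zero] at h1
    have h2 := h1.sqrt
    rwa [Real.sqrt_zero] at h2
  have hc : CauchySeq u := by
    apply cauchySeq_of_le_tendsto_0' b _ hb0
    intro n m hnm
    rw [dist_comm, dist_eq_norm]
    apply Real.le_sqrt_of_sq_le
    rw [hu]
    simp only
    rw [norm_sub_sq, integral_Xi_sub hnm]
    apply mul_le_mul_of_nonneg_left _ cc_nonneg
    linarith [sum_Bx_le m]
  obtain ⟨v, hv⟩ := cauchySeq_tendsto_of_complete hc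
  have hvm : MemLp (v : (Fq → ℝ) → ℝ) 2 Ga := Lp.memLp v
  have hlim : Tendsto (fun K : ℕ => ∫ g, (Xi K g - v g) ^ 2 ∂Ga) atTop (𝓝 0) := by
    have h1 : Tendsto (fun K : ℕ => ‖u K - v‖ ^ 2) atTop (𝓝 0) := by
      have h2 := (tendsto_iff_norm_sub_tendsto_zero.1 hv).pow 2
      simpa using h2
    refine h1.congr fun K => ?_
    have h3 : v = hvm.toLp v := (Lp.toLp_coeFn v hvm).symm
    conv_lhs => rw [h3]
    rw [hu]
    simp only
    rw [norm_sub_sq]
  refine ⟨v, (Lp.stronglyMeasurable v).measurable, hvm, ?_, hlim⟩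
  have hmean : ∀ K, (∫ g, v g ∂Ga) ^ 2 ≤ ∫ g, (Xi K g - v g) ^ 2 ∂Ga := by
    intro K
    have h1 : MemLp (fun g => Xi K g - v g) 2 Ga := (memLp_Xi K).sub hvm
    have h2 := variance_nonneg (fun g => Xi K g - v g) Ga
    rw [variance_eq_sub h1] at h2
    have h3 : ∫ g, (Xi K g - v g) ∂Ga = - ∫ g, v g ∂Ga := by
      rw [integral_sub ((memLp_Xi K).integrable one_le_two) (hvm.integrable one_le_two),
        integral_Xi, zero_sub]
    rw [h3] at h2
    have h4 : ∫ g, ((fun g => Xi K g - v g) ^ 2) g ∂Ga = ∫ g, (Xi K g - v g) ^ 2 ∂Ga := rfl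
    rw [h4] at h2
    linarith [h2, neg_sq (∫ g, v g ∂Ga)]
  have h0 : (∫ g, v g ∂Ga) ^ 2 ≤ 0 := ge_of_tendsto' hlim hmean
  exact pow_eq_zero_iff two_ne_zero |>.1 (le_antisymm h0 (sq_nonneg _))

end Pool.Agent.N940.OT.Xi
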