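import Pool.Agent.N940.OT.Basic

/-!
# Second and fourth moments of the Fourier coefficients (helper946)
-/

set_option autoImplicit false

open MeasureTheory Filter Topology Finset ProbabilityTheory
open scoped ENNReal NNReal

namespace Pool.Agent.N940.OT.Zm

theorem int_bdd {α : Type*} [MeasurableSpace α] {μ : Measure α} [IsFiniteMeasure μ] {g : α → ℝ}
    (hg : Measurable g) (C : ℝ) (h : ∀ x, |g x| ≤ C) : Integrable g μ :=
  Integrable.of_bound hg.aestronglyMeasurable C (ae_of_all _ h)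

/-- the sum -/
def SS (f : R2 → ℝ) (n : ℕ) (x : Fin n → R2) : ℝ := ∑ i, f (x i)

theorem meas_SS {f : R2 → ℝ} (hf : Measurable f) (n : ℕ) : Measurable (SS f n) := by
  unfold SS
  exact Finset.measurable_sum _ fun i _ => hf.comp (measurable_pi_apply i)

theorem bdd_SS {f : R2 → ℝ} (hb : ∀ z, |f z| ≤ 2) (n : ℕ) (x : Fin n → R2) :
    |SS f n x| ≤ 2 * n := by
  unfold SS
  refine (abs_sum_le_sum_abs _ _).trans ((sum_le_sum fun i _ => hb (x i)).trans (le_of_eq ?_))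
  rw [sum_const, card_univ, Fintype.card_fin, nsmul_eq_mul]
  ring

theorem succ_int (f : R2 → ℝ) (n m : ℕ) :
    ∫ x, SS f (n + 1) x ^ m ∂Pn (n + 1) = ∫ p, (f p.1 + SS f n p.2) ^ m ∂(P.prod (Pn n)) := by
  have h := measurePreserving_piFinSuccAbove (fun _ : Fin (n + 1) => P) 0
  have h2 := h.integral_comp' (g := fun p : R2 × (Fin n → R2) => (f p.1 + SS f n p.2) ^ m)
  unfold Pn
  rw [← h2]
  congr 1
  ext x
  congr 1
  unfold SS
  rw [Fin.sum_univ_succ]
  rfl

theorem int_mul (u : R2 → ℝ) {n : ℕ} (v : (Fin n → R2) → ℝ) :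
    ∫ p, u p.1 * v p.2 ∂(P.prod (Pn n)) = (∫ z, u z ∂P) * ∫ y, v y ∂Pn n :=
  integral_prod_mul u v

variable {f : R2 → ℝ}

theorem int_pow (hf : Measurable f) (hb : ∀ z, |f z| ≤ 2) (a : ℕ) : Integrable (fun z => f z ^ a) P :=
  int_bdd (hf.pow_const a) (2 ^ a) fun z => by
    rw [abs_pow]
    exact pow_le_pow_left₀ (abs_nonneg _) (hb z) a

theorem int_SS_pow (hf : Measurable f) (hb : ∀ z, |f z| ≤ 2) (n a : ℕ) :
    Integrable (fun x => SS f n x ^ a) (Pn n) :=
  int_bdd ((meas_SS hf n).pow_const a) ((2 * n) ^ a) fun x => by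
    rw [abs_pow]
    exact pow_le_pow_left₀ (abs_nonneg _) (bdd_SS hb n x) a

theorem int_prod' (hf : Measurable f) (hb : ∀ z, |f z| ≤ 2) (n a b : ℕ) :
    Integrable (fun p : R2 × (Fin n → R2) => f p.1 ^ a * SS f n p.2 ^ b) (P.prod (Pn n)) :=
  (int_pow hf hb a).mul_prod (int_SS_pow hf hb n b)

theorem binom (hf : Measurable f) (hb : ∀ z, |f z| ≤ 2) (n m : ℕ) :
    ∫ x, SS f (n + 1) x ^ m ∂Pn (n + 1) = ∑ j ∈ range (m + 1),
      ((∫ z, f z ^ j ∂P) * ∫ y, SS f n y ^ (m - j) ∂Pn n) * (m.choose j : ℝ) := by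
  rw [succ_int f n m]
  have e : (fun p : R2 × (Fin n → R2) => (f p.1 + SS f n p.2) ^ m) =
      fun p => ∑ j ∈ range (m + 1), f p.1 ^ j * SS f n p.2 ^ (m - j) * (m.choose j : ℝ) := by
    ext p
    rw [add_pow]
  rw [e, integral_finsetSum _ fun j _ => (int_prod' hf hb n j (m - j)).mul_const _]
  refine sum_congr rfl fun j _ => ?_
  rw [integral_mul_const, int_mul (fun z => f z ^ j) (fun y => SS f n y ^ (m - j))]

theorem mom1 (hf : Measurable f) (hb : ∀ z, |f z| ≤ 2) (h0 : ∫ z, f z ∂P = 0) (n : ℕ) :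
    ∫ x, SS f n x ∂Pn n = 0 := by
  induction n with
  | zero =>
    unfold SS
    simp
  | succ n ih =>
    have h := binom hf hb n 1
    simp only [sum_range_succ, range_zero, sum_empty] at h
    simpa [h0, ih] using h

theorem mom2 (hf : Measurable f) (hb : ∀ z, |f z| ≤ 2) (h0 : ∫ z, f z ∂P = 0)
    (h2 : ∫ z, f z ^ 2 ∂P = 1) (n : ℕ) : ∫ x, SS f n x ^ 2 ∂Pn n = n := by
  induction n with
  | zero =>
    unfold SS
    simp
  | succ n ih =>
    have h := binom hf hb n 2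
    simp only [sum_range_succ, range_zero, sum_empty] at h
    simpa [h0, ih, h2] using h

theorem mom4 (hf : Measurable f) (hb : ∀ z, |f z| ≤ 2) (h0 : ∫ z, f z ∂P = 0)
    (h2 : ∫ z, f z ^ 2 ∂P = 1) (n : ℕ) : ∫ x, SS f n x ^ 4 ∂Pn n ≤ 7 * (n : ℝ) ^ 2 := by
  have h4 : ∫ z, f z ^ 4 ∂P ≤ 4 := by
    calc ∫ z, f z ^ 4 ∂P ≤ ∫ z, 4 * f z ^ 2 ∂P := by
          apply integral_mono (int_pow hf hb 4) ((int_pow hf hb 2).const_mul 4)
          intro z
          have h := abs_le.1 (hb z)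
          have h3 : f z ^ 2 ≤ 4 := by nlinarith
          simp only
          nlinarith [sq_nonneg (f z)]
      _ = 4 := by rw [integral_const_mul, h2, mul_one]
  induction n with
  | zero =>
    unfold SS
    simp
  | succ n ih =>
    have h := binom hf hb n 4
    have c2 : Nat.choose 4 2 = 6 := rfl
    simp only [sum_range_succ, range_zero, sum_empty] at h
    simp [h0, mom1 hf hb h0 n, mom2 hf hb h0 h2 n, h2, c2] at h
    rw [h]
    push_cast
    have hn : (0 : ℝ) ≤ n := Nat.cast_nonneg n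
    nlinarith

theorem ee_zero (z : R2) : ee (0, 0) z = 1 := by
  simp [ee, e1, cn_zero]

theorem int_ee (hO : S_ON) {k : Fq} (hk : k ≠ (0, 0)) : ∫ z, ee k z ∂P = 0 := by
  have h := hO.2 k (0, 0) hk
  simpa [ee_zero] using h

theorem Z_eq (n : ℕ) (x : Fin n → R2) (k : Fq) : Z n x k = SS (ee k) n x / Real.sqrt n := rfl

theorem Z_pow2 {n : ℕ} (x : Fin n → R2) (k : Fq) :
    Z n x k ^ 2 = SS (ee k) n x ^ 2 / n := by
  rw [Z_eq, div_pow, Real.sq_sqrt (Nat.cast_nonneg n)]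

theorem z2 (hO : S_ON) : S_Z2 := by
  intro n k hn hk
  have hn0 : (n : ℝ) ≠ 0 := by positivity
  have hm := (continuous_ee k).measurable
  have he : (fun x => Z n x k ^ 2) = fun x => SS (ee k) n x ^ 2 / n := funext fun x => Z_pow2 x k
  rw [he]
  refine ⟨(int_SS_pow hm (abs_ee_le k) n 2).div_const _, ?_⟩
  rw [integral_div, mom2 hm (abs_ee_le k) (int_ee hO hk) (hO.1 k) n, div_self hn0]

theorem z4 (hO : S_ON) : S_Z4 := by
  intro K
  refine ⟨(Bx K).card * (∑ k ∈ Bx K, 7), fun n hn => ?_⟩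
  have hn0 : (0 : ℝ) < n := by positivity
  have hint : ∀ k : Fq, Integrable (fun x => Z n x k ^ 4) (Pn n) := by
    intro k
    have hm := (continuous_ee k).measurable
    have he : (fun x => Z n x k ^ 4) = fun x => SS (ee k) n x ^ 4 / (n : ℝ) ^ 2 := by
      ext x
      rw [show Z n x k ^ 4 = (Z n x k ^ 2) ^ 2 by ring, Z_pow2]
      ring
    rw [he]
    exact (int_SS_pow hm (abs_ee_le k) n 4).div_const _
  have hk : ∀ k ∈ Bx K, ∫ x, Z n x k ^ 4 ∂Pn n ≤ 7 := by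
    intro k hk
    have hk0 := ne_of_mem_Bx hk
    have hm := (continuous_ee k).measurable
    have he : (fun x => Z n x k ^ 4) = fun x => SS (ee k) n x ^ 4 / (n : ℝ) ^ 2 := by
      ext x
      rw [show Z n x k ^ 4 = (Z n x k ^ 2) ^ 2 by ring, Z_pow2]
      ring
    rw [he, integral_div, div_le_iff₀ (by positivity)]
    exact mom4 hm (abs_ee_le k) (int_ee hO hk0) (hO.1 k) n
  have hZ2 : ∀ k x, Z n x k ^ 2 ≤ 4 * n := by
    intro k x
    have h := abs_Z_le n x k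
    have h1 : Z n x k ^ 2 = |Z n x k| ^ 2 := (sq_abs _).symm
    rw [h1]
    calc |Z n x k| ^ 2 ≤ (2 * Real.sqrt n) ^ 2 := pow_le_pow_left₀ (abs_nonneg _) h 2
      _ = 4 * n := by rw [mul_pow, Real.sq_sqrt hn0.le]; norm_num
  have hL : Integrable (fun x => (∑ k ∈ Bx K, Z n x k ^ 2) ^ 2) (Pn n) := by
    refine int_bdd ?_ ((∑ k ∈ Bx K, 4 * (n : ℝ)) ^ 2) fun x => ?_
    · have := fun k => (continuous_Z n k).measurable
      fun_prop
    · rw [abs_pow, abs_of_nonneg (sum_nonneg fun _ _ => sq_nonneg _)]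
      exact pow_le_pow_left₀ (sum_nonneg fun _ _ => sq_nonneg _) (sum_le_sum fun k _ => hZ2 k x) 2
  calc ∫ x, (∑ k ∈ Bx K, Z n x k ^ 2) ^ 2 ∂Pn n
      ≤ ∫ x, ((Bx K).card : ℝ) * ∑ k ∈ Bx K, Z n x k ^ 4 ∂Pn n := by
        refine integral_mono hL ((integrable_finsetSum _ fun k _ => hint k).const_mul _) fun x => ?_
        have h := sq_sum_le_card_mul_sum_sq (s := Bx K) (f := fun k => Z n x k ^ 2)
        refine h.trans (le_of_eq ?_)
        congr 1
        exact sum_congr rfl fun k _ => by ring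
    _ = ((Bx K).card : ℝ) * ∑ k ∈ Bx K, ∫ x, Z n x k ^ 4 ∂Pn n := by
        rw [integral_const_mul, integral_finsetSum _ fun k _ => hint k]
    _ ≤ (Bx K).card * (∑ k ∈ Bx K, 7) :=
        mul_le_mul_of_nonneg_left (sum_le_sum hk) (Nat.cast_nonneg _)

end Pool.Agent.N940.OT.Zm
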