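import Pool.Agent.N940.OT.Sd
import Pool.Agent.N940.OT.Wd
import Pool.Agent.N140.OT.Meas
import Pool.Agent.N940.OT.Ext
import Pool.Agent.N940.OT.Dsp
import Pool.Agent.N940.OT.Ibp
import Pool.Agent.N940.OT.Potm
import Pool.Agent.N940.OT.Mode
import Pool.Agent.N940.OT.On
import Pool.Agent.N940.OT.Cmp
import Pool.Agent.N940.OT.Pars
import Pool.Agent.N940.OT.Fou
import Pool.Agent.N940.OT.Det
import Pool.Agent.N940.OT.Es
import Pool.Agent.N940.OT.Zm
import Pool.Agent.N940.OT.Step
import Pool.Agent.N940.OT.Dy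
import Pool.Agent.N940.OT.Sm
import Pool.Agent.N940.OT.Clt
import Pool.Agent.N940.OT.Xi
import Pool.Agent.N940.OT.Var
import Pool.Agent.N940.OT.T2
import Pool.Agent.N940.OT.App
import Pool.Agent.N940.OT.Last

/-!
# Assembly of the project OT
-/

set_option autoImplicit false

open MeasureTheory Filter Topology Finset ProbabilityTheory
open scoped ENNReal NNReal

namespace Pool.Agent.N940.OT.Main

theorem meas : S_MEAS := Pool.Agent.N140.OT.Meas.main Sd.main Wd.wd Wd.up

theorem pot : S_POT := Potm.main Sd.main Wd.wd Wd.up Ext.main Dsp.main Ibp.main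

theorem det : S_DET := Det.main (Fou.main Mode.main (Pars.main On.on On.bg Cmp.main))

theorem var : S_VAR := Var.main pot Wd.wd meas Wd.ae Es.main (Zm.z2 On.on) det

theorem t2 : S_T2 := T2.main (Dy.main Step.main) Sm.main Wd.ae meas

theorem app : S_APP :=
  App.main var (Zm.z2 On.on) (Zm.z4 On.on) t2 Wd.ae meas Xi.summable_lam

/-- the convergence in law of the fluctuations -/
theorem final.{u} :
    ∃ ξ : (Fq → ℝ) → ℝ, Measurable ξ ∧ MemLp ξ 2 Ga ∧ ∫ g, ξ g ∂Ga = 0 ∧
      Tendsto (fun K : ℕ => ∫ g, (Xi K g - ξ g) ^ 2 ∂Ga) atTop (𝓝 0) ∧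
      ∀ (Ω : Type u) [MeasurableSpace Ω] (μ : Measure Ω) [IsProbabilityMeasure μ]
        (X : ℕ → Ω → R2), (∀ i, Measurable (X i)) → (∀ i, μ.map (X i) = P) → iIndepFun X μ →
        TendstoInDistribution (fun (n : ℕ) ω =>
          (n : ℝ) * (T n (fun i => X i ω) - ∫ ω', T n (fun i => X i ω') ∂μ)) atTop ξ
          (fun _ => μ) Ga :=
  Last.main app (Clt.main On.on) meas Wd.ae Xi.main

end Pool.Agent.N940.OT.Main
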