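import Pool.Agent.N940.OT.Basic

/-!
# Existence of an optimal partition into cells (semidiscrete optimal transport)
-/

set_option autoImplicit false

open MeasureTheory Filter Topology Finset
open scoped ENNReal NNReal

namespace Pool.Agent.N940.OT.Sd

variable {n : ℕ}

/-- the weighted cost of the index `i` at the point `z` -/
def cc (x : Fin n → R2) (w : Fin n → ℝ) (i : Fin n) (z : R2) : ℝ := sq z (x i) - w i

/-- the least weighted cost -/
noncomputable def mw [NeZero n] (x : Fin n → R2) (w : Fin n → ℝ) (z : R2) : ℝ :=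
  univ.inf' univ_nonempty fun i => cc x w i z

/-- the dual functional -/
noncomputable def DD [NeZero n] (x : Fin n → R2) (w : Fin n → ℝ) : ℝ :=
  ∫ z, mw x w z ∂P + (∑ i, w i) / n

theorem mw_le [NeZero n] (x : Fin n → R2) (w : Fin n → ℝ) (z : R2) (i : Fin n) :
    mw x w z ≤ cc x w i z := by
  unfold mw
  exact Finset.inf'_le _ (mem_univ i)

theorem le_mw [NeZero n] {x : Fin n → R2} {w : Fin n → ℝ} {z : R2} {a : ℝ}
    (h : ∀ i, a ≤ cc x w i z) : a ≤ mw x w z := by
  unfold mw
  exact Finset.le_inf' _ _ fun i _ => h i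

theorem exists_mw [NeZero n] (x : Fin n → R2) (w : Fin n → ℝ) (z : R2) :
    ∃ i, mw x w z = cc x w i z := by
  unfold mw
  obtain ⟨i, -, hi⟩ := Finset.exists_mem_eq_inf' (univ_nonempty (α := Fin n))
    (fun i => cc x w i z)
  exact ⟨i, hi⟩

theorem continuous_cc (x : Fin n → R2) (i : Fin n) :
    Continuous fun p : (Fin n → ℝ) × R2 => cc x p.1 i p.2 := by
  unfold cc sq
  fun_prop

theorem continuous_cc' (x : Fin n → R2) (w : Fin n → ℝ) (i : Fin n) :
    Continuous (cc x w i) := by
  unfold cc sq
  fun_prop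

theorem continuous_mw [NeZero n] (x : Fin n → R2) :
    Continuous fun p : (Fin n → ℝ) × R2 => mw x p.1 p.2 := by
  unfold mw
  exact Continuous.finset_inf'_apply _ fun i _ => continuous_cc x i

theorem continuous_mw' [NeZero n] (x : Fin n → R2) (w : Fin n → ℝ) :
    Continuous (mw x w) :=
  (continuous_mw x).comp (Continuous.prodMk continuous_const continuous_id)

theorem integrable_of_continuous {f : R2 → ℝ} (hf : Continuous f) : Integrable f P := by
  unfold P
  exact hf.continuousOn.integrableOn_compact isCompact_Om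

theorem continuous_DD [NeZero n] (x : Fin n → R2) : Continuous (DD x) := by
  unfold DD
  apply Continuous.add
  · unfold P
    exact continuous_parametric_integral_of_continuous (continuous_mw x) isCompact_Om
  · fun_prop

theorem DD_shift [NeZero n] (x : Fin n → R2) (w : Fin n → ℝ) (c : ℝ) :
    DD x (fun i => w i + c) = DD x w := by
  have hn : (n : ℝ) ≠ 0 := Nat.cast_ne_zero.2 (NeZero.ne n)
  have h1 : ∀ z, mw x (fun i => w i + c) z = mw x w z - c := by
    intro z
    apply le_antisymm
    · obtain ⟨i, hi⟩ := exists_mw x w z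
      rw [hi]
      refine (mw_le x _ z i).trans (le_of_eq ?_)
      unfold cc
      ring
    · apply le_mw
      intro i
      have := mw_le x w z i
      unfold cc at this ⊢
      linarith
  unfold DD
  simp_rw [h1]
  rw [integral_sub (integrable_of_continuous (continuous_mw' x w)) (integrable_const c),
    integral_const, sum_add_distrib, sum_const, card_univ, Fintype.card_fin, nsmul_eq_mul,
    add_div, mul_div_cancel_left₀ _ hn]
  simp

theorem DD_zero [NeZero n] (x : Fin n → R2) : 0 ≤ DD x 0 := by
  unfold DD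
  have h : 0 ≤ ∫ z, mw x 0 z ∂P := by
    apply integral_nonneg
    intro z
    apply le_mw
    intro i
    unfold cc
    have := sq_nonneg' z (x i)
    simpa using this
  simpa using h

theorem DD_le [NeZero n] (x : Fin n → R2) (hx : ∀ i, x i ∈ Om) (w : Fin n → ℝ)
    (hw : ∀ i, w i ≤ 0) (i0 : Fin n) (h0 : w i0 = 0) (j : Fin n) :
    DD x w ≤ 2 + w j / n := by
  unfold DD
  apply add_le_add
  · have h1 : ∫ z, mw x w z ∂P ≤ ∫ z, (2 : ℝ) ∂P := by
      apply integral_mono_ae (integrable_of_continuous (continuous_mw' x w)) (integrable_const _)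
      filter_upwards [ae_Om] with z hz
      refine (mw_le x w z i0).trans ?_
      unfold cc
      rw [h0, sub_zero]
      exact sq_le_two hz (hx i0)
    refine h1.trans (le_of_eq ?_)
    simp
  · apply div_le_div_of_nonneg_right _ (Nat.cast_nonneg n)
    rw [← Finset.add_sum_erase univ w (mem_univ j)]
    have : ∑ i ∈ univ.erase j, w i ≤ 0 := Finset.sum_nonpos fun i _ => hw i
    linarith

theorem exists_max [NeZero n] (x : Fin n → R2) (hx : ∀ i, x i ∈ Om) :
    ∃ w : Fin n → ℝ, ∀ w', DD x w' ≤ DD x w := by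
  have hn : (0 : ℝ) < n := Nat.cast_pos.2 (Nat.pos_of_ne_zero (NeZero.ne n))
  have hcomp : IsCompact (Set.Icc (fun _ : Fin n => (-2 * n : ℝ)) (fun _ => 0)) := isCompact_Icc
  have hne : (0 : Fin n → ℝ) ∈ Set.Icc (fun _ : Fin n => (-2 * n : ℝ)) (fun _ => 0) := by
    refine ⟨fun i => ?_, fun i => le_rfl⟩
    simp
  obtain ⟨w, hw, hmax⟩ := hcomp.exists_isMaxOn ⟨0, hne⟩ (continuous_DD x).continuousOn
  refine ⟨w, fun w' => ?_⟩
  obtain ⟨i0, -, hi0⟩ := Finset.exists_max_image (univ : Finset (Fin n)) w' univ_nonempty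
  have h1 := DD_shift x w' (-w' i0)
  rw [← h1]
  by_cases h : ∀ i, -2 * (n : ℝ) ≤ w' i + -w' i0
  · apply hmax
    refine ⟨fun i => h i, fun i => ?_⟩
    have := hi0 i (mem_univ i)
    show w' i + -w' i0 ≤ 0
    linarith
  · push Not at h
    obtain ⟨j, hj⟩ := h
    have h2 := DD_le x hx (fun i => w' i + -w' i0) (fun i => by
      have := hi0 i (mem_univ i)
      show w' i + -w' i0 ≤ 0
      linarith) i0 (by show w' i0 + -w' i0 = 0; ring) j
    have h3 : (w' j + -w' i0) / n < -2 := by
      rw [div_lt_iff₀ hn]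
      exact hj
    have h4 := hmax hne
    have h5 := DD_zero x
    have h6 : DD x (fun i => w' i + -w' i0) ≤ 2 + (w' j + -w' i0) / n := h2
    have h7 : DD x 0 ≤ DD x w := h4
    linarith

/-- the points at which the index `j` is almost optimal -/
def BB (x : Fin n → R2) (w : Fin n → ℝ) (j : Fin n) (t : ℝ) : Set R2 :=
  {z | ∀ i, i ≠ j → cc x w j z - t < cc x w i z}

/-- the points at which the index `j` is optimal -/
def AA (x : Fin n → R2) (w : Fin n → ℝ) (j : Fin n) : Set R2 :=
  {z | ∀ i, cc x w j z ≤ cc x w i z}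

theorem measurableSet_BB (x : Fin n → R2) (w : Fin n → ℝ) (j : Fin n) (t : ℝ) :
    MeasurableSet (BB x w j t) := by
  have : BB x w j t = ⋂ i, ⋂ (_ : i ≠ j), {z | cc x w j z - t < cc x w i z} := by
    ext z
    simp [BB]
  rw [this]
  refine MeasurableSet.iInter fun i => MeasurableSet.iInter fun _ => ?_
  exact measurableSet_lt ((continuous_cc' x w j).measurable.sub_const t)
    (continuous_cc' x w i).measurable

theorem measurableSet_AA (x : Fin n → R2) (w : Fin n → ℝ) (j : Fin n) :
    MeasurableSet (AA x w j) := by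
  have : AA x w j = ⋂ i, {z | cc x w j z ≤ cc x w i z} := by
    ext z
    simp [AA]
  rw [this]
  refine MeasurableSet.iInter fun i => ?_
  exact measurableSet_le (continuous_cc' x w j).measurable (continuous_cc' x w i).measurable

theorem BB_ge [NeZero n] (x : Fin n → R2) (w : Fin n → ℝ) (hmax : ∀ w', DD x w' ≤ DD x w)
    (j : Fin n) {t : ℝ} (ht : 0 < t) : 1 / (n : ℝ) ≤ P.real (BB x w j t) := by
  have h0 := hmax (Function.update w j (w j + t))
  have hsum : ∑ i, Function.update w j (w j + t) i = (∑ i, w i) + t := by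
    rw [Finset.sum_update_of_mem (mem_univ j), ← Finset.add_sum_erase univ w (mem_univ j),
      Finset.sdiff_singleton_eq_erase]
    ring
  have hpt : ∀ z, mw x w z - (BB x w j t).indicator (fun _ => t) z ≤
      mw x (Function.update w j (w j + t)) z := by
    intro z
    apply le_mw
    intro i
    by_cases hz : z ∈ BB x w j t
    · rw [Set.indicator_of_mem hz]
      have h1 := mw_le x w z i
      by_cases hij : i = j
      · subst hij
        unfold cc at h1 ⊢
        rw [Function.update_self]
        linarith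
      · unfold cc at h1 ⊢
        rw [Function.update_of_ne hij]
        linarith
    · rw [Set.indicator_of_notMem hz, sub_zero]
      by_cases hij : i = j
      · subst hij
        have hz' : ∃ k, k ≠ i ∧ cc x w k z ≤ cc x w i z - t := by
          by_contra hcon
          push Not at hcon
          exact hz hcon
        obtain ⟨k, -, hk⟩ := hz'
        have h1 := mw_le x w z k
        unfold cc at h1 hk ⊢
        rw [Function.update_self]
        linarith
      · have h1 := mw_le x w z i
        unfold cc at h1 ⊢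
        rw [Function.update_of_ne hij]
        exact h1
  have hint : Integrable ((BB x w j t).indicator (fun _ => t)) P :=
    (integrable_const t).indicator (measurableSet_BB x w j t)
  have h1 : ∫ z, mw x w z ∂P - P.real (BB x w j t) * t ≤
      ∫ z, mw x (Function.update w j (w j + t)) z ∂P := by
    have h2 := integral_mono ((integrable_of_continuous (continuous_mw' x w)).sub hint)
      (integrable_of_continuous (continuous_mw' x (Function.update w j (w j + t)))) hpt
    have h3 : ∫ z, (mw x w - (BB x w j t).indicator (fun _ => t)) z ∂P =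
        ∫ z, mw x w z ∂P - P.real (BB x w j t) * t := by
      have h4 := integral_sub (integrable_of_continuous (continuous_mw' x w)) hint
      rw [integral_indicator_const _ (measurableSet_BB x w j t), smul_eq_mul] at h4
      exact h4
    rw [h3] at h2
    exact h2
  unfold DD at h0
  rw [hsum, add_div] at h0
  have h5 : t / n ≤ P.real (BB x w j t) * t := by linarith
  have h6 : 1 / (n : ℝ) * t ≤ P.real (BB x w j t) * t := by
    rw [one_div, inv_mul_eq_div]
    exact h5
  exact le_of_mul_le_mul_right h6 ht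

theorem AA_ge [NeZero n] (x : Fin n → R2) (w : Fin n → ℝ) (hmax : ∀ w', DD x w' ≤ DD x w)
    (j : Fin n) : 1 / (n : ℝ) ≤ P.real (AA x w j) := by
  have hanti : Antitone fun N : ℕ => BB x w j (1 / ((N : ℝ) + 1)) := by
    intro a b hab z hz i hij
    have h1 := hz i hij
    have h2 : 1 / ((b : ℝ) + 1) ≤ 1 / ((a : ℝ) + 1) := by
      apply one_div_le_one_div_of_le (by positivity)
      have : (a : ℝ) ≤ b := by exact_mod_cast hab
      linarith
    linarith
  have hInter : ⋂ N : ℕ, BB x w j (1 / ((N : ℝ) + 1)) ⊆ AA x w j := by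
    intro z hz i
    rw [Set.mem_iInter] at hz
    by_cases hij : i = j
    · subst hij
      exact le_rfl
    · have h1 : ∀ N : ℕ, cc x w j z - 1 / ((N : ℝ) + 1) ≤ cc x w i z := fun N =>
        (hz N i hij).le
      have h2 : Tendsto (fun N : ℕ => cc x w j z - 1 / ((N : ℝ) + 1)) atTop
          (𝓝 (cc x w j z - 0)) :=
        tendsto_const_nhds.sub tendsto_one_div_add_atTop_nhds_zero_nat
      rw [sub_zero] at h2
      exact le_of_tendsto' h2 h1
  have ht := tendsto_measure_iInter_atTop (μ := P)
    (s := fun N : ℕ => BB x w j (1 / ((N : ℝ) + 1)))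
    (fun N => (measurableSet_BB x w j _).nullMeasurableSet) hanti ⟨0, measure_ne_top _ _⟩
  have h1 : ENNReal.ofReal (1 / (n : ℝ)) ≤ P (⋂ N : ℕ, BB x w j (1 / ((N : ℝ) + 1))) := by
    apply ge_of_tendsto' ht
    intro N
    have h2 := BB_ge x w hmax j (t := 1 / ((N : ℝ) + 1)) (by positivity)
    exact (ENNReal.ofReal_le_iff_le_toReal (measure_ne_top _ _)).2 h2
  have h2 : ENNReal.ofReal (1 / (n : ℝ)) ≤ P (AA x w j) := h1.trans (measure_mono hInter)
  exact (ENNReal.ofReal_le_iff_le_toReal (measure_ne_top _ _)).1 h2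

/-- lines are null sets -/
theorem line_null (a b c : ℝ) (h : a ≠ 0 ∨ b ≠ 0) :
    volume {z : R2 | a * z.1 + b * z.2 = c} = 0 := by
  have hm : MeasurableSet {z : R2 | a * z.1 + b * z.2 = c} :=
    measurableSet_eq_fun (by fun_prop) (by fun_prop)
  rw [Measure.volume_eq_prod, Measure.measure_prod_null hm]
  by_cases hb : b = 0
  · subst hb
    have ha : a ≠ 0 := by
      rcases h with h | h
      · exact h
      · exact absurd rfl h
    have hae : ∀ᵐ s : ℝ, s ≠ c / a := by
      rw [ae_iff]
      simp
    filter_upwards [hae] with s hs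
    have : Prod.mk s ⁻¹' {z : R2 | a * z.1 + 0 * z.2 = c} = ∅ := by
      ext y
      constructor
      · intro hy
        have hy' : a * s + 0 * y = c := hy
        exact absurd (by rw [← hy']; field_simp; ring) hs
      · intro hy
        exact absurd hy (Set.notMem_empty y)
    rw [this]
    simp
  · refine Filter.Eventually.of_forall fun s => ?_
    have : Prod.mk s ⁻¹' {z : R2 | a * z.1 + b * z.2 = c} ⊆ {(c - a * s) / b} := by
      intro y hy
      have hy' : a * s + b * y = c := hy
      rw [Set.mem_singleton_iff, ← hy']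
      field_simp
      ring
    exact measure_mono_null this (by simp)

theorem eq_null (x : Fin n → R2) (w : Fin n → ℝ) {i j : Fin n} (h : x i ≠ x j) :
    P {z | cc x w i z = cc x w j z} = 0 := by
  unfold P
  refine measure_mono_null (t := {z : R2 | (2 * ((x j).1 - (x i).1)) * z.1 +
    (2 * ((x j).2 - (x i).2)) * z.2 = w i - w j + ((x j).1 ^ 2 + (x j).2 ^ 2 - (x i).1 ^ 2 -
      (x i).2 ^ 2)}) ?_ ?_
  · intro z hz
    have hz' : cc x w i z = cc x w j z := hz
    unfold cc sq at hz'
    show (2 * ((x j).1 - (x i).1)) * z.1 +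
      (2 * ((x j).2 - (x i).2)) * z.2 = w i - w j + ((x j).1 ^ 2 + (x j).2 ^ 2 - (x i).1 ^ 2 -
        (x i).2 ^ 2)
    linarith
  · apply Measure.restrict_le_self.absolutelyContinuous
    apply line_null
    by_contra hcon
    push Not at hcon
    apply h
    apply Prod.ext
    · linarith [hcon.1]
    · linarith [hcon.2]

theorem main : S_SD := by
  intro n x hn hx hinj
  have : NeZero n := ⟨by omega⟩
  obtain ⟨w, hmax⟩ := exists_max x hx
  have hex : ∀ z : R2, ∃ i : Fin n, z ∈ AA x w i ∧ ∀ k < i, z ∉ AA x w k := by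
    intro z
    obtain ⟨i0, hi0⟩ := exists_mw x w z
    have hne : ∃ i : Fin n, z ∈ AA x w i := ⟨i0, fun k => by rw [← hi0]; exact mw_le x w z k⟩
    obtain ⟨i, hi, hmin⟩ := WellFounded.has_min (wellFounded_lt (α := Fin n))
      {i | z ∈ AA x w i} hne
    exact ⟨i, hi, fun k hk hk2 => hmin k hk2 hk⟩
  choose τ hτ hτ2 using hex
  have hpre : ∀ i, τ ⁻¹' {i} = AA x w i ∩ ⋂ k, ⋂ (_ : k < i), (AA x w k)ᶜ := by
    intro i
    ext z
    constructor
    · intro hz
      have hz' : τ z = i := hz
      subst hz'
      refine ⟨hτ z, ?_⟩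
      simp only [Set.mem_iInter]
      exact fun k hk => hτ2 z k hk
    · rintro ⟨h1, h2⟩
      simp only [Set.mem_iInter] at h2
      show τ z = i
      rcases lt_trichotomy (τ z) i with h | h | h
      · exact absurd (hτ z) (h2 _ h)
      · exact h
      · exact absurd h1 (hτ2 z i h)
  have hmeas : ∀ i, MeasurableSet (τ ⁻¹' {i}) := by
    intro i
    rw [hpre]
    exact (measurableSet_AA x w i).inter
      (MeasurableSet.iInter fun k => MeasurableSet.iInter fun _ => (measurableSet_AA x w k).compl)
  have hτm : Measurable τ := measurable_to_countable' hmeas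
  have hge : ∀ i, 1 / (n : ℝ) ≤ P.real (τ ⁻¹' {i}) := by
    intro i
    refine (AA_ge x w hmax i).trans ?_
    have hsub : AA x w i ⊆ τ ⁻¹' {i} ∪ ⋃ k : {k : Fin n // k ≠ i},
        {z | cc x w i z = cc x w k z} := by
      intro z hz
      by_cases h : τ z = i
      · exact Or.inl h
      · right
        rw [Set.mem_iUnion]
        exact ⟨⟨τ z, h⟩, le_antisymm (hz (τ z)) (hτ z i)⟩
    have hnull : P (⋃ k : {k : Fin n // k ≠ i}, {z | cc x w i z = cc x w k z}) = 0 := by
      rw [measure_iUnion_null_iff]
      intro k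
      exact eq_null x w fun h => k.2 (hinj h).symm
    have h1 : P (AA x w i) ≤ P (τ ⁻¹' {i}) := by
      refine (measure_mono hsub).trans ((measure_union_le _ _).trans ?_)
      rw [hnull, add_zero]
    exact ENNReal.toReal_mono (measure_ne_top _ _) h1
  have hsum : ∑ i, P.real (τ ⁻¹' {i}) = 1 := by
    have h1 : ∑ i, P.real (τ ⁻¹' {i}) = P.real (τ ⁻¹' (univ : Finset (Fin n))) :=
      sum_measureReal_preimage_singleton univ (fun i _ => hmeas i)
    rw [h1]
    simp
  refine ⟨τ, w, hτm, fun z i => hτ z i, ?_⟩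
  intro i
  have hn' : (n : ℝ) ≠ 0 := Nat.cast_ne_zero.2 (NeZero.ne n)
  have h1 : ∑ i : Fin n, (P.real (τ ⁻¹' {i}) - 1 / (n : ℝ)) = 0 := by
    rw [sum_sub_distrib, hsum, sum_const, card_univ, Fintype.card_fin, nsmul_eq_mul,
      mul_one_div_cancel hn', sub_self]
  have h2 := (Finset.sum_eq_zero_iff_of_nonneg fun i _ => sub_nonneg.2 (hge i)).1 h1 i
    (mem_univ i)
  linarith

end Pool.Agent.N940.OT.Sd
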