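import Pool.Agent.N940.OT.Defs

/-!
# Statements of the pieces of the project OT
-/

set_option autoImplicit false

open MeasureTheory Filter Topology Finset ProbabilityTheory
open scoped ENNReal NNReal

namespace Pool.Agent.N940.OT

/-! ## Optimal transport -/

/-- existence of an optimal partition -/
def S_SD : Prop := ∀ (n : ℕ) (x : Fin n → R2), 1 ≤ n → (∀ i, x i ∈ Om) → Function.Injective x →
  ∃ (τ : R2 → Fin n) (w : Fin n → ℝ), Cells n x τ w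

/-- weak duality -/
def S_WD : Prop := ∀ (n : ℕ) (x : Fin n → R2) (φ ψ : R2 → ℝ), 1 ≤ n → (∀ i, x i ∈ Om) →
  Continuous φ → Continuous ψ → (∀ z ∈ Om, ∀ y ∈ Om, φ z + ψ y ≤ sq z y) →
  ∫ z, φ z ∂P + (∑ i, ψ (x i)) / n ≤ T n x

/-- a partition into cells of the right measure gives a coupling -/
def S_UP : Prop := ∀ (n : ℕ) (x : Fin n → R2) (τ : R2 → Fin n), 1 ≤ n → (∀ i, x i ∈ Om) →
  Measurable τ → (∀ i, P.real (τ ⁻¹' {i}) = 1 / n) → T n x ≤ ∫ z, sq z (x (τ z)) ∂P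

/-- the cost is a measurable function of the configuration, up to a null set -/
def S_MEAS : Prop := ∀ n : ℕ, 1 ≤ n → ∃ F : (Fin n → R2) → ℝ, Measurable F ∧
  (∀ x, 0 ≤ F x ∧ F x ≤ 2) ∧ ∀ x, (∀ i, x i ∈ Om) → Function.Injective x → T n x = F x

/-- random configurations are injective -/
def S_AE : Prop := ∀ n : ℕ, ∀ᵐ x ∂Pn n, (∀ i, x i ∈ Om) ∧ Function.Injective x

/-- the second potential -/
def S_EXT : Prop := ∀ (n : ℕ) (x : Fin n → R2) (τ : R2 → Fin n) (w : Fin n → ℝ) (M : ℝ), 1 ≤ n →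
  (∀ i, x i ∈ Om) → Cells n x τ w → 0 ≤ M → (∀ z ∈ Om, sq z (x (τ z)) ≤ M ^ 2) →
  Continuous (fun z => sq z (x (τ z)) - w (τ z)) ∧
  ∃ ψ : R2 → ℝ, Continuous ψ ∧
    (∀ z ∈ Om, ∀ y ∈ Om, sq z (x (τ z)) - w (τ z) + ψ y ≤ sq z y) ∧ (∀ i, ψ (x i) = w i) ∧
    ∀ y ∈ Om, ∀ y' ∈ Om, (ψ y - ψ y') ^ 2 ≤ 16 * M ^ 2 * sq y y'

/-- bound for the displacement -/
def S_DSP : Prop := ∀ (n : ℕ) (x : Fin n → R2) (τ : R2 → Fin n), 1 ≤ n → (∀ i, x i ∈ Om) →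
  Measurable τ →
  (∀ z z', sq z (x (τ z)) + sq z' (x (τ z')) ≤ sq z (x (τ z')) + sq z' (x (τ z))) →
  ∀ z ∈ Om, sq z (x (τ z)) ^ 2 ≤ 2 ^ 14 * ∫ u, sq u (x (τ u)) ∂P

/-- integration by parts for the first potential -/
def S_IBP : Prop := ∀ (n : ℕ) (x : Fin n → R2) (τ : R2 → Fin n) (w : Fin n → ℝ), 1 ≤ n →
  (∀ i, x i ∈ Om) → Cells n x τ w → ∀ k : Fq,
  lam k * ∫ z, (sq z (x (τ z)) - w (τ z)) * ee k z ∂P =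
    2 * ∫ z, gr k z (z.1 - (x (τ z)).1, z.2 - (x (τ z)).2) ∂P

/-- existence of optimal maps and potentials -/
def S_POT : Prop := ∀ (n : ℕ) (x : Fin n → R2), 1 ≤ n → (∀ i, x i ∈ Om) → Function.Injective x →
  ∃ (τ : R2 → Fin n) (φ ψ : R2 → ℝ) (M : ℝ), Pot n x τ φ ψ M

/-! ## Fourier analysis -/

/-- linearisation in the low modes -/
def S_MODE : Prop := ∀ (n : ℕ) (x : Fin n → R2) (τ : R2 → Fin n), 1 ≤ n → (∀ i, x i ∈ Om) →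
  Measurable τ → (∀ i, P.real (τ ⁻¹' {i}) = 1 / n) → ∀ k : Fq, k ≠ (0, 0) →
  |∫ z, gr k z (z.1 - (x (τ z)).1, z.2 - (x (τ z)).2) ∂P + Z n x k / Real.sqrt n| ≤
    lam k * ∫ z, sq z (x (τ z)) ∂P

/-- orthonormality of the eigenfunctions -/
def S_ON : Prop := (∀ k : Fq, ∫ z, ee k z ^ 2 ∂P = 1) ∧
  ∀ k l : Fq, k ≠ l → ∫ z, ee k z * ee l z ∂P = 0

/-- the inequality of Bessel for gradients -/
def S_BG : Prop := ∀ (G : R2 → R2) (C : ℝ) (s : Finset Fq), Measurable G →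
  (∀ z ∈ Om, |(G z).1| ≤ C ∧ |(G z).2| ≤ C) → (∀ k ∈ s, k ≠ (0, 0)) →
  ∑ k ∈ s, (∫ z, gr k z (G z) ∂P) ^ 2 / lam k ≤ ∫ z, ((G z).1 ^ 2 + (G z).2 ^ 2) ∂P

/-- completeness of the eigenfunctions -/
def S_CMP : Prop := ∀ (f : R2 → ℝ) (ε : ℝ), Continuous f → 0 < ε →
  ∃ (s : Finset Fq) (b : Fq → ℝ), ∫ z, (f z - ∑ k ∈ s, b k * ee k z) ^ 2 ∂P ≤ ε

/-- Parseval, with a gradient bound for the high modes -/
def S_PARS : Prop := ∀ (f : R2 → ℝ) (G : R2 → R2) (C : ℝ) (b : Fq → ℝ) (m : ℕ), Continuous f →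
  Measurable G → (∀ z ∈ Om, |(G z).1| ≤ C ∧ |(G z).2| ≤ C) →
  (∀ k : Fq, lam k * ∫ z, f z * ee k z ∂P = ∫ z, gr k z (G z) ∂P) → 1 ≤ m →
  ∫ z, (f z - ∫ u, f u ∂P + ∑ k ∈ Bx m, b k * ee k z) ^ 2 ∂P ≤
    ∑ k ∈ Bx m, (∫ z, f z * ee k z ∂P + b k) ^ 2 +
      (∫ z, ((G z).1 ^ 2 + (G z).2 ^ 2) ∂P) / m ^ 2

/-- the potential is close to the solution of the equation of Poisson -/
def S_FOU : Prop := ∃ C : ℝ, 0 < C ∧ ∀ (n K m : ℕ) (x : Fin n → R2) (τ : R2 → Fin n)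
  (φ ψ : R2 → ℝ) (M : ℝ), 1 ≤ n → 1 ≤ K → K ≤ m → (∀ i, x i ∈ Om) → Pot n x τ φ ψ M →
  n * ∫ z, (φ z - ∫ u, φ u ∂P +
      2 / Real.sqrt n * ∑ k ∈ Bx K, Z n x k / lam k * ee k z) ^ 2 ∂P ≤
    C * (∑ k ∈ Bx m \ Bx K, Z n x k ^ 2 / lam k ^ 2 + n * m ^ 2 * T n x ^ 2 +
      n * T n x / m ^ 2)

/-- the deterministic error -/
noncomputable def rhs (n K m : ℕ) (x : Fin n → R2) : ℝ :=
  ∑ k ∈ Bx m \ Bx K, Z n x k ^ 2 / lam k ^ 2 + n * m ^ 2 * T n x ^ 2 + n * T n x / m ^ 2 +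
    n * Real.sqrt (T n x) * T n x + K ^ 2 * (∑ k ∈ Bx K, Z n x k ^ 2) * T n x + K ^ 4 / n

/-- the deterministic inequality -/
def S_DET : Prop := ∃ C : ℝ, 0 < C ∧ ∀ (n K m : ℕ) (x : Fin n → R2) (τ : R2 → Fin n)
  (φ ψ : R2 → ℝ) (M : ℝ), 1 ≤ n → 1 ≤ K → K ≤ m → (∀ i, x i ∈ Om) → Pot n x τ φ ψ M →
  ∑ i, ∫ y, (ψ y - ψ (x i) - (Q n K (Function.update x i y) - Q n K x)) ^ 2 ∂P ≤
    C * rhs n K m x

/-! ## Probability -/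

/-- the inequality of Efron and Stein -/
def S_ES : Prop := ∀ (n : ℕ) (F : (Fin n → R2) → ℝ) (C : ℝ), Measurable F → (∀ x, |F x| ≤ C) →
  ∫ x, (F x - ∫ u, F u ∂Pn n) ^ 2 ∂Pn n ≤
    1 / 2 * ∑ i, ∫ x, ∫ y, (F (Function.update x i y) - F x) ^ 2 ∂P ∂Pn n

/-- second moments of the Fourier coefficients -/
def S_Z2 : Prop := ∀ (n : ℕ) (k : Fq), 1 ≤ n → k ≠ (0, 0) →
  Integrable (fun x => Z n x k ^ 2) (Pn n) ∧ ∫ x, Z n x k ^ 2 ∂Pn n = 1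

/-- fourth moments of the Fourier coefficients -/
def S_Z4 : Prop := ∀ K : ℕ, ∃ C : ℝ, ∀ n : ℕ, 1 ≤ n →
  ∫ x, (∑ k ∈ Bx K, Z n x k ^ 2) ^ 2 ∂Pn n ≤ C

/-- second moment of the cost -/
def S_T2 : Prop := ∃ C : ℝ, ∀ n : ℕ, 1 ≤ n →
  ∫ x, T n x ^ 2 ∂Pn n ≤ C * (n : ℝ) ^ (-(7 / 4) : ℝ)

/-- the variance bound -/
def S_VAR : Prop := ∃ C : ℝ, 0 < C ∧ ∀ n K m : ℕ, 1 ≤ n → 1 ≤ K → K ≤ m →
  ∫ x, (n * (T n x - ∫ u, T n u ∂Pn n) - Q n K x) ^ 2 ∂Pn n ≤ C * ∫ x, rhs n K m x ∂Pn n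

/-- approximation by finitely many modes -/
def S_APP : Prop := ∀ ε : ℝ, 0 < ε → ∃ K₀ : ℕ, ∀ K : ℕ, K₀ ≤ K → ∀ᶠ n : ℕ in atTop,
  ∫ x, (n * (T n x - ∫ u, T n u ∂Pn n) - Q n K x) ^ 2 ∂Pn n ≤ ε

/-- independent standard normal variables indexed by the frequencies -/
noncomputable def Ga : Measure (Fq → ℝ) := Measure.infinitePi fun _ => gaussianReal 0 1

/-- the limit of `Q n K` -/
noncomputable def Xi (K : ℕ) (g : Fq → ℝ) : ℝ := ∑ k ∈ Bx K, (g k ^ 2 - 1) / lam k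

/-- central limit theorem for finitely many modes -/
def S_CLT : Prop := ∀ (K : ℕ) (t : ℝ), Tendsto (fun n : ℕ =>
    ∫ x, Complex.exp (Complex.I * ((t * Q n K x : ℝ) : ℂ)) ∂Pn n) atTop
  (𝓝 (∫ g, Complex.exp (Complex.I * ((t * Xi K g : ℝ) : ℂ)) ∂Ga))

/-- existence of the limit variable -/
def S_XI : Prop := ∃ ξ : (Fq → ℝ) → ℝ, Measurable ξ ∧ MemLp ξ 2 Ga ∧ ∫ g, ξ g ∂Ga = 0 ∧
  Tendsto (fun K : ℕ => ∫ g, (Xi K g - ξ g) ^ 2 ∂Ga) atTop (𝓝 0)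

/-! ## The dyadic bound for the cost -/

/-- dyadic rectangles -/
def cell (p q a b : ℕ) : Set R2 :=
  Set.Ico ((a : ℝ) / 2 ^ p) ((a + 1) / 2 ^ p) ×ˢ Set.Ico ((b : ℝ) / 2 ^ q) ((b + 1) / 2 ^ q)

/-- number of points in a dyadic rectangle -/
noncomputable def cnt (n : ℕ) (x : Fin n → R2) (p q a b : ℕ) : ℝ :=
  ∑ i, Set.indicator (cell p q a b) (fun _ => (1 : ℝ)) (x i)

/-- the empirical measure averaged over the dyadic rectangles -/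
noncomputable def PM (n : ℕ) (x : Fin n → R2) (p q : ℕ) : Measure R2 :=
  ∑ a ∈ range (2 ^ p), ∑ b ∈ range (2 ^ q),
    ENNReal.ofReal (cnt n x p q a b / n * 2 ^ (p + q)) • volume.restrict (cell p q a b)

/-- bound for the cost of a horizontal refinement -/
noncomputable def SX (n : ℕ) (x : Fin n → R2) (p q : ℕ) : ℝ :=
  ∑ a ∈ range (2 ^ p), ∑ b ∈ range (2 ^ q), (1 / 4) ^ p / n *
    ((cnt n x (p + 1) q (2 * a) b - cnt n x p q a b / 2) ^ 2 / cnt n x p q a b)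

/-- bound for the cost of a vertical refinement -/
noncomputable def SY (n : ℕ) (x : Fin n → R2) (p q : ℕ) : ℝ :=
  ∑ a ∈ range (2 ^ p), ∑ b ∈ range (2 ^ q), (1 / 4) ^ q / n *
    ((cnt n x p (q + 1) a (2 * b) - cnt n x p q a b / 2) ^ 2 / cnt n x p q a b)

/-- one refinement -/
def S_STEP : Prop := ∀ (n : ℕ) (x : Fin n → R2) (p q : ℕ), 1 ≤ n →
  (∀ i, x i ∈ Set.Ico (0 : ℝ) 1 ×ˢ Set.Ico (0 : ℝ) 1) →
  (∃ s : R2 → R2, Measurable s ∧ Measure.map s (PM n x p q) = PM n x (p + 1) q ∧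
    (∀ z ∈ Set.Ico (0 : ℝ) 1 ×ˢ Set.Ico (0 : ℝ) 1,
      s z ∈ Set.Ico (0 : ℝ) 1 ×ˢ Set.Ico (0 : ℝ) 1) ∧
    ∫ z, sq (s z) z ∂PM n x p q ≤ SX n x p q) ∧
  (∃ s : R2 → R2, Measurable s ∧ Measure.map s (PM n x p q) = PM n x p (q + 1) ∧
    (∀ z ∈ Set.Ico (0 : ℝ) 1 ×ˢ Set.Ico (0 : ℝ) 1,
      s z ∈ Set.Ico (0 : ℝ) 1 ×ˢ Set.Ico (0 : ℝ) 1) ∧
    ∫ z, sq (s z) z ∂PM n x p q ≤ SY n x p q)

/-- the dyadic bound -/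
def S_DY : Prop := ∀ (n : ℕ) (x : Fin n → R2) (J : ℕ), 1 ≤ n →
  (∀ i, x i ∈ Set.Ico (0 : ℝ) 1 ×ˢ Set.Ico (0 : ℝ) 1) →
  Real.sqrt (T n x) ≤ ∑ j ∈ range J, (Real.sqrt (SX n x j j) + Real.sqrt (SY n x (j + 1) j)) +
    2 / 2 ^ J

/-- moments of the costs of the refinements -/
def S_SM : Prop := ∃ C : ℝ, ∀ n j : ℕ, 1 ≤ n → ∫ x, SX n x j j ^ 2 ∂Pn n ≤ C / n ^ 2 ∧
  ∫ x, SY n x (j + 1) j ^ 2 ∂Pn n ≤ C / n ^ 2

end Pool.Agent.N940.OT
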